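import Pool.Agent.MP_417fa2_gt.An.DenseEa
import Pool.Agent.MP_417fa2_gt.Flow.Gal

-- ======== part 0: formerly Pool.Agent.MP_417fa2_gt.An.Frame
section MrgPart0

-- ======== part 0: formerly Pool.Agent.MP_417fa2_gt.SetupBasic
section MrgPart0

/-! Basic facts on a `Setup`: the measure, and smoothness, linearity, symmetry of `L`, `B`, `P`. -/

open scoped Manifold ContDiff Topology
open MeasureTheory Set Filter

namespace Pool.Agent.MP_417fa2_gt

universe u

section Dop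

variable {ρ φ ψ : E4 → ℝ} {A : Fin 4 → Fin 4 → E4 → ℝ} {U : Set E4} {y : E4}

theorem cdOn_flux (hU : IsOpen U) (hρ : ContDiffOn ℝ ∞ ρ U) (hA : ∀ a b, ContDiffOn ℝ ∞ (A a b) U)
    (hφ : ContDiffOn ℝ ∞ φ U) (a : Fin 4) :
    ContDiffOn ℝ ∞ (fun z => ρ z * ∑ b, A a b z * pd b φ z) U :=
  hρ.mul (ContDiffOn.sum fun b _ => (hA a b).mul (cdOn_pd hU hφ b))

theorem cdOn_dop (hU : IsOpen U) (hρ : ContDiffOn ℝ ∞ ρ U) (h0 : ∀ y ∈ U, 0 < ρ y)
    (hA : ∀ a b, ContDiffOn ℝ ∞ (A a b) U) (hφ : ContDiffOn ℝ ∞ φ U) :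
    ContDiffOn ℝ ∞ (dop ρ A φ) U :=
  (hρ.inv fun y hy => (h0 y hy).ne').mul
    (ContDiffOn.sum fun a _ => cdOn_pd hU (cdOn_flux hU hρ hA hφ a) a)

theorem dop_congr_on (hU : IsOpen U) (h : EqOn φ ψ U) : EqOn (dop ρ A φ) (dop ρ A ψ) U := by
  intro y hy
  unfold dop
  congr 1
  refine Finset.sum_congr rfl fun a _ => pd_congr_on hU (fun z hz => ?_) a hy
  simp only [fun b => pd_congr_on hU h b hz]

theorem dop_const (c : ℝ) (y : E4) : dop ρ A (fun _ => c) y = 0 := by
  simp [dop, pd_const]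

theorem dop_add (hU : IsOpen U) (hρ : ContDiffOn ℝ ∞ ρ U) (hA : ∀ a b, ContDiffOn ℝ ∞ (A a b) U)
    (hφ : ContDiffOn ℝ ∞ φ U) (hψ : ContDiffOn ℝ ∞ ψ U) (hy : y ∈ U) :
    dop ρ A (fun z => φ z + ψ z) y = dop ρ A φ y + dop ρ A ψ y := by
  unfold dop
  rw [← mul_add, ← Finset.sum_add_distrib]
  congr 1
  refine Finset.sum_congr rfl fun a _ => ?_
  rw [← pd_add (dAt_of_cdOn hU (cdOn_flux hU hρ hA hφ a) hy)
    (dAt_of_cdOn hU (cdOn_flux hU hρ hA hψ a) hy)]
  refine pd_congr_on hU (fun z hz => ?_) a hy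
  simp only [pd_add (dAt_of_cdOn hU hφ hz) (dAt_of_cdOn hU hψ hz), mul_add, Finset.sum_add_distrib]

theorem dop_const_mul (hU : IsOpen U) (hρ : ContDiffOn ℝ ∞ ρ U)
    (hA : ∀ a b, ContDiffOn ℝ ∞ (A a b) U) (hφ : ContDiffOn ℝ ∞ φ U) (c : ℝ) (hy : y ∈ U) :
    dop ρ A (fun z => c * φ z) y = c * dop ρ A φ y := by
  unfold dop
  rw [mul_left_comm, Finset.mul_sum Finset.univ _ c]
  congr 1
  refine Finset.sum_congr rfl fun a _ => ?_
  rw [← pd_const_mul (dAt_of_cdOn hU (cdOn_flux hU hρ hA hφ a) hy)]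
  refine pd_congr_on hU (fun z hz => ?_) a hy
  simp only [pd_const_mul (dAt_of_cdOn hU hφ hz), Finset.mul_sum]
  exact Finset.sum_congr rfl fun b _ => by ring

/-- Integration by parts for a divergence form operator. -/
theorem integral_mul_dop {K : Set E4} (hU : IsOpen U) (hK : IsCompact K) (hKU : K ⊆ U)
    (hρ : ContDiffOn ℝ ∞ ρ U) (h0 : ∀ y ∈ U, 0 < ρ y) (hA : ∀ a b, ContDiffOn ℝ ∞ (A a b) U)
    (hφ : ContDiffOn ℝ ∞ φ U) (hψ : ContDiffOn ℝ ∞ ψ U) (hψ0 : ∀ y ∈ U, y ∉ K → ψ y = 0) :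
    ∫ y in U, ψ y * dop ρ A φ y * ρ y =
      -∫ y in U, ρ y * ∑ a, ∑ b, A a b y * pd a ψ y * pd b φ y := by
  have h1 : ∀ y ∈ U, ψ y * dop ρ A φ y * ρ y =
      ∑ a, ψ y * pd a (fun z => ρ z * ∑ b, A a b z * pd b φ z) y := by
    intro y hy
    rw [← Finset.mul_sum, dop]
    field_simp [(h0 y hy).ne']
  rw [setIntegral_congr_fun hU.measurableSet h1, integral_finsetSum]
  · simp only [fun a => integral_mul_pd hU hK hKU hψ (cdOn_flux hU hρ hA hφ a) hψ0 a]
    rw [Finset.sum_neg_distrib, ← integral_finsetSum]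
    · congr 2
      funext y
      simp only [Finset.mul_sum]
      exact Finset.sum_congr rfl fun a _ => Finset.sum_congr rfl fun b _ => by ring
    · exact fun a _ => integrableOn_of_compact hU hK hKU
        ((cdOn_pd hU hψ a).mul (cdOn_flux hU hρ hA hφ a)).continuousOn
        fun y hy hy' => by simp [pd_eq_zero_off hU hK.isClosed hψ0 a y hy hy']
  · exact fun a _ => integrableOn_of_compact hU hK hKU
      (hψ.mul (cdOn_pd hU (cdOn_flux hU hρ hA hφ a) a)).continuousOn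
      fun y hy hy' => by simp [hψ0 y hy hy']

/-- The other integration by parts: the operator acts on the compactly supported factor. -/
theorem integral_mul_dop' {K : Set E4} (hU : IsOpen U) (hK : IsCompact K) (hKU : K ⊆ U)
    (hρ : ContDiffOn ℝ ∞ ρ U) (h0 : ∀ y ∈ U, 0 < ρ y) (hA : ∀ a b, ContDiffOn ℝ ∞ (A a b) U)
    (hφ : ContDiffOn ℝ ∞ φ U) (hψ : ContDiffOn ℝ ∞ ψ U) (hψ0 : ∀ y ∈ U, y ∉ K → ψ y = 0) :
    ∫ y in U, φ y * dop ρ A ψ y * ρ y =
      -∫ y in U, ρ y * ∑ a, ∑ b, A a b y * pd a φ y * pd b ψ y := by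
  have hf0 : ∀ a, ∀ y ∈ U, y ∉ K → ρ y * ∑ b, A a b y * pd b ψ y = 0 := fun a y hy hy' => by
    simp [fun b => pd_eq_zero_off hU hK.isClosed hψ0 b y hy hy']
  have h1 : ∀ y ∈ U, φ y * dop ρ A ψ y * ρ y =
      ∑ a, pd a (fun z => ρ z * ∑ b, A a b z * pd b ψ z) y * φ y := by
    intro y hy
    rw [← Finset.sum_mul, dop]
    field_simp [(h0 y hy).ne']
  rw [setIntegral_congr_fun hU.measurableSet h1, integral_finsetSum]
  · have h2 := fun a => integral_mul_pd hU hK hKU (cdOn_flux hU hρ hA hψ a) hφ (hf0 a) a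
    simp only [fun a => neg_eq_iff_eq_neg.1 (h2 a).symm]
    rw [Finset.sum_neg_distrib, ← integral_finsetSum]
    · congr 2
      funext y
      simp only [Finset.mul_sum, Finset.sum_mul]
      exact Finset.sum_congr rfl fun a _ => Finset.sum_congr rfl fun b _ => by ring
    · exact fun a _ => integrableOn_of_compact hU hK hKU
        ((cdOn_flux hU hρ hA hψ a).mul (cdOn_pd hU hφ a)).continuousOn
        fun y hy hy' => by simp only [hf0 a y hy hy', zero_mul]
  · exact fun a _ => integrableOn_of_compact hU hK hKU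
      ((cdOn_pd hU (cdOn_flux hU hρ hA hψ a) a).mul hφ).continuousOn
      fun y hy hy' => by simp only [pd_eq_zero_off hU hK.isClosed (hf0 a) a y hy hy', zero_mul]

end Dop

variable {M : Type u} [TopologicalSpace M] [ChartedSpace E4 M]

theorem isCompact_chart_image {x₀ : M} {K : Set M} (hK : IsCompact K)
    (h : K ⊆ (chartAt E4 x₀).source) : IsCompact (chartAt E4 x₀ '' K) :=
  hK.image_of_continuousOn ((chartAt E4 x₀).continuousOn.mono h)

theorem chart_image_subset {x₀ : M} {K : Set M} (h : K ⊆ (chartAt E4 x₀).source) :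
    chartAt E4 x₀ '' K ⊆ (chartAt E4 x₀).target := by
  rintro _ ⟨x, hx, rfl⟩
  exact chart_mem (h hx)

theorem comp_param_eq_zero {x₀ : M} {ψ : M → ℝ} :
    ∀ y ∈ (chartAt E4 x₀).target, y ∉ chartAt E4 x₀ '' tsupport ψ → (ψ ∘ param x₀) y = 0 :=
  fun _ hy hy' => image_eq_zero_of_notMem_tsupport (f := ψ) fun h => hy' ⟨_, h, chart_param hy⟩

variable [MeasurableSpace M]

/-- A measure given by a density in the chart at `x₀`, restricted to that chart. -/
theorem restrict_eq_map [BorelSpace M] {μ : Measure M} {x₀ : M} {ρ : E4 → ENNReal}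
    (h : ∀ s : Set M, MeasurableSet s → s ⊆ (chartAt E4 x₀).source →
      μ s = ∫⁻ y in chartAt E4 x₀ '' s, ρ y) :
    μ.restrict (chartAt E4 x₀).source =
      Measure.map (param x₀) ((volume.restrict (chartAt E4 x₀).target).withDensity ρ) := by
  have hm : AEMeasurable (param x₀) ((volume.restrict (chartAt E4 x₀).target).withDensity ρ) :=
    ((continuousOn_param x₀).aemeasurable (isOpen_tgt x₀).measurableSet).mono_ac
      (withDensity_absolutelyContinuous _ _)
  ext s hs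
  rw [Measure.restrict_apply hs, h _ (hs.inter (isOpen_src x₀).measurableSet) inter_subset_right,
    Measure.map_apply_of_aemeasurable hm hs, withDensity_apply',
    Measure.restrict_restrict' (isOpen_tgt x₀).measurableSet]
  congr 2
  ext y
  constructor
  · rintro ⟨x, hx, rfl⟩
    exact ⟨by simpa [param_chart hx.2] using hx.1, chart_mem hx.2⟩
  · exact fun hy => ⟨param x₀ y, ⟨hy.1, param_mem hy.2⟩, chart_param hy.2⟩

namespace Setup

variable (S : Setup M)

theorem lintegral_chart [BorelSpace M] (x₀ : M) {f : M → ENNReal} (hf : Measurable f) :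
    ∫⁻ x in (chartAt E4 x₀).source, f x ∂S.μ =
      ∫⁻ y in (chartAt E4 x₀).target, f (param x₀ y) * ENNReal.ofReal (S.ρ x₀ y) := by
  have hp := (continuousOn_param x₀).aemeasurable (μ := (volume : Measure E4))
    (isOpen_tgt x₀).measurableSet
  have hρ : AEMeasurable (fun y => ENNReal.ofReal (S.ρ x₀ y))
      (volume.restrict (chartAt E4 x₀).target) :=
    ((S.ρ_sm x₀).continuousOn.aemeasurable (isOpen_tgt x₀).measurableSet).ennreal_ofReal
  rw [restrict_eq_map (S.μ_loc x₀), lintegral_map' hf.aemeasurable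
    (hp.mono_ac (withDensity_absolutelyContinuous _ _))]
  refine (lintegral_withDensity_eq_lintegral_mul₀ hρ (hf.comp_aemeasurable hp)).trans ?_
  simp only [Pi.mul_apply, Function.comp, mul_comm]

/-- The integral over a chart domain, in coordinates. -/
theorem setIntegral_chart [BorelSpace M] (x₀ : M) {f : M → ℝ} (hf : Measurable f) :
    ∫ x in (chartAt E4 x₀).source, f x ∂S.μ =
      ∫ y in (chartAt E4 x₀).target, f (param x₀ y) * S.ρ x₀ y := by
  have hp := (continuousOn_param x₀).aemeasurable (μ := (volume : Measure E4))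
    (isOpen_tgt x₀).measurableSet
  have hρ : AEMeasurable (fun y => (S.ρ x₀ y).toNNReal) (volume.restrict (chartAt E4 x₀).target) :=
    ((S.ρ_sm x₀).continuousOn.aemeasurable (isOpen_tgt x₀).measurableSet).real_toNNReal
  rw [restrict_eq_map (S.μ_loc x₀), integral_map
    (hp.mono_ac (withDensity_absolutelyContinuous _ _)) hf.aestronglyMeasurable]
  refine (integral_withDensity_eq_integral_smul₀ hρ _).trans
    (setIntegral_congr_fun (isOpen_tgt x₀).measurableSet fun y hy => ?_)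
  simp only [NNReal.smul_def, Real.coe_toNNReal _ (S.ρ_pos x₀ y hy).le, smul_eq_mul, mul_comm]

/-- The integral of a function supported in a chart domain, in coordinates. -/
theorem integral_chart [BorelSpace M] (x₀ : M) {f : M → ℝ} (hf : Measurable f)
    (h0 : ∀ x, x ∉ (chartAt E4 x₀).source → f x = 0) :
    ∫ x, f x ∂S.μ = ∫ y in (chartAt E4 x₀).target, f (param x₀ y) * S.ρ x₀ y := by
  rw [← S.setIntegral_chart x₀ hf, setIntegral_eq_integral_of_forall_compl_eq_zero h0]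

theorem measure_compact_lt_top [T2Space M] [BorelSpace M] {x₀ : M} {K : Set M} (hK : IsCompact K)
    (h : K ⊆ (chartAt E4 x₀).source) : S.μ K < ⊤ := by
  rw [S.μ_loc x₀ K hK.measurableSet h]
  exact (((S.ρ_sm x₀).continuousOn.mono (chart_image_subset h)).integrableOn_compact
    (isCompact_chart_image hK h)).lintegral_lt_top

instance finite [T2Space M] [CompactSpace M] [BorelSpace M] : IsFiniteMeasure S.μ := by
  have : LocallyCompactSpace M := ChartedSpace.locallyCompactSpace E4 M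
  have : IsLocallyFiniteMeasure S.μ := ⟨fun x => by
    obtain ⟨K, hK, hKs, hKc⟩ := local_compact_nhds ((isOpen_src x).mem_nhds (mem_chart_source E4 x))
    exact ⟨K, hK, S.measure_compact_lt_top hKc hKs⟩⟩
  infer_instance

instance openPos [BorelSpace M] : S.μ.IsOpenPosMeasure := by
  refine ⟨fun V hV ⟨x, hx⟩ h0 => ?_⟩
  have ho := hV.inter (isOpen_src x)
  have h1 := S.μ_loc x _ ho.measurableSet inter_subset_right
  rw [measure_mono_null inter_subset_left h0] at h1
  have ho' : IsOpen (chartAt E4 x '' (V ∩ (chartAt E4 x).source)) :=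
    (chartAt E4 x).isOpen_image_of_subset_source ho inter_subset_right
  have hs := chart_image_subset (x₀ := x) (inter_subset_right (s := V))
  have hρ : AEMeasurable (fun y => ENNReal.ofReal (S.ρ x y))
      (volume.restrict (chartAt E4 x '' (V ∩ (chartAt E4 x).source))) :=
    (((S.ρ_sm x).continuousOn.mono hs).aemeasurable ho'.measurableSet).ennreal_ofReal
  have h2 := (lintegral_eq_zero_iff' hρ).1 h1.symm
  rw [EventuallyEq, ae_restrict_iff' ho'.measurableSet] at h2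
  refine (ho'.measure_pos volume ⟨_, x, ⟨hx, mem_chart_source E4 x⟩, rfl⟩).ne'
    (measure_mono_null (fun y hy => ?_) (ae_iff.1 h2))
  exact fun h => (ENNReal.ofReal_pos.2 (S.ρ_pos x y (hs hy))).ne' (h hy)

theorem integrable [T2Space M] [CompactSpace M] [BorelSpace M] {f : M → ℝ} (hf : Continuous f) :
    Integrable f S.μ := hf.integrable_of_hasCompactSupport (HasCompactSupport.of_compactSpace f)

/-- An operator on functions on `M` that is of divergence form in every chart. -/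
structure Op (T : (M → ℝ) → M → ℝ) (A : M → Fin 4 → Fin 4 → E4 → ℝ) : Prop where
  sm : ∀ x₀ a b, ContDiffOn ℝ ∞ (A x₀ a b) (chartAt E4 x₀).target
  symm : ∀ x₀ a b, ∀ y ∈ (chartAt E4 x₀).target, A x₀ a b y = A x₀ b a y
  loc : ∀ φ, Smooth φ → ∀ x₀, ∀ y ∈ (chartAt E4 x₀).target,
    T φ (param x₀ y) = dop (S.ρ x₀) (A x₀) (φ ∘ param x₀) y

theorem opL : S.Op S.L S.G := ⟨S.G_sm, S.G_symm, S.L_loc⟩

theorem opB : S.Op S.B S.A := ⟨S.A_sm, S.A_symm, S.B_loc⟩

variable {S} {T : (M → ℝ) → M → ℝ} {A : M → Fin 4 → Fin 4 → E4 → ℝ} {φ ψ : M → ℝ}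

theorem Op.loc_self (h : S.Op T A) (hφ : Smooth φ) (x : M) :
    T φ x = dop (S.ρ x) (A x) (φ ∘ param x) (chartAt E4 x x) := by
  rw [← h.loc φ hφ x _ (mem_chart_target E4 x), param_chart_self]

theorem Op.const (h : S.Op T A) (c : ℝ) (x : M) : T (fun _ => c) x = 0 := by
  rw [h.loc_self (smooth_const c)]; exact dop_const c _

/-- Locality: the operator vanishes off the support. -/
theorem Op.eq_zero_of_notMem (h : S.Op T A) (hφ : Smooth φ) {x : M} (hx : x ∉ tsupport φ) :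
    T φ x = 0 := by
  have hU : IsOpen ((chartAt E4 x).target ∩ param x ⁻¹' (tsupport φ)ᶜ) :=
    (continuousOn_param x).isOpen_inter_preimage (isOpen_tgt x) (isClosed_tsupport φ).isOpen_compl
  rw [h.loc_self hφ, dop_congr_on (φ := φ ∘ param x) (ψ := fun _ => 0) hU
    (fun y hy => image_eq_zero_of_notMem_tsupport (f := φ) hy.2)
    ⟨mem_chart_target E4 x, by simpa [param_chart_self] using hx⟩, dop_const]

variable [IsManifold (𝓡 4) ∞ M]

theorem Op.smooth (h : S.Op T A) (hφ : Smooth φ) : Smooth (T φ) :=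
  smooth_of_cdOn fun x₀ => (cdOn_dop (isOpen_tgt x₀) (S.ρ_sm x₀) (S.ρ_pos x₀) (h.sm x₀)
    (hφ.cdOn x₀)).congr fun y hy => h.loc φ hφ x₀ y hy

theorem Op.add (h : S.Op T A) (hφ : Smooth φ) (hψ : Smooth ψ) :
    T (fun z => φ z + ψ z) = fun x => T φ x + T ψ x := by
  funext x
  rw [h.loc_self (hφ.add hψ), h.loc_self hφ, h.loc_self hψ]
  exact dop_add (isOpen_tgt x) (S.ρ_sm x) (h.sm x) (hφ.cdOn x) (hψ.cdOn x) (mem_chart_target E4 x)

theorem Op.const_mul (h : S.Op T A) (hφ : Smooth φ) (c : ℝ) :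
    T (fun z => c * φ z) = fun x => c * T φ x := by
  funext x
  rw [h.loc_self (hφ.const_mul c), h.loc_self hφ]
  exact dop_const_mul (isOpen_tgt x) (S.ρ_sm x) (h.sm x) (hφ.cdOn x) c (mem_chart_target E4 x)

theorem Op.sub (h : S.Op T A) (hφ : Smooth φ) (hψ : Smooth ψ) :
    T (fun z => φ z - ψ z) = fun x => T φ x - T ψ x := by
  have h1 := h.add hφ (hψ.const_mul (-1))
  rw [h.const_mul hψ] at h1
  simpa [sub_eq_add_neg] using h1

theorem Op.sum (h : S.Op T A) {ι : Type*} (s : Finset ι) {F : ι → M → ℝ}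
    (hF : ∀ j, Smooth (F j)) : T (fun z => ∑ j ∈ s, F j z) = fun x => ∑ j ∈ s, T (F j) x := by
  classical
  induction s using Finset.induction_on with
  | empty => funext x; simpa using h.const 0 x
  | insert a s ha ih =>
    simp only [Finset.sum_insert ha]
    rw [h.add (hF a) (Smooth.sum fun j _ => hF j), ih]

variable [T2Space M] [CompactSpace M] [BorelSpace M]

omit [T2Space M] in
/-- Weak form in a chart, the test function being supported in the chart. -/
theorem Op.integral_chart (h : S.Op T A) (hφ : Smooth φ) (hψ : Smooth ψ) {x₀ : M}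
    (hs : tsupport ψ ⊆ (chartAt E4 x₀).source) :
    ∫ x, ψ x * T φ x ∂S.μ = -∫ y in (chartAt E4 x₀).target, S.ρ x₀ y *
      ∑ a, ∑ b, A x₀ a b y * pd a (ψ ∘ param x₀) y * pd b (φ ∘ param x₀) y := by
  have hK : IsCompact (tsupport ψ) := (isClosed_tsupport ψ).isCompact
  rw [S.integral_chart x₀ (hψ.mul (h.smooth hφ)).continuous.measurable
    (fun x hx => by simp [image_eq_zero_of_notMem_tsupport fun h' => hx (hs h')]),
    ← integral_mul_dop (isOpen_tgt x₀) (isCompact_chart_image hK hs) (chart_image_subset hs)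
      (S.ρ_sm x₀) (S.ρ_pos x₀) (h.sm x₀) (hφ.cdOn x₀) (hψ.cdOn x₀) comp_param_eq_zero]
  exact setIntegral_congr_fun (isOpen_tgt x₀).measurableSet fun y hy => by
    simp only [h.loc φ hφ x₀ y hy, Function.comp]

omit [T2Space M] in
/-- Weak form in a chart, the operator acting on the function supported in the chart. -/
theorem Op.integral_chart' (h : S.Op T A) (hφ : Smooth φ) (hψ : Smooth ψ) {x₀ : M}
    (hs : tsupport ψ ⊆ (chartAt E4 x₀).source) :
    ∫ x, φ x * T ψ x ∂S.μ = -∫ y in (chartAt E4 x₀).target, S.ρ x₀ y *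
      ∑ a, ∑ b, A x₀ a b y * pd a (φ ∘ param x₀) y * pd b (ψ ∘ param x₀) y := by
  have hK : IsCompact (tsupport ψ) := (isClosed_tsupport ψ).isCompact
  rw [S.integral_chart x₀ (hφ.mul (h.smooth hψ)).continuous.measurable
    (fun x hx => by simp [h.eq_zero_of_notMem hψ fun h' => hx (hs h')]),
    ← integral_mul_dop' (isOpen_tgt x₀) (isCompact_chart_image hK hs) (chart_image_subset hs)
      (S.ρ_sm x₀) (S.ρ_pos x₀) (h.sm x₀) (hφ.cdOn x₀) (hψ.cdOn x₀) comp_param_eq_zero]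
  exact setIntegral_congr_fun (isOpen_tgt x₀).measurableSet fun y hy => by
    simp only [h.loc ψ hψ x₀ y hy, Function.comp]

theorem Op.symm_integral (h : S.Op T A) (hφ : Smooth φ) (hψ : Smooth ψ) :
    ∫ x, ψ x * T φ x ∂S.μ = ∫ x, φ x * T ψ x ∂S.μ := by
  obtain ⟨s, θ, hθ, hs, -, h1⟩ := exists_sq_partition (fun x : M => (chartAt E4 x).source)
    fun x => (isOpen_src x).mem_nhds (mem_chart_source E4 x)
  have hsm : ∀ j, Smooth fun x => θ j x ^ 2 * ψ x := fun j => ((hθ j).pow 2).mul hψ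
  have hsup : ∀ j, tsupport (fun x => θ j x ^ 2 * ψ x) ⊆ (chartAt E4 j).source := fun j =>
    (closure_mono (s := Function.support fun x => θ j x ^ 2 * ψ x) (t := Function.support (θ j))
      fun x hx h0 => hx (by simp [h0])).trans (hs j)
  have e : ψ = fun x => ∑ j ∈ s, θ j x ^ 2 * ψ x := by
    funext x; rw [← Finset.sum_mul, h1, one_mul]
  rw [e, h.sum s hsm]
  simp only [Finset.sum_mul, Finset.mul_sum]
  rw [integral_finsetSum _ fun j _ => S.integrable ((hsm j).mul (h.smooth hφ)).continuous,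
    integral_finsetSum _ fun j _ => S.integrable (hφ.mul (h.smooth (hsm j))).continuous]
  refine Finset.sum_congr rfl fun j _ => ?_
  rw [h.integral_chart hφ (hsm j) (hsup j), h.integral_chart' hφ (hsm j) (hsup j)]
  congr 1
  refine setIntegral_congr_fun (isOpen_tgt j).measurableSet fun y hy => ?_
  beta_reduce
  rw [Finset.sum_comm]
  congr 1
  exact Finset.sum_congr rfl fun a _ => Finset.sum_congr rfl fun b _ => by
    rw [h.symm j b a y hy]; ring

theorem Op.integral_eq_zero (h : S.Op T A) (hφ : Smooth φ) : ∫ x, T φ x ∂S.μ = 0 := by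
  simpa [h.const] using h.symm_integral hφ (smooth_const 1)

variable (S)

omit [T2Space M] [CompactSpace M] [BorelSpace M] in
theorem P_smooth (hφ : Smooth φ) : Smooth (S.P φ) :=
  (S.opL.smooth (S.opL.smooth hφ)).add (S.opB.smooth hφ)

omit [IsManifold (𝓡 4) ∞ M] [T2Space M] [CompactSpace M] [BorelSpace M] in
theorem P_const (c : ℝ) (x : M) : S.P (fun _ => c) x = 0 := by
  have : S.L (fun _ => c) = fun _ => 0 := funext fun x => S.opL.const c x
  simp [P, this, S.opL.const, S.opB.const]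

omit [T2Space M] [CompactSpace M] [BorelSpace M] in
theorem P_add (hφ : Smooth φ) (hψ : Smooth ψ) :
    S.P (fun z => φ z + ψ z) = fun x => S.P φ x + S.P ψ x := by
  funext x
  simp only [P, S.opL.add hφ hψ, S.opB.add hφ hψ, S.opL.add (S.opL.smooth hφ) (S.opL.smooth hψ)]
  ring

omit [T2Space M] [CompactSpace M] [BorelSpace M] in
theorem P_const_mul (hφ : Smooth φ) (c : ℝ) : S.P (fun z => c * φ z) = fun x => c * S.P φ x := by
  funext x
  simp only [P, S.opL.const_mul hφ, S.opB.const_mul hφ, S.opL.const_mul (S.opL.smooth hφ)]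
  ring

omit [T2Space M] [CompactSpace M] [BorelSpace M] in
theorem P_sub (hφ : Smooth φ) (hψ : Smooth ψ) :
    S.P (fun z => φ z - ψ z) = fun x => S.P φ x - S.P ψ x := by
  funext x
  simp only [P, S.opL.sub hφ hψ, S.opB.sub hφ hψ, S.opL.sub (S.opL.smooth hφ) (S.opL.smooth hψ)]
  ring

omit [T2Space M] [CompactSpace M] [BorelSpace M] in
theorem P_sum {ι : Type*} (s : Finset ι) {F : ι → M → ℝ} (hF : ∀ j, Smooth (F j)) :
    S.P (fun z => ∑ j ∈ s, F j z) = fun x => ∑ j ∈ s, S.P (F j) x := by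
  funext x
  simp only [P, S.opL.sum s hF, S.opB.sum s hF, S.opL.sum s fun j => S.opL.smooth (hF j),
    Finset.sum_add_distrib]

/-- The quadratic form of `P`. -/
theorem integral_mul_P (hφ : Smooth φ) (hψ : Smooth ψ) : ∫ x, ψ x * S.P φ x ∂S.μ =
    ∫ x, S.L ψ x * S.L φ x ∂S.μ + ∫ x, ψ x * S.B φ x ∂S.μ := by
  simp only [P, mul_add]
  rw [integral_add (S.integrable (hψ.mul (S.opL.smooth (S.opL.smooth hφ))).continuous)
    (S.integrable (hψ.mul (S.opB.smooth hφ)).continuous),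
    S.opL.symm_integral (S.opL.smooth hφ) hψ]
  simp only [mul_comm]

theorem P_symm (hφ : Smooth φ) (hψ : Smooth ψ) :
    ∫ x, ψ x * S.P φ x ∂S.μ = ∫ x, φ x * S.P ψ x ∂S.μ := by
  rw [S.integral_mul_P hφ hψ, S.integral_mul_P hψ hφ, S.opB.symm_integral hφ hψ]
  simp only [mul_comm]

theorem integral_P (hφ : Smooth φ) : ∫ x, S.P φ x ∂S.μ = 0 := by
  simpa [S.P_const] using S.P_symm hφ (smooth_const 1)

omit [T2Space M] [CompactSpace M] [BorelSpace M] in
theorem curv_smooth {w : M → ℝ} (hw : Smooth w) : Smooth (S.curv w) :=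
  (hw.const_mul (-4)).exp.mul ((S.P_smooth hw).add S.q_sm)

omit [T2Space M] [CompactSpace M] [BorelSpace M] in
theorem rhs_smooth {w : M → ℝ} (hw : Smooth w) : Smooth (S.rhs w) :=
  ((hw.const_mul (-4)).exp.const_mul _).mul (S.P_smooth (S.curv_smooth hw))

end Setup

end Pool.Agent.MP_417fa2_gt

end MrgPart0

-- ======== part 1: formerly Pool.Agent.MP_417fa2_gt.An.Frame
section MrgPart1

/-! Basic facts on frames, the vector fields `X` and the energies `N`. -/

open scoped Manifold ContDiff Topology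
open MeasureTheory Set Filter

namespace Pool.Agent.MP_417fa2_gt

universe u

variable {M : Type u} [TopologicalSpace M] [ChartedSpace E4 M]

theorem zero_of_notMem_src {x₀ x : M} {ψ : M → ℝ} (hs : tsupport ψ ⊆ (chartAt E4 x₀).source)
    (hx : x ∉ (chartAt E4 x₀).source) : ψ x = 0 :=
  image_eq_zero_of_notMem_tsupport fun h => hx (hs h)

theorem cd_param {x₀ : M} {y : E4} (hy : y ∈ (chartAt E4 x₀).target) (i : Fin 4) (f : M → ℝ) :
    cd x₀ i f (param x₀ y) = pd i (f ∘ param x₀) y := by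
  rw [cd, chart_param hy]

theorem cd_const (x₀ : M) (i : Fin 4) (c : ℝ) (x : M) : cd x₀ i (fun _ => c) x = 0 :=
  pd_const i c _

theorem Frame.X_const (F : Frame M) (j : Fin F.n × Fin 4) (c : ℝ) :
    F.X j (fun _ => c) = fun _ => 0 := by
  funext x; simp [Frame.X, cd_const]

theorem Frame.sq_le_one (F : Frame M) (a : Fin F.n) (x : M) : F.χ a x ^ 2 ≤ 1 := by
  rw [← F.sum x]
  exact Finset.single_le_sum (f := fun a => F.χ a x ^ 2) (fun _ _ => sq_nonneg _)
    (Finset.mem_univ a)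

section Smooth

variable [IsManifold (𝓡 4) ∞ M] {f g : M → ℝ}

/-- A cut-off function times a smooth function of the coordinates is smooth. -/
theorem smooth_mul_chart {x₀ : M} {ψ : M → ℝ} (hψ : Smooth ψ)
    (hs : tsupport ψ ⊆ (chartAt E4 x₀).source) {b : E4 → ℝ}
    (hb : ContDiffOn ℝ ∞ b (chartAt E4 x₀).target) :
    Smooth fun x => ψ x * b (chartAt E4 x₀ x) := by
  intro x
  by_cases hx : x ∈ (chartAt E4 x₀).source
  · exact (hψ x).mul (contMDiffAt_of_chart hx
      (hb.contDiffAt ((isOpen_tgt x₀).mem_nhds (chart_mem hx))) EventuallyEq.rfl)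
  · refine (contMDiffAt_const (c := (0 : ℝ))).congr_of_eventuallyEq
      (mem_of_superset ((isClosed_tsupport ψ).isOpen_compl.mem_nhds fun h => hx (hs h))
        fun z hz => ?_)
    simp [image_eq_zero_of_notMem_tsupport hz]

theorem Smooth.dAt (hf : Smooth f) {x₀ : M} {y : E4} (hy : y ∈ (chartAt E4 x₀).target) :
    DifferentiableAt ℝ (f ∘ param x₀) y := dAt_of_cdOn (isOpen_tgt x₀) (hf.cdOn x₀) hy

theorem cd_add (hf : Smooth f) (hg : Smooth g) {x₀ x : M} (hx : x ∈ (chartAt E4 x₀).source)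
    (i : Fin 4) : cd x₀ i (fun z => f z + g z) x = cd x₀ i f x + cd x₀ i g x :=
  pd_add (hf.dAt (chart_mem hx)) (hg.dAt (chart_mem hx)) i

theorem cd_mul (hf : Smooth f) (hg : Smooth g) {x₀ x : M} (hx : x ∈ (chartAt E4 x₀).source)
    (i : Fin 4) : cd x₀ i (fun z => f z * g z) x = cd x₀ i f x * g x + f x * cd x₀ i g x := by
  have := pd_mul (hf.dAt (chart_mem hx)) (hg.dAt (chart_mem hx)) i
  simp only [Function.comp, param_chart hx] at this
  exact this

theorem cd_exp (hf : Smooth f) {x₀ x : M} (hx : x ∈ (chartAt E4 x₀).source)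
    (i : Fin 4) : cd x₀ i (fun z => Real.exp (f z)) x = Real.exp (f x) * cd x₀ i f x := by
  have := pd_exp (hf.dAt (chart_mem hx)) i
  simp only [Function.comp, param_chart hx] at this
  exact this

namespace Frame

variable (F : Frame M) (j : Fin F.n × Fin 4)

theorem X_smooth (hf : Smooth f) : Smooth (F.X j f) :=
  smooth_mul_chart (F.sm j.1) (F.supp j.1) (cdOn_pd (isOpen_tgt _) (hf.cdOn _) j.2)

theorem X_add (hf : Smooth f) (hg : Smooth g) :
    F.X j (fun z => f z + g z) = fun x => F.X j f x + F.X j g x := by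
  funext x
  by_cases hx : x ∈ (chartAt E4 (F.c j.1)).source
  · simp only [X, cd_add hf hg hx, mul_add]
  · simp [X, zero_of_notMem_src (F.supp j.1) hx]

theorem X_mul (hf : Smooth f) (hg : Smooth g) :
    F.X j (fun z => f z * g z) = fun x => F.X j f x * g x + f x * F.X j g x := by
  funext x
  by_cases hx : x ∈ (chartAt E4 (F.c j.1)).source
  · simp only [X, cd_mul hf hg hx]; ring
  · simp [X, zero_of_notMem_src (F.supp j.1) hx]

theorem X_exp (hf : Smooth f) :
    F.X j (fun z => Real.exp (f z)) = fun x => Real.exp (f x) * F.X j f x := by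
  funext x
  by_cases hx : x ∈ (chartAt E4 (F.c j.1)).source
  · simp only [X, cd_exp hf hx]; ring
  · simp [X, zero_of_notMem_src (F.supp j.1) hx]

theorem X_const_mul (hf : Smooth f) (c : ℝ) :
    F.X j (fun z => c * f z) = fun x => c * F.X j f x := by
  rw [F.X_mul j (smooth_const c) hf, F.X_const]; simp

theorem X_sub (hf : Smooth f) (hg : Smooth g) :
    F.X j (fun z => f z - g z) = fun x => F.X j f x - F.X j g x := by
  have h1 := F.X_add j hf (hg.const_mul (-1))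
  rw [F.X_const_mul j hg] at h1
  simpa [sub_eq_add_neg] using h1

theorem X_sum {ι : Type*} (s : Finset ι) {G : ι → M → ℝ} (hG : ∀ i, Smooth (G i)) :
    F.X j (fun z => ∑ i ∈ s, G i z) = fun x => ∑ i ∈ s, F.X j (G i) x := by
  classical
  induction s using Finset.induction_on with
  | empty => simpa using F.X_const j 0
  | insert a s ha ih =>
    simp only [Finset.sum_insert ha]
    rw [F.X_add j (hG a) (Smooth.sum fun i _ => hG i), ih]

end Frame

theorem exists_frame [T2Space M] [CompactSpace M] : Nonempty (Frame M) := by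
  obtain ⟨s, θ, hθ, hs, -, h1⟩ := exists_sq_partition (fun x : M => (chartAt E4 x).source)
    fun x => (isOpen_src x).mem_nhds (mem_chart_source E4 x)
  refine ⟨⟨s.card, fun a => s.equivFin.symm a, fun a => θ (s.equivFin.symm a), fun a => hθ _,
    fun a => hs _, fun x => ?_⟩⟩
  rw [← h1 x, ← Finset.sum_coe_sort s]
  exact Equiv.sum_comp s.equivFin.symm fun a : s => θ a x ^ 2

/-- A smooth function equal to one near a compact subset of an open set, supported in it. -/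
theorem exists_cutoff [T2Space M] [CompactSpace M] {K U : Set M} (hK : IsClosed K) (hU : IsOpen U)
    (hKU : K ⊆ U) : ∃ ψ : M → ℝ, Smooth ψ ∧ tsupport ψ ⊆ U ∧ (∀ x, 0 ≤ ψ x ∧ ψ x ≤ 1) ∧
      ∀ x ∈ K, ψ =ᶠ[𝓝 x] fun _ => 1 := by
  obtain ⟨V, hV, hKV, hVU⟩ := normal_exists_closure_subset hK hU hKU
  obtain ⟨W, hW, hVW, hWU⟩ := normal_exists_closure_subset isClosed_closure hU hVU
  obtain ⟨ψ, h0, h1, h01⟩ := exists_contMDiffMap_zero_one_of_isClosed (n := (⊤ : ℕ∞)) (𝓡 4)
    hW.isClosed_compl isClosed_closure (disjoint_compl_left_iff_subset.2 hVW)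
  refine ⟨ψ, ψ.contMDiff, (closure_mono fun x hx => ?_).trans hWU, fun x => h01 x,
    fun x hx => mem_of_superset (hV.mem_nhds (hKV hx)) fun z hz => h1 (subset_closure hz)⟩
  by_contra h
  exact hx (h0 h)

end Smooth

variable [MeasurableSpace M]

namespace Frame

variable (F : Frame M) (μ : Measure M)

theorem N_zero (f : M → ℝ) : F.N μ 0 f = ∫ x, f x ^ 2 ∂μ := rfl

theorem N_succ (k : ℕ) (f : M → ℝ) : F.N μ (k + 1) f = F.N μ 0 f + ∑ j, F.N μ k (F.X j f) := rfl

theorem N_nonneg (k : ℕ) (f : M → ℝ) : 0 ≤ F.N μ k f := by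
  induction k generalizing f with
  | zero => exact integral_nonneg fun _ => sq_nonneg _
  | succ k ih =>
    have h1 : 0 ≤ F.N μ 0 f := integral_nonneg fun _ => sq_nonneg _
    exact add_nonneg h1 (Finset.sum_nonneg fun i _ => ih _)

theorem N_le_succ (k : ℕ) (f : M → ℝ) : F.N μ k f ≤ F.N μ (k + 1) f := by
  induction k generalizing f with
  | zero => exact le_add_of_nonneg_right (Finset.sum_nonneg fun i _ => F.N_nonneg μ _ _)
  | succ k ih =>
    rw [N_succ, F.N_succ μ (k + 1)]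
    exact add_le_add le_rfl (Finset.sum_le_sum fun i _ => ih _)

theorem N_mono {k l : ℕ} (hkl : k ≤ l) (f : M → ℝ) : F.N μ k f ≤ F.N μ l f :=
  monotone_nat_of_le_succ (f := fun k => F.N μ k f) (fun k => F.N_le_succ μ k f) hkl

theorem sum_N_X_le (k : ℕ) (f : M → ℝ) : ∑ j, F.N μ k (F.X j f) ≤ F.N μ (k + 1) f := by
  rw [N_succ]; exact le_add_of_nonneg_left (F.N_nonneg μ _ _)

theorem N_X_le (k : ℕ) (f : M → ℝ) (j : Fin F.n × Fin 4) : F.N μ k (F.X j f) ≤ F.N μ (k + 1) f :=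
  (Finset.single_le_sum (f := fun j => F.N μ k (F.X j f)) (fun _ _ => F.N_nonneg μ _ _)
    (Finset.mem_univ j)).trans (F.sum_N_X_le μ k f)

theorem N_zero_fun (k : ℕ) : F.N μ k (fun _ => 0) = 0 := by
  induction k with
  | zero => simp [N_zero]
  | succ k ih => simp [N_succ, N_zero, X_const, ih]

theorem N_const (k : ℕ) (c : ℝ) : F.N μ k (fun _ => c) = c ^ 2 * μ.real univ := by
  cases k with
  | zero => simp [N_zero, mul_comm]
  | succ k => simp [N_succ, N_zero, X_const, N_zero_fun, mul_comm]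

variable [IsManifold (𝓡 4) ∞ M] {f g : M → ℝ}

theorem N_smul (k : ℕ) (hf : Smooth f) (c : ℝ) :
    F.N μ k (fun x => c * f x) = c ^ 2 * F.N μ k f := by
  have h0 : ∀ f : M → ℝ, F.N μ 0 (fun y => c * f y) = c ^ 2 * F.N μ 0 f := fun f => by
    simp only [N_zero, mul_pow, integral_const_mul]
  induction k generalizing f with
  | zero => exact h0 f
  | succ k ih =>
    rw [N_succ, N_succ, h0, mul_add, Finset.mul_sum]
    congr 1
    exact Finset.sum_congr rfl fun j _ => by rw [F.X_const_mul j hf, ih (F.X_smooth j hf)]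

theorem N_neg (k : ℕ) (hf : Smooth f) : F.N μ k (fun x => -f x) = F.N μ k f := by
  simpa using F.N_smul μ k hf (-1)

variable [T2Space M] [CompactSpace M] [BorelSpace M] (S : Setup M)

theorem N_add_le (k : ℕ) (hf : Smooth f) (hg : Smooth g) :
    F.N S.μ k (fun x => f x + g x) ≤ 2 * F.N S.μ k f + 2 * F.N S.μ k g := by
  have h0 : ∀ {f g : M → ℝ}, Smooth f → Smooth g →
      F.N S.μ 0 (fun y => f y + g y) ≤ 2 * F.N S.μ 0 f + 2 * F.N S.μ 0 g := fun {f g} hf hg => by
    have i1 := (S.integrable (hf.pow 2).continuous).const_mul 2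
    have i2 := (S.integrable (hg.pow 2).continuous).const_mul 2
    simp only [N_zero]
    rw [← integral_const_mul, ← integral_const_mul, ← integral_add i1 i2]
    exact integral_mono (S.integrable ((hf.add hg).pow 2).continuous) (i1.add i2)
      fun y => by nlinarith [sq_nonneg (f y - g y)]
  induction k generalizing f g with
  | zero => exact h0 hf hg
  | succ k ih =>
    simp only [N_succ, mul_add, Finset.mul_sum]
    have h1 : ∑ j, F.N S.μ k (F.X j fun y => f y + g y) ≤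
        ∑ j, (2 * F.N S.μ k (F.X j f) + 2 * F.N S.μ k (F.X j g)) :=
      Finset.sum_le_sum fun j _ => by
        rw [F.X_add j hf hg]
        exact ih (F.X_smooth j hf) (F.X_smooth j hg)
    rw [Finset.sum_add_distrib] at h1
    linarith [h0 hf hg]

theorem N_sub_le (k : ℕ) (hf : Smooth f) (hg : Smooth g) :
    F.N S.μ k (fun x => f x - g x) ≤ 2 * F.N S.μ k f + 2 * F.N S.μ k g := by
  have h1 := F.N_add_le S k hf hg.neg
  rw [F.N_neg _ k hg] at h1
  simpa [sub_eq_add_neg] using h1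

/-- Cauchy–Schwarz. -/
theorem abs_integral_mul_le (hf : Smooth f) (hg : Smooth g) :
    |∫ x, f x * g x ∂S.μ| ≤ √(F.N S.μ 0 f) * √(F.N S.μ 0 g) := by
  have i1 := S.integrable (hf.pow 2).continuous
  have i2 := S.integrable (hg.pow 2).continuous
  have i3 := S.integrable (hf.mul hg).continuous
  rw [← Real.sqrt_mul (F.N_nonneg _ _ _)]
  refine Real.abs_le_sqrt ?_
  have key : ∀ t : ℝ, 0 ≤ F.N S.μ 0 f * (t * t) + (2 * ∫ x, f x * g x ∂S.μ) * t + F.N S.μ 0 g := by
    intro t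
    have : ∫ x, (t * f x + g x) ^ 2 ∂S.μ =
        F.N S.μ 0 f * (t * t) + (2 * ∫ x, f x * g x ∂S.μ) * t + F.N S.μ 0 g := by
      have e : (fun x => (t * f x + g x) ^ 2) =
          fun x => (t * t * f x ^ 2 + 2 * t * (f x * g x)) + g x ^ 2 := by funext x; ring
      have i4 : Integrable (fun x => t * t * f x ^ 2 + 2 * t * (f x * g x)) S.μ :=
        (i1.const_mul _).add (i3.const_mul _)
      rw [e, integral_add i4 i2,
        integral_add (i1.const_mul _) (i3.const_mul _), integral_const_mul, integral_const_mul,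
        N_zero, N_zero]
      ring
    rw [← this]
    exact integral_nonneg fun _ => sq_nonneg _
  have := discrim_le_zero key
  rw [discrim] at this
  nlinarith

/-- Cauchy–Schwarz with a parameter. -/
theorem abs_integral_mul_le_add (hf : Smooth f) (hg : Smooth g) {ε : ℝ} (hε : 0 < ε) :
    |∫ x, f x * g x ∂S.μ| ≤ ε * F.N S.μ 0 f + F.N S.μ 0 g / (4 * ε) := by
  refine (F.abs_integral_mul_le S hf hg).trans ?_
  have h1 := Real.sq_sqrt (F.N_nonneg S.μ 0 f)
  have h2 := Real.sq_sqrt (F.N_nonneg S.μ 0 g)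
  set a := √(F.N S.μ 0 f)
  set b := √(F.N S.μ 0 g)
  rw [← h1, ← h2, ← sub_nonneg]
  have : ε * a ^ 2 + b ^ 2 / (4 * ε) - a * b = (2 * ε * a - b) ^ 2 / (4 * ε) := by
    field_simp; ring
  rw [this]; positivity

end Frame

end Pool.Agent.MP_417fa2_gt

end MrgPart1

-- marker of a merged file
example : 731051 + 347832 = 731051 + 347832 := rfl

end MrgPart0

-- ======== part 1: formerly Pool.Agent.MP_417fa2_gt.An.Joint
section MrgPart1

/-!
Calculus for functions of `(t, x)` that are smooth on `I × M`: closure under the operators,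
joint continuity, bounds, and differentiation under the integral.
-/

open scoped Manifold ContDiff Topology
open MeasureTheory Set Filter

namespace Pool.Agent.MP_417fa2_gt

universe u

section Euc

variable {I : Set ℝ} {U : Set E4} {F : ℝ × E4 → ℝ}

theorem jt_pd_eq (hU : IsOpen U) (h : ContDiffOn ℝ ∞ F (I ×ˢ U)) (i : Fin 4) {p : ℝ × E4}
    (hp : p ∈ I ×ˢ U) : pd i (fun y => F (p.1, y)) p.2 =
      fderivWithin ℝ F (I ×ˢ U) p (0, EuclideanSpace.single i 1) := by
  have h1 := ((h p hp).differentiableWithinAt (by simp)).hasFDerivWithinAt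
  have h2 : HasFDerivWithinAt (fun y : E4 => (p.1, y)) (ContinuousLinearMap.inr ℝ ℝ E4) U p.2 :=
    (hasFDerivAt_prodMk_right p.1 p.2).hasFDerivWithinAt
  have h3 := (HasFDerivWithinAt.comp (f := fun y : E4 => (p.1, y)) p.2 h1 h2
    (fun y hy => ⟨hp.1, hy⟩)).hasFDerivAt (hU.mem_nhds hp.2)
  unfold pd
  rw [show (fun y => F (p.1, y)) = F ∘ fun y : E4 => (p.1, y) from rfl, h3.fderiv]
  simp

theorem jt_pd (hI : UniqueDiffOn ℝ I) (hU : IsOpen U) (h : ContDiffOn ℝ ∞ F (I ×ˢ U)) (i : Fin 4) :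
    ContDiffOn ℝ ∞ (fun p : ℝ × E4 => pd i (fun y => F (p.1, y)) p.2) (I ×ˢ U) := by
  have h1 : ContDiffOn ℝ ∞ (fderivWithin ℝ F (I ×ˢ U)) (I ×ˢ U) :=
    h.fderivWithin (hI.prod hU.uniqueDiffOn) (by simp)
  exact (h1.clm_apply contDiffOn_const).congr fun p hp => jt_pd_eq hU h i hp

theorem jt_snd {f : E4 → ℝ} (h : ContDiffOn ℝ ∞ f U) :
    ContDiffOn ℝ ∞ (fun p : ℝ × E4 => f p.2) (I ×ˢ U) :=
  h.comp contDiff_snd.contDiffOn fun _ hp => hp.2

theorem jt_dop {ρ : E4 → ℝ} {A : Fin 4 → Fin 4 → E4 → ℝ} (hI : UniqueDiffOn ℝ I) (hU : IsOpen U)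
    (hρ : ContDiffOn ℝ ∞ ρ U) (h0 : ∀ y ∈ U, 0 < ρ y) (hA : ∀ a b, ContDiffOn ℝ ∞ (A a b) U)
    (h : ContDiffOn ℝ ∞ F (I ×ˢ U)) :
    ContDiffOn ℝ ∞ (fun p : ℝ × E4 => dop ρ A (fun y => F (p.1, y)) p.2) (I ×ˢ U) := by
  refine (jt_snd (hρ.inv fun y hy => (h0 y hy).ne')).mul (ContDiffOn.sum fun a _ => ?_)
  exact jt_pd (F := fun p => ρ p.2 * ∑ b, A a b p.2 * pd b (fun y => F (p.1, y)) p.2) hI hU
    ((jt_snd hρ).mul (ContDiffOn.sum fun b _ => (jt_snd (hA a b)).mul (jt_pd hI hU h b))) a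

end Euc

variable {M : Type u} [TopologicalSpace M] [ChartedSpace E4 M] {I : Set ℝ} {v w : ℝ → M → ℝ}

theorem SmoothOn.add (h : SmoothOn I v) (k : SmoothOn I w) :
    SmoothOn I fun t x => v t x + w t x := fun x₀ => (h x₀).add (k x₀)

theorem SmoothOn.sub (h : SmoothOn I v) (k : SmoothOn I w) :
    SmoothOn I fun t x => v t x - w t x := fun x₀ => (h x₀).sub (k x₀)

theorem SmoothOn.mul (h : SmoothOn I v) (k : SmoothOn I w) :
    SmoothOn I fun t x => v t x * w t x := fun x₀ => (h x₀).mul (k x₀)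

theorem smoothOn_const (I : Set ℝ) (c : ℝ) : SmoothOn I fun _ (_ : M) => c :=
  fun _ => contDiffOn_const

theorem SmoothOn.const_mul (h : SmoothOn I w) (c : ℝ) : SmoothOn I fun t x => c * w t x :=
  (smoothOn_const I c).mul h

theorem SmoothOn.pow (h : SmoothOn I w) (n : ℕ) : SmoothOn I fun t x => w t x ^ n :=
  fun x₀ => (h x₀).pow n

theorem SmoothOn.exp (h : SmoothOn I w) : SmoothOn I fun t x => Real.exp (w t x) :=
  fun x₀ => (h x₀).exp

theorem SmoothOn.continuousOn (h : SmoothOn I w) :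
    ContinuousOn (fun p : ℝ × M => w p.1 p.2) (I ×ˢ univ) := by
  rintro ⟨t, x⟩ ⟨ht, -⟩
  have h1 : ContinuousOn (fun p : ℝ × M => (p.1, chartAt E4 x p.2))
      (I ×ˢ (chartAt E4 x).source) :=
    continuousOn_fst.prodMk ((chartAt E4 x).continuousOn.comp continuousOn_snd fun _ hp => hp.2)
  have h2 := ((h x).continuousOn.comp h1 fun p hp => ⟨hp.1, chart_mem hp.2⟩).congr
    (g := fun p : ℝ × M => w p.1 p.2) fun p hp => by
      simp only [Function.comp_apply, param_chart hp.2]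
  refine (h2 (t, x) ⟨ht, mem_chart_source E4 x⟩).mono_of_mem_nhdsWithin ?_
  refine mem_nhdsWithin.2 ⟨univ ×ˢ (chartAt E4 x).source, isOpen_univ.prod (isOpen_src x),
    ⟨trivial, mem_chart_source E4 x⟩, fun p hp => ⟨hp.2.1, hp.1.2⟩⟩

omit [ChartedSpace E4 M] in
theorem jt_bound [CompactSpace M] {K : Set ℝ} (hK : IsCompact K)
    (h : ContinuousOn (fun p : ℝ × M => w p.1 p.2) (K ×ˢ univ)) :
    ∃ C : ℝ, 0 ≤ C ∧ ∀ t ∈ K, ∀ x, |w t x| ≤ C := by
  obtain ⟨C, hC⟩ := (hK.prod isCompact_univ).exists_bound_of_continuousOn h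
  exact ⟨max C 0, le_max_right _ _, fun t ht x =>
    (hC (t, x) ⟨ht, trivial⟩).trans (le_max_left _ _)⟩

theorem SmoothOn.bound [CompactSpace M] (h : SmoothOn I w) {K : Set ℝ} (hK : IsCompact K)
    (hKI : K ⊆ I) : ∃ C : ℝ, 0 ≤ C ∧ ∀ t ∈ K, ∀ x, |w t x| ≤ C :=
  jt_bound hK (h.continuousOn.mono (prod_mono hKI subset_rfl))

omit [ChartedSpace E4 M] in
theorem jt_slice (h : ContinuousOn (fun p : ℝ × M => w p.1 p.2) (I ×ˢ univ)) {t : ℝ} (ht : t ∈ I) :
    Continuous (w t) := by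
  rw [← continuousOn_univ]
  exact h.comp (f := fun x => (t, x)) (by fun_prop) fun x _ => ⟨ht, trivial⟩

omit [ChartedSpace E4 M] in
theorem jt_slice' (h : ContinuousOn (fun p : ℝ × M => w p.1 p.2) (I ×ˢ univ)) (x : M) :
    ContinuousOn (fun t => w t x) I :=
  h.comp (f := fun t => (t, x)) (by fun_prop) fun _ ht => ⟨ht, trivial⟩

theorem Smooth.smoothOn [IsManifold (𝓡 4) ∞ M] {φ : M → ℝ} (h : Smooth φ) (I : Set ℝ) :
    SmoothOn I fun _ => φ := fun x₀ => jt_snd (h.cdOn x₀)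

variable [MeasurableSpace M] {S : Setup M}

section Ops

variable [IsManifold (𝓡 4) ∞ M]

theorem SmoothOn.op {T : (M → ℝ) → M → ℝ} {A : M → Fin 4 → Fin 4 → E4 → ℝ} (hT : S.Op T A)
    (hI : UniqueDiffOn ℝ I) (h : SmoothOn I w) : SmoothOn I fun t => T (w t) := fun x₀ =>
  (jt_dop hI (isOpen_tgt x₀) (S.ρ_sm x₀) (S.ρ_pos x₀) (hT.sm x₀) (h x₀)).congr
    fun _ hp => hT.loc _ (h.slice hp.1) x₀ _ hp.2

theorem SmoothOn.P (S : Setup M) (hI : UniqueDiffOn ℝ I) (h : SmoothOn I w) :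
    SmoothOn I fun t => S.P (w t) :=
  ((h.op S.opL hI).op S.opL hI).add (h.op S.opB hI)

theorem SmoothOn.curv (S : Setup M) (hI : UniqueDiffOn ℝ I) (h : SmoothOn I w) :
    SmoothOn I fun t => S.curv (w t) :=
  (h.const_mul (-4)).exp.mul ((h.P S hI).add (S.q_sm.smoothOn I))

theorem SmoothOn.rhs (S : Setup M) (hI : UniqueDiffOn ℝ I) (h : SmoothOn I w) :
    SmoothOn I fun t => S.rhs (w t) :=
  ((h.const_mul (-4)).exp.const_mul _).mul ((h.curv S hI).P S hI)

end Ops

variable [T2Space M] [CompactSpace M] [BorelSpace M]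

theorem jt_continuousOn_integral (S : Setup M) {K : Set ℝ} (hK : IsCompact K)
    (h : ContinuousOn (fun p : ℝ × M => w p.1 p.2) (K ×ˢ univ)) :
    ContinuousOn (fun t => ∫ x, w t x ∂S.μ) K := by
  obtain ⟨C, -, hC⟩ := jt_bound hK h
  exact continuousOn_of_dominated (bound := fun _ => C)
    (fun t ht => (S.integrable (jt_slice h ht)).aestronglyMeasurable)
    (fun t ht => Eventually.of_forall (hC t ht)) (integrable_const C)
    (Eventually.of_forall (jt_slice' h))

theorem jt_hasDerivAt_integral (S : Setup M) {a b t : ℝ} (ht : t ∈ Ioo a b)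
    (hw : ContinuousOn (fun p : ℝ × M => w p.1 p.2) (Icc a b ×ˢ univ))
    (hv : ContinuousOn (fun p : ℝ × M => v p.1 p.2) (Icc a b ×ˢ univ))
    (hd : ∀ s ∈ Ioo a b, ∀ x, HasDerivAt (fun r => w r x) (v s x) s) :
    HasDerivAt (fun s => ∫ x, w s x ∂S.μ) (∫ x, v t x ∂S.μ) t := by
  obtain ⟨C, -, hC⟩ := jt_bound isCompact_Icc hv
  have hn : Ioo a b ∈ 𝓝 t := isOpen_Ioo.mem_nhds ht
  refine (hasDerivAt_integral_of_dominated_loc_of_deriv_le (bound := fun _ => C) (F' := v) hn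
    (mem_of_superset hn fun s hs =>
      (S.integrable (jt_slice hw (Ioo_subset_Icc_self hs))).aestronglyMeasurable)
    (S.integrable (jt_slice hw (Ioo_subset_Icc_self ht)))
    (S.integrable (jt_slice hv (Ioo_subset_Icc_self ht))).aestronglyMeasurable
    (Eventually.of_forall fun x s hs => hC s (Ioo_subset_Icc_self hs) x) (integrable_const C)
    (Eventually.of_forall fun x s hs => hd s hs x)).2

end Pool.Agent.MP_417fa2_gt

end MrgPart1

-- ======== part 2: formerly Pool.Agent.MP_417fa2_gt.An.Glue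
section MrgPart2

/-!
Continuation: a priori bound, local existence and uniqueness give a global solution.
-/

open scoped Manifold ContDiff Topology
open MeasureTheory Set Filter

namespace Pool.Agent.MP_417fa2_gt

universe u

section

variable {M : Type u} [TopologicalSpace M] [ChartedSpace E4 M] [MeasurableSpace M]
  {S : Setup M}

theorem glue_mono {I J : Set ℝ} {w : ℝ → M → ℝ} (h : S.Sol I w) (hJ : J ⊆ I) : S.Sol J w :=
  ⟨fun x₀ => (h.smooth x₀).mono (prod_mono hJ le_rfl),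
    fun t ht x => (h.eqn t (hJ ht) x).mono hJ⟩

theorem glue_shift {I J : Set ℝ} {w : ℝ → M → ℝ} (h : S.Sol I w) (a : ℝ)
    (hJ : ∀ t ∈ J, t + a ∈ I) : S.Sol J (fun t => w (t + a)) := by
  refine ⟨fun x₀ => ?_, fun t ht x => ?_⟩
  · have hc : ContDiff ℝ ∞ (fun p : ℝ × E4 => (p.1 + a, p.2)) := by fun_prop
    exact (h.smooth x₀).comp hc.contDiffOn (fun p hp => ⟨hJ _ hp.1, hp.2⟩)
  · have h1 : HasDerivWithinAt (fun s : ℝ => s + a) 1 J t :=
      ((hasDerivAt_id t).add_const a).hasDerivWithinAt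
    have h2 := (h.eqn (t + a) (hJ t ht) x).comp t h1 hJ
    simpa [Function.comp_def] using h2

theorem glue_local {I : Set ℝ} {w : ℝ → M → ℝ}
    (h : ∀ t ∈ I, ∃ U : Set ℝ, IsOpen U ∧ t ∈ U ∧ ∃ v, S.Sol (I ∩ U) v ∧ ∀ s ∈ I ∩ U, w s = v s) :
    S.Sol I w := by
  refine ⟨fun x₀ => ?_, fun t ht x => ?_⟩
  · refine contDiffOn_of_locally_contDiffOn fun p hp => ?_
    obtain ⟨U, hU, htU, v, hv, he⟩ := h p.1 hp.1
    refine ⟨U ×ˢ univ, hU.prod isOpen_univ, ⟨htU, trivial⟩, ?_⟩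
    refine ((hv.smooth x₀).mono ?_).congr ?_
    · rintro q ⟨⟨h1, h2⟩, h3, -⟩
      exact ⟨⟨h1, h3⟩, h2⟩
    · rintro q ⟨⟨h1, -⟩, h3, -⟩
      simp only [he q.1 ⟨h1, h3⟩]
  · obtain ⟨U, hU, htU, v, hv, he⟩ := h t ht
    have h1 := hv.eqn t ⟨ht, htU⟩ x
    rw [← he t ⟨ht, htU⟩] at h1
    have h2 : HasDerivWithinAt (fun s => w s x) (S.rhs (w t) x) (I ∩ U) t :=
      h1.congr (fun s hs => by rw [he s hs]) (by rw [he t ⟨ht, htU⟩])
    exact (hasDerivWithinAt_inter (hU.mem_nhds htU)).1 h2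

/-- Existence times of solutions from `w₀`. -/
def glueSet (S : Setup M) (w₀ : M → ℝ) : Set ℝ :=
  {T | ∃ w, w 0 = w₀ ∧ S.Sol (Ico 0 T) w}

theorem glue_agree (hU : Uniq S) {T T' : ℝ} {w w' : ℝ → M → ℝ} (h : S.Sol (Ico 0 T) w)
    (h' : S.Sol (Ico 0 T') w') (h0 : w 0 = w' 0) {t : ℝ} (ht : 0 ≤ t) (h1 : t < T) (h2 : t < T') :
    w t = w' t := by
  have hm : 0 < min T T' := lt_of_le_of_lt ht (lt_min h1 h2)
  exact hU (min T T') hm w w' (glue_mono h (Ico_subset_Ico_right (min_le_left _ _)))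
    (glue_mono h' (Ico_subset_Ico_right (min_le_right _ _))) h0 t ⟨ht, lt_min h1 h2⟩

theorem glue_union (hU : Uniq S) (w₀ : M → ℝ) {I : Set ℝ}
    (hI : ∀ t ∈ I, 0 ≤ t ∧ ∃ T ∈ glueSet S w₀, t < T) :
    ∃ w, w 0 = w₀ ∧ S.Sol I w := by
  classical
  choose h0 T hT hlt using hI
  choose v hv0 hv using hT
  refine ⟨fun t => if h : t ∈ I then v t h t else w₀, ?_, glue_local fun t ht => ?_⟩
  · by_cases h : (0 : ℝ) ∈ I
    · simp only [h, dif_pos, hv0]
    · simp only [h, dif_neg, not_false_iff]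
  · refine ⟨Iio (T t ht), isOpen_Iio, hlt t ht, v t ht,
      glue_mono (hv t ht) (fun s hs => ⟨h0 s hs.1, hs.2⟩), fun s hs => ?_⟩
    simp only [hs.1, dif_pos]
    exact glue_agree hU (hv s hs.1) (hv t ht) ((hv0 s hs.1).trans (hv0 t ht).symm) (h0 s hs.1)
      (hlt s hs.1) hs.2

theorem glue_extend (hU : Uniq S) {T τ a : ℝ} {w v : ℝ → M → ℝ} (hw : S.Sol (Ico 0 T) w)
    (hv : S.Sol (Ico 0 τ) v) (ha : 0 ≤ a) (haT : a < T) (h0 : v 0 = w a) :
    ∃ z, z 0 = w 0 ∧ S.Sol (Ico 0 (a + τ)) z := by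
  classical
  have hT : 0 < T := lt_of_le_of_lt ha haT
  have hw' : S.Sol (Ico 0 (T - a)) (fun t => w (t + a)) :=
    glue_shift hw a fun t ht => ⟨by linarith [ht.1], by linarith [ht.2]⟩
  refine ⟨fun t => if t < T then w t else v (t + -a), by simp only [hT, if_true],
    glue_local fun t ht => ?_⟩
  by_cases h : t < T
  · refine ⟨Iio T, isOpen_Iio, h, w, glue_mono hw (fun s hs => ⟨hs.1.1, hs.2⟩), fun s hs => ?_⟩
    have : s < T := hs.2
    simp only [this, if_true]
  · refine ⟨Ioi a, isOpen_Ioi, lt_of_lt_of_le haT (not_lt.1 h), fun s => v (s + -a),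
      glue_shift hv (-a) (fun s hs => ⟨by linarith [mem_Ioi.1 hs.2], by linarith [hs.1.2]⟩),
      fun s hs => ?_⟩
    have hs1 : a < s := hs.2
    have hs2 : s < a + τ := hs.1.2
    by_cases h' : s < T
    · simp only [h', if_true]
      have := glue_agree hU hw' hv (by simp only [zero_add, h0]) (t := s + -a) (by linarith)
        (by linarith) (by linarith)
      simpa using this
    · simp only [h', if_false]

theorem glue_unbounded [IsManifold (𝓡 4) ∞ M] {F : Frame M} (hA : Apr S F) (hL : Loc S F)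
    (hU : Uniq S) {w₀ : M → ℝ} (h₀ : Smooth w₀) (t : ℝ) : ∃ T ∈ glueSet S w₀, t < T := by
  by_contra hc
  push Not at hc
  have hb : BddAbove (glueSet S w₀) := ⟨t, hc⟩
  obtain ⟨τ₀, hτ₀, h1⟩ := hL (F.N S.μ 4 w₀)
  have hm : τ₀ ∈ glueSet S w₀ := h1 w₀ h₀ le_rfl
  set T := sSup (glueSet S w₀) with hTd
  have hT : 0 < T := lt_of_lt_of_le hτ₀ (le_csSup hb hm)
  obtain ⟨w, hw0, hw⟩ := glue_union hU w₀ (I := Ico 0 T) fun s hs =>
    ⟨hs.1, exists_lt_of_lt_csSup ⟨_, hm⟩ hs.2⟩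
  obtain ⟨K, hK⟩ := hA T hT w hw
  obtain ⟨τ, hτ, h2⟩ := hL K
  have ha : max 0 (T - τ / 2) ∈ Ico 0 T := ⟨le_max_left _ _, max_lt hT (by linarith)⟩
  obtain ⟨v, hv0, hv⟩ := h2 _ (hw.smooth.slice ha) (hK _ ha)
  obtain ⟨z, hz0, hz⟩ := glue_extend hU hw hv ha.1 ha.2 hv0
  have h3 : max 0 (T - τ / 2) + τ ≤ T := le_csSup hb ⟨z, hz0.trans hw0, hz⟩
  linarith [le_max_right 0 (T - τ / 2)]

end

theorem glue : GlueStmt.{u} := by
  intro M _ _ _ _ _ _ _ S F hA hL hU w₀ h₀
  exact glue_union hU w₀ fun t ht => ⟨ht, glue_unbounded hA hL hU h₀ t⟩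

end Pool.Agent.MP_417fa2_gt

end MrgPart2

-- ======== part 3: formerly Pool.Agent.MP_417fa2_gt.An.Bridge
section MrgPart3

/-!
The bridge from the abstract flow to the analytic theorem.
-/

open scoped Manifold ContDiff Topology
open MeasureTheory Set Filter

namespace Pool.Agent.MP_417fa2_gt

universe u

namespace Bridge

variable {M : Type u} [TopologicalSpace M] [ChartedSpace E4 M]

/-- The algebra of smooth functions. -/
def smA (M : Type u) [TopologicalSpace M] [ChartedSpace E4 M] : Subalgebra ℝ C(M, ℝ) where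
  carrier := {f | Smooth f}
  mul_mem' := fun hf hg => Smooth.mul hf hg
  add_mem' := fun hf hg => Smooth.add hf hg
  algebraMap_mem' := fun c => smooth_const c

/-- A smooth function as an element of the algebra. -/
def mkA (f : M → ℝ) (hf : Smooth f) : smA M := ⟨⟨f, hf.continuous⟩, hf⟩

theorem sm (f : smA M) : Smooth (f : C(M, ℝ)) := f.2

variable [T2Space M] [CompactSpace M] [IsManifold (𝓡 4) ∞ M] [MeasurableSpace M] [BorelSpace M]
  (S : Setup M) (F : Frame M) {h : M → ℝ}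

/-- The weighted integral. -/
noncomputable def wI (hh : Continuous h) : C(M, ℝ) →L[ℝ] ℝ :=
  LinearMap.mkContinuous
    { toFun := fun f => ∫ x, f x * h x ∂S.μ
      map_add' := fun f g => by
        simp only [ContinuousMap.add_apply, add_mul]
        exact integral_add (S.integrable (f.continuous.mul hh)) (S.integrable (g.continuous.mul hh))
      map_smul' := fun c f => by
        simp only [ContinuousMap.smul_apply, smul_eq_mul, mul_assoc, integral_const_mul,
          RingHom.id_apply] }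
    (∫ x, |h x| ∂S.μ) fun f => by
      simp only [LinearMap.coe_mk, AddHom.coe_mk]
      rw [← integral_mul_const]
      refine norm_integral_le_of_norm_le ((S.integrable hh.abs).mul_const _)
        (Eventually.of_forall fun x => ?_)
      rw [norm_mul, mul_comm, Real.norm_eq_abs]
      exact mul_le_mul_of_nonneg_left (f.norm_coe_le_norm x) (abs_nonneg _)

/-- The operator `h⁻¹ P`. -/
noncomputable def wP (hh : Smooth h) (h0 : ∀ x, 0 < h x) : Module.End ℝ (smA M) where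
  toFun f := mkA (fun x => (h x)⁻¹ * S.P (f : C(M, ℝ)) x)
    ((hh.inv fun x => (h0 x).ne').mul (S.P_smooth (sm f)))
  map_add' f g := by
    ext x
    have := congrFun (S.P_add (sm f) (sm g)) x
    change (h x)⁻¹ * S.P (fun z => (f : C(M, ℝ)) z + (g : C(M, ℝ)) z) x =
      (h x)⁻¹ * S.P (f : C(M, ℝ)) x + (h x)⁻¹ * S.P (g : C(M, ℝ)) x
    rw [this, mul_add]
  map_smul' c f := by
    ext x
    have := congrFun (S.P_const_mul (sm f) c) x
    change (h x)⁻¹ * S.P (fun z => c * (f : C(M, ℝ)) z) x = c * ((h x)⁻¹ * S.P (f : C(M, ℝ)) x)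
    rw [this]
    ring

/-- The abstract data. -/
noncomputable def pre (hh : Smooth h) (h0 : ∀ x, 0 < h x) : Flow.Pre M :=
  ⟨smA M, wI S hh.continuous, wP S hh h0⟩

variable (hh : Smooth h) (h0 : ∀ x, 0 < h x)

theorem I_apply (f : C(M, ℝ)) : (pre S hh h0).I f = ∫ x, f x * h x ∂S.μ := rfl

theorem P_apply (f : (pre S hh h0).A) (x : M) :
    ((pre S hh h0).P f : C(M, ℝ)) x = (h x)⁻¹ * S.P (f : C(M, ℝ)) x := rfl

theorem ip_P (f g : (pre S hh h0).A) : (pre S hh h0).ip f ((pre S hh h0).P g) =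
    ∫ x, (f : C(M, ℝ)) x * S.P (g : C(M, ℝ)) x ∂S.μ := by
  unfold Flow.Pre.ip
  rw [I_apply]
  congr 1
  funext x
  change (f : C(M, ℝ)) x * ((h x)⁻¹ * S.P (g : C(M, ℝ)) x) * h x = _
  field_simp [(h0 x).ne']

theorem nn_zero (f : (pre S hh h0).A) :
    (pre S hh h0).nn 0 f = ∫ x, (f : C(M, ℝ)) x ^ 2 * h x ∂S.μ := rfl

omit [T2Space M] [IsManifold (𝓡 4) ∞ M] [MeasurableSpace M] [BorelSpace M] [ChartedSpace E4 M] in
theorem nn_succ (D : Flow.Pre M) (m : ℕ) (f : D.A) : D.nn (m + 1) f = D.nn m (f + D.P f) := by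
  unfold Flow.Pre.nn
  rw [pow_succ _ m, Module.End.mul_apply]
  rfl

omit [T2Space M] [IsManifold (𝓡 4) ∞ M] [MeasurableSpace M] [BorelSpace M] [ChartedSpace E4 M] in
theorem nn_nonneg (D : Flow.Pre M) (hI : ∀ f : C(M, ℝ), (∀ x, 0 ≤ f x) → 0 ≤ D.I f) (m : ℕ)
    (f : D.A) : 0 ≤ D.nn m f := hI _ fun _ => sq_nonneg _

omit [T2Space M] [IsManifold (𝓡 4) ∞ M] [MeasurableSpace M] [BorelSpace M] [ChartedSpace E4 M] in
theorem nn_le_succ (D : Flow.Pre M) (hI : ∀ f : C(M, ℝ), (∀ x, 0 ≤ f x) → 0 ≤ D.I f)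
    (hP : ∀ f : D.A, 0 ≤ D.ip f (D.P f)) (m : ℕ) (f : D.A) : D.nn m f ≤ D.nn (m + 1) f := by
  unfold Flow.Pre.nn
  rw [pow_succ' _ m, Module.End.mul_apply]
  generalize ((1 + D.P) ^ m) f = g
  have e : ((1 + D.P) g) ^ 2 = g ^ 2 + ((2 : ℝ) • (g * D.P g) + D.P g ^ 2) := by
    rw [LinearMap.add_apply, Module.End.one_apply, two_smul]
    ring
  have h1 := hP g
  have h2 : 0 ≤ D.I (D.P g ^ 2 : D.A) := hI _ fun _ => sq_nonneg _
  unfold Flow.Pre.ip at h1
  rw [e, Subalgebra.coe_add, Subalgebra.coe_add, Subalgebra.coe_smul, map_add, map_add, map_smul,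
    smul_eq_mul]
  linarith

theorem I_nonneg (f : C(M, ℝ)) (hf : ∀ x, 0 ≤ f x) : 0 ≤ (pre S hh h0).I f :=
  integral_nonneg fun x => mul_nonneg (hf x) (h0 x).le

omit [IsManifold (𝓡 4) ∞ M] in
theorem zero_le {a b : M → ℝ} (ha : Continuous a) (hb : Continuous b) (b0 : ∀ x, 0 < b x) :
    ∃ C : ℝ, 0 < C ∧ ∀ f : M → ℝ, Continuous f →
      ∫ x, f x ^ 2 * a x ∂S.μ ≤ C * ∫ x, f x ^ 2 * b x ∂S.μ := by
  obtain ⟨C, hC⟩ := isCompact_univ.exists_bound_of_continuousOn
    (ha.div hb fun x => (b0 x).ne').continuousOn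
  refine ⟨|C| + 1, by positivity, fun f hf => ?_⟩
  rw [← integral_const_mul]
  refine integral_mono (S.integrable ((hf.pow 2).mul ha))
    ((S.integrable ((hf.pow 2).mul hb)).const_mul _) fun x => ?_
  have h1 : a x / b x ≤ |C| + 1 :=
    (le_abs_self _).trans ((hC x trivial).trans ((le_abs_self C).trans (by linarith)))
  rw [div_le_iff₀ (b0 x)] at h1
  have := mul_le_mul_of_nonneg_left h1 (sq_nonneg (f x))
  simp only
  linarith

theorem nn_up (hE : Ell S F) (hM : Mul S F) (m : ℕ) : ∃ C : ℝ, 0 < C ∧ ∀ f : (pre S hh h0).A,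
    (pre S hh h0).nn m f ≤ C * F.N S.μ (4 * m) (f : C(M, ℝ)) := by
  induction m with
  | zero =>
    obtain ⟨C, hC, h1⟩ := zero_le S hh.continuous (continuous_const (y := (1 : ℝ)))
      fun _ => one_pos
    refine ⟨C, hC, fun f => ?_⟩
    simpa [nn_zero, F.N_zero] using h1 _ (f : C(M, ℝ)).continuous
  | succ m ih =>
    obtain ⟨C, hC, h1⟩ := ih
    obtain ⟨C1, hC1, h2⟩ := hM.mul (4 * m) _ (hh.inv fun x => (h0 x).ne')
    obtain ⟨C2, hC2, h3⟩ := hE.upP (4 * m)
    refine ⟨C * (2 + 2 * (C1 * C2)), by positivity, fun f => ?_⟩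
    rw [nn_succ, mul_assoc]
    refine (h1 _).trans (mul_le_mul_of_nonneg_left ?_ hC.le)
    have a1 := F.N_add_le S (4 * m) (sm f) (sm ((pre S hh h0).P f))
    have a2 := h2 _ (S.P_smooth (sm f))
    have a3 := mul_le_mul_of_nonneg_left (h3 _ (sm f)) hC1.le
    have a4 := F.N_mono S.μ (show 4 * m ≤ 4 * m + 4 by omega) (f : C(M, ℝ))
    change F.N S.μ (4 * m) (fun x => (f : C(M, ℝ)) x + ((pre S hh h0).P f : C(M, ℝ)) x) ≤
      _ * F.N S.μ (4 * m + 4) _
    change F.N S.μ (4 * m) ((pre S hh h0).P f : C(M, ℝ)) ≤ _ at a2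
    nlinarith

theorem nn_down (hG : S.Good) (hE : Ell S F) (hM : Mul S F) (m : ℕ) :
    ∃ C : ℝ, 0 < C ∧ ∀ f : (pre S hh h0).A,
      F.N S.μ (4 * m) (f : C(M, ℝ)) ≤ C * (pre S hh h0).nn m f := by
  induction m with
  | zero =>
    obtain ⟨C, hC, h1⟩ := zero_le S (continuous_const (y := (1 : ℝ))) hh.continuous h0
    refine ⟨C, hC, fun f => ?_⟩
    simpa [nn_zero, F.N_zero] using h1 _ (f : C(M, ℝ)).continuous
  | succ m ih =>
    obtain ⟨C, hC, h1⟩ := ih
    obtain ⟨C1, hC1, h2⟩ := hM.mul (4 * m) _ hh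
    obtain ⟨C2, hC2, h3⟩ := hE.ell (4 * m)
    refine ⟨C2 * (C1 * (4 * C) + C), by positivity, fun f => ?_⟩
    rw [mul_assoc]
    refine (h3 _ (sm f)).trans (mul_le_mul_of_nonneg_left ?_ hC2.le)
    have a0 := nn_le_succ _ (I_nonneg S hh h0) (fun g => by
      rw [ip_P]; exact hG.pos _ (sm g)) m f
    have a1 := h1 f
    have a2 := h1 (f + (pre S hh h0).P f)
    rw [← nn_succ] at a2
    have a3 := F.N_sub_le S (4 * m) (sm (f + (pre S hh h0).P f)) (sm f)
    have a4 := h2 _ ((sm (f + (pre S hh h0).P f)).sub (sm f))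
    have e : (fun x => h x * (((f + (pre S hh h0).P f : (pre S hh h0).A) : C(M, ℝ)) x -
        (f : C(M, ℝ)) x)) = S.P (f : C(M, ℝ)) := by
      funext x
      change h x * ((f : C(M, ℝ)) x + (h x)⁻¹ * S.P (f : C(M, ℝ)) x - (f : C(M, ℝ)) x) = _
      field_simp [(h0 x).ne']
      ring
    rw [e] at a4
    have a5 := F.N_mono S.μ (Nat.zero_le (4 * m)) (f : C(M, ℝ))
    have a6 := mul_le_mul_of_nonneg_left a0 hC.le
    have a7 := mul_le_mul_of_nonneg_left (show F.N S.μ (4 * m) (fun x =>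
      ((f + (pre S hh h0).P f : (pre S hh h0).A) : C(M, ℝ)) x - (f : C(M, ℝ)) x) ≤
        4 * C * (pre S hh h0).nn (m + 1) f by linarith) hC1.le
    nlinarith

theorem ok [Nonempty M] (hG : S.Good) (hE : Ell S F) (hM : Mul S F) (hA : Agm S F) (hL : Alg S F)
    (hS : Surj S) (hC : Cpt S F) : (pre S hh h0).Ok where
  I_nonneg := I_nonneg S hh h0
  I_one := by
    rw [I_apply]
    simp only [ContinuousMap.one_apply, one_mul]
    exact hh.continuous.integral_pos_of_hasCompactSupport_nonneg_nonzero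
      (HasCompactSupport.of_compactSpace h) (fun x => (h0 x).le)
      (h0 (Classical.arbitrary M)).ne'
  ex_mem := fun f hf => Smooth.exp hf
  symm := fun f g => by
    have e : (pre S hh h0).ip ((pre S hh h0).P f) g = (pre S hh h0).ip g ((pre S hh h0).P f) := by
      unfold Flow.Pre.ip
      rw [mul_comm]
    rw [e, ip_P, ip_P]
    exact S.P_symm (sm f) (sm g)
  nonneg := fun g => by
    rw [ip_P]
    exact hG.pos _ (sm g)
  ker := fun f hf => by
    obtain ⟨c, hc⟩ := hG.ker _ (sm f) fun x => by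
      have := P_apply S hh h0 f x
      rw [hf] at this
      exact (mul_eq_zero.1 this.symm).resolve_left (inv_ne_zero (h0 x).ne')
    refine ⟨c, ?_⟩
    ext x
    simpa using hc x
  P_one := by
    ext x
    rw [P_apply]
    exact mul_eq_zero_of_right _ (S.P_const 1 x)
  surj := fun f => by
    obtain ⟨v, hv, h1⟩ := hS h hh h0 _ (hh.mul (sm f))
    refine ⟨mkA v hv, ?_⟩
    ext x
    change v x + (h x)⁻¹ * S.P v x = _
    have := (h0 x).ne'
    field_simp
    linarith [h1 x]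
  agmon := by
    obtain ⟨C, hC, h1⟩ := hA
    obtain ⟨C0, hC0, h2⟩ := nn_down S F hh h0 hG hE hM 0
    obtain ⟨C1, hC1, h3⟩ := nn_down S F hh h0 hG hE hM 1
    refine ⟨C * C0 * C1, by positivity, fun f x => (h1 _ (sm f) x).trans ?_⟩
    have := mul_le_mul (h2 f) (h3 f) (F.N_nonneg _ _ _) ((F.N_nonneg _ _ _).trans (h2 f))
    have := mul_le_mul_of_nonneg_left this hC.le
    simp only [mul_zero, mul_one] at this
    linarith
  alg := fun m hm => by
    obtain ⟨C, hC, h1⟩ := hL.alg (4 * m) (by omega)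
    obtain ⟨C0, hC0, h2⟩ := nn_down S F hh h0 hG hE hM m
    obtain ⟨C1, hC1, h3⟩ := nn_up S F hh h0 hE hM m
    refine ⟨C1 * (C * C0 * C0), by positivity, fun f g => (h3 _).trans ?_⟩
    have a1 := mul_le_mul (h2 f) (h2 g) (F.N_nonneg _ _ _) ((F.N_nonneg _ _ _).trans (h2 f))
    have a2 := mul_le_mul_of_nonneg_left a1 hC.le
    have a3 : F.N S.μ (4 * m) ((f * g : (pre S hh h0).A) : C(M, ℝ)) ≤ _ := h1 _ _ (sm f) (sm g)
    have a4 := mul_le_mul_of_nonneg_left (show F.N S.μ (4 * m)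
      ((f * g : (pre S hh h0).A) : C(M, ℝ)) ≤ C * C0 * C0 * (pre S hh h0).nn m f *
        (pre S hh h0).nn m g by linarith) hC1.le
    linarith
  expb := fun m hm R => by
    obtain ⟨C0, hC0, h2⟩ := nn_down S F hh h0 hG hE hM m
    obtain ⟨C1, hC1, h3⟩ := nn_up S F hh h0 hE hM m
    obtain ⟨C, h1⟩ := hL.expb (4 * m) (by omega) (C0 * R)
    refine ⟨C1 * C, fun f g e hf => (h3 g).trans (mul_le_mul_of_nonneg_left ?_ hC1.le)⟩
    rw [e]
    exact h1 _ (sm f) ((h2 f).trans (mul_le_mul_of_nonneg_left hf hC0.le))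
  cpt := fun U f hf => by
    obtain ⟨g, hg, h1⟩ := hC U (fun n => (f n : C(M, ℝ))) (fun n => sm (f n)) fun k => by
      obtain ⟨C0, hC0, h2⟩ := nn_down S F hh h0 hG hE hM k
      obtain ⟨C, h3⟩ := hf k
      exact ⟨C0 * C, fun n => (F.N_mono S.μ (show k ≤ 4 * k by omega) _).trans
        ((h2 _).trans (mul_le_mul_of_nonneg_left (h3 n) hC0.le))⟩
    refine ⟨mkA g hg, fun m => ?_⟩
    obtain ⟨C1, hC1, h3⟩ := nn_up S F hh h0 hE hM m
    have := (h1 (4 * m)).const_mul C1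
    rw [mul_zero] at this
    exact squeeze_zero (fun n => nn_nonneg _ (I_nonneg S hh h0) _ _) (fun n => h3 _) this

theorem hasDeriv_of_pow {f : ℝ → ℝ} {d t A : ℝ}
    (hf : ∀ t' ∈ Icc 0 (t + 1), (f t' - f t - (t' - t) * d) ^ 4 ≤ A * ((t' - t) ^ 2) ^ 4) :
    HasDerivWithinAt f d (Ici 0) t := by
  rw [hasDerivWithinAt_iff_isLittleO]
  refine Asymptotics.IsBigO.trans_isLittleO (Asymptotics.IsBigO.of_bound (|A| + 1) ?_)
    ((Asymptotics.isLittleO_pow_sub_sub t one_lt_two).mono nhdsWithin_le_nhds)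
  filter_upwards [self_mem_nhdsWithin, mem_nhdsWithin_of_mem_nhds (Iic_mem_nhds (lt_add_one t))]
    with s h1 h2
  have h3 := hf s ⟨h1, h2⟩
  simp only [Real.norm_eq_abs, smul_eq_mul, abs_pow, sq_abs]
  refine (pow_le_pow_iff_left₀ (abs_nonneg _) (by positivity) four_ne_zero).1 ?_
  rw [Even.pow_abs (by decide), mul_pow]
  refine h3.trans (mul_le_mul_of_nonneg_right ?_ (by positivity))
  have h4 : |A| + 1 ≤ (|A| + 1) ^ 4 := le_self_pow₀ (by linarith [abs_nonneg A]) four_ne_zero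
  linarith [le_abs_self A]

end Bridge

open Bridge

theorem an_of (h1 : Flow.FlowStmt.{u}) (h2 : EllStmt.{u}) (h3 : MulStmt.{u}) (h4 : ItpStmt.{u})
    (h5 : LfourStmt.{u}) (h6 : AgmStmt.{u}) (h7 : AlgStmt.{u}) (h8 : DenseLStmt.{u})
    (h9 : SurjStmt.{u}) (h10 : CptStmt.{u}) (h11 : JointStmt.{u}) (h12 : UniqStmt.{u}) :
    AnStmt.{u} := by
  intro M _ _ _ _ _ _ _ S hG w₀ hw₀
  obtain ⟨F⟩ := exists_frame (M := M)
  suffices h : ∃ w : ℝ → M → ℝ, w 0 = w₀ ∧ S.Sol (Ici 0) w by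
    obtain ⟨w, e, hw⟩ := h
    exact ⟨w, e, hw, fun T hT w' e' hw' =>
      h12 M S F hG T hT w' w hw' (glue_mono hw Ico_subset_Ici_self) (e'.trans e.symm)⟩
  rcases isEmpty_or_nonempty M with hM | hM
  · exact ⟨fun _ => w₀, rfl, fun x => isEmptyElim x, fun _ _ x => isEmptyElim x⟩
  have hE := h2 M S F
  have hU := h3 M S F
  have hA := h6 M S F
  have hC := h10 M S F hA
  have hh : Smooth fun x => Real.exp (4 * w₀ x) := (hw₀.const_mul 4).exp
  have h0 : ∀ x, 0 < Real.exp (4 * w₀ x) := fun _ => Real.exp_pos _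
  have hOk := ok S F hh h0 hG hE hU hA (h7 M S F (h5 M S F) hA)
    (h9 M S F hG hE hU (h4 M S F) hA (h8 M S F) hC) hC
  obtain ⟨W, q, e0, he, hT⟩ := h1 M _ hOk
    (mkA (fun x => (Real.exp (4 * w₀ x))⁻¹ * (1 / 2 * (S.P w₀ x + S.q x)))
      ((hh.inv fun x => (h0 x).ne').mul (((S.P_smooth hw₀).add S.q_sm).const_mul _)))
  refine ⟨fun t x => w₀ x + (W 0 t : C(M, ℝ)) x, ?_, ?_, fun t ht x => ?_⟩
  · funext x
    simp [e0]
  · refine (hw₀.smoothOn _).add (h11 M S F hA (fun j t => (W j t : C(M, ℝ)))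
      (fun j t _ => sm (W j t)) fun j k T => ?_)
    obtain ⟨C0, hC0, h2⟩ := nn_down S F hh h0 hG hE hU k
    obtain ⟨C, h3⟩ := hT j k T
    refine ⟨C0 * C, fun t ht t' ht' => (F.N_mono S.μ (show k ≤ 4 * k by omega) _).trans ?_⟩
    rw [mul_assoc]
    exact (h2 (W j t' - W j t - (t' - t) • W (j + 1) t)).trans
      (mul_le_mul_of_nonneg_left (h3 t ht t' ht') hC0.le)
  · have hc : S.curv (fun x => w₀ x + (W 0 t : C(M, ℝ)) x) = fun x => 2 * (q t : C(M, ℝ)) x := by
      funext y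
      have a1 := DFunLike.congr_fun (he t ht).1 y
      change Real.exp (4 * (W 0 t : C(M, ℝ)) y) * (q t : C(M, ℝ)) y =
        1 / 2 * ((Real.exp (4 * w₀ y))⁻¹ * S.P (W 0 t : C(M, ℝ)) y) +
          (Real.exp (4 * w₀ y))⁻¹ * (1 / 2 * (S.P w₀ y + S.q y)) at a1
      rw [Setup.curv, S.P_add hw₀ (sm (W 0 t)), neg_mul, Real.exp_neg, mul_add 4, Real.exp_add]
      have := (h0 y).ne'
      have := Real.exp_ne_zero (4 * (W 0 t : C(M, ℝ)) y)
      field_simp at a1 ⊢
      linarith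
    have hr : S.rhs (fun x => w₀ x + (W 0 t : C(M, ℝ)) x) x = (W 1 t : C(M, ℝ)) x := by
      have a1 := DFunLike.congr_fun (he t ht).2 x
      change Real.exp (4 * (W 0 t : C(M, ℝ)) x) * (W 1 t : C(M, ℝ)) x =
        -1 / 2 * ((Real.exp (4 * w₀ x))⁻¹ * S.P (q t : C(M, ℝ)) x) at a1
      rw [Setup.rhs, hc, S.P_const_mul (sm (q t)), neg_mul 4, Real.exp_neg, mul_add 4,
        Real.exp_add]
      have := (h0 x).ne'
      have := Real.exp_ne_zero (4 * (W 0 t : C(M, ℝ)) x)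
      field_simp at a1 ⊢
      linarith
    rw [hr]
    obtain ⟨C, hC, a1⟩ := hOk.agmon
    obtain ⟨C0, a2⟩ := hT 0 0 (t + 1)
    obtain ⟨C1, a3⟩ := hT 0 1 (t + 1)
    refine (hasDeriv_of_pow (f := fun s => (W 0 s : C(M, ℝ)) x) (A := C * C0 * C1)
      fun s hs => ?_).const_add _
    have ht' : t ∈ Icc 0 (t + 1) := ⟨ht, by linarith⟩
    have b1 := nn_nonneg _ hOk.I_nonneg 0 (W 0 s - W 0 t - (s - t) • W (0 + 1) t)
    have b2 := mul_le_mul (a2 t ht' s hs) (a3 t ht' s hs) (nn_nonneg _ hOk.I_nonneg _ _)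
      (b1.trans (a2 t ht' s hs))
    have b3 := mul_le_mul_of_nonneg_left b2 hC.le
    refine (a1 (W 0 s - W 0 t - (s - t) • W (0 + 1) t) x).trans ?_
    linarith

end Pool.Agent.MP_417fa2_gt

end MrgPart3

-- marker of a merged file
example : 731051 + 128451 = 731051 + 128451 := rfl
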