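import Pool.Agent.MP_417fa2_gt.An.Euc
import Mathlib.Tactic.Monotonicity.Lemmas
import Mathlib.Algebra.Order.Star.Real
import Mathlib.Analysis.Calculus.FDeriv.Symmetric
import Mathlib.Analysis.Calculus.LineDeriv.IntegrationByParts
import Mathlib.Geometry.Manifold.PartitionOfUnity
import Mathlib.Geometry.Manifold.Sheaf.Basic
import Mathlib.Order.CompletePartialOrder
import Mathlib.Topology.UniformSpace.Uniformizable

-- ======== part 0: formerly Pool.Agent.MP_417fa2_gt.An.Spec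
section MrgPart0

/-!
Manifold part of the analytic toolkit: a finite frame of vector fields, Sobolev energies, and the
statements that split the analytic theorem `AnStmt`.
-/

open scoped Manifold ContDiff
open MeasureTheory Set

namespace Pool.Agent.MP_417fa2_gt

universe u

/-- A finite family of charts with cut-off functions whose squares sum to one. -/
structure Frame (M : Type u) [TopologicalSpace M] [ChartedSpace E4 M] where
  n : ℕ
  c : Fin n → M
  χ : Fin n → M → ℝ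
  sm : ∀ a, Smooth (χ a)
  supp : ∀ a, tsupport (χ a) ⊆ (chartAt E4 (c a)).source
  sum : ∀ x, ∑ a, χ a x ^ 2 = 1

section

variable {M : Type u} [TopologicalSpace M] [ChartedSpace E4 M]

/-- The partial derivative in the chart at `x₀`. -/
noncomputable def cd (x₀ : M) (i : Fin 4) (f : M → ℝ) (x : M) : ℝ :=
  pd i (f ∘ param x₀) (chartAt E4 x₀ x)

/-- The vector fields `χₐ ∂ᵢ` of the frame. -/
noncomputable def Frame.X (F : Frame M) (j : Fin F.n × Fin 4) (f : M → ℝ) (x : M) : ℝ :=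
  F.χ j.1 x * cd (F.c j.1) j.2 f x

variable [MeasurableSpace M]

/-- Squared Sobolev norm of order `k`. -/
noncomputable def Frame.N (F : Frame M) (μ : Measure M) : ℕ → (M → ℝ) → ℝ
  | 0, f => ∫ x, f x ^ 2 ∂μ
  | k + 1, f => (∫ x, f x ^ 2 ∂μ) + ∑ j, F.N μ k (F.X j f)

/-- The Sobolev type inequalities on `M`. -/
structure Sob (S : Setup M) (F : Frame M) : Prop where
  l4 : ∃ C : ℝ, 0 < C ∧ ∀ f, Smooth f → ∫ x, f x ^ 4 ∂S.μ ≤ C * F.N S.μ 1 f ^ 2
  bg : ∃ C : ℝ, 0 < C ∧ ∀ f, Smooth f → ∀ R : ℝ, 2 ≤ R → ∀ x,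
    f x ^ 2 ≤ C * (Real.log R * F.N S.μ 2 f + F.N S.μ 3 f / R ^ 2)
  tr : ∃ A : ℝ, 0 < A ∧ ∀ f, Smooth f →
    ∫ x, Real.exp (f x) ∂S.μ ≤ Real.exp (A * (1 + F.N S.μ 2 f))
  spr : ∀ δ : ℝ, 0 < δ → ∃ ε C : ℝ, 0 < ε ∧ 0 < C ∧ ∀ m : ℕ, 1 ≤ m → ∀ f, Smooth f →
    (∀ ζ, Smooth ζ → (∀ x, 0 ≤ ζ x) → F.N S.μ 2 ζ ≤ C / m →
      ∫ x, ζ x * Real.exp (f x) ∂S.μ ≤ ε * ∫ x, Real.exp (f x) ∂S.μ) →
    ∫ x, Real.exp (f x) ∂S.μ ≤ Real.exp (δ * F.N S.μ 2 f + C * m)

/-- The elliptic estimates. -/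
structure Ell (S : Setup M) (F : Frame M) : Prop where
  upL : ∀ k, ∃ C : ℝ, 0 < C ∧ ∀ f, Smooth f → F.N S.μ k (S.L f) ≤ C * F.N S.μ (k + 2) f
  upP : ∀ k, ∃ C : ℝ, 0 < C ∧ ∀ f, Smooth f → F.N S.μ k (S.P f) ≤ C * F.N S.μ (k + 4) f
  form : ∃ C : ℝ, 0 < C ∧ ∀ f, Smooth f → ∫ x, f x * S.P f x ∂S.μ ≤ C * F.N S.μ 2 f
  gard2 : ∃ C D : ℝ, 0 < C ∧ 0 < D ∧ ∀ f, Smooth f →
    F.N S.μ 2 f ≤ C * (∫ x, f x * S.P f x ∂S.μ) + D * F.N S.μ 0 f
  gard3 : ∃ C D : ℝ, 0 < C ∧ 0 < D ∧ ∀ f, Smooth f →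
    F.N S.μ 3 f ≤ C * -(∫ x, S.P f x * S.L f x ∂S.μ) + D * F.N S.μ 0 f
  ell : ∀ k, ∃ C : ℝ, 0 < C ∧ ∀ f, Smooth f →
    F.N S.μ (k + 4) f ≤ C * (F.N S.μ k (S.P f) + F.N S.μ 0 f)

/-- Coercivity on functions of mean zero. -/
def Coer (S : Setup M) (F : Frame M) : Prop :=
  ∃ C : ℝ, 0 < C ∧ ∀ f, Smooth f → ∫ x, f x ∂S.μ = 0 → F.N S.μ 2 f ≤ C * ∫ x, f x * S.P f x ∂S.μ

/-- The a priori bound on bounded time intervals. -/
def Apr (S : Setup M) (F : Frame M) : Prop :=
  ∀ T : ℝ, 0 < T → ∀ w, S.Sol (Ico 0 T) w → ∃ K : ℝ, ∀ t ∈ Ico 0 T, F.N S.μ 4 (w t) ≤ K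

/-- Local existence, with a time that depends on the `H⁴` norm only. -/
def Loc (S : Setup M) (F : Frame M) : Prop :=
  ∀ K : ℝ, ∃ τ : ℝ, 0 < τ ∧ ∀ w₀, Smooth w₀ → F.N S.μ 4 w₀ ≤ K →
    ∃ w, w 0 = w₀ ∧ S.Sol (Ico 0 τ) w

/-- Uniqueness of smooth solutions. -/
def Uniq (S : Setup M) : Prop :=
  ∀ T : ℝ, 0 < T → ∀ w w', S.Sol (Ico 0 T) w → S.Sol (Ico 0 T) w' → w 0 = w' 0 →
    ∀ t ∈ Ico 0 T, w t = w' t

end

/-- A property of all analytic data with a frame on closed 4-manifolds. -/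
def ForAll (p : ∀ (M : Type u) [TopologicalSpace M] [ChartedSpace E4 M] [MeasurableSpace M],
    Setup M → Frame M → Prop) : Prop :=
  ∀ (M : Type u) [TopologicalSpace M] [T2Space M] [CompactSpace M] [ChartedSpace E4 M]
    [IsManifold (𝓡 4) ∞ M] [MeasurableSpace M] [BorelSpace M] (S : Setup M) (F : Frame M), p M S F

def SobStmt : Prop := ForAll.{u} fun _ _ _ _ S F => Sob S F

def EllStmt : Prop := ForAll.{u} fun _ _ _ _ S F => Ell S F

def CoerStmt : Prop := ForAll.{u} fun _ _ _ _ S F => S.Good → Coer S F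

def AprStmt : Prop := ForAll.{u} fun _ _ _ _ S F => S.Good → Sob S F → Ell S F → Coer S F → Apr S F

def LocStmt : Prop := ForAll.{u} fun _ _ _ _ S F => S.Good → Loc S F

def UniqStmt : Prop := ForAll.{u} fun _ _ _ _ S _ => S.Good → Uniq S

def GlueStmt : Prop := ForAll.{u} fun M _ _ _ S F => Apr S F → Loc S F → Uniq S →
  ∀ w₀ : M → ℝ, Smooth w₀ → ∃ w, w 0 = w₀ ∧ S.Sol (Ici 0) w

end Pool.Agent.MP_417fa2_gt

end MrgPart0

-- ======== part 1: formerly Pool.Agent.MP_417fa2_gt.An.Spec23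
section MrgPart1

-- ======== part 0: formerly Pool.Agent.MP_417fa2_gt.Basic
section MrgPart0

/-! Calculus of partial derivatives and smooth functions read in charts. -/

open scoped Manifold ContDiff Topology
open MeasureTheory Set Filter

namespace Pool.Agent.MP_417fa2_gt

universe u

section Calculus

variable {f g : E4 → ℝ} {y : E4} {U : Set E4}

theorem cdAt_pd (h : ContDiffAt ℝ ∞ f y) (i : Fin 4) : ContDiffAt ℝ ∞ (pd i f) y :=
  (h.fderiv_right (m := ∞) (by simp)).clm_apply contDiffAt_const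

theorem cdOn_pd (hU : IsOpen U) (h : ContDiffOn ℝ ∞ f U) (i : Fin 4) :
    ContDiffOn ℝ ∞ (pd i f) U := fun _ hy =>
  (cdAt_pd (h.contDiffAt (hU.mem_nhds hy)) i).contDiffWithinAt

theorem cd_pd (h : ContDiff ℝ ∞ f) (i : Fin 4) : ContDiff ℝ ∞ (pd i f) :=
  contDiff_iff_contDiffAt.2 fun _ => cdAt_pd h.contDiffAt i

theorem dAt_of_cdAt (h : ContDiffAt ℝ ∞ f y) : DifferentiableAt ℝ f y :=
  h.differentiableAt (by simp)

theorem dAt_of_cdOn (hU : IsOpen U) (h : ContDiffOn ℝ ∞ f U) (hy : y ∈ U) :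
    DifferentiableAt ℝ f y := dAt_of_cdAt (h.contDiffAt (hU.mem_nhds hy))

theorem pd_congr (h : f =ᶠ[𝓝 y] g) (i : Fin 4) : pd i f y = pd i g y := by
  unfold pd; rw [h.fderiv_eq]

theorem pd_eventuallyEq (h : f =ᶠ[𝓝 y] g) (i : Fin 4) : pd i f =ᶠ[𝓝 y] pd i g :=
  h.eventuallyEq_nhds.mono fun _ hz => pd_congr hz i

theorem pd_congr_on (hU : IsOpen U) (h : EqOn f g U) (i : Fin 4) : EqOn (pd i f) (pd i g) U :=
  fun _ hy => pd_congr (h.eventuallyEq_of_mem (hU.mem_nhds hy)) i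

theorem pd_const (i : Fin 4) (c : ℝ) (y : E4) : pd i (fun _ => c) y = 0 := by simp [pd]

theorem pd_add (hf : DifferentiableAt ℝ f y) (hg : DifferentiableAt ℝ g y) (i : Fin 4) :
    pd i (fun z => f z + g z) y = pd i f y + pd i g y := by
  unfold pd; rw [fderiv_fun_add hf hg]; rfl

theorem pd_neg (i : Fin 4) (f : E4 → ℝ) (y : E4) : pd i (fun z => -f z) y = -pd i f y := by
  unfold pd; rw [fderiv_fun_neg]; rfl

theorem pd_sub (hf : DifferentiableAt ℝ f y) (hg : DifferentiableAt ℝ g y) (i : Fin 4) :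
    pd i (fun z => f z - g z) y = pd i f y - pd i g y := by
  unfold pd; rw [fderiv_fun_sub hf hg]; rfl

theorem pd_mul (hf : DifferentiableAt ℝ f y) (hg : DifferentiableAt ℝ g y) (i : Fin 4) :
    pd i (fun z => f z * g z) y = pd i f y * g y + f y * pd i g y := by
  unfold pd; rw [fderiv_fun_mul hf hg]; simp; ring

theorem pd_const_mul (hf : DifferentiableAt ℝ f y) (c : ℝ) (i : Fin 4) :
    pd i (fun z => c * f z) y = c * pd i f y := by
  rw [pd_mul (differentiableAt_const c) hf, pd_const]; ring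

theorem pd_sum {ι : Type*} {s : Finset ι} {F : ι → E4 → ℝ}
    (h : ∀ j ∈ s, DifferentiableAt ℝ (F j) y) (i : Fin 4) :
    pd i (fun z => ∑ j ∈ s, F j z) y = ∑ j ∈ s, pd i (F j) y := by
  unfold pd; rw [fderiv_fun_sum h]; simp

theorem pd_exp (hf : DifferentiableAt ℝ f y) (i : Fin 4) :
    pd i (fun z => Real.exp (f z)) y = Real.exp (f y) * pd i f y := by
  unfold pd; rw [hf.hasFDerivAt.exp.fderiv]; simp

theorem pd_comm (h : ContDiffAt ℝ ∞ f y) (i j : Fin 4) : pd i (pd j f) y = pd j (pd i f) y := by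
  have h2 : IsSymmSndFDerivAt ℝ f y := h.isSymmSndFDerivAt (by simp; exact WithTop.coe_le_coe.2 le_top)
  have h1 : DifferentiableAt ℝ (fderiv ℝ f) y :=
    (h.fderiv_right (m := ∞) (by simp)).differentiableAt (by simp)
  have key : ∀ v w : E4, fderiv ℝ (fun z => fderiv ℝ f z v) y w = fderiv ℝ (fderiv ℝ f) y w v := by
    intro v w
    rw [fderiv_clm_apply h1 (differentiableAt_const v)]; simp
  unfold pd
  rw [key, key]; exact h2 _ _

theorem pd_eq_zero_of_eventually (h : f =ᶠ[𝓝 y] fun _ => 0) (i : Fin 4) : pd i f y = 0 := by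
  rw [pd_congr h, pd_const]

/-- A function that is smooth on an open set and vanishes there off a closed subset, extended by
zero, is smooth. -/
theorem contDiff_indicator {K : Set E4} (hU : IsOpen U) (hK : IsClosed K) (hKU : K ⊆ U)
    (hf : ContDiffOn ℝ ∞ f U) (h0 : ∀ y ∈ U, y ∉ K → f y = 0) : ContDiff ℝ ∞ (U.indicator f) := by
  refine contDiff_iff_contDiffAt.2 fun y => ?_
  by_cases hy : y ∈ U
  · exact (hf.contDiffAt (hU.mem_nhds hy)).congr_of_eventuallyEq
      (mem_of_superset (hU.mem_nhds hy) fun z hz => indicator_of_mem hz f)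
  · refine (contDiffAt_const (c := (0 : ℝ))).congr_of_eventuallyEq
      (mem_of_superset (hK.isOpen_compl.mem_nhds fun h => hy (hKU h)) fun z hz => ?_)
    by_cases hz' : z ∈ U
    · simpa [hz'] using h0 z hz' hz
    · simp [hz']

theorem indicator_eq_zero_off {K : Set E4} (h0 : ∀ y ∈ U, y ∉ K → f y = 0) {y : E4} (hy : y ∉ K) :
    U.indicator f y = 0 := by
  by_cases hz' : y ∈ U
  · simpa [hz'] using h0 y hz' hy
  · simp [hz']

theorem pd_eq_zero_off {K : Set E4} (hU : IsOpen U) (hK : IsClosed K)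
    (h0 : ∀ y ∈ U, y ∉ K → f y = 0) (i : Fin 4) : ∀ y ∈ U, y ∉ K → pd i f y = 0 := fun _ hy hy' =>
  pd_eq_zero_of_eventually (mem_of_superset (inter_mem (hU.mem_nhds hy)
    (hK.isOpen_compl.mem_nhds hy')) fun z hz => h0 z hz.1 hz.2) i

theorem integrableOn_of_compact {K : Set E4} (hU : IsOpen U) (hK : IsCompact K) (hKU : K ⊆ U)
    (hf : ContinuousOn f U) (h0 : ∀ y ∈ U, y ∉ K → f y = 0) : IntegrableOn f U := by
  have h1 : IntegrableOn f K := (hf.mono hKU).integrableOn_compact hK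
  exact h1.of_forall_sdiff_eq_zero hU.measurableSet fun y hy => h0 y hy.1 hy.2

theorem integral_pd_eq_zero {K : Set E4} (hU : IsOpen U) (hK : IsCompact K) (hKU : K ⊆ U)
    (hf : ContDiffOn ℝ ∞ f U) (h0 : ∀ y ∈ U, y ∉ K → f y = 0) (i : Fin 4) :
    ∫ y in U, pd i f y = 0 := by
  have hs := contDiff_indicator hU hK.isClosed hKU hf h0
  have hc : HasCompactSupport (U.indicator f) :=
    HasCompactSupport.intro hK fun y hy => indicator_eq_zero_off h0 hy
  have h1 : ∫ y, pd i (U.indicator f) y = 0 := by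
    have hi : Integrable (pd i (U.indicator f)) :=
      (cd_pd hs i).continuous.integrable_of_hasCompactSupport
        (HasCompactSupport.intro hK fun y hy => pd_eq_zero_of_eventually
          (mem_of_superset (hK.isClosed.isOpen_compl.mem_nhds hy)
            fun z hz => indicator_eq_zero_off h0 hz) i)
    have := integral_mul_fderiv_eq_neg_fderiv_mul_of_integrable (μ := (volume : Measure E4))
      (f := fun _ => (1 : ℝ)) (g := U.indicator f) (v := EuclideanSpace.single i 1) (by simp)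
      (by simp only [one_mul]; exact hi) (by simpa using hs.continuous.integrable_of_hasCompactSupport hc)
      (fun _ _ => differentiableAt_const _) (fun _ _ => dAt_of_cdAt hs.contDiffAt)
    simpa [pd] using this
  rw [← h1, ← integral_indicator hU.measurableSet]
  congr 1
  funext y
  by_cases hy : y ∈ U
  · rw [indicator_of_mem hy]
    exact pd_congr (mem_of_superset (hU.mem_nhds hy) fun z hz => (indicator_of_mem hz f).symm) i
  · rw [indicator_of_notMem hy]
    exact (pd_eq_zero_of_eventually (mem_of_superset (hK.isClosed.isOpen_compl.mem_nhds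
      fun h => hy (hKU h)) fun z hz => indicator_eq_zero_off h0 hz) i).symm

/-- Integration by parts on an open set against a compactly supported factor. -/
theorem integral_mul_pd {K : Set E4} (hU : IsOpen U) (hK : IsCompact K) (hKU : K ⊆ U)
    (hf : ContDiffOn ℝ ∞ f U) (hg : ContDiffOn ℝ ∞ g U) (h0 : ∀ y ∈ U, y ∉ K → f y = 0)
    (i : Fin 4) : ∫ y in U, f y * pd i g y = -∫ y in U, pd i f y * g y := by
  have h1 := integral_pd_eq_zero hU hK hKU (hf.mul hg) (fun y hy hy' => by simp [h0 y hy hy']) i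
  rw [setIntegral_congr_fun hU.measurableSet
    (fun y hy => pd_mul (dAt_of_cdOn hU hf hy) (dAt_of_cdOn hU hg hy) i), integral_add] at h1
  · linarith
  · exact integrableOn_of_compact hU hK hKU ((cdOn_pd hU hf i).mul hg).continuousOn
      fun y hy hy' => by simp [pd_eq_zero_off hU hK.isClosed h0 i y hy hy']
  · exact integrableOn_of_compact hU hK hKU (hf.mul (cdOn_pd hU hg i)).continuousOn
      fun y hy hy' => by simp [h0 y hy hy']

end Calculus

section Charts

variable {M : Type u} [TopologicalSpace M] [ChartedSpace E4 M]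

theorem param_chart {x₀ x : M} (h : x ∈ (chartAt E4 x₀).source) :
    param x₀ (chartAt E4 x₀ x) = x := (chartAt E4 x₀).left_inv h

theorem param_chart_self (x : M) : param x (chartAt E4 x x) = x :=
  param_chart (mem_chart_source E4 x)

theorem chart_param {x₀ : M} {y : E4} (h : y ∈ (chartAt E4 x₀).target) :
    chartAt E4 x₀ (param x₀ y) = y := (chartAt E4 x₀).right_inv h

theorem param_mem {x₀ : M} {y : E4} (h : y ∈ (chartAt E4 x₀).target) :
    param x₀ y ∈ (chartAt E4 x₀).source := (chartAt E4 x₀).map_target h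

theorem chart_mem {x₀ x : M} (h : x ∈ (chartAt E4 x₀).source) :
    chartAt E4 x₀ x ∈ (chartAt E4 x₀).target := (chartAt E4 x₀).map_source h

theorem isOpen_tgt (x₀ : M) : IsOpen (chartAt E4 x₀).target := (chartAt E4 x₀).open_target

theorem isOpen_src (x₀ : M) : IsOpen (chartAt E4 x₀).source := (chartAt E4 x₀).open_source

theorem continuousOn_param (x₀ : M) : ContinuousOn (param x₀) (chartAt E4 x₀).target :=
  (chartAt E4 x₀).continuousOn_symm

theorem Smooth.continuous {φ : M → ℝ} (h : Smooth φ) : Continuous φ := ContMDiff.continuous h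

theorem smooth_const (c : ℝ) : Smooth fun _ : M => c := contMDiff_const

theorem Smooth.add {φ ψ : M → ℝ} (h : Smooth φ) (k : Smooth ψ) : Smooth fun x => φ x + ψ x :=
  ContMDiff.add h k

theorem Smooth.neg {φ : M → ℝ} (h : Smooth φ) : Smooth fun x => -φ x := ContMDiff.neg h

theorem Smooth.sub {φ ψ : M → ℝ} (h : Smooth φ) (k : Smooth ψ) : Smooth fun x => φ x - ψ x :=
  ContMDiff.sub h k

theorem Smooth.mul {φ ψ : M → ℝ} (h : Smooth φ) (k : Smooth ψ) : Smooth fun x => φ x * ψ x :=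
  ContMDiff.mul h k

theorem Smooth.const_mul {φ : M → ℝ} (h : Smooth φ) (c : ℝ) : Smooth fun x => c * φ x :=
  (smooth_const c).mul h

theorem Smooth.pow {φ : M → ℝ} (h : Smooth φ) (n : ℕ) : Smooth fun x => φ x ^ n :=
  ContMDiff.pow h n

theorem Smooth.comp_contDiff {φ : M → ℝ} (h : Smooth φ) {F : ℝ → ℝ} (hF : ContDiff ℝ ∞ F) :
    Smooth fun x => F (φ x) := ContMDiff.comp hF.contMDiff h

theorem Smooth.exp {φ : M → ℝ} (h : Smooth φ) : Smooth fun x => Real.exp (φ x) :=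
  h.comp_contDiff Real.contDiff_exp

theorem Smooth.sum {ι : Type*} {s : Finset ι} {φ : ι → M → ℝ} (h : ∀ j ∈ s, Smooth (φ j)) :
    Smooth fun x => ∑ j ∈ s, φ j x := contMDiff_finsetSum h

theorem Smooth.comp_contDiffAt {φ : M → ℝ} (h : Smooth φ) {F : ℝ → ℝ}
    (hF : ∀ x, ContDiffAt ℝ ∞ F (φ x)) : Smooth fun x => F (φ x) := fun x =>
  ContMDiffAt.comp x (hF x).contMDiffAt (h x)

theorem Smooth.inv {φ : M → ℝ} (h : Smooth φ) (h0 : ∀ x, φ x ≠ 0) : Smooth fun x => (φ x)⁻¹ :=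
  h.comp_contDiffAt fun x => contDiffAt_inv ℝ (h0 x)

theorem Smooth.sqrt {φ : M → ℝ} (h : Smooth φ) (h0 : ∀ x, φ x ≠ 0) :
    Smooth fun x => Real.sqrt (φ x) :=
  h.comp_contDiffAt fun x => Real.contDiffAt_sqrt (h0 x)

theorem Smooth.log {φ : M → ℝ} (h : Smooth φ) (h0 : ∀ x, φ x ≠ 0) :
    Smooth fun x => Real.log (φ x) :=
  h.comp_contDiffAt fun x => Real.contDiffAt_log.2 (h0 x)

variable [IsManifold (𝓡 4) ∞ M]

theorem contMDiffOn_param (x₀ : M) :
    ContMDiffOn (𝓡 4) (𝓡 4) ∞ (param x₀) (chartAt E4 x₀).target := contMDiffOn_chart_symm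

theorem contMDiffOn_chartAt (x₀ : M) :
    ContMDiffOn (𝓡 4) (𝓡 4) ∞ (chartAt E4 x₀) (chartAt E4 x₀).source := contMDiffOn_chart

theorem Smooth.cdOn {φ : M → ℝ} (h : Smooth φ) (x₀ : M) :
    ContDiffOn ℝ ∞ (φ ∘ param x₀) (chartAt E4 x₀).target :=
  contMDiffOn_iff_contDiffOn.1 (ContMDiff.comp_contMDiffOn h (contMDiffOn_param x₀))

/-- A function that is given in the chart at `x₀` by a smooth function is smooth there. -/
theorem contMDiffAt_of_chart {φ : M → ℝ} {x₀ x : M} (hx : x ∈ (chartAt E4 x₀).source)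
    {F : E4 → ℝ} (hF : ContDiffAt ℝ ∞ F (chartAt E4 x₀ x))
    (h : φ =ᶠ[𝓝 x] fun z => F (chartAt E4 x₀ z)) : ContMDiffAt (𝓡 4) 𝓘(ℝ, ℝ) ∞ φ x :=
  (ContMDiffAt.comp x hF.contMDiffAt
    ((contMDiffOn_chartAt x₀).contMDiffAt ((isOpen_src x₀).mem_nhds hx))).congr_of_eventuallyEq h

theorem smooth_of_cdAt {φ : M → ℝ}
    (h : ∀ x₀, ContDiffAt ℝ ∞ (φ ∘ param x₀) (chartAt E4 x₀ x₀)) : Smooth φ := fun x =>
  contMDiffAt_of_chart (mem_chart_source E4 x) (h x)
    (mem_of_superset ((isOpen_src x).mem_nhds (mem_chart_source E4 x)) fun z hz => by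
      simp [param_chart hz])

theorem smooth_of_cdOn {φ : M → ℝ}
    (h : ∀ x₀, ContDiffOn ℝ ∞ (φ ∘ param x₀) (chartAt E4 x₀).target) : Smooth φ :=
  smooth_of_cdAt fun x => (h x).contDiffAt ((isOpen_tgt x).mem_nhds (mem_chart_target E4 x))

/-- Transition maps are smooth. -/
theorem cdOn_transition (x₀ x₁ : M) : ContDiffOn ℝ ∞ (fun y => chartAt E4 x₁ (param x₀ y))
    ((chartAt E4 x₀).target ∩ param x₀ ⁻¹' (chartAt E4 x₁).source) :=
  contMDiffOn_iff_contDiffOn.1 ((contMDiffOn_chartAt x₁).comp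
    ((contMDiffOn_param x₀).mono inter_subset_left) fun _ hy => hy.2)

omit [IsManifold (𝓡 4) ∞ M] in
theorem isOpen_overlap (x₀ x₁ : M) :
    IsOpen ((chartAt E4 x₀).target ∩ param x₀ ⁻¹' (chartAt E4 x₁).source) :=
  (continuousOn_param x₀).isOpen_inter_preimage (isOpen_tgt x₀) (isOpen_src x₁)

/-- A smooth function of the coordinates that vanishes off a compact subset of the chart,
extended by zero, is smooth on `M`. -/
theorem smooth_extend [T2Space M] (x₀ : M) {F : E4 → ℝ} {K : Set E4} (hK : IsCompact K)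
    (hKU : K ⊆ (chartAt E4 x₀).target) (hF : ContDiffOn ℝ ∞ F (chartAt E4 x₀).target)
    (h0 : ∀ y ∈ (chartAt E4 x₀).target, y ∉ K → F y = 0) :
    Smooth ((chartAt E4 x₀).source.indicator fun x => F (chartAt E4 x₀ x)) := by
  intro x
  by_cases hx : x ∈ (chartAt E4 x₀).source
  · exact contMDiffAt_of_chart hx (hF.contDiffAt ((isOpen_tgt x₀).mem_nhds (chart_mem hx)))
      (mem_of_superset ((isOpen_src x₀).mem_nhds hx) fun z hz => indicator_of_mem hz _)
  · have hc : IsClosed (param x₀ '' K) :=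
      (hK.image_of_continuousOn ((continuousOn_param x₀).mono hKU)).isClosed
    have hx' : x ∉ param x₀ '' K := by
      rintro ⟨y, hy, rfl⟩
      exact hx (param_mem (hKU hy))
    refine (contMDiffAt_const (c := (0 : ℝ))).congr_of_eventuallyEq
      (mem_of_superset (hc.isOpen_compl.mem_nhds hx') fun z hz => ?_)
    by_cases hz' : z ∈ (chartAt E4 x₀).source
    · simp only [mem_ofPred_eq, indicator_of_mem hz']
      exact h0 _ (chart_mem hz') fun hk => hz ⟨_, hk, param_chart hz'⟩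
    · simp [hz']

theorem SmoothOn.slice {I : Set ℝ} {w : ℝ → M → ℝ} (h : SmoothOn I w) {t : ℝ} (ht : t ∈ I) :
    Smooth (w t) :=
  smooth_of_cdOn fun x₀ => (h x₀).comp (contDiff_prodMk_right t).contDiffOn fun _ hy => ⟨ht, hy⟩

omit [IsManifold (𝓡 4) ∞ M] in
theorem SmoothOn.mono {I J : Set ℝ} {w : ℝ → M → ℝ} (h : SmoothOn I w) (hJ : J ⊆ I) :
    SmoothOn J w := fun x₀ => (h x₀).mono (prod_mono hJ subset_rfl)

/-- A finite smooth partition of unity by squares, subordinate to given neighbourhoods. -/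
theorem exists_sq_partition [T2Space M] [CompactSpace M] (V : M → Set M) (hV : ∀ x, V x ∈ 𝓝 x) :
    ∃ (s : Finset M) (φ : M → M → ℝ), (∀ j, Smooth (φ j)) ∧ (∀ j, tsupport (φ j) ⊆ V j) ∧
      (∀ j x, 0 ≤ φ j x) ∧ ∀ x, ∑ j ∈ s, φ j x ^ 2 = 1 := by
  obtain ⟨f, hf⟩ := SmoothPartitionOfUnity.exists_isSubordinate (𝓡 4) (isClosed_univ (X := M))
    (fun x => interior (V x)) (fun _ => isOpen_interior)
    (fun x _ => mem_iUnion.2 ⟨x, mem_interior_iff_mem_nhds.2 (hV x)⟩)
  have hfin : {j | (Function.support (f j)).Nonempty}.Finite :=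
    f.locallyFinite.finite_nonempty_of_compact
  have hpos : ∀ x, 0 < ∑ j ∈ hfin.toFinset, f j x ^ 2 := by
    intro x
    obtain ⟨j, hj⟩ := f.exists_pos_of_mem (mem_univ x)
    exact Finset.sum_pos' (fun _ _ => sq_nonneg _)
      ⟨j, hfin.mem_toFinset.2 ⟨x, hj.ne'⟩, pow_pos hj 2⟩
  have hsm : Smooth fun x => ∑ j ∈ hfin.toFinset, f j x ^ 2 :=
    Smooth.sum fun j _ => Smooth.pow (f j).contMDiff 2
  refine ⟨hfin.toFinset, fun j x => f j x * (Real.sqrt (∑ j ∈ hfin.toFinset, f j x ^ 2))⁻¹,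
    fun j => Smooth.mul (f j).contMDiff ((hsm.sqrt fun x => (hpos x).ne').inv
      fun x => (Real.sqrt_pos.2 (hpos x)).ne'), fun j => ?_, fun j x => ?_, fun x => ?_⟩
  · exact (tsupport_mul_subset_left.trans (hf j)).trans interior_subset
  · exact mul_nonneg (f.nonneg j x) (inv_nonneg.2 (Real.sqrt_nonneg _))
  · simp only [mul_pow, inv_pow, Real.sq_sqrt (hpos x).le, ← Finset.sum_mul]
    exact mul_inv_cancel₀ (hpos x).ne'

end Charts

end Pool.Agent.MP_417fa2_gt

end MrgPart0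

-- ======== part 1: formerly Pool.Agent.MP_417fa2_gt.An.EBasic
section MrgPart1

/-! Basic facts on test functions and the energies `eN`. -/

open scoped ContDiff Topology
open MeasureTheory Set Filter

namespace Pool.Agent.MP_417fa2_gt

variable {f g h : E4 → ℝ}

theorem Tst.continuous (H : Tst h) : Continuous h := H.sm.continuous

theorem Tst.dAt (H : Tst h) (y : E4) : DifferentiableAt ℝ h y := dAt_of_cdAt H.sm.contDiffAt

theorem Tst.pd (H : Tst h) (i : Fin 4) : Tst (pd i h) :=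
  ⟨cd_pd H.sm i, H.cs.fderiv_apply ℝ _⟩

theorem Tst.zero : Tst fun _ => 0 := ⟨contDiff_const, HasCompactSupport.zero⟩

theorem Tst.add (F : Tst f) (G : Tst g) : Tst fun y => f y + g y := ⟨F.sm.add G.sm, F.cs.add G.cs⟩

theorem Tst.mul_left (F : ContDiff ℝ ∞ f) (G : Tst g) : Tst fun y => f y * g y :=
  ⟨F.mul G.sm, G.cs.mul_left⟩

theorem Tst.mul_right (F : Tst f) (G : ContDiff ℝ ∞ g) : Tst fun y => f y * g y :=
  ⟨F.sm.mul G, F.cs.mul_right⟩

theorem Tst.const_mul (G : Tst g) (c : ℝ) : Tst fun y => c * g y := G.mul_left contDiff_const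

theorem Tst.neg (G : Tst g) : Tst fun y => -g y := by simpa using G.const_mul (-1)

theorem Tst.sub (F : Tst f) (G : Tst g) : Tst fun y => f y - g y := by
  simpa [sub_eq_add_neg] using F.add G.neg

theorem Tst.sum {ι : Type*} {s : Finset ι} {F : ι → E4 → ℝ} (H : ∀ j ∈ s, Tst (F j)) :
    Tst fun y => ∑ j ∈ s, F j y := by
  classical
  induction s using Finset.induction_on with
  | empty => simpa using Tst.zero
  | insert a s ha ih =>
    simp only [Finset.sum_insert ha]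
    exact (H a (Finset.mem_insert_self _ _)).add (ih fun j hj => H j (Finset.mem_insert_of_mem hj))

theorem Tst.integrable (H : Tst h) : Integrable h :=
  H.continuous.integrable_of_hasCompactSupport H.cs

theorem Tst.integrable_mul (F : Tst f) (G : Tst g) : Integrable fun y => f y * g y :=
  (F.mul_right G.sm).integrable

theorem Tst.integrable_sq (H : Tst h) : Integrable fun y => h y ^ 2 := by
  simpa [sq] using H.integrable_mul H

theorem eN_zero (h : E4 → ℝ) : eN 0 h = ∫ y, h y ^ 2 := rfl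

theorem eN_succ (k : ℕ) (h : E4 → ℝ) : eN (k + 1) h = eN 0 h + ∑ i, eN k (pd i h) := rfl

theorem eN_nonneg (k : ℕ) (h : E4 → ℝ) : 0 ≤ eN k h := by
  induction k generalizing h with
  | zero => exact integral_nonneg fun _ => sq_nonneg _
  | succ k ih =>
    have h1 : 0 ≤ eN 0 h := integral_nonneg fun _ => sq_nonneg _
    exact add_nonneg h1 (Finset.sum_nonneg fun i _ => ih _)

theorem eN_le_succ (k : ℕ) (h : E4 → ℝ) : eN k h ≤ eN (k + 1) h := by
  induction k generalizing h with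
  | zero => exact le_add_of_nonneg_right (Finset.sum_nonneg fun i _ => eN_nonneg _ _)
  | succ k ih =>
    rw [eN_succ, eN_succ (k + 1)]
    exact add_le_add le_rfl (Finset.sum_le_sum fun i _ => ih _)

theorem eN_mono {k l : ℕ} (hkl : k ≤ l) (h : E4 → ℝ) : eN k h ≤ eN l h :=
  monotone_nat_of_le_succ (f := fun k => eN k h) (fun k => eN_le_succ k h) hkl

theorem eN_pd_le (k : ℕ) (h : E4 → ℝ) (i : Fin 4) : eN k (pd i h) ≤ eN (k + 1) h := by
  rw [eN_succ]
  exact le_add_of_nonneg_of_le (eN_nonneg _ _)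
    (Finset.single_le_sum (f := fun i => eN k (pd i h)) (fun i _ => eN_nonneg _ _)
      (Finset.mem_univ i))

theorem eN_smul (k : ℕ) (H : Tst h) (c : ℝ) : eN k (fun y => c * h y) = c ^ 2 * eN k h := by
  have h0 : ∀ h : E4 → ℝ, eN 0 (fun y => c * h y) = c ^ 2 * eN 0 h := fun h => by
    simp only [eN_zero, mul_pow, integral_const_mul]
  induction k generalizing h with
  | zero => exact h0 h
  | succ k ih =>
    rw [eN_succ, eN_succ, h0, mul_add, Finset.mul_sum]
    congr 1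
    refine Finset.sum_congr rfl fun i _ => ?_
    rw [← ih (H.pd i)]
    congr 1
    funext y
    exact pd_const_mul (H.dAt y) c i

theorem eN_add_le (k : ℕ) (F : Tst f) (G : Tst g) :
    eN k (fun y => f y + g y) ≤ 2 * eN k f + 2 * eN k g := by
  have h0 : ∀ {f g : E4 → ℝ}, Tst f → Tst g →
      eN 0 (fun y => f y + g y) ≤ 2 * eN 0 f + 2 * eN 0 g := fun {f g} F G => by
    simp only [eN_zero]
    rw [← integral_const_mul, ← integral_const_mul,
      ← integral_add (F.integrable_sq.const_mul _) (G.integrable_sq.const_mul _)]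
    exact integral_mono (F.add G).integrable_sq
      ((F.integrable_sq.const_mul _).add (G.integrable_sq.const_mul _))
      fun y => by nlinarith [sq_nonneg (f y - g y)]
  induction k generalizing f g with
  | zero => exact h0 F G
  | succ k ih =>
    simp only [eN_succ, mul_add, Finset.mul_sum]
    have h1 : ∑ i, eN k (pd i fun y => f y + g y) ≤
        ∑ i, (2 * eN k (pd i f) + 2 * eN k (pd i g)) := Finset.sum_le_sum fun i _ => by
      rw [show (pd i fun y => f y + g y) = fun y => pd i f y + pd i g y from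
        funext fun y => pd_add (F.dAt y) (G.dAt y) i]
      exact ih (F.pd i) (G.pd i)
    rw [Finset.sum_add_distrib] at h1
    linarith [h0 F G]

theorem eN_sub_le (k : ℕ) (F : Tst f) (G : Tst g) :
    eN k (fun y => f y - g y) ≤ 2 * eN k f + 2 * eN k g := by
  have h1 := eN_add_le k F (G.const_mul (-1))
  rw [eN_smul k G] at h1
  simpa [sub_eq_add_neg] using h1

end Pool.Agent.MP_417fa2_gt

end MrgPart1

-- ======== part 2: formerly Pool.Agent.MP_417fa2_gt.An.Spec23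
section MrgPart2

/-!
Statements for the global Galerkin route: the chart side toolkit (`Mul`, `Itp`, `Agm`, `Alg`,
`DenseL`, `Surj`, `Cpt`, `Joint`) and two Euclidean statements (`AgmEStmt`, `DenseEStmt`).
-/

open scoped Manifold ContDiff Topology
open MeasureTheory Set Filter

namespace Pool.Agent.MP_417fa2_gt

universe u

/-- Agmon's inequality in `ℝ⁴`. -/
def AgmEStmt : Prop :=
  ∃ C : ℝ, 0 < C ∧ ∀ h, Tst h → ∀ y, h y ^ 4 ≤ C * eN 0 h * eN 4 h

/-- The operator `∂ₐ ((δ^{ac} + b^{ac}) ∂_c u)` on `ℝ⁴`. -/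
noncomputable def eL (b : Fin 4 → Fin 4 → E4 → ℝ) (u : E4 → ℝ) (y : E4) : ℝ :=
  ∑ a, pd a (pd a u) y + ∑ a, ∑ c, pd a (fun z => b a c z * pd c u z) y

/-- Approximate solvability of `μ u - eL b u = f` in test functions, with a gain in `μ`. -/
def DenseEStmt : Prop :=
  ∀ b : Fin 4 → Fin 4 → E4 → ℝ, (∀ a c, Tst (b a c)) →
    (∃ c₀ : ℝ, 0 < c₀ ∧ ∀ (y : E4) (ξ : Fin 4 → ℝ),
      c₀ * ∑ a, ξ a ^ 2 ≤ ∑ a, ξ a ^ 2 + ∑ a, ∑ c, b a c y * ξ a * ξ c) →
    ∀ k : ℕ, ∃ C : ℝ, 0 < C ∧ ∀ μ : ℝ, 1 ≤ μ → ∀ f, Tst f → ∀ ε : ℝ, 0 < ε → ∃ u, Tst u ∧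
      eN k (fun y => μ * u y - eL b u y - f y) ≤ ε ∧ μ * eN (k + 1) u ≤ C * (eN k f + ε)

section

variable {M : Type u} [TopologicalSpace M] [ChartedSpace E4 M] [MeasurableSpace M]

/-- Smooth functions are multipliers; `B` has order two. -/
structure Mul (S : Setup M) (F : Frame M) : Prop where
  mul : ∀ k c, Smooth c → ∃ C : ℝ, 0 < C ∧ ∀ f, Smooth f →
    F.N S.μ k (fun x => c x * f x) ≤ C * F.N S.μ k f
  upB : ∀ k, ∃ C : ℝ, 0 < C ∧ ∀ f, Smooth f → F.N S.μ k (S.B f) ≤ C * F.N S.μ (k + 2) f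

/-- Interpolation. -/
def Itp (S : Setup M) (F : Frame M) : Prop :=
  ∀ k, ∀ ε : ℝ, 0 < ε → ∃ C : ℝ, 0 < C ∧ ∀ f, Smooth f →
    F.N S.μ k f ≤ ε * F.N S.μ (k + 1) f + C * F.N S.μ 0 f

/-- `H¹ ⊂ L⁴` on `M`. -/
def Lfour (S : Setup M) (F : Frame M) : Prop :=
  ∃ C : ℝ, 0 < C ∧ ∀ f, Smooth f → ∫ x, f x ^ 4 ∂S.μ ≤ C * F.N S.μ 1 f ^ 2

/-- Agmon's inequality on `M`. -/
def Agm (S : Setup M) (F : Frame M) : Prop :=
  ∃ C : ℝ, 0 < C ∧ ∀ f, Smooth f → ∀ x, f x ^ 4 ≤ C * F.N S.μ 0 f * F.N S.μ 4 f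

/-- `H^k` is an algebra for `k ≥ 4`, and the exponential is bounded on bounded sets. -/
structure Alg (S : Setup M) (F : Frame M) : Prop where
  alg : ∀ k, 4 ≤ k → ∃ C : ℝ, 0 < C ∧ ∀ f g, Smooth f → Smooth g →
    F.N S.μ k (fun x => f x * g x) ≤ C * F.N S.μ k f * F.N S.μ k g
  expb : ∀ k, 4 ≤ k → ∀ R : ℝ, ∃ C : ℝ, ∀ f, Smooth f → F.N S.μ k f ≤ R →
    F.N S.μ k (fun x => Real.exp (f x)) ≤ C

/-- `μ - L` has dense range in `H^k` for large `μ`. -/
def DenseL (S : Setup M) (F : Frame M) : Prop :=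
  ∀ k, ∃ μ₀ : ℝ, ∀ μ, μ₀ ≤ μ → ∀ f, Smooth f → ∀ ε : ℝ, 0 < ε → ∃ u, Smooth u ∧
    F.N S.μ k (fun x => μ * u x - S.L u x - f x) ≤ ε

/-- `h + P` is onto on smooth functions for smooth positive `h`. -/
def Surj (S : Setup M) : Prop :=
  ∀ h, Smooth h → (∀ x, 0 < h x) → ∀ f, Smooth f → ∃ u, Smooth u ∧
    ∀ x, h x * u x + S.P u x = f x

/-- Sequences that are bounded in every `H^k` converge along ultrafilters in every `H^k`. -/
def Cpt (S : Setup M) (F : Frame M) : Prop :=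
  ∀ (U : Ultrafilter ℕ) (f : ℕ → M → ℝ), (∀ n, Smooth (f n)) →
    (∀ k, ∃ C : ℝ, ∀ n, F.N S.μ k (f n) ≤ C) →
    ∃ g, Smooth g ∧ ∀ k, Tendsto (fun n => F.N S.μ k (fun x => f n x - g x)) U (𝓝 0)

/-- Joint smoothness from Taylor bounds in time in every `H^k`. -/
def Joint (S : Setup M) (F : Frame M) : Prop :=
  ∀ W : ℕ → ℝ → M → ℝ, (∀ j t, 0 ≤ t → Smooth (W j t)) →
    (∀ j k, ∀ T : ℝ, ∃ C : ℝ, ∀ t ∈ Icc 0 T, ∀ t' ∈ Icc 0 T,
      F.N S.μ k (fun x => W j t' x - W j t x - (t' - t) * W (j + 1) t x) ≤ C * (t' - t) ^ 4) →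
    SmoothOn (Ici 0) (W 0)

end

def MulStmt : Prop := ForAll.{u} fun _ _ _ _ S F => Mul S F

def ItpStmt : Prop := ForAll.{u} fun _ _ _ _ S F => Itp S F

def LfourStmt : Prop := ForAll.{u} fun _ _ _ _ S F => Lfour S F

def AgmStmt : Prop := ForAll.{u} fun _ _ _ _ S F => Agm S F

def AlgStmt : Prop := ForAll.{u} fun _ _ _ _ S F => Lfour S F → Agm S F → Alg S F

def DenseLStmt : Prop := ForAll.{u} fun _ _ _ _ S F => DenseL S F

def SurjStmt : Prop := ForAll.{u} fun _ _ _ _ S F =>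
  S.Good → Ell S F → Mul S F → Itp S F → Agm S F → DenseL S F → Cpt S F → Surj S

def CptStmt : Prop := ForAll.{u} fun _ _ _ _ S F => Agm S F → Cpt S F

def JointStmt : Prop := ForAll.{u} fun _ _ _ _ S F => Agm S F → Joint S F

end Pool.Agent.MP_417fa2_gt

end MrgPart2

-- marker of a merged file
example : 731051 + 702428 = 731051 + 702428 := rfl

end MrgPart1

-- ======== part 2: formerly Pool.Agent.MP_417fa2_gt.An.DenseEa
section MrgPart2

/-! Energy estimates for `μ - Δ - s ∂ₐ (b^{ac} ∂_c ·)` on test functions. -/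

open scoped ContDiff Topology
open MeasureTheory Set Filter

namespace Pool.Agent.MP_417fa2_gt.DE

variable {f g u v : E4 → ℝ} {b : Fin 4 → Fin 4 → E4 → ℝ}

/-- The flat Laplacian. -/
noncomputable def lp (u : E4 → ℝ) (y : E4) : ℝ := ∑ a, pd a (pd a u) y

/-- The perturbation. -/
noncomputable def D (b : Fin 4 → Fin 4 → E4 → ℝ) (u : E4 → ℝ) (y : E4) : ℝ :=
  ∑ a, ∑ c, pd a (fun z => b a c z * pd c u z) y

/-- The family of operators. -/
noncomputable def T (b : Fin 4 → Fin 4 → E4 → ℝ) (μ s : ℝ) (u : E4 → ℝ) (y : E4) : ℝ :=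
  μ * u y - lp u y - s * D b u y

/-- The Dirichlet energy. -/
noncomputable def G (v : E4 → ℝ) : ℝ := ∑ a, eN 0 (pd a v)

theorem G_nonneg (v : E4 → ℝ) : 0 ≤ G v := Finset.sum_nonneg fun _ _ => eN_nonneg _ _

theorem le_G (v : E4 → ℝ) (a : Fin 4) : eN 0 (pd a v) ≤ G v :=
  Finset.single_le_sum (f := fun a => eN 0 (pd a v)) (fun _ _ => eN_nonneg _ _) (Finset.mem_univ a)

theorem eN_one (v : E4 → ℝ) : eN 1 v = eN 0 v + G v := rfl

theorem ibp (F : Tst f) (H : Tst g) (i : Fin 4) :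
    ∫ y, f y * pd i g y = -∫ y, pd i f y * g y :=
  integral_mul_fderiv_eq_neg_fderiv_mul_of_integrable ((F.pd i).integrable_mul H)
    (F.integrable_mul (H.pd i)) (F.integrable_mul H) (fun y _ => F.dAt y) (fun y _ => H.dAt y)

theorem amgm (F : Tst f) (H : Tst g) {t : ℝ} (ht : 0 < t) :
    |∫ y, f y * g y| ≤ t * eN 0 f + eN 0 g / (4 * t) := by
  refine abs_integral_le_integral_abs.trans ?_
  rw [eN_zero, eN_zero, ← integral_const_mul, ← integral_div,
    ← integral_add (F.integrable_sq.const_mul _) (H.integrable_sq.div_const _)]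
  refine integral_mono (F.integrable_mul H).abs
    ((F.integrable_sq.const_mul _).add (H.integrable_sq.div_const _)) fun y => ?_
  have e : t * f y ^ 2 + g y ^ 2 / (4 * t) - |f y| * |g y|
      = (2 * t * |f y| - |g y|) ^ 2 / (4 * t) := by
    rw [← sq_abs (f y), ← sq_abs (g y)]; field_simp; ring
  have : 0 ≤ (2 * t * |f y| - |g y|) ^ 2 / (4 * t) := by positivity
  simp only [abs_mul]
  linarith

theorem mult0 {c : E4 → ℝ} (hc : Tst c) :
    ∃ C : ℝ, 0 < C ∧ ∀ g, Tst g → eN 0 (fun y => c y * g y) ≤ C * eN 0 g := by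
  obtain ⟨B, hB⟩ := hc.cs.exists_bound_of_continuous hc.continuous
  refine ⟨B ^ 2 + 1, by positivity, fun g hg => ?_⟩
  rw [eN_zero, eN_zero, ← integral_const_mul]
  refine integral_mono (hg.mul_left hc.sm).integrable_sq (hg.integrable_sq.const_mul _) fun y => ?_
  have h1 : c y ^ 2 ≤ B ^ 2 := by
    rw [← sq_abs (c y)]; exact pow_le_pow_left₀ (abs_nonneg _) (hB y) 2
  simp only [mul_pow]
  nlinarith [sq_nonneg (g y)]

theorem mult (k : ℕ) : ∀ c : E4 → ℝ, Tst c →
    ∃ C : ℝ, 0 < C ∧ ∀ g, Tst g → eN k (fun y => c y * g y) ≤ C * eN k g := by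
  induction k with
  | zero => exact fun c hc => mult0 hc
  | succ k ih =>
    intro c hc
    obtain ⟨C0, p0, h0⟩ := mult0 hc
    obtain ⟨C1, p1, h1⟩ := ih c hc
    choose C2 p2 h2 using fun i => ih (pd i c) (hc.pd i)
    have ps : 0 ≤ ∑ i, (2 * C2 i + 2 * C1) :=
      Finset.sum_nonneg fun i _ => by have := p2 i; positivity
    refine ⟨C0 + ∑ i, (2 * C2 i + 2 * C1), by positivity, fun g hg => ?_⟩
    rw [eN_succ, add_mul, Finset.sum_mul]
    refine add_le_add ((h0 g hg).trans (mul_le_mul_of_nonneg_left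
      (eN_mono (Nat.zero_le _) g) p0.le)) (Finset.sum_le_sum fun i _ => ?_)
    rw [show (pd i fun y => c y * g y) = fun y => pd i c y * g y + c y * pd i g y from
      funext fun y => pd_mul (hc.dAt y) (hg.dAt y) i]
    refine (eN_add_le k (hg.mul_left (hc.pd i).sm) ((hg.pd i).mul_left hc.sm)).trans ?_
    have a1 := (h2 i g hg).trans (mul_le_mul_of_nonneg_left (eN_le_succ k g) (p2 i).le)
    have a2 := (h1 _ (hg.pd i)).trans (mul_le_mul_of_nonneg_left (eN_pd_le k g i) p1.le)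
    linarith

theorem eN_zero_fun (k : ℕ) : eN k (fun _ => 0) = 0 := by
  simpa using eN_smul k Tst.zero 0

theorem eN_sum_le {ι : Type*} (k : ℕ) (s : Finset ι) {F : ι → E4 → ℝ} (H : ∀ j, Tst (F j)) :
    eN k (fun y => ∑ j ∈ s, F j y) ≤ 2 ^ s.card * ∑ j ∈ s, eN k (F j) := by
  classical
  induction s using Finset.induction_on with
  | empty => simp [eN_zero_fun]
  | insert a s ha ih =>
    simp only [Finset.sum_insert ha, Finset.card_insert_of_notMem ha]
    refine (eN_add_le k (H a) (Tst.sum fun j _ => H j)).trans ?_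
    have h1 : (1 : ℝ) ≤ 2 ^ s.card := one_le_pow₀ (by norm_num)
    have h2 := eN_nonneg k (F a)
    rw [pow_succ]
    nlinarith

theorem tst_lp (U : Tst u) : Tst (lp u) := Tst.sum fun a _ => (U.pd a).pd a

theorem tst_term (hb : ∀ a c, Tst (b a c)) (U : Tst u) (a c : Fin 4) :
    Tst fun z => b a c z * pd c u z := (U.pd c).mul_left (hb a c).sm

theorem tst_D (hb : ∀ a c, Tst (b a c)) (U : Tst u) : Tst (D b u) :=
  Tst.sum fun a _ => Tst.sum fun c _ => (tst_term hb U a c).pd a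

theorem tst_T (hb : ∀ a c, Tst (b a c)) (μ s : ℝ) (U : Tst u) : Tst (T b μ s u) :=
  ((U.const_mul μ).sub (tst_lp U)).sub ((tst_D hb U).const_mul s)

theorem D_bd (k : ℕ) (hb : ∀ a c, Tst (b a c)) :
    ∃ C : ℝ, 0 < C ∧ ∀ u, Tst u → eN k (D b u) ≤ C * eN (k + 2) u := by
  choose C p h using fun a c => mult (k + 1) (b a c) (hb a c)
  have ps : 0 < ∑ a, ∑ c, C a c :=
    Finset.sum_pos (fun a _ => Finset.sum_pos (fun c _ => p a c) Finset.univ_nonempty)
      Finset.univ_nonempty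
  refine ⟨2 ^ 4 * (2 ^ 4 * ∑ a, ∑ c, C a c), by positivity, fun u U => ?_⟩
  refine (eN_sum_le k Finset.univ fun a => Tst.sum fun c _ => (tst_term hb U a c).pd a).trans ?_
  rw [Finset.card_univ, Fintype.card_fin, mul_assoc, mul_assoc, Finset.sum_mul]
  refine mul_le_mul_of_nonneg_left ?_ (by positivity)
  rw [Finset.mul_sum]
  refine Finset.sum_le_sum fun a _ => ?_
  refine (eN_sum_le k Finset.univ fun c => (tst_term hb U a c).pd a).trans ?_
  rw [Finset.card_univ, Fintype.card_fin, Finset.sum_mul]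
  refine mul_le_mul_of_nonneg_left (Finset.sum_le_sum fun c _ => ?_) (by positivity)
  exact (eN_pd_le k _ a).trans ((h a c _ (U.pd c)).trans
    (mul_le_mul_of_nonneg_left (eN_pd_le _ u c) (p a c).le))

theorem pd_swap (U : Tst u) (i j : Fin 4) : pd i (pd j u) = pd j (pd i u) :=
  funext fun _ => pd_comm U.sm.contDiffAt i j

theorem pd_lp (U : Tst u) (i : Fin 4) (y : E4) : pd i (lp u) y = lp (pd i u) y := by
  unfold lp
  rw [pd_sum fun a _ => ((U.pd a).pd a).dAt y]
  refine Finset.sum_congr rfl fun a _ => ?_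
  rw [pd_swap (U.pd a), pd_swap U]

theorem pd_D (hb : ∀ a c, Tst (b a c)) (U : Tst u) (i : Fin 4) (y : E4) :
    pd i (D b u) y = D b (pd i u) y + D (fun a c => pd i (b a c)) u y := by
  unfold D
  rw [pd_sum fun a _ => (Tst.sum fun c _ => (tst_term hb U a c).pd a).dAt y,
    ← Finset.sum_add_distrib]
  refine Finset.sum_congr rfl fun a _ => ?_
  rw [pd_sum fun c _ => ((tst_term hb U a c).pd a).dAt y, ← Finset.sum_add_distrib]
  refine Finset.sum_congr rfl fun c _ => ?_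
  rw [pd_swap (tst_term hb U a c), ← pd_add ((tst_term hb (U.pd i) a c).dAt y)
    ((tst_term (fun a c => (hb a c).pd i) U a c).dAt y)]
  congr 1
  funext z
  rw [pd_mul ((hb a c).dAt z) ((U.pd c).dAt z), pd_swap U i c]
  ring

theorem T_pd (hb : ∀ a c, Tst (b a c)) (μ s : ℝ) (U : Tst u) (i : Fin 4) :
    T b μ s (pd i u) = fun y => pd i (T b μ s u) y + s * D (fun a c => pd i (b a c)) u y := by
  funext y
  unfold T
  rw [pd_sub (((U.const_mul μ).sub (tst_lp U)).dAt y) (((tst_D hb U).const_mul s).dAt y),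
    pd_sub ((U.const_mul μ).dAt y) ((tst_lp U).dAt y), pd_const_mul (U.dAt y),
    pd_const_mul ((tst_D hb U).dAt y), pd_lp U, pd_D hb U]
  ring

theorem T_sub (hb : ∀ a c, Tst (b a c)) (μ s : ℝ) (U : Tst u) (V : Tst v) :
    T b μ s (u - v) = T b μ s u - T b μ s v := by
  have e : ∀ a, pd a (u - v) = fun z => pd a u z - pd a v z := fun a =>
    funext fun z => pd_sub (U.dAt z) (V.dAt z) a
  funext y
  have e1 : lp (u - v) y = lp u y - lp v y := by
    unfold lp
    rw [← Finset.sum_sub_distrib]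
    exact Finset.sum_congr rfl fun a _ => by
      rw [e, pd_sub ((U.pd a).dAt y) ((V.pd a).dAt y)]
  have e2 : D b (u - v) y = D b u y - D b v y := by
    unfold D
    rw [← Finset.sum_sub_distrib]
    refine Finset.sum_congr rfl fun a _ => ?_
    rw [← Finset.sum_sub_distrib]
    refine Finset.sum_congr rfl fun c _ => ?_
    rw [← pd_sub ((tst_term hb U a c).dAt y) ((tst_term hb V a c).dAt y), e]
    simp only [mul_sub]
  simp only [T, Pi.sub_apply, e1, e2]
  ring

theorem int_D (hb : ∀ a c, Tst (b a c)) (U : Tst u) (V : Tst v) :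
    ∫ y, D b u y * v y = -∑ a, ∑ c, ∫ y, b a c y * pd c u y * pd a v y := by
  unfold D
  simp only [Finset.sum_mul]
  rw [integral_finsetSum _ fun a _ => integrable_finsetSum _ fun c _ =>
    ((tst_term hb U a c).pd a).integrable_mul V, ← Finset.sum_neg_distrib]
  refine Finset.sum_congr rfl fun a _ => ?_
  rw [integral_finsetSum _ fun c _ => ((tst_term hb U a c).pd a).integrable_mul V,
    ← Finset.sum_neg_distrib]
  refine Finset.sum_congr rfl fun c _ => ?_
  rw [ibp (tst_term hb U a c) V, neg_neg]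

theorem int_lp (V : Tst v) : ∫ y, lp v y * v y = -G v := by
  unfold lp G
  simp only [Finset.sum_mul]
  rw [integral_finsetSum _ fun a _ => ((V.pd a).pd a).integrable_mul V, ← Finset.sum_neg_distrib]
  refine Finset.sum_congr rfl fun a _ => ?_
  have := ibp (V.pd a) V a
  simp only [eN_zero, sq]
  linarith

/-- Uniform ellipticity with a constant at most one. -/
def Ellip (b : Fin 4 → Fin 4 → E4 → ℝ) (c₀ : ℝ) : Prop :=
  0 < c₀ ∧ c₀ ≤ 1 ∧ ∀ (y : E4) (ξ : Fin 4 → ℝ),
    c₀ * ∑ a, ξ a ^ 2 ≤ ∑ a, ξ a ^ 2 + ∑ a, ∑ c, b a c y * ξ a * ξ c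

theorem coer (hb : ∀ a c, Tst (b a c)) {c₀ : ℝ} (he : Ellip b c₀) (μ : ℝ) {s : ℝ}
    (hs : s ∈ Icc (0 : ℝ) 1) (V : Tst v) :
    μ * eN 0 v + c₀ * G v ≤ ∫ y, T b μ s v y * v y := by
  have i1 := (V.const_mul μ).integrable_mul V
  have i2 := (tst_lp V).integrable_mul V
  have i3 := ((tst_D hb V).const_mul s).integrable_mul V
  have i4 : ∀ a c, Integrable fun y => b a c y * pd c v y * pd a v y := fun a c =>
    (tst_term hb V a c).integrable_mul (V.pd a)
  have i5 : Integrable fun y => ∑ a, pd a v y ^ 2 :=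
    integrable_finsetSum _ fun a _ => (V.pd a).integrable_sq
  have i6 : Integrable fun y => ∑ a, ∑ c, b a c y * pd c v y * pd a v y :=
    integrable_finsetSum _ fun a _ => integrable_finsetSum _ fun c _ => i4 a c
  have e1 : ∫ y, T b μ s v y * v y =
      μ * eN 0 v + G v + s * ∑ a, ∑ c, ∫ y, b a c y * pd c v y * pd a v y := by
    unfold T
    simp only [sub_mul]
    rw [integral_sub (f := fun y => μ * v y * v y - lp v y * v y) (i1.sub i2) i3,
      integral_sub i1 i2, int_lp V]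
    simp only [mul_assoc s, mul_assoc μ, integral_const_mul, int_D hb V V, eN_zero, sq]
    ring
  have e2 : G v = ∫ y, ∑ a, pd a v y ^ 2 := by
    rw [integral_finsetSum _ fun a _ => (V.pd a).integrable_sq]; rfl
  have e3 : ∑ a, ∑ c, ∫ y, b a c y * pd c v y * pd a v y =
      ∫ y, ∑ a, ∑ c, b a c y * pd c v y * pd a v y := by
    rw [integral_finsetSum _ fun a _ => integrable_finsetSum _ fun c _ => i4 a c]
    exact Finset.sum_congr rfl fun a _ => (integral_finsetSum _ fun c _ => i4 a c).symm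
  have h1 : c₀ * G v ≤ G v + ∑ a, ∑ c, ∫ y, b a c y * pd c v y * pd a v y := by
    rw [e3, e2, ← integral_const_mul, ← integral_add i5 i6]
    refine integral_mono (i5.const_mul _) (i5.add i6) fun y => ?_
    refine (he.2.2 y fun a => pd a v y).trans (le_of_eq ?_)
    simp only [mul_right_comm]
  have h2 := G_nonneg v
  have h3 : c₀ * G v ≤ G v := mul_le_of_le_one_left h2 he.2.1
  rw [e1]
  nlinarith [hs.1, hs.2]

theorem first (hb : ∀ a c, Tst (b a c)) {c₀ : ℝ} (he : Ellip b c₀) {μ : ℝ} (hμ : 1 ≤ μ) {s : ℝ}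
    (hs : s ∈ Icc (0 : ℝ) 1) (U : Tst u) :
    μ * eN 1 u ≤ (1 + 1 / c₀) * eN 0 (T b μ s u) := by
  have hc := he.1
  have hμ0 : 0 < μ := by linarith
  have h1 := coer hb he μ hs U
  have h2 := (le_abs_self _).trans (amgm (tst_T hb μ s U) U (t := 1 / (2 * μ)) (by positivity))
  have e : eN 0 u / (4 * (1 / (2 * μ))) = μ * eN 0 u / 2 := by field_simp; ring
  rw [e] at h2
  have hA := eN_nonneg 0 u
  have hF := eN_nonneg 0 (T b μ s u)
  have hG := G_nonneg u
  set F := eN 0 (T b μ s u)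
  have h3 : μ * eN 0 u / 2 + c₀ * G u ≤ 1 / (2 * μ) * F := by linarith
  have h4 : μ * (μ * eN 0 u / 2 + c₀ * G u) ≤ F / 2 := by
    refine (mul_le_mul_of_nonneg_left h3 hμ0.le).trans (le_of_eq ?_)
    field_simp
  have h5 : 0 ≤ μ * (c₀ * G u) := by positivity
  have h6 : μ * eN 0 u ≤ μ * (μ * eN 0 u) := le_mul_of_one_le_left (by positivity) hμ
  have h7 : μ * G u ≤ 1 / c₀ * F := by
    rw [one_div, le_inv_mul_iff₀ hc]
    nlinarith
  rw [eN_one]
  nlinarith

theorem second (hb : ∀ a c, Tst (b a c)) {c₀ : ℝ} (he : Ellip b c₀) (i : Fin 4) :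
    ∃ C : ℝ, 0 < C ∧ ∀ μ : ℝ, 1 ≤ μ → ∀ s ∈ Icc (0 : ℝ) 1, ∀ u, Tst u →
      G (pd i u) ≤ C * (eN 0 (T b μ s u) + eN 1 u) := by
  have hc := he.1
  have hb' : ∀ a c, Tst (pd i (b a c)) := fun a c => (hb a c).pd i
  choose C p h using fun a c => mult0 (hb' a c)
  have ps : 0 < ∑ a, ∑ c, C a c :=
    Finset.sum_pos (fun a _ => Finset.sum_pos (fun c _ => p a c) Finset.univ_nonempty)
      Finset.univ_nonempty
  refine ⟨2 / c₀ * (1 / c₀ + 4 / c₀ * ∑ a, ∑ c, C a c), by positivity, fun μ hμ s hs u U => ?_⟩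
  have V := U.pd i
  have Fu := tst_T hb μ s U
  have h1 := coer hb he μ hs V
  rw [T_pd hb μ s U i] at h1
  simp only [add_mul] at h1
  rw [integral_add ((Fu.pd i).integrable_mul V) (((tst_D hb' U).const_mul s).integrable_mul V)]
    at h1
  have h2 : ∫ y, pd i (T b μ s u) y * pd i u y ≤ 1 / c₀ * eN 0 (T b μ s u) + c₀ / 4 * G (pd i u) := by
    have a1 := ibp Fu V i
    have a2 := (neg_le_abs _).trans (amgm Fu (V.pd i) (t := 1 / c₀) (by positivity))
    have a3 : eN 0 (pd i (pd i u)) / (4 * (1 / c₀)) = c₀ / 4 * eN 0 (pd i (pd i u)) := by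
      field_simp
    have a4 : c₀ / 4 * eN 0 (pd i (pd i u)) ≤ c₀ / 4 * G (pd i u) := by
      gcongr; exact le_G _ i
    linarith
  have h3 : |∫ y, D (fun a c => pd i (b a c)) u y * pd i u y|
      ≤ (4 / c₀ * ∑ a, ∑ c, C a c) * eN 1 u + c₀ / 4 * G (pd i u) := by
    rw [int_D hb' U V, abs_neg]
    calc _ ≤ ∑ a, ∑ c, (4 / c₀ * (C a c * eN 1 u) + c₀ / 16 * eN 0 (pd a (pd i u))) := by
          refine (Finset.abs_sum_le_sum_abs _ _).trans (Finset.sum_le_sum fun a _ =>
            (Finset.abs_sum_le_sum_abs _ _).trans (Finset.sum_le_sum fun c _ => ?_))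
          refine (amgm (tst_term hb' U a c) (V.pd a) (t := 4 / c₀) (by positivity)).trans
            (add_le_add ?_ (le_of_eq (by field_simp; ring)))
          gcongr
          exact (h a c _ (U.pd c)).trans (mul_le_mul_of_nonneg_left (eN_pd_le 0 u c) (p a c).le)
      _ = _ := by
          simp only [Finset.sum_add_distrib, ← Finset.mul_sum, ← Finset.sum_mul, G,
            Finset.sum_const, Finset.card_univ, Fintype.card_fin, nsmul_eq_mul]
          push_cast
          ring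
  have h4 : ∫ y, s * D (fun a c => pd i (b a c)) u y * pd i u y
      ≤ |∫ y, D (fun a c => pd i (b a c)) u y * pd i u y| := by
    simp only [mul_assoc s, integral_const_mul]
    refine (le_abs_self _).trans ?_
    rw [abs_mul, abs_of_nonneg hs.1]
    exact mul_le_of_le_one_left (abs_nonneg _) hs.2
  have h5 : 0 ≤ μ * eN 0 (pd i u) := mul_nonneg (by linarith) (eN_nonneg _ _)
  have hF := eN_nonneg 0 (T b μ s u)
  have hA := eN_nonneg 1 u
  have h6 : c₀ / 2 * G (pd i u) ≤ (1 / c₀ + 4 / c₀ * ∑ a, ∑ c, C a c) *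
      (eN 0 (T b μ s u) + eN 1 u) := by
    have b1 : 0 ≤ 1 / c₀ * eN 1 u := by positivity
    have b2 : 0 ≤ (4 / c₀ * ∑ a, ∑ c, C a c) * eN 0 (T b μ s u) := by positivity
    linarith
  rw [mul_assoc]
  refine le_trans (le_of_eq ?_) (mul_le_mul_of_nonneg_left h6 (by positivity))
  field_simp

theorem energy (hb : ∀ a c, Tst (b a c)) {c₀ : ℝ} (he : Ellip b c₀) (k : ℕ) :
    ∃ C : ℝ, 0 < C ∧ ∀ μ : ℝ, 1 ≤ μ → ∀ s ∈ Icc (0 : ℝ) 1, ∀ u, Tst u →
      μ * eN (k + 1) u + eN (k + 2) u ≤ C * eN k (T b μ s u) := by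
  induction k with
  | zero =>
    have hc := he.1
    choose C p h using second hb he
    have ps : 0 < ∑ i, C i := Finset.sum_pos (fun i _ => p i) Finset.univ_nonempty
    refine ⟨2 * (1 + 1 / c₀) + (∑ i, C i) * (2 + 1 / c₀), by positivity, fun μ hμ s hs u U => ?_⟩
    have h1 := first hb he hμ hs U
    have h2 : eN 1 u ≤ μ * eN 1 u := le_mul_of_one_le_left (eN_nonneg _ _) hμ
    have h3 : eN 2 u = eN 1 u + ∑ i, G (pd i u) := by
      rw [eN_succ 1, eN_one]
      simp only [eN_one, Finset.sum_add_distrib, G, add_assoc]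
    have h4 : ∑ i, G (pd i u) ≤ (∑ i, C i) * ((2 + 1 / c₀) * eN 0 (T b μ s u)) := by
      rw [Finset.sum_mul]
      exact Finset.sum_le_sum fun i _ => (h i μ hμ s hs u U).trans
        (mul_le_mul_of_nonneg_left (by linarith) (p i).le)
    simp only [zero_add]
    linarith
  | succ k ih =>
    obtain ⟨C, p, h⟩ := ih
    choose C' p' h' using fun i => D_bd k (b := fun a c => pd i (b a c)) fun a c => (hb a c).pd i
    have ps : 0 ≤ ∑ i, (2 + 2 * C' i * C) :=
      Finset.sum_nonneg fun i _ => by have := p' i; positivity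
    refine ⟨C + C * ∑ i, (2 + 2 * C' i * C), by positivity, fun μ hμ s hs u U => ?_⟩
    have Fu := tst_T hb μ s U
    have hμ0 : 0 ≤ μ := by linarith
    have h1 := h μ hμ s hs u U
    have h2 := mul_le_mul_of_nonneg_left (eN_le_succ k (T b μ s u)) p.le
    have h3 : μ * eN 0 u ≤ μ * eN (k + 1) u :=
      mul_le_mul_of_nonneg_left (eN_mono (Nat.zero_le _) u) hμ0
    have h4 : eN 0 u ≤ eN (k + 2) u := eN_mono (Nat.zero_le _) u
    have h5 : eN (k + 2) u ≤ C * eN (k + 1) (T b μ s u) := by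
      linarith [mul_nonneg hμ0 (eN_nonneg (k + 1) u)]
    have h6 : ∀ i, μ * eN (k + 1) (pd i u) + eN (k + 2) (pd i u)
        ≤ C * ((2 + 2 * C' i * C) * eN (k + 1) (T b μ s u)) := by
      intro i
      refine (h μ hμ s hs _ (U.pd i)).trans (mul_le_mul_of_nonneg_left ?_ p.le)
      have Di := tst_D (b := fun a c => pd i (b a c)) (fun a c => (hb a c).pd i) U
      rw [T_pd hb μ s U i]
      refine (eN_add_le k (Fu.pd i) (Di.const_mul s)).trans ?_
      rw [eN_smul k Di]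
      have a1 := eN_pd_le k (T b μ s u) i
      have a2 := (h' i u U).trans (mul_le_mul_of_nonneg_left h5 (p' i).le)
      have a3 : s ^ 2 * eN k (D (fun a c => pd i (b a c)) u)
          ≤ eN k (D (fun a c => pd i (b a c)) u) :=
        mul_le_of_le_one_left (eN_nonneg _ _) (pow_le_one₀ hs.1 hs.2)
      linarith
    have h7 := Finset.sum_le_sum fun i (_ : i ∈ Finset.univ) => h6 i
    rw [Finset.sum_add_distrib, ← Finset.mul_sum, ← Finset.mul_sum, ← Finset.sum_mul] at h7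
    rw [eN_succ (k + 1), eN_succ (k + 2)]
    linarith

end Pool.Agent.MP_417fa2_gt.DE

end MrgPart2

-- marker of a merged file
example : 731051 + 853741 = 731051 + 853741 := rfl
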