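import Mathlib.MeasureTheory.Integral.Bochner.Basic
import Pool.Agent.MP_417fa2_gt.Defs
import Mathlib.MeasureTheory.Integral.IntegrableOn

-- ======== part 0: formerly Pool.Agent.MP_417fa2_gt.Spec
section MrgPart0

/-!
Interface between the geometric part and the analytic part.
`Setup` is the analytic data (measure, two divergence form operators, a smooth function),
`AnStmt` is the analytic theorem, `FinalStmt` is the geometric theorem.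
-/

open scoped Manifold ContDiff
open MeasureTheory Set

namespace Pool.Agent.MP_417fa2_gt

universe u

/-- The divergence form operator `ρ⁻¹ ∂ₐ (ρ A^{ab} ∂_b φ)` in coordinates. -/
noncomputable def dop (ρ : E4 → ℝ) (A : Fin 4 → Fin 4 → E4 → ℝ) (φ : E4 → ℝ) (y : E4) : ℝ :=
  (ρ y)⁻¹ * ∑ a, pd a (fun z => ρ z * ∑ b, A a b z * pd b φ z) y

/-- Analytic data on `M`: `μ = ρ dy`, `L = ρ⁻¹ ∂ ρ G ∂` (elliptic), `B = ρ⁻¹ ∂ ρ A ∂` in every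
chart, and a smooth function `q`. -/
structure Setup (M : Type u) [TopologicalSpace M] [ChartedSpace E4 M] [MeasurableSpace M] where
  μ : Measure M
  L : (M → ℝ) → M → ℝ
  B : (M → ℝ) → M → ℝ
  q : M → ℝ
  ρ : M → E4 → ℝ
  G : M → Fin 4 → Fin 4 → E4 → ℝ
  A : M → Fin 4 → Fin 4 → E4 → ℝ
  ρ_sm : ∀ x₀, ContDiffOn ℝ ∞ (ρ x₀) (chartAt E4 x₀).target
  G_sm : ∀ x₀ a b, ContDiffOn ℝ ∞ (G x₀ a b) (chartAt E4 x₀).target
  A_sm : ∀ x₀ a b, ContDiffOn ℝ ∞ (A x₀ a b) (chartAt E4 x₀).target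
  ρ_pos : ∀ x₀, ∀ y ∈ (chartAt E4 x₀).target, 0 < ρ x₀ y
  G_symm : ∀ x₀ a b, ∀ y ∈ (chartAt E4 x₀).target, G x₀ a b y = G x₀ b a y
  A_symm : ∀ x₀ a b, ∀ y ∈ (chartAt E4 x₀).target, A x₀ a b y = A x₀ b a y
  G_pos : ∀ x₀, ∀ y ∈ (chartAt E4 x₀).target, ∀ ξ : Fin 4 → ℝ, ξ ≠ 0 →
    0 < ∑ a, ∑ b, G x₀ a b y * ξ a * ξ b
  μ_loc : ∀ (x₀ : M) (s : Set M), MeasurableSet s → s ⊆ (chartAt E4 x₀).source →
    μ s = ∫⁻ y in chartAt E4 x₀ '' s, ENNReal.ofReal (ρ x₀ y)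
  L_loc : ∀ φ, Smooth φ → ∀ x₀, ∀ y ∈ (chartAt E4 x₀).target,
    L φ (param x₀ y) = dop (ρ x₀) (G x₀) (φ ∘ param x₀) y
  B_loc : ∀ φ, Smooth φ → ∀ x₀, ∀ y ∈ (chartAt E4 x₀).target,
    B φ (param x₀ y) = dop (ρ x₀) (A x₀) (φ ∘ param x₀) y
  q_sm : Smooth q

section

variable {M : Type u} [TopologicalSpace M] [ChartedSpace E4 M]

/-- Functions of `(t, x)` that are smooth on `I × M` (up to the boundary of `I`). -/
def SmoothOn (I : Set ℝ) (w : ℝ → M → ℝ) : Prop :=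
  ∀ x₀ : M, ContDiffOn ℝ ∞ (fun p : ℝ × E4 => w p.1 (param x₀ p.2)) (I ×ˢ (chartAt E4 x₀).target)

variable [MeasurableSpace M]

/-- The fourth order operator `P = L L + B`. -/
noncomputable def Setup.P (S : Setup M) (φ : M → ℝ) (x : M) : ℝ := S.L (S.L φ) x + S.B φ x

/-- `P` is nonnegative and its kernel consists of the constants. -/
structure Setup.Good (S : Setup M) : Prop where
  pos : ∀ φ, Smooth φ → 0 ≤ ∫ x, φ x * S.P φ x ∂S.μ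
  ker : ∀ φ, Smooth φ → (∀ x, S.P φ x = 0) → ∃ c, ∀ x, φ x = c

/-- Twice the Q-curvature of `e^{2w} g`: `e^{-4w} (P w + q)`. -/
noncomputable def Setup.curv (S : Setup M) (w : M → ℝ) (x : M) : ℝ :=
  Real.exp (-4 * w x) * (S.P w x + S.q x)

/-- The right side of the flow for the conformal factor. -/
noncomputable def Setup.rhs (S : Setup M) (w : M → ℝ) (x : M) : ℝ :=
  -(1 / 4) * Real.exp (-4 * w x) * S.P (S.curv w) x

/-- Smooth solutions of `w_t = -(1/4) e^{-4w} P (e^{-4w} (P w + q))` on `I × M`. -/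
structure Setup.Sol (S : Setup M) (I : Set ℝ) (w : ℝ → M → ℝ) : Prop where
  smooth : SmoothOn I w
  eqn : ∀ t ∈ I, ∀ x, HasDerivWithinAt (fun s => w s x) (S.rhs (w t) x) I t

end

/-- The analytic theorem: global existence and uniqueness for the conformal factor. -/
def AnStmt : Prop :=
  ∀ (M : Type u) [TopologicalSpace M] [T2Space M] [CompactSpace M] [ChartedSpace E4 M]
    [IsManifold (𝓡 4) ∞ M] [MeasurableSpace M] [BorelSpace M] (S : Setup M), S.Good →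
    ∀ w₀ : M → ℝ, Smooth w₀ → ∃ w : ℝ → M → ℝ, w 0 = w₀ ∧ S.Sol (Ici 0) w ∧
      ∀ T : ℝ, 0 < T → ∀ w' : ℝ → M → ℝ, w' 0 = w₀ → S.Sol (Ico 0 T) w' →
        ∀ t ∈ Ico 0 T, w' t = w t

/-- The geometric theorem. -/
def FinalStmt : Prop :=
  ∀ (M : Type u) [TopologicalSpace M] [T2Space M] [CompactSpace M] [ChartedSpace E4 M]
    [IsManifold (𝓡 4) ∞ M] [MeasurableSpace M] [BorelSpace M] (g g₀ : RMetric M),
    (∀ φ : M → ℝ, Smooth φ → 0 ≤ ∫ x, φ x * paneitz g φ x ∂vol g) →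
    (∀ φ : M → ℝ, Smooth φ → (∀ x, paneitz g φ x = 0) → ∃ c, ∀ x, φ x = c) →
    (∃ w : M → ℝ, Smooth w ∧ ∀ x v v', gin g₀ x v v' = Real.exp (2 * w x) * gin g x v v') →
    ∃ γ : ℝ → RMetric M, γ 0 = g₀ ∧ IsFlow (Ici 0) γ ∧
      ∀ T : ℝ, 0 < T → ∀ γ' : ℝ → RMetric M, γ' 0 = g₀ → IsFlow (Ico 0 T) γ' →
        ∀ t ∈ Ico 0 T, γ' t = γ t

end Pool.Agent.MP_417fa2_gt

end MrgPart0

-- ======== part 1: formerly Pool.Agent.MP_417fa2_gt.An.Euc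
section MrgPart1

/-!
Euclidean part of the analytic toolkit: test functions, Sobolev energies, and the statements of
the inequalities in `ℝ⁴` that are transferred to the manifold.
-/

open scoped ContDiff
open MeasureTheory Set Metric

namespace Pool.Agent.MP_417fa2_gt

/-- Smooth functions with compact support on `ℝ⁴`. -/
structure Tst (h : E4 → ℝ) : Prop where
  sm : ContDiff ℝ ∞ h
  cs : HasCompactSupport h

/-- Squared Sobolev norm of order `k` on `ℝ⁴`. -/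
noncomputable def eN : ℕ → (E4 → ℝ) → ℝ
  | 0, h => ∫ y, h y ^ 2
  | k + 1, h => (∫ y, h y ^ 2) + ∑ i, eN k (pd i h)

/-- `H¹ ⊂ L⁴`. -/
def S4Stmt : Prop :=
  ∃ C : ℝ, 0 < C ∧ ∀ h, Tst h → ∫ y, h y ^ 4 ≤ C * eN 1 h ^ 2

/-- Splitting into low and high frequencies at frequency `R`. -/
def SplStmt : Prop :=
  ∃ C : ℝ, 0 < C ∧ ∀ h, Tst h → ∀ R : ℝ, 2 ≤ R → ∃ l, Tst l ∧
    (∀ y, l y ^ 2 ≤ C * Real.log R * eN 2 h) ∧
    eN 2 (fun y => h y - l y) ≤ C * eN 2 h ∧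
    eN 1 (fun y => h y - l y) ≤ C / R ^ 2 * eN 2 h ∧
    eN 0 (fun y => h y - l y) ≤ C / R ^ 4 * eN 2 h ∧
    ∀ y, (h y - l y) ^ 2 ≤ C / R ^ 2 * eN 3 h

/-- Trudinger's inequality with a non-sharp constant. -/
def TrStmt : Prop :=
  ∃ A : ℝ, 0 < A ∧ ∀ h, Tst h → ∀ s : Set E4, MeasurableSet s → volume s ≠ ⊤ →
    IntegrableOn (fun y => Real.exp (h y)) s ∧
    ∫ y in s, Real.exp (h y) ≤ (volume.real s + 1) * Real.exp (A * (1 + eN 2 h))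

/-- The improved inequality when the mass of `e^h W` is spread at scale `r`. -/
def SprStmt : Prop :=
  ∀ δ R₀ ρ₁ : ℝ, 0 < δ → 0 < R₀ → 0 < ρ₁ → ∃ ε C : ℝ, 0 < ε ∧ 0 < C ∧
    ∀ W : E4 → ℝ, Measurable W → (∀ y, 0 ≤ W y ∧ W y ≤ ρ₁) → (∀ y, R₀ ≤ ‖y‖ → W y = 0) →
    ∀ h, Tst h → ∀ r : ℝ, 0 < r → r ≤ 1 / 2 →
    (∀ z, ∫ y in ball z r, Real.exp (h y) * W y ≤ ε * ∫ y, Real.exp (h y) * W y) →
    ∫ y, Real.exp (h y) * W y ≤ Real.exp (δ * eN 2 h + C * Real.log r⁻¹)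

/-- Points have zero `H²` capacity, with a rate. -/
def CapStmt : Prop :=
  ∃ C : ℝ, 0 < C ∧ ∀ m : ℕ, 1 ≤ m → ∀ z : E4, ∃ b, Tst b ∧ (∀ y, 0 ≤ b y) ∧
    (∀ y ∈ ball z ((1 / 2 : ℝ) ^ m), b y = 1) ∧ eN 2 b ≤ C / m

end Pool.Agent.MP_417fa2_gt

end MrgPart1

-- marker of a merged file
example : 731051 + 655634 = 731051 + 655634 := rfl
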