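import Mathlib.Algebra.Order.Archimedean.Real.Hom
import Mathlib.Analysis.Fourier.Convolution
import Pool.Agent.MP_417fa2_gt.An.Euc
import Mathlib.Algebra.Order.Ring.Star
import Mathlib.Topology.UniformSpace.Ascoli
import Pool.Agent.MP_417fa2_gt.An.DenseEa
import Pool.Agent.MP_417fa2_gt.An.Bridge

-- ======== part 0: formerly Pool.Agent.MP_417fa2_gt.An.EucBF
section MrgPart0

/-! Sobolev energies on the Fourier side. -/

open scoped ContDiff FourierTransform SchwartzMap Real Convolution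
open MeasureTheory Set Metric

namespace Pool.Agent.MP_417fa2_gt.EucB

theorem tst_pd {h : E4 → ℝ} (t : Tst h) (i : Fin 4) : Tst (pd i h) :=
  ⟨(t.sm.fderiv_right (m := ∞) le_rfl).clm_apply contDiff_const, t.cs.fderiv_apply ℝ _⟩

theorem tst_sub {f g : E4 → ℝ} (s : Tst f) (t : Tst g) : Tst fun y => f y - g y :=
  ⟨s.sm.sub t.sm, s.cs.sub t.cs⟩

/-- A test function as a complex Schwartz function. -/
noncomputable def sch {h : E4 → ℝ} (t : Tst h) : 𝓢(E4, ℂ) :=
  HasCompactSupport.toSchwartzMap (f := fun y => (h y : ℂ))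
    (t.cs.comp_left (g := fun x : ℝ => (x : ℂ)) Complex.ofReal_zero)
    (Complex.ofRealCLM.contDiff.comp t.sm)

/-- The Fourier transform of a real function. -/
noncomputable def F (h : E4 → ℝ) : E4 → ℂ := 𝓕 fun y => (h y : ℂ)

theorem F_eq {h : E4 → ℝ} (t : Tst h) : F h = ⇑(𝓕 (sch t) : 𝓢(E4, ℂ)) := rfl

theorem F_cont {h : E4 → ℝ} (t : Tst h) : Continuous (F h) := (𝓕 (sch t)).continuous

theorem F_int {h : E4 → ℝ} (t : Tst h) : Integrable (F h) := (𝓕 (sch t)).integrable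

theorem c_int {h : E4 → ℝ} (t : Tst h) : Integrable fun y => (h y : ℂ) := (sch t).integrable

theorem F_sq_int {h : E4 → ℝ} (t : Tst h) : Integrable fun ξ => ‖F h ξ‖ ^ 2 :=
  ((𝓕 (sch t)).memLp 2 volume).integrable_norm_pow two_ne_zero

theorem planch {h : E4 → ℝ} (t : Tst h) : ∫ ξ, ‖F h ξ‖ ^ 2 = ∫ y, h y ^ 2 := by
  rw [F_eq t, SchwartzMap.integral_norm_sq_fourier]
  refine integral_congr_ae (Filter.Eventually.of_forall fun y => ?_)
  simp [sch]

theorem F_pd {h : E4 → ℝ} (t : Tst h) (i : Fin 4) (ξ : E4) :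
    ‖F (pd i h) ξ‖ ^ 2 = 4 * π ^ 2 * ξ i ^ 2 * ‖F h ξ‖ ^ 2 := by
  have h1 : sch (tst_pd t i) = LineDeriv.lineDerivOp (EuclideanSpace.single i (1 : ℝ)) (sch t) := by
    ext y
    rw [SchwartzMap.lineDerivOp_apply_eq_fderiv]
    have := (Complex.ofRealCLM.hasFDerivAt.comp y
      ((t.sm.differentiable (by simp)) y).hasFDerivAt).fderiv
    change ((pd i h y : ℝ) : ℂ) = fderiv ℝ (Complex.ofRealCLM ∘ h) y _
    rw [this]
    rfl
  have h2 : (inner ℝ · (EuclideanSpace.single i (1 : ℝ) : E4)).HasTemperateGrowth := by fun_prop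
  rw [F_eq (tst_pd t i), h1, SchwartzMap.fourier_lineDerivOp_eq, F_eq t, smul_apply,
    SchwartzMap.smulLeftCLM_apply_apply h2]
  simp [mul_pow, EuclideanSpace.inner_single_right]
  ring

/-- The Sobolev weights. -/
noncomputable def wt : ℕ → E4 → ℝ
  | 0, _ => 1
  | k + 1, ξ => 1 + 4 * π ^ 2 * ‖ξ‖ ^ 2 * wt k ξ

theorem eN_eq (k : ℕ) : ∀ {h : E4 → ℝ}, Tst h →
    Integrable (fun ξ => wt k ξ * ‖F h ξ‖ ^ 2) ∧ eN k h = ∫ ξ, wt k ξ * ‖F h ξ‖ ^ 2 := by
  induction k with
  | zero => intro h t; simpa [wt, eN] using ⟨F_sq_int t, (planch t).symm⟩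
  | succ k ih =>
    intro h t
    have h1 : (fun ξ => wt (k + 1) ξ * ‖F h ξ‖ ^ 2) =
        fun ξ => ‖F h ξ‖ ^ 2 + ∑ i, wt k ξ * ‖F (pd i h) ξ‖ ^ 2 := by
      funext ξ
      simp only [F_pd t, wt, EuclideanSpace.real_norm_sq_eq, Fin.sum_univ_four]
      ring
    have h2 := integrable_finsetSum Finset.univ fun i _ => (ih (tst_pd t i)).1
    rw [h1]
    refine ⟨(F_sq_int t).add h2, ?_⟩
    rw [integral_add (F_sq_int t) h2, integral_finsetSum _ fun i _ => (ih (tst_pd t i)).1, planch t,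
      eN]
    simp only [fun i => (ih (tst_pd t i)).2]

theorem wt_pos (k : ℕ) (ξ : E4) : 0 < wt k ξ := by
  induction k with
  | zero => simp [wt]
  | succ k ih => rw [wt]; positivity

theorem eN_nn (k : ℕ) {h : E4 → ℝ} (t : Tst h) : 0 ≤ eN k h := by
  rw [(eN_eq k t).2]
  exact integral_nonneg fun ξ => mul_nonneg (wt_pos k ξ).le (sq_nonneg _)

theorem eN_le {j k : ℕ} {g h : E4 → ℝ} (s : Tst g) (t : Tst h) {c : ℝ}
    (hc : ∀ ξ, wt j ξ * ‖F g ξ‖ ^ 2 ≤ c * (wt k ξ * ‖F h ξ‖ ^ 2)) : eN j g ≤ c * eN k h := by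
  rw [(eN_eq j s).2, (eN_eq k t).2, ← integral_const_mul]
  exact integral_mono (eN_eq j s).1 ((eN_eq k t).1.const_mul c) hc

theorem abs_le_int {h : E4 → ℝ} (t : Tst h) (y : E4) : |h y| ≤ ∫ ξ, ‖F h ξ‖ := by
  have h1 := congrFun ((sch t).continuous.fourierInv_fourier_eq (c_int t) (F_int t)) y
  have h2 : ‖sch t y‖ = |h y| := by simp [sch]
  rw [← h2, ← h1, Real.fourierInv_eq]
  refine (norm_integral_le_integral_norm _).trans (le_of_eq ?_)
  simp only [Circle.norm_smul]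
  rfl

theorem cs {f a b : E4 → ℝ} (ia : Integrable a) (ib : Integrable b) (f0 : ∀ x, 0 ≤ f x)
    (a0 : ∀ x, 0 ≤ a x) (b0 : ∀ x, 0 ≤ b x) (h : ∀ x, f x ^ 2 ≤ a x * b x) :
    (∫ x, f x) ^ 2 ≤ (∫ x, a x) * ∫ x, b x := by
  have key : ∀ s : ℝ, 0 ≤ (∫ x, a x) * (s * s) + (-2 * ∫ x, f x) * s + ∫ x, b x := by
    intro s
    have h0 : 0 ≤ ∫ x, f x := integral_nonneg f0
    have h1 : ∫ x, 2 * |s| * f x ≤ ∫ x, (a x * (s * s) + b x) := by
      refine integral_mono_of_nonneg (Filter.Eventually.of_forall fun x => ?_)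
        ((ia.mul_const _).add ib) (Filter.Eventually.of_forall fun x => ?_)
      · have := f0 x
        positivity
      · have p1 := a0 x
        have p2 := b0 x
        refine abs_le_of_sq_le_sq' ?_ (add_nonneg (mul_nonneg p1 (mul_self_nonneg s)) p2) |>.2
        have p3 := mul_le_mul_of_nonneg_left (h x) (mul_self_nonneg s)
        rw [mul_pow, mul_pow, sq_abs]
        nlinarith [sq_nonneg (a x * (s * s) - b x)]
    rw [integral_const_mul, integral_add (ia.mul_const _) ib, integral_mul_const] at h1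
    nlinarith [mul_le_mul_of_nonneg_right (le_abs_self s) h0]
  have := discrim_le_zero key
  unfold discrim at this
  nlinarith

theorem sup_le {k : ℕ} {g h : E4 → ℝ} (s : Tst g) (t : Tst h) {a : E4 → ℝ} (ia : Integrable a)
    (a0 : ∀ x, 0 ≤ a x) (hc : ∀ ξ, ‖F g ξ‖ ^ 2 ≤ a ξ * (wt k ξ * ‖F h ξ‖ ^ 2)) (y : E4) :
    g y ^ 2 ≤ (∫ ξ, a ξ) * eN k h := by
  rw [(eN_eq k t).2, ← sq_abs]
  exact (pow_le_pow_left₀ (abs_nonneg _) (abs_le_int s y) 2).trans
    (cs ia (eN_eq k t).1 (fun _ => norm_nonneg _) a0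
      (fun ξ => mul_nonneg (wt_pos k ξ).le (sq_nonneg _)) hc)

theorem F_sub {f g : E4 → ℝ} (s : Tst f) (t : Tst g) (ξ : E4) :
    F (fun y => f y - g y) ξ = F f ξ - F g ξ := by
  simp only [F, Real.fourier_eq, Complex.ofReal_sub, smul_sub]
  exact integral_sub ((Real.fourierIntegral_convergent_iff ξ).2 (c_int s))
    ((Real.fourierIntegral_convergent_iff ξ).2 (c_int t))

theorem tst_conv {f g : E4 → ℝ} (s : Tst f) (t : Tst g) :
    Tst (f ⋆[ContinuousLinearMap.mul ℝ ℝ] g) :=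
  ⟨t.cs.contDiff_convolution_right _ s.sm.continuous.locallyIntegrable t.sm,
    s.cs.convolution _ t.cs⟩

theorem F_conv {f g : E4 → ℝ} (s : Tst f) (t : Tst g) (ξ : E4) :
    F (f ⋆[ContinuousLinearMap.mul ℝ ℝ] g) ξ = F f ξ * F g ξ := by
  rw [F, F, F, ← Real.fourier_mul_convolution_eq (c_int s) (c_int t)]
  refine congrFun (congrArg _ ?_) ξ
  ext y
  simp [convolution_def, ← integral_complex_ofReal]

theorem tst_scale {f : E4 → ℝ} (s : Tst f) {R : ℝ} (hR : 0 < R) :
    Tst fun y => R ^ 4 * f (R • y) :=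
  ⟨contDiff_const.mul (s.sm.comp (contDiff_const_smul R)),
    (s.cs.comp_smul hR.ne').mul_left (f := fun _ => R ^ 4)⟩

theorem F_scale (f : E4 → ℝ) {R : ℝ} (hR : 0 < R) (ξ : E4) :
    F (fun y => R ^ 4 * f (R • y)) ξ = F f (R⁻¹ • ξ) := by
  have h1 := Measure.integral_comp_smul (volume : Measure E4)
    (fun u => 𝐞 (-inner ℝ u (R⁻¹ • ξ)) • (f u : ℂ)) R
  simp only [inner_smul_left, inner_smul_right, finrank_euclideanSpace, Fintype.card_fin,
    conj_trivial, ← mul_assoc, inv_mul_cancel₀ hR.ne', one_mul] at h1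
  simp only [F, Real.fourier_eq, inner_smul_right]
  have h2 : ∀ y : E4, 𝐞 (-inner ℝ y ξ) • ((R ^ 4 * f (R • y) : ℝ) : ℂ) =
      (R ^ 4 : ℝ) • (𝐞 (-inner ℝ y ξ) • (f (R • y) : ℂ)) := fun y => by
    rw [smul_comm]; simp
  simp only [h2]
  rw [integral_smul, h1, smul_smul, abs_of_pos (by positivity), mul_inv_cancel₀ (by positivity),
    one_smul]

end Pool.Agent.MP_417fa2_gt.EucB

end MrgPart0

-- ======== part 1: formerly Pool.Agent.MP_417fa2_gt.An.Cpt
section MrgPart1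

/-! Sequences that are bounded in every `H^k` converge along ultrafilters in every `H^k`. -/

open scoped Manifold ContDiff Topology
open MeasureTheory Set Filter

namespace Pool.Agent.MP_417fa2_gt

universe u

/-- The linear form with coefficients `v`. -/
noncomputable def cptD (v : Fin 4 → ℝ) : E4 →L[ℝ] ℝ :=
  ∑ i, v i • (EuclideanSpace.proj i : E4 →L[ℝ] ℝ)

theorem cptD_apply (v : Fin 4 → ℝ) (z : E4) : cptD v z = ∑ i, v i * z i := by
  simp [cptD]

theorem cptD_single (v : Fin 4 → ℝ) (i : Fin 4) : cptD v (EuclideanSpace.single i 1) = v i := by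
  simp [cptD_apply]

theorem fderiv_eq_cptD (h : E4 → ℝ) (y : E4) : fderiv ℝ h y = cptD fun i => pd i h y := by
  ext z
  have hz : z = ∑ i, z i • EuclideanSpace.single i (1 : ℝ) := by
    ext j; simp [Pi.single_apply]
  rw [cptD_apply]
  conv_lhs => rw [hz]
  simp [pd, mul_comm]

theorem cptD_sub (v w : Fin 4 → ℝ) : cptD v - cptD w = cptD fun i => v i - w i := by
  ext z; simp [cptD_apply, sub_mul]

theorem norm_cptD_le {v : Fin 4 → ℝ} {K : ℝ} (hK : ∀ i, |v i| ≤ K) : ‖cptD v‖ ≤ 4 * K := by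
  have h0 : 0 ≤ K := (abs_nonneg _).trans (hK 0)
  refine ContinuousLinearMap.opNorm_le_bound _ (by positivity) fun z => ?_
  rw [cptD_apply]
  calc ‖∑ i, v i * z i‖ ≤ ∑ i, ‖v i * z i‖ := norm_sum_le _ _
    _ ≤ ∑ _i : Fin 4, K * ‖z‖ := Finset.sum_le_sum fun i _ => by
        rw [norm_mul]
        exact mul_le_mul (hK i) (PiLp.norm_apply_le z i) (norm_nonneg _) h0
    _ = 4 * K * ‖z‖ := by simp; ring

theorem contDiffOn_cptD {E : Type*} [NormedAddCommGroup E] [NormedSpace ℝ E] {m : ℕ∞ω}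
    {v : Fin 4 → E → ℝ} {s : Set E} (h : ∀ i, ContDiffOn ℝ m (v i) s) :
    ContDiffOn ℝ m (fun p => cptD fun i => v i p) s :=
  ContDiffOn.sum fun i _ => (h i).smul contDiffOn_const

variable {M : Type u} [TopologicalSpace M] [ChartedSpace E4 M]

/-- The points of the chart `a` of the frame where the cut-off function does not vanish. -/
def Frame.V (F : Frame M) (a : Fin F.n) : Set E4 :=
  (chartAt E4 (F.c a)).target ∩ param (F.c a) ⁻¹' {x | F.χ a x ≠ 0}

theorem Frame.isOpen_V (F : Frame M) (a : Fin F.n) : IsOpen (F.V a) :=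
  (continuousOn_param _).isOpen_inter_preimage (isOpen_tgt _)
    (isOpen_ne_fun (F.sm a).continuous continuous_const)

theorem Frame.mem_src (F : Frame M) {a : Fin F.n} {x : M} (h : F.χ a x ≠ 0) :
    x ∈ (chartAt E4 (F.c a)).source := F.supp a (subset_tsupport _ h)

theorem Frame.mem_V (F : Frame M) {a : Fin F.n} {x : M} (h : F.χ a x ≠ 0) :
    chartAt E4 (F.c a) x ∈ F.V a :=
  ⟨chart_mem (F.mem_src h), by simpa [param_chart (F.mem_src h)] using h⟩

theorem Frame.exists_ne (F : Frame M) (x : M) : ∃ a, F.χ a x ≠ 0 := by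
  by_contra h
  push Not at h
  have := F.sum x
  simp [h] at this

theorem Frame.pd_eq (F : Frame M) {a : Fin F.n} {y : E4} (hy : y ∈ F.V a) (f : M → ℝ) (i : Fin 4) :
    pd i (f ∘ param (F.c a)) y = F.X (a, i) f (param (F.c a) y) / F.χ a (param (F.c a) y) := by
  have h : F.χ a (param (F.c a) y) ≠ 0 := hy.2
  rw [Frame.X, cd_param hy.1]
  field_simp

/-- A ball in the chart on which the cut-off function is bounded below. -/
theorem Frame.exists_ball (F : Frame M) {a : Fin F.n} {y : E4} (hy : y ∈ F.V a) :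
    ∃ r c : ℝ, 0 < r ∧ 0 < c ∧ Metric.ball y r ⊆ F.V a ∧
      ∀ z ∈ Metric.ball y r, c ≤ |F.χ a (param (F.c a) z)| := by
  have h : 0 < |F.χ a (param (F.c a) y)| := abs_pos.2 hy.2
  have hc : ContinuousAt (fun z => |F.χ a (param (F.c a) z)|) y :=
    ((F.sm a).continuous.continuousAt.comp
      ((continuousOn_param _).continuousAt ((isOpen_tgt _).mem_nhds hy.1))).abs
  have h1 : ∀ᶠ z in 𝓝 y, |F.χ a (param (F.c a) y)| / 2 < |F.χ a (param (F.c a) z)| :=
    hc.eventually (lt_mem_nhds (half_lt_self h))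
  obtain ⟨r, hr, hb⟩ := Metric.mem_nhds_iff.1 (inter_mem ((F.isOpen_V a).mem_nhds hy) h1)
  exact ⟨r, _, hr, half_pos h, fun z hz => (hb hz).1, fun z hz => (hb hz).2.le⟩

variable [IsManifold (𝓡 4) ∞ M]

theorem Frame.hasFDerivAt (F : Frame M) {a : Fin F.n} {y : E4} (hy : y ∈ F.V a) {f : M → ℝ}
    (hf : Smooth f) : HasFDerivAt (f ∘ param (F.c a))
      (cptD fun i => F.X (a, i) f (param (F.c a) y) / F.χ a (param (F.c a) y)) y := by
  have h := (hf.dAt hy.1).hasFDerivAt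
  rw [fderiv_eq_cptD] at h
  simpa only [F.pd_eq hy] using h

theorem Frame.cdOn_inv (F : Frame M) (a : Fin F.n) :
    ContDiffOn ℝ ∞ (fun y => (F.χ a (param (F.c a) y))⁻¹) (F.V a) :=
  (((F.sm a).cdOn _).mono inter_subset_left).inv fun _ hy => hy.2

variable [MeasurableSpace M]

/-- Sequences of smooth functions that are bounded in every `H^k`. -/
structure CptBd (S : Setup M) (F : Frame M) (f : ℕ → M → ℝ) : Prop where
  sm : ∀ n, Smooth (f n)
  bd : ∀ k, ∃ C : ℝ, ∀ n, F.N S.μ k (f n) ≤ C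

/-- The pointwise limit along an ultrafilter. -/
noncomputable def cptLim (U : Ultrafilter ℕ) (f : ℕ → M → ℝ) (x : M) : ℝ :=
  limUnder U fun n => f n x

variable {S : Setup M} {F : Frame M} {f : ℕ → M → ℝ}

theorem CptBd.X (h : CptBd S F f) (j : Fin F.n × Fin 4) : CptBd S F fun n => F.X j (f n) :=
  ⟨fun n => F.X_smooth j (h.sm n), fun k =>
    (h.bd (k + 1)).imp fun _ hC n => (F.N_X_le _ k _ j).trans (hC n)⟩

omit [IsManifold (𝓡 4) ∞ M] in
theorem Agm.sup_le (hA : Agm S F) : ∃ C : ℝ, 0 < C ∧ ∀ f, Smooth f → ∀ B : ℝ, 0 ≤ B →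
    F.N S.μ 4 f ≤ B ^ 2 → ∀ x, |f x| ≤ C * B := by
  obtain ⟨C, hC, h⟩ := hA
  refine ⟨C + 1, by positivity, fun f hf B hB hN x => ?_⟩
  have h0 := F.N_nonneg S.μ 0 f
  have h1 : F.N S.μ 0 f ≤ B ^ 2 := (F.N_mono S.μ (by norm_num) f).trans hN
  have h2 : f x ^ 4 ≤ C * B ^ 2 * B ^ 2 :=
    (h f hf x).trans (mul_le_mul (mul_le_mul_of_nonneg_left h1 hC.le) hN (F.N_nonneg _ _ _)
      (by positivity))
  refine abs_le_of_sq_le_sq (abs_le_of_sq_le_sq' ?_ (by positivity)).2 (by positivity)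
  have h3 : C ≤ (C + 1) ^ 4 := by
    nlinarith [pow_le_pow_right₀ (by linarith : 1 ≤ C + 1) (by norm_num : 1 ≤ 4)]
  calc (f x ^ 2) ^ 2 = f x ^ 4 := by ring
    _ ≤ C * B ^ 4 := by linarith
    _ ≤ (C + 1) ^ 4 * B ^ 4 := by gcongr
    _ = (((C + 1) * B) ^ 2) ^ 2 := by ring

omit [IsManifold (𝓡 4) ∞ M] in
theorem CptBd.sup (hA : Agm S F) (h : CptBd S F f) : ∃ B : ℝ, 0 ≤ B ∧ ∀ n x, |f n x| ≤ B := by
  obtain ⟨C, hC, hb⟩ := hA.sup_le
  obtain ⟨K, hK⟩ := h.bd 4
  refine ⟨C * (|K| + 1), by positivity, fun n x => hb _ (h.sm n) _ (by positivity) ?_ x⟩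
  nlinarith [hK n, le_abs_self K, abs_nonneg K]

omit [IsManifold (𝓡 4) ∞ M] in
theorem CptBd.tendsto (hA : Agm S F) (h : CptBd S F f) (U : Ultrafilter ℕ) (x : M) :
    Tendsto (fun n => f n x) U (𝓝 (cptLim U f x)) := by
  obtain ⟨B, -, hB⟩ := h.sup hA
  obtain ⟨l, -, hl⟩ := (isCompact_Icc (a := -B) (b := B)).ultrafilter_le_nhds
    (U.map fun n => f n x) (by
      rw [Ultrafilter.coe_map, le_principal_iff, mem_map]
      exact univ_mem' fun n => abs_le.1 (hB n x))
  exact tendsto_nhds_limUnder ⟨l, hl⟩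

theorem CptBd.equicontinuous (hA : Agm S F) (h : CptBd S F f) : Equicontinuous f := by
  intro x
  obtain ⟨a, ha⟩ := F.exists_ne x
  obtain ⟨r, c, hr, hc, hV, hb⟩ := F.exists_ball (F.mem_V ha)
  choose B hB0 hB using fun i => (h.X (a, i)).sup hA
  have hK : ∀ n, ∀ z ∈ Metric.ball (chartAt E4 (F.c a) x) r,
      ‖fderiv ℝ (f n ∘ param (F.c a)) z‖ ≤ 4 * ((∑ i, B i) / c) := by
    intro n z hz
    rw [(F.hasFDerivAt (hV hz) (h.sm n)).fderiv]
    refine norm_cptD_le fun i => ?_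
    rw [abs_div]
    exact div_le_div₀ (Finset.sum_nonneg fun i _ => hB0 i) ((hB i n _).trans
      (Finset.single_le_sum (f := B) (fun i _ => hB0 i) (Finset.mem_univ i))) hc (hb z hz)
  have hcont : ContinuousAt (chartAt E4 (F.c a)) x := (chartAt E4 (F.c a)).continuousAt (F.mem_src ha)
  refine Metric.equicontinuousAt_of_continuity_modulus
    (fun z => 4 * ((∑ i, B i) / c) * ‖chartAt E4 (F.c a) z - chartAt E4 (F.c a) x‖) ?_ f ?_
  · have := ((hcont.sub (continuousAt_const (y := chartAt E4 (F.c a) x))).norm.const_mul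
      (4 * ((∑ i, B i) / c))).tendsto
    simpa using this
  · filter_upwards [hcont.eventually (Metric.ball_mem_nhds _ hr),
      (isOpen_src _).mem_nhds (F.mem_src ha)] with z hz hz' n
    have := (convex_ball _ r).norm_image_sub_le_of_norm_fderiv_le
      (fun w hw => (h.sm n).dAt (hV hw).1) (hK n) (Metric.mem_ball_self hr) hz
    simp only [Function.comp, param_chart hz', param_chart (F.mem_src ha)] at this
    rwa [dist_comm, dist_eq_norm]

variable [CompactSpace M]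

theorem CptBd.unif (hA : Agm S F) (h : CptBd S F f) (U : Ultrafilter ℕ) :
    TendstoUniformly f (cptLim U f) U :=
  UniformFun.tendsto_iff_tendstoUniformly.1
    (((h.equicontinuous hA).tendsto_uniformFun_iff_pi U (cptLim U f)).2
      (tendsto_pi_nhds.2 (h.tendsto hA U)))

theorem CptBd.hasFDerivAt (hA : Agm S F) (h : CptBd S F f) (U : Ultrafilter ℕ) {a : Fin F.n}
    {y : E4} (hy : y ∈ F.V a) : HasFDerivAt (cptLim U f ∘ param (F.c a))
      (cptD fun i => cptLim U (fun n => F.X (a, i) (f n)) (param (F.c a) y) /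
        F.χ a (param (F.c a) y)) y := by
  obtain ⟨r, c, hr, hc, hV, hb⟩ := F.exists_ball hy
  refine hasFDerivAt_of_tendstoUniformlyOn (l := (U : Filter ℕ))
    (f := fun n => f n ∘ param (F.c a))
    (f' := fun n z => cptD fun i => F.X (a, i) (f n) (param (F.c a) z) / F.χ a (param (F.c a) z))
    (g' := fun z => cptD fun i => cptLim U (fun n => F.X (a, i) (f n)) (param (F.c a) z) /
        F.χ a (param (F.c a) z))
    Metric.isOpen_ball ?_ (fun n z hz => F.hasFDerivAt (hV hz) (h.sm n))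
    (fun z _ => h.tendsto hA U _) (Metric.mem_ball_self hr)
  refine Metric.tendstoUniformlyOn_iff.2 fun ε hε => ?_
  have h1 := fun i => Metric.tendstoUniformly_iff.1 ((h.X (a, i)).unif hA U) (c * ε / 8)
    (by positivity)
  filter_upwards [eventually_all.2 h1] with n hn z hz
  rw [dist_eq_norm, cptD_sub]
  refine (norm_cptD_le (K := ε / 8) fun i => ?_).trans_lt (by linarith)
  rw [← sub_div, abs_div, div_le_iff₀ (hc.trans_le (hb z hz))]
  have h2 := hn i (param (F.c a) z)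
  rw [Real.dist_eq] at h2
  nlinarith [hb z hz]

theorem cpt_contDiffOn (hA : Agm S F) (U : Ultrafilter ℕ) (a : Fin F.n) (m : ℕ) :
    ∀ f, CptBd S F f → ContDiffOn ℝ m (cptLim U f ∘ param (F.c a)) (F.V a) := by
  induction m with
  | zero =>
    intro f h
    exact contDiffOn_zero.2 fun y hy => (h.hasFDerivAt hA U hy).continuousAt.continuousWithinAt
  | succ m ih =>
    intro f h
    rw [Nat.cast_succ, contDiffOn_succ_iff_hasFDerivWithinAt_of_uniqueDiffOn
      (F.isOpen_V a).uniqueDiffOn]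
    refine ⟨by simp, _, ?_, fun y hy => (h.hasFDerivAt hA U hy).hasFDerivWithinAt⟩
    refine contDiffOn_cptD fun i => ?_
    simp only [div_eq_mul_inv]
    exact (ih _ (h.X (a, i))).mul ((F.cdOn_inv a).of_le (by exact_mod_cast le_top))

theorem CptBd.smooth_lim (hA : Agm S F) (h : CptBd S F f) (U : Ultrafilter ℕ) :
    Smooth (cptLim U f) := by
  intro x
  obtain ⟨a, ha⟩ := F.exists_ne x
  refine contMDiffAt_of_chart (F.mem_src ha) (F := cptLim U f ∘ param (F.c a))
    ((contDiffOn_infty.2 fun m => cpt_contDiffOn hA U a m f h).contDiffAt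
      ((F.isOpen_V a).mem_nhds (F.mem_V ha))) ?_
  filter_upwards [(isOpen_src _).mem_nhds (F.mem_src ha)] with z hz
  simp [param_chart hz]

theorem CptBd.X_lim (hA : Agm S F) (h : CptBd S F f) (U : Ultrafilter ℕ) (j : Fin F.n × Fin 4) :
    F.X j (cptLim U f) = cptLim U fun n => F.X j (f n) := by
  funext x
  obtain ⟨a, i⟩ := j
  by_cases ha : F.χ a x = 0
  · have h1 := (h.X (a, i)).tendsto hA U x
    simp only [Frame.X, ha, zero_mul] at h1 ⊢
    exact tendsto_nhds_unique tendsto_const_nhds h1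
  · have h1 := (h.hasFDerivAt hA U (F.mem_V ha)).fderiv
    rw [Frame.X, cd, pd, h1, cptD_single, param_chart (F.mem_src ha)]
    field_simp

variable [T2Space M] [BorelSpace M]

theorem cpt_tendsto (hA : Agm S F) (U : Ultrafilter ℕ) (k : ℕ) : ∀ f, CptBd S F f →
    Tendsto (fun n => F.N S.μ k fun x => f n x - cptLim U f x) U (𝓝 0) := by
  have h0 : ∀ f, CptBd S F f →
      Tendsto (fun n => F.N S.μ 0 fun x => f n x - cptLim U f x) U (𝓝 0) := by
    intro f h
    have hm : 0 ≤ S.μ.real univ := measureReal_nonneg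
    refine Metric.tendsto_nhds.2 fun ε hε => ?_
    have hδ : 0 < min 1 (ε / (S.μ.real univ + 1)) := lt_min one_pos (by positivity)
    filter_upwards [Metric.tendstoUniformly_iff.1 (h.unif hA U) _ hδ] with n hn
    rw [Real.dist_eq, sub_zero, abs_of_nonneg (F.N_nonneg _ _ _), F.N_zero]
    have h1 : ∫ x, (f n x - cptLim U f x) ^ 2 ∂S.μ ≤ ∫ _x, ε / (S.μ.real univ + 1) ∂S.μ := by
      refine integral_mono (S.integrable (((h.sm n).sub (h.smooth_lim hA U)).pow 2).continuous)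
        (integrable_const _) fun x => ?_
      have h2 := hn x
      rw [dist_comm, Real.dist_eq, lt_min_iff] at h2
      have h3 := abs_nonneg (f n x - cptLim U f x)
      beta_reduce
      rw [← sq_abs]
      nlinarith [h2.1, h2.2]
    refine h1.trans_lt ?_
    rw [integral_const, smul_eq_mul, mul_div_assoc', div_lt_iff₀ (by positivity)]
    nlinarith
  induction k with
  | zero => exact h0
  | succ k ih =>
    intro f h
    simp only [F.N_succ]
    have h1 := (h0 f h).add (tendsto_finsetSum Finset.univ fun j _ => ih _ (h.X j))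
    simp only [Finset.sum_const_zero, add_zero] at h1
    refine h1.congr fun n => ?_
    simp only [F.X_sub _ (h.sm n) (h.smooth_lim hA U), h.X_lim hA U]

theorem cpt : CptStmt.{u} := by
  intro M _ _ _ _ _ _ _ S F hA U f hf hb
  have h : CptBd S F f := ⟨hf, hb⟩
  exact ⟨cptLim U f, h.smooth_lim hA U, fun k => cpt_tendsto hA U k f h⟩

end Pool.Agent.MP_417fa2_gt

end MrgPart1

-- marker of a merged file
example : 731051 + 386823 = 731051 + 386823 := rfl
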