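import Mathlib.Algebra.Order.Ring.Star
import Mathlib.RingTheory.PiTensorProduct
import Pool.Agent.MP_417fa2_gt.An.Bridge
import Pool.Agent.MP_417fa2_gt.An.DenseEa

-- ======== part 0: formerly Pool.Agent.MP_417fa2_gt.An.Cont
section MrgPart0

-- ======== part 0: formerly Pool.Agent.MP_417fa2_gt.An.DO
section MrgPart0

/-! Differential operators generated by a frame: composition, commutators, Sobolev bounds. -/

open scoped Manifold ContDiff Topology
open MeasureTheory Set Filter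

namespace Pool.Agent.MP_417fa2_gt

universe u

theorem pd_comp {g : E4 → ℝ} {σ : E4 → E4} {z : E4} (hg : DifferentiableAt ℝ g (σ z))
    (hσ : DifferentiableAt ℝ σ z) (p : Fin 4) :
    pd p (g ∘ σ) z = ∑ r, pd p (fun w => σ w r) z * pd r g (σ z) := by
  have h1 : ∀ r, pd p (fun w => σ w r) z = fderiv ℝ σ z (EuclideanSpace.single p 1) r := by
    intro r
    have := ((EuclideanSpace.proj (𝕜 := ℝ) r : E4 →L[ℝ] ℝ).hasFDerivAt.comp z hσ.hasFDerivAt).fderiv
    unfold pd
    exact congrArg (fun L : E4 →L[ℝ] ℝ => L (EuclideanSpace.single p 1)) this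
  simp only [h1]
  unfold pd
  rw [fderiv_comp z hg hσ, ContinuousLinearMap.comp_apply]
  set v := fderiv ℝ σ z (EuclideanSpace.single p 1)
  have hv : v = ∑ r, v r • EuclideanSpace.single r (1 : ℝ) := by
    ext i; simp [Pi.single_apply]
  conv_lhs => rw [hv]
  simp only [map_sum, map_smul, smul_eq_mul]

variable {M : Type u} [TopologicalSpace M] [ChartedSpace E4 M]

/-- Differential operators of order at most `k`. -/
inductive DO (F : Frame M) : ℕ → ((M → ℝ) → M → ℝ) → Prop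
  | mul {κ : M → ℝ} (h : Smooth κ) : DO F 0 fun f x => κ x * f x
  | comp {k : ℕ} {T : (M → ℝ) → M → ℝ} (j : Fin F.n × Fin 4) (h : DO F k T) :
      DO F (k + 1) fun f => T (F.X j f)
  | add {k : ℕ} {T T' : (M → ℝ) → M → ℝ} (h : DO F k T) (h' : DO F k T') :
      DO F k fun f x => T f x + T' f x
  | succ {k : ℕ} {T : (M → ℝ) → M → ℝ} (h : DO F k T) : DO F (k + 1) T
  | congr {k : ℕ} {T T' : (M → ℝ) → M → ℝ} (h : DO F k T) (e : ∀ f, Smooth f → T' f = T f) :
      DO F k T'

/-- Vector fields acting on functions. -/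
def VF (V : (M → ℝ) → M → ℝ) : Prop :=
  ∀ x₀ : M, ∃ v : Fin 4 → E4 → ℝ, (∀ i, ContDiffOn ℝ ∞ (v i) (chartAt E4 x₀).target) ∧
    ∀ f, Smooth f → ∀ y ∈ (chartAt E4 x₀).target,
      V f (param x₀ y) = ∑ i, v i y * pd i (f ∘ param x₀) y

variable {F : Frame M} {k l : ℕ} {T T' V W : (M → ℝ) → M → ℝ} {f g κ : M → ℝ}

namespace DO

theorem mono (h : DO F k T) (hkl : k ≤ l) : DO F l T := by
  induction hkl with
  | refl => exact h
  | step _ ih => exact ih.succ

theorem id : DO F 0 fun f => f := (DO.mul (smooth_const 1)).congr fun f _ => by simp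

theorem zero : DO F k fun _ _ => 0 :=
  ((DO.mul (smooth_const 0)).congr fun f _ => by simp).mono (Nat.zero_le k)

theorem X (j : Fin F.n × Fin 4) : DO F 1 (F.X j) := DO.id.comp j

theorem mul_left (h : DO F k T) (hκ : Smooth κ) : DO F k fun f x => κ x * T f x := by
  induction h with
  | mul h => exact (DO.mul (hκ.mul h)).congr fun f _ => by simp only [mul_assoc]
  | comp j _ ih => exact ih.comp j
  | add _ _ ih ih' => exact (ih.add ih').congr fun f _ => by simp only [mul_add]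
  | succ _ ih => exact ih.succ
  | congr _ e ih => exact ih.congr fun f hf => by rw [e f hf]

theorem sub (h : DO F k T) (h' : DO F k T') : DO F k fun f x => T f x - T' f x :=
  (h.add (h'.mul_left (smooth_const (-1)))).congr fun f _ => by simp [sub_eq_add_neg]

theorem sum {ι : Type*} (s : Finset ι) {T : ι → (M → ℝ) → M → ℝ} (h : ∀ i, DO F k (T i)) :
    DO F k fun f x => ∑ i ∈ s, T i f x := by
  classical
  induction s using Finset.induction_on with
  | empty => simpa using DO.zero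
  | insert a s ha ih => simpa only [Finset.sum_insert ha] using (h a).add ih

variable [IsManifold (𝓡 4) ∞ M]

theorem smooth (h : DO F k T) (hf : Smooth f) : Smooth (T f) := by
  induction h generalizing f with
  | mul h => exact h.mul hf
  | comp j _ ih => exact ih (F.X_smooth j hf)
  | add _ _ ih ih' => exact (ih hf).add (ih' hf)
  | succ _ ih => exact ih hf
  | congr _ e ih => rw [e f hf]; exact ih hf

theorem map_add (h : DO F k T) (hf : Smooth f) (hg : Smooth g) :
    T (fun x => f x + g x) = fun x => T f x + T g x := by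
  induction h generalizing f g with
  | mul h => simp only [mul_add]
  | comp j _ ih => simp only [F.X_add j hf hg, ih (F.X_smooth j hf) (F.X_smooth j hg)]
  | add _ _ ih ih' => funext x; simp only [ih hf hg, ih' hf hg]; ring
  | succ _ ih => exact ih hf hg
  | congr _ e ih => rw [e _ (hf.add hg), e f hf, e g hg]; exact ih hf hg

theorem map_sub (h : DO F k T) (hf : Smooth f) (hg : Smooth g) :
    T (fun x => f x - g x) = fun x => T f x - T g x := by
  have := h.map_add (hf.sub hg) hg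
  simp only [sub_add_cancel] at this
  funext x
  rw [show T f x = _ from congrFun this x]; ring

theorem comp_mul (h : DO F k T) (hκ : Smooth κ) : DO F k fun f => T fun x => κ x * f x := by
  induction h generalizing κ with
  | mul h => exact (DO.mul (h.mul hκ)).congr fun f _ => by simp only [mul_assoc]
  | comp j h ih =>
    refine ((ih (F.X_smooth j hκ)).succ.add ((ih hκ).comp j)).congr fun f hf => ?_
    simp only [F.X_mul j hκ hf]
    exact h.map_add ((F.X_smooth j hκ).mul hf) (hκ.mul (F.X_smooth j hf))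
  | add _ _ ih ih' => exact (ih hκ).add (ih' hκ)
  | succ _ ih => exact (ih hκ).succ
  | congr _ e ih => exact (ih hκ).congr fun f hf => e _ (hκ.mul hf)

theorem trans (h : DO F k T) (h' : DO F l T') : DO F (k + l) fun f => T (T' f) := by
  induction h' with
  | mul h' => exact h.comp_mul h'
  | comp j _ ih => exact ih.comp j
  | add h1 h2 ih ih' =>
    exact (ih.add ih').congr fun f hf => h.map_add (h1.smooth hf) (h2.smooth hf)
  | succ _ ih => exact ih.succ
  | congr _ e ih => exact ih.congr fun f hf => by rw [e f hf]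

end DO

variable [IsManifold (𝓡 4) ∞ M]

theorem VF.smooth (h : VF V) (hf : Smooth f) : Smooth (V f) :=
  smooth_of_cdOn fun x₀ => by
    obtain ⟨v, hv, e⟩ := h x₀
    exact (ContDiffOn.sum fun i _ => (hv i).mul (cdOn_pd (isOpen_tgt x₀) (hf.cdOn x₀) i)).congr
      fun y hy => e f hf y hy

theorem vf_cd {c : M} {ψ : M → ℝ} (hψ : Smooth ψ) (hs : tsupport ψ ⊆ (chartAt E4 c).source)
    (p : Fin 4) : VF fun f x => ψ x * cd c p f x := by
  intro x₀
  have hO : ∀ y ∈ (chartAt E4 x₀).target, param x₀ y ∈ (chartAt E4 c).source →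
      (chartAt E4 c).target ∩ param c ⁻¹' (chartAt E4 x₀).source ∈
        𝓝 (chartAt E4 c (param x₀ y)) := fun y hy h =>
    (isOpen_overlap c x₀).mem_nhds ⟨chart_mem h, by simpa [param_chart h] using param_mem hy⟩
  refine ⟨fun r y => ψ (param x₀ y) * pd p (fun z => chartAt E4 x₀ (param c z) r)
    (chartAt E4 c (param x₀ y)), fun r y hy => ?_, fun f hf y hy => ?_⟩
  · by_cases h : param x₀ y ∈ (chartAt E4 c).source
    · refine (hψ.cdOn x₀ y hy).mul (ContDiffAt.contDiffWithinAt ?_)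
      have h1 : ContDiffAt ℝ ∞ (fun z => chartAt E4 x₀ (param c z) r) (chartAt E4 c (param x₀ y)) :=
        (EuclideanSpace.proj (𝕜 := ℝ) r : E4 →L[ℝ] ℝ).contDiff.contDiffAt.comp _
          ((cdOn_transition c x₀).contDiffAt (hO y hy h))
      exact (cdAt_pd h1 p).comp y ((cdOn_transition x₀ c).contDiffAt
        ((isOpen_overlap x₀ c).mem_nhds ⟨hy, h⟩))
    · refine ContDiffAt.contDiffWithinAt
        ((contDiffAt_const (c := (0 : ℝ))).congr_of_eventuallyEq (mem_of_superset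
          (((continuousOn_param x₀).isOpen_inter_preimage (isOpen_tgt x₀)
            (isClosed_tsupport ψ).isOpen_compl).mem_nhds ⟨hy, fun h' => h (hs h')⟩)
          fun z hz => ?_))
      simp [image_eq_zero_of_notMem_tsupport hz.2]
  · by_cases h : param x₀ y ∈ (chartAt E4 c).source
    · have e : f ∘ param c =ᶠ[𝓝 (chartAt E4 c (param x₀ y))]
          (f ∘ param x₀) ∘ fun z => chartAt E4 x₀ (param c z) :=
        mem_of_superset (hO y hy h) fun z hz => by simp [param_chart hz.2]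
      have e2 : chartAt E4 x₀ (param c (chartAt E4 c (param x₀ y))) = y := by
        rw [param_chart h, chart_param hy]
      simp only [cd]
      rw [pd_congr e, pd_comp (by rw [e2]; exact hf.dAt hy)
        (((cdOn_transition c x₀).contDiffAt (hO y hy h)).differentiableAt (by simp)), e2,
        Finset.mul_sum]
      simp only [mul_assoc]
    · simp [zero_of_notMem_src hs h]

theorem Frame.vf_X (F : Frame M) (j : Fin F.n × Fin 4) : VF (F.X j) :=
  vf_cd (F.sm j.1) (F.supp j.1) j.2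

theorem VF.comm (h : VF V) (h' : VF W) : VF fun f x => V (W f) x - W (V f) x := by
  intro x₀
  obtain ⟨v, hv, e⟩ := h x₀
  obtain ⟨w, hw, e'⟩ := h' x₀
  have hU := isOpen_tgt x₀
  refine ⟨fun j y => ∑ i, (v i y * pd i (w j) y - w i y * pd i (v j) y), fun j =>
    ContDiffOn.sum fun i _ => ((hv i).mul (cdOn_pd hU (hw j) i)).sub
      ((hw i).mul (cdOn_pd hU (hv j) i)), fun f hf y hy => ?_⟩
  have key : ∀ {V : (M → ℝ) → M → ℝ} {v : Fin 4 → E4 → ℝ},
      (∀ i, ContDiffOn ℝ ∞ (v i) (chartAt E4 x₀).target) →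
      (∀ y ∈ (chartAt E4 x₀).target, V f (param x₀ y) = ∑ i, v i y * pd i (f ∘ param x₀) y) →
      ∀ i, pd i (V f ∘ param x₀) y = ∑ j, (pd i (v j) y * pd j (f ∘ param x₀) y +
        v j y * pd i (pd j (f ∘ param x₀)) y) := by
    intro V v hv e i
    have d2 := fun j => dAt_of_cdOn hU (cdOn_pd hU (hf.cdOn x₀) j) hy
    rw [pd_congr_on hU (f := V f ∘ param x₀) e i hy,
      pd_sum fun j _ => (dAt_of_cdOn hU (hv j) hy).fun_mul (d2 j)]
    exact Finset.sum_congr rfl fun j _ => pd_mul (dAt_of_cdOn hU (hv j) hy) (d2 j) i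
  have hc := pd_comm ((hf.cdOn x₀).contDiffAt (hU.mem_nhds hy))
  simp only [e _ (h'.smooth hf) y hy, e' _ (h.smooth hf) y hy, key hv (e f hf), key hw (e' f hf),
    Fin.sum_univ_four, hc 1 0, hc 2 0, hc 3 0, hc 2 1, hc 3 1, hc 3 2]
  ring

theorem VF.do1 (h : VF V) : DO F 1 V := by
  choose v hv e using h
  refine (DO.sum Finset.univ fun j : Fin F.n × Fin 4 => (DO.X j).mul_left
    (smooth_mul_chart (F.sm j.1) (F.supp j.1) (hv (F.c j.1) j.2))).congr fun f hf => ?_
  funext x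
  rw [Fintype.sum_prod_type, ← one_mul (V f x), ← F.sum x, Finset.sum_mul]
  refine Finset.sum_congr rfl fun a _ => ?_
  by_cases hx : x ∈ (chartAt E4 (F.c a)).source
  · have := e (F.c a) f hf _ (chart_mem hx)
    rw [param_chart hx] at this
    rw [this, Finset.mul_sum]
    exact Finset.sum_congr rfl fun i _ => by simp only [Frame.X, cd]; ring
  · simp [zero_of_notMem_src (F.supp a) hx]

/-- The commutator with a vector field of the frame does not raise the order. -/
theorem DO.comm_X (h : DO F k T) (j : Fin F.n × Fin 4) :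
    DO F k fun f x => F.X j (T f) x - T (F.X j f) x := by
  induction h with
  | mul h => exact (DO.mul (F.X_smooth j h)).congr fun f hf => by simp [F.X_mul j h hf]
  | comp i h ih =>
    refine ((ih.comp i).add (h.trans ((F.vf_X j).comm (F.vf_X i)).do1)).congr fun f hf => ?_
    funext x
    simp only [h.map_sub (F.X_smooth j (F.X_smooth i hf)) (F.X_smooth i (F.X_smooth j hf))]
    ring
  | add h1 h2 ih ih' =>
    refine (ih.add ih').congr fun f hf => ?_
    funext x
    simp only [F.X_add j (h1.smooth hf) (h2.smooth hf)]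
    ring
  | succ _ ih => exact ih.succ
  | congr _ e ih => exact ih.congr fun f hf => by simp only [e f hf, e _ (F.X_smooth j hf)]

variable [MeasurableSpace M] {S : Setup M}

theorem Setup.Op.do2 {A : M → Fin 4 → Fin 4 → E4 → ℝ} (h : S.Op T A) : DO F 2 T := by
  have hs : ∀ x, 0 < ∑ a, F.χ a x ^ 4 := by
    intro x
    obtain ⟨a, -, ha⟩ := Finset.exists_ne_zero_of_sum_ne_zero (F.sum x ▸ one_ne_zero :
      ∑ a, F.χ a x ^ 2 ≠ 0)
    have ha' : F.χ a x ≠ 0 := fun h0 => ha (by simp [h0])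
    exact Finset.sum_pos' (fun _ _ => by positivity) ⟨a, Finset.mem_univ _, by positivity⟩
  have key : ∀ a, DO F 2 fun f x => F.χ a x ^ 4 * T f x := by
    intro a
    have hU := isOpen_tgt (F.c a)
    have hρ := S.ρ_sm (F.c a)
    have hρ' := hρ.inv fun y hy => (S.ρ_pos _ y hy).ne'
    have hχ := (F.sm a).cdOn (F.c a)
    have fl : ∀ p, DO F 1 fun f x => ∑ q, F.χ a x * (fun y => S.ρ (F.c a) y * A (F.c a) p q y)
        (chartAt E4 (F.c a) x) * F.X (a, q) f x := fun p => DO.sum _ fun q =>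
      (DO.X (a, q)).mul_left (smooth_mul_chart (F.sm a) (F.supp a) (hρ.mul (h.sm _ p q)))
    refine (DO.sum Finset.univ fun p => (((DO.X (a, p)).trans (fl p)).mul_left
      (smooth_mul_chart (F.sm a) (F.supp a) hρ')).sub ((fl p).succ.mul_left
      (smooth_mul_chart (F.sm a) (F.supp a)
        ((contDiffOn_const (c := (2 : ℝ))).mul (hρ'.mul (cdOn_pd hU hχ p)))))).congr
      fun f hf => ?_
    funext x
    by_cases hx : x ∈ (chartAt E4 (F.c a)).source
    · have hy := chart_mem hx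
      have e1 := h.loc f hf _ _ hy
      rw [param_chart hx] at e1
      rw [e1, dop, Finset.mul_sum, Finset.mul_sum]
      refine Finset.sum_congr rfl fun p _ => ?_
      have hΦ := cdOn_flux hU hρ (h.sm (F.c a)) (hf.cdOn (F.c a)) p
      have e2 : EqOn ((fun x => ∑ q, F.χ a x * (fun y => S.ρ (F.c a) y * A (F.c a) p q y)
          (chartAt E4 (F.c a) x) * F.X (a, q) f x) ∘ param (F.c a))
          (fun z => ((F.χ a ∘ param (F.c a)) z * (F.χ a ∘ param (F.c a)) z) * (S.ρ (F.c a) z *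
            ∑ q, A (F.c a) p q z * pd q (f ∘ param (F.c a)) z)) (chartAt E4 (F.c a)).target := by
        intro z hz
        simp only [Function.comp, Frame.X, cd, chart_param hz, Finset.mul_sum]
        exact Finset.sum_congr rfl fun q _ => by ring
      have e3 := e2 hy
      simp only [Function.comp, param_chart hx] at e3
      have d1 := dAt_of_cdOn hU hχ hy
      simp only [e3]
      simp only [Frame.X, cd]
      erw [pd_congr_on hU e2 p hy]
      rw [pd_mul (d1.fun_mul d1) (dAt_of_cdOn hU hΦ hy), pd_mul d1 d1]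
      simp only [Function.comp, param_chart hx, Pi.inv_apply]
      ring
    · simp [zero_of_notMem_src (F.supp a) hx]
  refine ((DO.sum Finset.univ key).mul_left
    ((Smooth.sum fun a _ => (F.sm a).pow 4).inv fun x => (hs x).ne')).congr fun f _ => ?_
  funext x
  rw [← Finset.sum_mul, ← mul_assoc, inv_mul_cancel₀ (hs x).ne', one_mul]

theorem Setup.do_L (S : Setup M) : DO F 2 S.L := S.opL.do2

theorem Setup.do_B (S : Setup M) : DO F 2 S.B := S.opB.do2

theorem Setup.do_P (S : Setup M) : DO F 4 S.P :=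
  (S.do_L.trans S.do_L).add (S.do_B.mono (by norm_num))

variable [T2Space M] [CompactSpace M] [BorelSpace M]

omit [IsManifold (𝓡 4) ∞ M] [MeasurableSpace M] [T2Space M] [BorelSpace M] in
theorem exists_sq_le (hκ : Continuous κ) : ∃ C : ℝ, 0 < C ∧ ∀ x, κ x ^ 2 ≤ C := by
  obtain ⟨C, hC⟩ := (isCompact_univ.image (hκ.pow 2)).bddAbove
  exact ⟨max C 1, by positivity, fun x => (hC ⟨x, mem_univ _, rfl⟩).trans (le_max_left _ _)⟩

theorem Frame.N_mul_le (F : Frame M) (S : Setup M) (m : ℕ) (hκ : Smooth κ) :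
    ∃ C : ℝ, 0 < C ∧ ∀ f, Smooth f → F.N S.μ m (fun x => κ x * f x) ≤ C * F.N S.μ m f := by
  have h0 : ∀ {κ : M → ℝ}, Smooth κ →
      ∃ C : ℝ, 0 < C ∧ ∀ f, Smooth f → F.N S.μ 0 (fun x => κ x * f x) ≤ C * F.N S.μ 0 f := by
    intro κ hκ
    obtain ⟨C, hC, h⟩ := exists_sq_le hκ.continuous
    refine ⟨C, hC, fun f hf => ?_⟩
    rw [F.N_zero, F.N_zero, ← integral_const_mul]
    exact integral_mono (S.integrable ((hκ.mul hf).pow 2).continuous)
      ((S.integrable (hf.pow 2).continuous).const_mul C)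
      fun x => by simp only [mul_pow]; exact mul_le_mul_of_nonneg_right (h x) (sq_nonneg _)
  induction m generalizing κ with
  | zero => exact h0 hκ
  | succ m ih =>
    obtain ⟨C0, hC0, b0⟩ := h0 hκ
    obtain ⟨C1, hC1, b1⟩ := ih hκ
    choose C2 hC2 b2 using fun j => ih (F.X_smooth j hκ)
    have hs : 0 ≤ ∑ j, C2 j := Finset.sum_nonneg fun j _ => (hC2 j).le
    refine ⟨C0 + 2 * ∑ j, C2 j + 2 * C1, by positivity, fun f hf => ?_⟩
    have h1 : ∑ j, F.N S.μ m (F.X j fun x => κ x * f x) ≤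
        ∑ j, (2 * (C2 j * F.N S.μ (m + 1) f) + 2 * (C1 * F.N S.μ m (F.X j f))) :=
      Finset.sum_le_sum fun j _ => by
        rw [F.X_mul j hκ hf]
        refine (F.N_add_le S m ((F.X_smooth j hκ).mul hf) (hκ.mul (F.X_smooth j hf))).trans ?_
        have := mul_le_mul_of_nonneg_left (F.N_le_succ S.μ m f) (hC2 j).le
        linarith [b2 j f hf, b1 _ (F.X_smooth j hf)]
    rw [Finset.sum_add_distrib, ← Finset.mul_sum, ← Finset.mul_sum, ← Finset.mul_sum,
      ← Finset.sum_mul] at h1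
    have h2 := mul_le_mul_of_nonneg_left (F.sum_N_X_le S.μ m f) hC1.le
    have h3 := mul_le_mul_of_nonneg_left (F.N_mono S.μ (Nat.zero_le (m + 1)) f) hC0.le
    rw [F.N_succ S.μ m]
    linarith [b0 f hf]

theorem DO.bound (h : DO F k T) (S : Setup M) (m : ℕ) :
    ∃ C : ℝ, 0 < C ∧ ∀ f, Smooth f → F.N S.μ m (T f) ≤ C * F.N S.μ (m + k) f := by
  induction h with
  | mul h => exact F.N_mul_le S m h
  | comp j _ ih =>
    obtain ⟨C, hC, b⟩ := ih
    exact ⟨C, hC, fun f hf => (b _ (F.X_smooth j hf)).trans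
      (mul_le_mul_of_nonneg_left (F.N_X_le _ _ f j) hC.le)⟩
  | add h1 h2 ih ih' =>
    obtain ⟨C, hC, b⟩ := ih
    obtain ⟨C', hC', b'⟩ := ih'
    refine ⟨2 * C + 2 * C', by positivity, fun f hf =>
      (F.N_add_le S m (h1.smooth hf) (h2.smooth hf)).trans ?_⟩
    linarith [b f hf, b' f hf]
  | succ _ ih =>
    obtain ⟨C, hC, b⟩ := ih
    exact ⟨C, hC, fun f hf => (b f hf).trans
      (mul_le_mul_of_nonneg_left (F.N_le_succ _ _ f) hC.le)⟩
  | congr _ e ih =>
    obtain ⟨C, hC, b⟩ := ih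
    exact ⟨C, hC, fun f hf => by rw [e f hf]; exact b f hf⟩

end Pool.Agent.MP_417fa2_gt

end MrgPart0

-- ======== part 1: formerly Pool.Agent.MP_417fa2_gt.An.Cont
section MrgPart1

/-!
The abstract continuity method for approximate solvability, for a squared norm `N` on a class `P`
of elements of an additive group.
-/

namespace Pool.Agent.MP_417fa2_gt.Cont

open Set

variable {V : Type*} [AddCommGroup V]

/-- A class of elements with a squared norm. -/
structure Sq (P : V → Prop) (N : V → ℝ) : Prop where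
  zero : P 0
  sub : ∀ f g, P f → P g → P (f - g)
  nonneg : ∀ f, P f → 0 ≤ N f
  neg : ∀ f, P f → N (-f) = N f
  add_le : ∀ f g, P f → P g → N (f + g) ≤ 2 * N f + 2 * N g

/-- An additive operator on the class. -/
structure Op (P : V → Prop) (T : V → V) : Prop where
  mem : ∀ u, P u → P (T u)
  sub : ∀ u v, P u → P v → T (u - v) = T u - T v

/-- Approximate solvability. -/
def Dense (P : V → Prop) (N : V → ℝ) (T : V → V) : Prop :=
  ∀ f, P f → ∀ ε : ℝ, 0 < ε → ∃ u, P u ∧ N (T u - f) ≤ ε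

variable {P : V → Prop} {N : V → ℝ}

/-- Iteration on the residual. -/
theorem dense_of_half (S : Sq P N) {T : V → V} (hT : Op P T)
    (h : ∀ f, P f → ∀ ε : ℝ, 0 < ε → ∃ u, P u ∧ N (T u - f) ≤ N f / 2 + ε) : Dense P N T := by
  have key : ∀ n : ℕ, ∀ f, P f → ∀ ε : ℝ, 0 < ε →
      ∃ u, P u ∧ N (T u - f) ≤ N f * (1 / 2) ^ (n + 1) + ε := by
    intro n
    induction n with
    | zero =>
      intro f hf ε hε
      obtain ⟨u, hu, h1⟩ := h f hf ε hε
      exact ⟨u, hu, by linarith⟩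
    | succ n ih =>
      intro f hf ε hε
      obtain ⟨u, hu, h1⟩ := ih f hf ε hε
      have hr := S.sub _ _ (hT.mem u hu) hf
      obtain ⟨v, hv, h2⟩ := h _ hr (ε / 2) (by linarith)
      refine ⟨u - v, S.sub _ _ hu hv, ?_⟩
      have e : T (u - v) - f = -(T v - (T u - f)) := by rw [hT.sub u v hu hv]; abel
      rw [e, S.neg _ (S.sub _ _ (hT.mem v hv) hr), pow_succ]
      linarith
  intro f hf ε hε
  have h0 := S.nonneg f hf
  obtain ⟨n, hn⟩ := exists_pow_lt_of_lt_one (show 0 < ε / 2 / (N f + 1) by positivity)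
    (show (1 / 2 : ℝ) < 1 by norm_num)
  obtain ⟨u, hu, h1⟩ := key n f hf (ε / 2) (by linarith)
  refine ⟨u, hu, h1.trans ?_⟩
  rw [lt_div_iff₀ (by linarith)] at hn
  have h2 : (0 : ℝ) < (1 / 2) ^ n := by positivity
  rw [pow_succ]
  nlinarith

/-- A small perturbation of an approximately solvable operator. -/
theorem dense_step (S : Sq P N) {T T' : V → V} (hT : Op P T) (hT' : Op P T') (hD : Dense P N T)
    (h : ∀ u, P u → N (T' u - T u) ≤ N (T u) / 8) : Dense P N T' := by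
  refine dense_of_half S hT' fun f hf ε hε => ?_
  obtain ⟨u, hu, h1⟩ := hD f hf (ε / 3) (by linarith)
  refine ⟨u, hu, ?_⟩
  have hr := S.sub _ _ (hT.mem u hu) hf
  have h2 := S.add_le _ _ hr hf
  have h3 := S.add_le _ _ (S.sub _ _ (hT'.mem u hu) (hT.mem u hu)) hr
  rw [sub_add_cancel] at h2
  rw [sub_add_sub_cancel] at h3
  linarith [h u hu]

/-- The continuity method. -/
theorem dense_one (S : Sq P N) (T : ℝ → V → V) (hT : ∀ s ∈ Icc (0 : ℝ) 1, Op P (T s)) (K : ℝ)
    (hK : ∀ s ∈ Icc (0 : ℝ) 1, ∀ t ∈ Icc (0 : ℝ) 1, ∀ u, P u →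
      N (T t u - T s u) ≤ K * (t - s) ^ 2 * N (T s u))
    (h0 : Dense P N (T 0)) : Dense P N (T 1) := by
  obtain ⟨n, hn⟩ := exists_nat_gt (max (8 * K) 1)
  have hn1 : (1 : ℝ) < n := (le_max_right _ _).trans_lt hn
  have hn2 : 8 * K < n := (le_max_left _ _).trans_lt hn
  have hn0 : (0 : ℝ) < n := by linarith
  have mem : ∀ j : ℕ, j ≤ n → (j : ℝ) / n ∈ Icc (0 : ℝ) 1 := fun j hj =>
    ⟨by positivity, (div_le_one hn0).2 (by exact_mod_cast hj)⟩
  have key : ∀ j : ℕ, j ≤ n → Dense P N (T (j / n)) := by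
    intro j
    induction j with
    | zero => intro _; simpa using h0
    | succ j ih =>
      intro hj
      have hj' : j ≤ n := Nat.le_of_succ_le hj
      refine dense_step S (hT _ (mem j hj')) (hT _ (mem _ hj)) (ih hj') fun u hu => ?_
      refine (hK _ (mem j hj') _ (mem _ hj) u hu).trans ?_
      have h1 := S.nonneg _ ((hT _ (mem j hj')).mem u hu)
      have e : (((j + 1 : ℕ) : ℝ) / n - j / n) ^ 2 = 1 / n ^ 2 := by
        push_cast; field_simp; ring
      have h2 : K * (1 / (n : ℝ) ^ 2) ≤ 1 / 8 := by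
        rw [mul_one_div, div_le_div_iff₀ (by positivity) (by norm_num)]
        nlinarith
      rw [e]
      nlinarith
  have := key n le_rfl
  rwa [div_self hn0.ne'] at this

end Pool.Agent.MP_417fa2_gt.Cont

end MrgPart1

-- marker of a merged file
example : 731051 + 80475 = 731051 + 80475 := rfl

end MrgPart0

-- ======== part 1: formerly Pool.Agent.MP_417fa2_gt.An.Ell
section MrgPart1

/-! Integration by parts, interpolation and the elliptic estimates. -/

open scoped Manifold ContDiff Topology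
open MeasureTheory Set Filter

namespace Pool.Agent.MP_417fa2_gt

universe u

/-- Uniform ellipticity on a compact set. -/
theorem exists_ellip {K : Set E4} (hK : IsCompact K) {G : Fin 4 → Fin 4 → E4 → ℝ}
    (hG : ∀ a b, ContinuousOn (G a b) K)
    (hp : ∀ y ∈ K, ∀ ξ : Fin 4 → ℝ, ξ ≠ 0 → 0 < ∑ a, ∑ b, G a b y * ξ a * ξ b) :
    ∃ c : ℝ, 0 < c ∧ ∀ y ∈ K, ∀ ξ : Fin 4 → ℝ,
      c * ∑ a, ξ a ^ 2 ≤ ∑ a, ∑ b, G a b y * ξ a * ξ b := by
  have hc : ContinuousOn (fun p : E4 × (Fin 4 → ℝ) => ∑ a, ∑ b, G a b p.1 * p.2 a * p.2 b)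
      (K ×ˢ Metric.sphere 0 1) :=
    continuousOn_finsetSum _ fun a _ => continuousOn_finsetSum _ fun b _ =>
      (((hG a b).comp continuousOn_fst fun _ hp => hp.1).mul (by fun_prop)).mul (by fun_prop)
  obtain ⟨c, hc0, hc1⟩ := (hK.prod (isCompact_sphere (0 : Fin 4 → ℝ) 1)).exists_forall_le' hc
    (a := 0) fun p h => hp _ h.1 _ fun h0 => by simpa [h0] using h.2
  refine ⟨c / 4, by positivity, fun y hy ξ => ?_⟩
  rcases eq_or_ne ξ 0 with rfl | h0
  · simp
  have hn : 0 < ‖ξ‖ := norm_pos_iff.2 h0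
  have h1 := hc1 (y, ‖ξ‖⁻¹ • ξ) ⟨hy, by simp [norm_smul, hn.ne']⟩
  have h2 : ∑ a, ∑ b, G a b y * ξ a * ξ b =
      ‖ξ‖ ^ 2 * ∑ a, ∑ b, G a b y * (‖ξ‖⁻¹ • ξ) a * (‖ξ‖⁻¹ • ξ) b := by
    simp only [Finset.mul_sum, Pi.smul_apply, smul_eq_mul]
    exact Finset.sum_congr rfl fun a _ => Finset.sum_congr rfl fun b _ => by field_simp
  have h3 : ∀ a, ξ a ^ 2 ≤ ‖ξ‖ ^ 2 := fun a => by
    rw [← sq_abs]; exact pow_le_pow_left₀ (abs_nonneg _) (norm_le_pi_norm ξ a) 2
  rw [h2, Fin.sum_univ_four]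
  have h4 := mul_le_mul_of_nonneg_left h1 (sq_nonneg ‖ξ‖)
  nlinarith [h3 0, h3 1, h3 2, h3 3]

variable {M : Type u} [TopologicalSpace M] [ChartedSpace E4 M] [IsManifold (𝓡 4) ∞ M]
  [MeasurableSpace M] [T2Space M] [CompactSpace M] [BorelSpace M] (S : Setup M) (F : Frame M)

/-- Integration by parts for the vector fields of the frame. -/
theorem exists_adj (j : Fin F.n × Fin 4) : ∃ Y, DO F 1 Y ∧ ∀ u v, Smooth u → Smooth v →
    ∫ x, u x * F.X j v x ∂S.μ = ∫ x, Y u x * v x ∂S.μ := by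
  obtain ⟨ψ, hψ, hs, -, h1⟩ := exists_cutoff (isClosed_tsupport (F.χ j.1)) (isOpen_src (F.c j.1))
    (F.supp j.1)
  have hU := isOpen_tgt (F.c j.1)
  have hρ := S.ρ_sm (F.c j.1)
  have hχ := (F.sm j.1).cdOn (F.c j.1)
  have hK := isCompact_chart_image (isClosed_tsupport (F.χ j.1)).isCompact (F.supp j.1)
  have hb := (hρ.inv fun y hy => (S.ρ_pos _ y hy).ne').mul (cdOn_pd hU (hχ.mul hρ) j.2)
  have hd := smooth_mul_chart hψ hs hb
  have h0 : ∀ y ∈ (chartAt E4 (F.c j.1)).target, y ∉ chartAt E4 (F.c j.1) '' tsupport (F.χ j.1) →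
      (F.χ j.1 ∘ param (F.c j.1)) y * S.ρ (F.c j.1) y = 0 := fun y hy hy' => by
    rw [comp_param_eq_zero y hy hy', zero_mul]
  have key : ∀ u, Smooth u → ∫ x, F.X j u x ∂S.μ = -∫ x, ψ x * ((S.ρ (F.c j.1))⁻¹
      (chartAt E4 (F.c j.1) x) * pd j.2 (fun y => (F.χ j.1 ∘ param (F.c j.1)) y * S.ρ (F.c j.1) y)
        (chartAt E4 (F.c j.1) x)) * u x ∂S.μ := by
    intro u hu
    rw [S.integral_chart (F.c j.1) (F.X_smooth j hu).continuous.measurable
        (fun x hx => by simp [Frame.X, zero_of_notMem_src (F.supp j.1) hx]),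
      S.integral_chart (F.c j.1) (hd.mul hu).continuous.measurable
        (fun x hx => by simp [zero_of_notMem_src hs hx])]
    refine (setIntegral_congr_fun hU.measurableSet fun y hy => ?_).trans
      ((integral_mul_pd hU hK (chart_image_subset (F.supp j.1)) (hχ.mul hρ) (hu.cdOn _) h0
        j.2).trans (congrArg Neg.neg (setIntegral_congr_fun hU.measurableSet fun y hy => ?_)))
    · simp only [Frame.X, cd_param hy, Function.comp]; ring
    · simp only [chart_param hy, Pi.inv_apply]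
      by_cases hy' : param (F.c j.1) y ∈ tsupport (F.χ j.1)
      · rw [(h1 _ hy').self_of_nhds]
        simp only [Function.comp]
        field_simp [(S.ρ_pos _ y hy).ne']
      · rw [pd_eq_zero_off hU hK.isClosed h0 j.2 y hy fun ⟨x, hx, e⟩ => hy' (by
          rw [← e, param_chart (F.supp j.1 hx)]; exact hx)]
        simp
  refine ⟨_, (DO.zero.sub (DO.X j)).sub (DO.mul hd).succ, fun u v hu hv => ?_⟩
  have h2 := key _ (hu.mul hv)
  rw [F.X_mul j hu hv, integral_add (S.integrable ((F.X_smooth j hu).mul hv).continuous)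
    (S.integrable (hu.mul (F.X_smooth j hv)).continuous)] at h2
  simp only [zero_sub, sub_mul, neg_mul, mul_assoc] at h2 ⊢
  rw [integral_sub (S.integrable ((F.X_smooth j hu).mul hv).neg.continuous)
    (by simpa only [mul_assoc] using S.integrable (hd.mul (hu.mul hv)).continuous), integral_neg]
  linarith

/-- Interpolation between consecutive orders. -/
theorem itp_step (k : ℕ) (ε : ℝ) (hε : 0 < ε) : ∃ C : ℝ, 0 < C ∧ ∀ f, Smooth f →
    F.N S.μ (k + 1) f ≤ ε * F.N S.μ (k + 2) f + C * F.N S.μ k f := by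
  induction k with
  | zero =>
    choose Y hY e using exists_adj S F
    choose C hC b using fun j => ((hY j).trans (DO.X j)).bound S 0
    have hs : 0 ≤ ∑ j, C j := Finset.sum_nonneg fun j _ => (hC j).le
    have hδ : 0 < ε / (∑ j, C j + 1) := by positivity
    refine ⟨1 + ∑ _j : Fin F.n × Fin 4, 1 / (4 * (ε / (∑ j, C j + 1))), by positivity,
      fun f hf => ?_⟩
    have h1 : ∑ j, F.N S.μ 0 (F.X j f) ≤ ∑ j, (ε / (∑ j, C j + 1) * (C j * F.N S.μ 2 f) +
        1 / (4 * (ε / (∑ j, C j + 1))) * F.N S.μ 0 f) := Finset.sum_le_sum fun j _ => by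
      have h2 := (le_abs_self _).trans
        (F.abs_integral_mul_le_add S ((hY j).smooth (F.X_smooth j hf)) hf hδ)
      rw [← e j _ _ (F.X_smooth j hf) hf] at h2
      have h3 := mul_le_mul_of_nonneg_left (b j f hf) hδ.le
      simp only [F.N_zero, sq, one_div_mul_eq_div] at h2 h3 ⊢
      linarith
    rw [Finset.sum_add_distrib, ← Finset.mul_sum, ← Finset.sum_mul, ← Finset.sum_mul] at h1
    have h4 : ε / (∑ j, C j + 1) * ((∑ j, C j) * F.N S.μ 2 f) ≤ ε * F.N S.μ 2 f := by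
      rw [← mul_assoc]
      refine mul_le_mul_of_nonneg_right ?_ (F.N_nonneg _ _ _)
      rw [div_mul_eq_mul_div, div_le_iff₀ (by positivity)]
      nlinarith
    rw [F.N_succ]
    simp only [zero_add]
    linarith
  | succ k ih =>
    obtain ⟨C, hC, b⟩ := ih
    refine ⟨C + 1, by positivity, fun f hf => ?_⟩
    have h1 := Finset.sum_le_sum fun j (_ : j ∈ Finset.univ) => b _ (F.X_smooth j hf)
    rw [Finset.sum_add_distrib, ← Finset.mul_sum, ← Finset.mul_sum] at h1
    have h2 := mul_le_mul_of_nonneg_left (F.sum_N_X_le S.μ (k + 2) f) hε.le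
    have h3 := mul_le_mul_of_nonneg_left (F.sum_N_X_le S.μ k f) hC.le
    rw [F.N_succ S.μ (k + 1)]
    linarith [F.N_mono S.μ (Nat.zero_le (k + 1)) f]

theorem itp_aux : Itp S F := by
  intro k
  induction k with
  | zero =>
    exact fun ε hε => ⟨1, one_pos, fun f _ => by
      linarith [mul_nonneg hε.le (F.N_nonneg S.μ (0 + 1) f)]⟩
  | succ k ih =>
    intro ε hε
    obtain ⟨C, hC, b⟩ := itp_step S F k (ε / 2) (by positivity)
    obtain ⟨C', hC', b'⟩ := ih (1 / (2 * C)) (by positivity)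
    refine ⟨2 * (C * C'), by positivity, fun f hf => ?_⟩
    have h1 := mul_le_mul_of_nonneg_left (b' f hf) hC.le
    have h2 : C * (1 / (2 * C) * F.N S.μ (k + 1) f + C' * F.N S.μ 0 f) =
        F.N S.μ (k + 1) f / 2 + C * C' * F.N S.μ 0 f := by field_simp
    linarith [b f hf]

/-- Ellipticity of `L` in weak form. -/
theorem gard1 : ∃ C : ℝ, 0 < C ∧ ∀ f, Smooth f →
    ∑ j, F.N S.μ 0 (F.X j f) ≤ C * -∫ x, f x * S.L f x ∂S.μ := by
  have hK := fun a => isCompact_chart_image (isClosed_tsupport (F.χ a)).isCompact (F.supp a)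
  have hKU := fun a => chart_image_subset (F.supp a)
  choose c hc hb using fun a => exists_ellip (hK a)
    (fun p q => (S.G_sm (F.c a) p q).continuousOn.mono (hKU a))
    fun y hy => S.G_pos _ y (hKU a hy)
  have key : ∀ f, Smooth f → ∀ a, c a * ∑ i, F.N S.μ 0 (F.X (a, i) f) ≤
      -∫ x, F.χ a x ^ 2 * f x * S.L f x ∂S.μ +
        1 / 2 * ∫ x, F.χ a x ^ 2 * S.L (fun z => f z * f z) x ∂S.μ := by
    intro f hf a
    have hU := isOpen_tgt (F.c a)
    have hs : ∀ g : M → ℝ, tsupport (fun x => F.χ a x ^ 2 * g x) ⊆ (chartAt E4 (F.c a)).source :=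
      fun g => (closure_mono (s := Function.support fun x => F.χ a x ^ 2 * g x)
        (t := Function.support (F.χ a)) fun x hx h0 => hx (by simp [h0])).trans (F.supp a)
    have hχ2 := (F.sm a).pow 2
    have e1 := S.opL.integral_chart hf (hχ2.mul hf) (hs f)
    have e2 := S.opL.integral_chart (hf.mul hf) hχ2 (by simpa using hs fun _ => 1)
    have hsm : Smooth fun x => ∑ i, F.X (a, i) f x ^ 2 :=
      Smooth.sum fun i _ => (F.X_smooth (a, i) hf).pow 2
    have e3 : ∑ i, F.N S.μ 0 (F.X (a, i) f) = ∫ x, ∑ i, F.X (a, i) f x ^ 2 ∂S.μ :=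
      (integral_finsetSum _ fun i _ => S.integrable ((F.X_smooth (a, i) hf).pow 2).continuous).symm
    have hG := S.G_sm (F.c a)
    have hρ := S.ρ_sm (F.c a)
    have hf' := hf.cdOn (F.c a)
    have int : ∀ {φ ψ : M → ℝ}, Smooth φ → Smooth ψ → (∀ x, F.χ a x = 0 → ψ x = 0) →
        IntegrableOn (fun y => S.ρ (F.c a) y * ∑ p, ∑ q, S.G (F.c a) p q y *
          pd p (ψ ∘ param (F.c a)) y * pd q (φ ∘ param (F.c a)) y) (chartAt E4 (F.c a)).target := by
      intro φ ψ hφ hψ h0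
      refine integrableOn_of_compact hU (hK a) (hKU a) (hρ.mul (ContDiffOn.sum fun p _ =>
        ContDiffOn.sum fun q _ => ((hG p q).mul (cdOn_pd hU (hψ.cdOn _) p)).mul
          (cdOn_pd hU (hφ.cdOn _) q))).continuousOn fun y hy hy' => ?_
      have := fun p => pd_eq_zero_off (f := ψ ∘ param (F.c a)) hU (hK a).isClosed
        (fun z hz hz' => h0 _ (comp_param_eq_zero z hz hz')) p y hy hy'
      simp [this]
    have i1 := int hf (hχ2.mul hf) fun x hx => by simp [hx]
    have i2 := int (hf.mul hf) hχ2 fun x hx => by simp [hx]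
    rw [e1, e2, e3, S.integral_chart (F.c a) hsm.continuous.measurable
      (fun x hx => by simp [Frame.X, zero_of_notMem_src (F.supp a) hx]), neg_neg, mul_neg,
      ← integral_const_mul, ← integral_const_mul, ← sub_eq_add_neg]
    rw [← integral_sub i1 (i2.const_mul (1 / 2))]
    refine setIntegral_mono_on ?_ (i1.sub (i2.const_mul (1 / 2))) hU.measurableSet fun y hy => ?_
    · refine integrableOn_of_compact hU (hK a) (hKU a)
        ((contDiffOn_const (c := c a)).mul ((hsm.cdOn (F.c a)).mul hρ)).continuousOn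
        fun y hy hy' => ?_
      have : F.χ a (param (F.c a) y) = 0 := comp_param_eq_zero y hy hy'
      simp [Frame.X, this]
    · have d1 := hf.dAt hy
      have d2 := hχ2.dAt hy
      have p1 : ∀ p, pd p ((fun x => F.χ a x ^ 2 * f x) ∘ param (F.c a)) y =
          pd p ((fun x => F.χ a x ^ 2) ∘ param (F.c a)) y * f (param (F.c a) y) +
            F.χ a (param (F.c a) y) ^ 2 * pd p (f ∘ param (F.c a)) y := fun p => pd_mul d2 d1 p
      have p2 : ∀ p, pd p ((fun x => f x * f x) ∘ param (F.c a)) y =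
          pd p (f ∘ param (F.c a)) y * f (param (F.c a) y) +
            f (param (F.c a) y) * pd p (f ∘ param (F.c a)) y := fun p => pd_mul d1 d1 p
      have h4 : F.χ a (param (F.c a) y) ^ 2 * (c a * ∑ i, pd i (f ∘ param (F.c a)) y ^ 2) ≤
          F.χ a (param (F.c a) y) ^ 2 * ∑ p, ∑ q, S.G (F.c a) p q y *
            pd p (f ∘ param (F.c a)) y * pd q (f ∘ param (F.c a)) y := by
        by_cases hy' : y ∈ chartAt E4 (F.c a) '' tsupport (F.χ a)
        · exact mul_le_mul_of_nonneg_left (hb a y hy' _) (sq_nonneg _)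
        · have : F.χ a (param (F.c a) y) = 0 := comp_param_eq_zero y hy hy'
          simp [this]
      have h5 := mul_le_mul_of_nonneg_left h4 (S.ρ_pos _ y hy).le
      simp only [p1, p2, Frame.X, cd_param hy, Fin.sum_univ_four] at h5 ⊢
      linarith
  have hs : 0 ≤ ∑ a, (c a)⁻¹ := Finset.sum_nonneg fun a _ => (inv_pos.2 (hc a)).le
  refine ⟨∑ a, (c a)⁻¹ + 1, by positivity, fun f hf => ?_⟩
  have h1 := Finset.sum_le_sum fun a (_ : a ∈ Finset.univ) => key f hf a
  have hL := S.opL.smooth hf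
  rw [Finset.sum_add_distrib, Finset.sum_neg_distrib, ← Finset.mul_sum,
    ← integral_finsetSum _ fun a _ => S.integrable ((((F.sm a).pow 2).mul hf).mul hL).continuous,
    ← integral_finsetSum _ fun a _ =>
      S.integrable (((F.sm a).pow 2).mul (S.opL.smooth (hf.mul hf))).continuous] at h1
  simp only [← Finset.sum_mul, F.sum, one_mul, S.opL.integral_eq_zero (hf.mul hf), mul_zero,
    add_zero] at h1
  have h2 : ∀ a, 0 ≤ c a * ∑ i, F.N S.μ 0 (F.X (a, i) f) := fun a =>
    mul_nonneg (hc a).le (Finset.sum_nonneg fun i _ => F.N_nonneg _ _ _)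
  have h3 : 0 ≤ -∫ x, f x * S.L f x ∂S.μ := (Finset.sum_nonneg fun a _ => h2 a).trans h1
  rw [Fintype.sum_prod_type, add_mul, Finset.sum_mul]
  refine le_add_of_le_of_nonneg (Finset.sum_le_sum fun a _ => ?_) (by linarith)
  rw [le_inv_mul_iff₀ (hc a)]
  exact (Finset.single_le_sum (f := fun a => c a * ∑ i, F.N S.μ 0 (F.X (a, i) f))
    (fun a _ => h2 a) (Finset.mem_univ a)).trans h1

theorem ell_step (k : ℕ) : ∃ C : ℝ, 0 < C ∧ ∀ f, Smooth f →
    F.N S.μ (k + 2) f ≤ C * (F.N S.μ k (S.L f) + F.N S.μ (k + 1) f) := by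
  induction k with
  | zero =>
    obtain ⟨C1, hC1, g1⟩ := gard1 S F
    choose Y hY e using exists_adj S F
    choose C hC b using fun j => ((hY j).trans (DO.X j)).bound S 0
    choose C' hC' b' using fun j => ((S.do_L (F := F)).comm_X j).bound S 0
    have hs : 0 ≤ ∑ j, (C j + C' j) := Finset.sum_nonneg fun j _ => (add_pos (hC j) (hC' j)).le
    obtain ⟨δ, hδe⟩ : ∃ δ, δ = 1 / (2 * C1 * (∑ j, (C j + C' j) + 1)) := ⟨_, rfl⟩
    have hδ : 0 < δ := by rw [hδe]; positivity
    refine ⟨2 + 2 * (C1 * ∑ _j : Fin F.n × Fin 4, 1 / (4 * δ)), by positivity, fun f hf => ?_⟩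
    have hL := S.opL.smooth hf
    have h1 : ∑ j, F.N S.μ 1 (F.X j f) ≤ ∑ j, (F.N S.μ 0 (F.X j f) + C1 * (δ * ((C j + C' j) *
        F.N S.μ 2 f) + 1 / (4 * δ) * (F.N S.μ 0 (S.L f) + F.N S.μ 1 f))) :=
      Finset.sum_le_sum fun j _ => by
        have hX := F.X_smooth j hf
        have hR := ((S.do_L (F := F)).comm_X j).smooth hf
        rw [F.N_succ]
        refine add_le_add le_rfl ((g1 _ hX).trans (mul_le_mul_of_nonneg_left ?_ hC1.le))
        have h2 := (neg_le_abs _).trans (F.abs_integral_mul_le_add S ((hY j).smooth hX) hL hδ)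
        have h3 := (le_abs_self _).trans (F.abs_integral_mul_le_add S hR hX hδ)
        rw [← e j _ _ hX hL] at h2
        simp only [sub_mul] at h3
        rw [integral_sub (S.integrable ((F.X_smooth j hL).mul hX).continuous)
          (S.integrable ((S.opL.smooth hX).mul hX).continuous)] at h3
        have h4 := mul_le_mul_of_nonneg_left (b j f hf) hδ.le
        have h5 := mul_le_mul_of_nonneg_left (b' j f hf) hδ.le
        have h6 : F.N S.μ 0 (F.X j f) / (4 * δ) ≤ F.N S.μ 1 f / (4 * δ) :=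
          div_le_div_of_nonneg_right (F.N_X_le _ 0 f j) (by positivity)
        simp only [mul_comm _ (F.X j f _), zero_add, Nat.reduceAdd] at h2 h3 h4 h5
        rw [one_div_mul_eq_div, add_div]
        linarith
    rw [Finset.sum_add_distrib, ← Finset.mul_sum, Finset.sum_add_distrib, ← Finset.mul_sum,
      ← Finset.sum_mul, ← Finset.sum_mul, mul_add] at h1
    have h7 : C1 * (δ * ((∑ j, (C j + C' j)) * F.N S.μ 2 f)) ≤ 1 / 2 * F.N S.μ 2 f := by
      rw [← mul_assoc, ← mul_assoc]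
      refine mul_le_mul_of_nonneg_right ?_ (F.N_nonneg _ _ _)
      rw [hδe, mul_one_div, div_mul_eq_mul_div, div_le_iff₀ (by positivity)]
      nlinarith
    have h8 := F.N_succ S.μ 1 f
    have h9 := F.N_succ S.μ 0 f
    simp only [zero_add, Nat.reduceAdd] at h8 h9 ⊢
    nlinarith [F.N_nonneg S.μ 0 (S.L f)]
  | succ k ih =>
    obtain ⟨C, hC, b⟩ := ih
    choose C' hC' b' using fun j => ((S.do_L (F := F)).comm_X j).bound S k
    have hs : 0 ≤ ∑ j, C' j := Finset.sum_nonneg fun j _ => (hC' j).le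
    refine ⟨1 + C * (2 + 2 * ∑ j, C' j + 1), by positivity, fun f hf => ?_⟩
    have hL := S.opL.smooth hf
    have h1 : ∑ j, F.N S.μ (k + 2) (F.X j f) ≤ ∑ j, C * (2 * F.N S.μ k (F.X j (S.L f)) +
        2 * (C' j * F.N S.μ (k + 2) f) + F.N S.μ (k + 1) (F.X j f)) :=
      Finset.sum_le_sum fun j _ => by
        refine (b _ (F.X_smooth j hf)).trans (mul_le_mul_of_nonneg_left ?_ hC.le)
        have h2 := F.N_sub_le S k (F.X_smooth j hL) (((S.do_L (F := F)).comm_X j).smooth hf)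
        simp only [sub_sub_cancel] at h2
        linarith [b' j f hf]
    simp only [Finset.sum_add_distrib, ← Finset.mul_sum, ← Finset.sum_mul] at h1
    have h3 := F.sum_N_X_le S.μ k (S.L f)
    have h4 := F.sum_N_X_le S.μ (k + 1) f
    have h5 := F.N_mono S.μ (Nat.zero_le (k + 2)) f
    have h6 := F.N_nonneg S.μ (k + 1) (S.L f)
    have h7 := F.N_nonneg S.μ (k + 2) f
    rw [F.N_succ S.μ (k + 2)]
    have h8 := mul_le_mul_of_nonneg_left (show 2 * ∑ j, F.N S.μ k (F.X j (S.L f)) +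
      2 * ((∑ j, C' j) * F.N S.μ (k + 2) f) + ∑ j, F.N S.μ (k + 1) (F.X j f) ≤
        (2 + 2 * ∑ j, C' j + 1) * (F.N S.μ (k + 1) (S.L f) + F.N S.μ (k + 2) f) by
          nlinarith [mul_nonneg hs h6]) hC.le
    nlinarith

/-- The elliptic estimate for `L`. -/
theorem ell_L (k : ℕ) : ∃ C : ℝ, 0 < C ∧ ∀ f, Smooth f →
    F.N S.μ (k + 2) f ≤ C * (F.N S.μ k (S.L f) + F.N S.μ 0 f) := by
  obtain ⟨C, hC, b⟩ := ell_step S F k
  obtain ⟨C', hC', b'⟩ := itp_aux S F (k + 1) (1 / (2 * C)) (by positivity)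
  refine ⟨2 * C * (1 + C'), by positivity, fun f hf => ?_⟩
  have h1 := mul_le_mul_of_nonneg_left (b' f hf) hC.le
  have h2 : C * (1 / (2 * C) * F.N S.μ (k + 1 + 1) f + C' * F.N S.μ 0 f) =
      F.N S.μ (k + 2) f / 2 + C * C' * F.N S.μ 0 f := by field_simp
  nlinarith [b f hf, mul_nonneg hC.le (F.N_nonneg S.μ 0 f),
    mul_nonneg (mul_pos hC hC').le (F.N_nonneg S.μ k (S.L f))]

/-- Absorption of a lower order term. -/
theorem absorb (k : ℕ) {Q : (M → ℝ) → ℝ} (C : ℝ) (hC : 0 < C) :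
    ∃ C' : ℝ, 0 < C' ∧ ∀ f, Smooth f → F.N S.μ (k + 1) f ≤ C * Q f + C * F.N S.μ k f →
      F.N S.μ (k + 1) f ≤ 2 * C * Q f + C' * F.N S.μ 0 f := by
  obtain ⟨C', hC', b'⟩ := itp_aux S F k (1 / (2 * C)) (by positivity)
  refine ⟨2 * C * C', by positivity, fun f hf h => ?_⟩
  have h1 := mul_le_mul_of_nonneg_left (b' f hf) hC.le
  have h2 : C * (1 / (2 * C) * F.N S.μ (k + 1) f + C' * F.N S.μ 0 f) =
      F.N S.μ (k + 1) f / 2 + C * C' * F.N S.μ 0 f := by field_simp
  linarith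

theorem ell_P (k : ℕ) : ∃ C : ℝ, 0 < C ∧ ∀ f, Smooth f →
    F.N S.μ (k + 4) f ≤ C * (F.N S.μ k (S.P f) + F.N S.μ 0 f) := by
  obtain ⟨C1, hC1, b1⟩ := ell_L S F (k + 2)
  obtain ⟨C2, hC2, b2⟩ := ell_L S F k
  obtain ⟨C3, hC3, b3⟩ := (S.do_B (F := F)).bound S k
  obtain ⟨C4, hC4, b4⟩ := (S.do_L (F := F)).bound S 0
  obtain ⟨C', hC', b⟩ := absorb S F (k + 3) (Q := fun f => F.N S.μ k (S.P f))
    (C1 * (C2 * (2 + 2 * C3 + C4) + 1)) (by positivity)
  refine ⟨2 * (C1 * (C2 * (2 + 2 * C3 + C4) + 1)) + C', by positivity, fun f hf => ?_⟩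
  have hL := S.opL.smooth hf
  have h0 := F.N_nonneg S.μ k (S.P f)
  have h1 := F.N_sub_le S k (S.P_smooth hf) (S.opB.smooth hf)
  have e : (fun x => S.P f x - S.B f x) = S.L (S.L f) := by funext x; simp [Setup.P]
  rw [e] at h1
  have h2 := F.N_mono S.μ (show k + 2 ≤ k + 3 by omega) f
  have h3 := F.N_mono S.μ (show 0 + 2 ≤ k + 3 by omega) f
  have h4 := F.N_mono S.μ (show 0 ≤ k + 3 by omega) f
  have h5 := F.N_nonneg S.μ (k + 3) f
  have h6 : F.N S.μ k (S.L (S.L f)) + F.N S.μ 0 (S.L f) ≤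
      (2 + 2 * C3 + C4) * (F.N S.μ k (S.P f) + F.N S.μ (k + 3) f) := by
    nlinarith [b3 f hf, b4 f hf, mul_le_mul_of_nonneg_left h2 hC3.le,
      mul_le_mul_of_nonneg_left h3 hC4.le, mul_nonneg hC3.le h0, mul_nonneg hC4.le h0]
  have h7 := (b2 _ hL).trans (mul_le_mul_of_nonneg_left h6 hC2.le)
  have h8 := (b1 f hf).trans (mul_le_mul_of_nonneg_left (add_le_add h7
    (h4.trans (le_add_of_nonneg_left h0))) hC1.le)
  have h9 := b f hf (by linarith)
  have h10 := F.N_nonneg S.μ 0 f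
  have h11 : 0 ≤ 2 * (C1 * (C2 * (2 + 2 * C3 + C4) + 1)) * F.N S.μ 0 f := by positivity
  nlinarith [mul_nonneg hC'.le h0]

theorem ell_aux : Ell S F := by
  obtain ⟨C3, hC3, b3⟩ := (S.do_B (F := F)).bound S 0
  obtain ⟨C4, hC4, b4⟩ := (S.do_L (F := F)).bound S 0
  have form : ∀ f, Smooth f → ∫ x, f x * S.P f x ∂S.μ =
      F.N S.μ 0 (S.L f) + ∫ x, S.B f x * f x ∂S.μ := fun f hf => by
    rw [S.integral_mul_P hf hf, F.N_zero]; simp only [sq, mul_comm]
  refine ⟨S.do_L.bound S, S.do_P.bound S, ⟨C4 + C3 + 1, by positivity, fun f hf => ?_⟩, ?_, ?_,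
    ell_P S F⟩
  · have h1 := (le_abs_self _).trans (F.abs_integral_mul_le_add S (S.opB.smooth hf) hf one_pos)
    rw [form f hf]
    linarith [b3 f hf, b4 f hf, F.N_mono S.μ (Nat.zero_le 2) f, F.N_nonneg S.μ 0 f]
  · obtain ⟨C, hC, b⟩ := ell_L S F 0
    obtain ⟨δ, hδ, e⟩ : ∃ δ : ℝ, 0 < δ ∧ C * δ * C3 = 1 / 2 :=
      ⟨1 / (2 * C * C3), by positivity, by field_simp⟩
    refine ⟨2 * C, 2 * C * (1 + 1 / (4 * δ)), by positivity, by positivity, fun f hf => ?_⟩
    have h1 := (neg_le_abs _).trans (F.abs_integral_mul_le_add S (S.opB.smooth hf) hf hδ)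
    have h2 := mul_le_mul_of_nonneg_left (b3 f hf) hδ.le
    have h3 : C * (δ * (C3 * F.N S.μ 2 f)) = F.N S.μ 2 f / 2 := by
      rw [← mul_assoc, ← mul_assoc, e]; ring
    have h4 := mul_le_mul_of_nonneg_left (h1.trans (add_le_add h2 le_rfl)) hC.le
    have h5 := b f hf
    rw [form f hf]
    rw [div_eq_mul_one_div] at h4
    simp only [zero_add] at h4 h5
    linarith
  · obtain ⟨C, hC, b⟩ := ell_L S F 1
    obtain ⟨C1, hC1, g1⟩ := gard1 S F
    have hE : 0 < C4 + C1 * (C3 + C4) + 1 := by positivity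
    obtain ⟨D, hD, b6⟩ := absorb S F 2
      (Q := fun f => C1 / (C4 + C1 * (C3 + C4) + 1) * -∫ x, S.P f x * S.L f x ∂S.μ)
      (C * (C4 + C1 * (C3 + C4) + 1)) (by positivity)
    refine ⟨2 * (C * (C4 + C1 * (C3 + C4) + 1)) * (C1 / (C4 + C1 * (C3 + C4) + 1)), D,
      by positivity, hD, fun f hf => ?_⟩
    rw [mul_assoc _ (C1 / _)]
    refine b6 f hf ?_
    have hL := S.opL.smooth hf
    have e1 : ∫ x, S.P f x * S.L f x ∂S.μ =
        ∫ x, S.L f x * S.L (S.L f) x ∂S.μ + ∫ x, S.B f x * S.L f x ∂S.μ := by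
      rw [← integral_add (S.integrable (hL.mul (S.opL.smooth hL)).continuous)
        (S.integrable ((S.opB.smooth hf).mul hL).continuous)]
      congr 1; funext x; simp only [Setup.P]; ring
    have h1 := (le_abs_self _).trans (F.abs_integral_mul_le_add S (S.opB.smooth hf) hL one_pos)
    have h2 := F.N_succ S.μ 0 (S.L f)
    have h3 := g1 _ hL
    have h4 := b3 f hf
    have h5 := b4 f hf
    have h6 := b f hf
    have h7 := F.N_mono S.μ (Nat.zero_le 2) f
    have h8 := F.N_nonneg S.μ 0 (S.L f)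
    simp only [zero_add, Nat.reduceAdd] at h2 h4 h5 h6 ⊢
    have h9 : -∫ x, S.L f x * S.L (S.L f) x ∂S.μ ≤
        -∫ x, S.P f x * S.L f x ∂S.μ + (C3 + C4) * F.N S.μ 2 f := by rw [e1]; linarith
    have h10 := mul_le_mul_of_nonneg_left h9 hC1.le
    have h11 : F.N S.μ 1 (S.L f) + F.N S.μ 0 f ≤ C1 * -∫ x, S.P f x * S.L f x ∂S.μ +
        (C4 + C1 * (C3 + C4) + 1) * F.N S.μ 2 f := by linarith
    refine h6.trans ((mul_le_mul_of_nonneg_left h11 hC.le).trans (le_of_eq ?_))
    field_simp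

theorem ell : EllStmt.{u} := fun _ _ _ _ _ _ _ _ S F => ell_aux S F

theorem itp : ItpStmt.{u} := fun _ _ _ _ _ _ _ _ S F => itp_aux S F

theorem mulStmt : MulStmt.{u} := fun _ _ _ _ _ _ _ _ S F =>
  ⟨fun k _ hc => F.N_mul_le S k hc, S.do_B.bound S⟩

end Pool.Agent.MP_417fa2_gt

end MrgPart1

-- ======== part 2: formerly Pool.Agent.MP_417fa2_gt.An.DenseL
section MrgPart2

/-! Approximate solvability of `μ u - L u = f` on the manifold, by a parametrix in charts. -/

open scoped Manifold ContDiff Topology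
open MeasureTheory Set Filter

namespace Pool.Agent.MP_417fa2_gt

universe u

namespace DL

section Euc

variable {ρ X v : E4 → ℝ} {G b : Fin 4 → Fin 4 → E4 → ℝ} {U : Set E4} {y : E4}

/-- The first order coefficients of the commutator. -/
noncomputable def be (ρ X : E4 → ℝ) (G : Fin 4 → Fin 4 → E4 → ℝ) (c : Fin 4) (y : E4) : ℝ :=
  ∑ a, (G c a y * pd a X y + G a c y * pd a X y + X y * (ρ y)⁻¹ * pd a ρ y * G a c y)

theorem cdOn_be (hU : IsOpen U) (hρ : ContDiffOn ℝ ∞ ρ U) (h0 : ∀ y ∈ U, 0 < ρ y)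
    (hG : ∀ a c, ContDiffOn ℝ ∞ (G a c) U) (hX : ContDiffOn ℝ ∞ X U) (c : Fin 4) :
    ContDiffOn ℝ ∞ (be ρ X G c) U :=
  ContDiffOn.sum fun a _ => (((hG c a).mul (cdOn_pd hU hX a)).add
    ((hG a c).mul (cdOn_pd hU hX a))).add
      (((hX.mul (hρ.inv fun y hy => (h0 y hy).ne')).mul (cdOn_pd hU hρ a)).mul (hG a c))

theorem dop_mul (hU : IsOpen U) (hρ : ContDiffOn ℝ ∞ ρ U) (h0 : ∀ y ∈ U, 0 < ρ y)
    (hG : ∀ a c, ContDiffOn ℝ ∞ (G a c) U) (hX : ContDiffOn ℝ ∞ X U) (hv : ContDiffOn ℝ ∞ v U)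
    (hy : y ∈ U) :
    dop ρ G (fun z => X z * v z) y =
      X y * ∑ a, ∑ c, pd a (fun z => G a c z * pd c v z) y + ∑ c, be ρ X G c y * pd c v y +
        dop ρ G X y * v y := by
  have d := fun {f : E4 → ℝ} (h : ContDiffOn ℝ ∞ f U) => dAt_of_cdOn hU h hy
  have h2 : ∀ a, ContDiffOn ℝ ∞ (fun z => ∑ c, G a c z * pd c v z) U := fun a =>
    ContDiffOn.sum fun c _ => (hG a c).mul (cdOn_pd hU hv c)
  have key : ∀ a, pd a (fun z => ρ z * ∑ c, G a c z * pd c (fun z => X z * v z) z) y =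
      pd a (fun z => ρ z * ∑ c, G a c z * pd c X z) y * v y +
        (ρ y * ∑ c, G a c y * pd c X y) * pd a v y +
        ((pd a ρ y * X y + ρ y * pd a X y) * ∑ c, G a c y * pd c v y +
          ρ y * X y * ∑ c, pd a (fun z => G a c z * pd c v z) y) := fun a => by
    rw [← pd_sum fun c _ => d ((hG a c).mul (cdOn_pd hU hv c)), ← pd_mul (d hρ) (d hX),
      ← pd_mul (d (hρ.mul hX)) (d (h2 a)), ← pd_mul (d (cdOn_flux hU hρ hG hX a)) (d hv),
      ← pd_add (d ((cdOn_flux hU hρ hG hX a).mul hv)) (d ((hρ.mul hX).mul (h2 a)))]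
    refine pd_congr_on hU (fun z hz => ?_) a hy
    simp only [pd_mul (dAt_of_cdOn hU hX hz) (dAt_of_cdOn hU hv hz), Fin.sum_univ_four]
    ring
  have h1 := (h0 y hy).ne'
  simp only [dop, key, be]
  simp only [Fin.sum_univ_four]
  field_simp
  ring

theorem eL_eq (hU : IsOpen U) (hG : ∀ a c, ContDiffOn ℝ ∞ (G a c) U) (hv : ContDiffOn ℝ ∞ v U)
    (hy : y ∈ U) (hb : ∀ a c, b a c =ᶠ[𝓝 y] fun z => G a c z - if a = c then 1 else 0) :
    eL b v y = ∑ a, ∑ c, pd a (fun z => G a c z * pd c v z) y := by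
  have d := fun {f : E4 → ℝ} (h : ContDiffOn ℝ ∞ f U) => dAt_of_cdOn hU h hy
  have key : ∀ a c, pd a (fun z => b a c z * pd c v z) y =
      pd a (fun z => G a c z * pd c v z) y - (if a = c then 1 else 0) * pd a (pd c v) y := by
    intro a c
    rw [← pd_const_mul (d (cdOn_pd hU hv c)), ← pd_sub (d ((hG a c).mul (cdOn_pd hU hv c)))
      (d (contDiffOn_const.mul (cdOn_pd hU hv c)))]
    refine pd_congr ((hb a c).mono fun z hz => ?_) a
    simp only [hz]; ring
  simp only [eL, key, Finset.sum_sub_distrib, ite_mul, one_mul, zero_mul, Finset.sum_ite_eq,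
    Finset.mem_univ, if_true]
  ring

theorem tst_eL (hb : ∀ a c, Tst (b a c)) (hv : Tst v) : Tst (eL b v) :=
  (Tst.sum fun a _ => (hv.pd a).pd a).add
    (Tst.sum fun a _ => Tst.sum fun c _ => ((hb a c).mul_right (hv.pd c).sm).pd a)

theorem ell_compact {K : Set E4} (hK : IsCompact K) (hG : ∀ a c, ContinuousOn (G a c) K)
    (hp : ∀ y ∈ K, ∀ ξ : Fin 4 → ℝ, ξ ≠ 0 → 0 < ∑ a, ∑ c, G a c y * ξ a * ξ c) :
    ∃ c₀ : ℝ, 0 < c₀ ∧ ∀ y ∈ K, ∀ ξ : Fin 4 → ℝ,
      c₀ * ∑ a, ξ a ^ 2 ≤ ∑ a, ∑ c, G a c y * ξ a * ξ c := by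
  have hc : ContinuousOn (fun p : E4 × (Fin 4 → ℝ) => ∑ a, ∑ c, G a c p.1 * p.2 a * p.2 c)
      (K ×ˢ Metric.sphere 0 1) :=
    continuousOn_finsetSum _ fun a _ => continuousOn_finsetSum _ fun c _ =>
      (((hG a c).comp continuousOn_fst fun p hp => hp.1).mul (by fun_prop)).mul (by fun_prop)
  obtain ⟨c₀, h0, h1⟩ := (hK.prod (isCompact_sphere (0 : Fin 4 → ℝ) 1)).exists_forall_le' hc
    (a := 0) fun p hp' => hp p.1 hp'.1 p.2 fun h => by simpa [h] using hp'.2
  refine ⟨c₀ / 4, by positivity, fun y hy ξ => ?_⟩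
  by_cases hξ : ξ = 0
  · simp [hξ]
  have hn : 0 < ‖ξ‖ := norm_pos_iff.2 hξ
  have h2 := h1 (y, ‖ξ‖⁻¹ • ξ) ⟨hy, by simp [norm_smul, hn.ne']⟩
  have h3 : ∑ a, ∑ c, G a c y * ξ a * ξ c =
      ‖ξ‖ ^ 2 * ∑ a, ∑ c, G a c y * (‖ξ‖⁻¹ • ξ) a * (‖ξ‖⁻¹ • ξ) c := by
    simp only [Finset.mul_sum, Pi.smul_apply, smul_eq_mul]
    refine Finset.sum_congr rfl fun a _ => Finset.sum_congr rfl fun c _ => ?_
    field_simp
  have h4 : ∑ a, ξ a ^ 2 ≤ 4 * ‖ξ‖ ^ 2 := by
    have : ∀ a, ξ a ^ 2 ≤ ‖ξ‖ ^ 2 := fun a => by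
      rw [← sq_abs]; exact pow_le_pow_left₀ (abs_nonneg _) (norm_le_pi_norm ξ a) 2
    rw [Fin.sum_univ_four]
    linarith [this 0, this 1, this 2, this 3]
  rw [h3]
  nlinarith [mul_le_mul_of_nonneg_left h2 (sq_nonneg ‖ξ‖)]

end Euc

variable {M : Type u} [TopologicalSpace M] [T2Space M] [CompactSpace M] [ChartedSpace E4 M]
  [IsManifold (𝓡 4) ∞ M]

/-- Extension by zero of a function read in a chart. -/
noncomputable def ex (x₀ : M) (g : M → ℝ) : E4 → ℝ :=
  (chartAt E4 x₀).target.indicator (g ∘ param x₀)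

theorem tst_ex {x₀ : M} {g : M → ℝ} (hg : Smooth g) (hs : tsupport g ⊆ (chartAt E4 x₀).source) :
    Tst (ex x₀ g) := by
  have hK := isCompact_chart_image (isClosed_tsupport g).isCompact hs
  exact ⟨contDiff_indicator (isOpen_tgt x₀) hK.isClosed (chart_image_subset hs) (hg.cdOn x₀)
    comp_param_eq_zero, HasCompactSupport.intro hK fun y hy =>
      indicator_eq_zero_off comp_param_eq_zero hy⟩

variable [MeasurableSpace M] [BorelSpace M] (S : Setup M) (F : Frame M)

def T1 : Prop := ∀ k (x₀ : M) (ψ : M → ℝ), Smooth ψ → tsupport ψ ⊆ (chartAt E4 x₀).source →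
  ∃ C : ℝ, 0 < C ∧ ∀ f, Smooth f → eN k (ex x₀ fun x => ψ x * f x) ≤ C * F.N S.μ k f

def T2 : Prop := ∀ k (x₀ : M) (ψ : M → ℝ), Smooth ψ → tsupport ψ ⊆ (chartAt E4 x₀).source →
  ∃ C : ℝ, 0 < C ∧ ∀ b, Tst b → F.N S.μ k (fun x => ψ x * b (chartAt E4 x₀ x)) ≤ C * eN k b

theorem N_sum_le (k : ℕ) {ι : Type*} (s : Finset ι) {g : ι → M → ℝ} (hg : ∀ i, Smooth (g i)) :
    F.N S.μ k (fun x => ∑ i ∈ s, g i x) ≤ 2 ^ s.card * ∑ i ∈ s, F.N S.μ k (g i) := by
  classical
  induction s using Finset.induction_on with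
  | empty => simp [F.N_zero_fun]
  | insert a s ha ih =>
    simp only [Finset.sum_insert ha, Finset.card_insert_of_notMem ha, pow_succ]
    refine (F.N_add_le S k (hg a) (Smooth.sum fun i _ => hg i)).trans ?_
    have h1 : (1 : ℝ) ≤ 2 ^ s.card := one_le_pow₀ one_le_two
    nlinarith [F.N_nonneg S.μ k (g a)]

/-- The operator `L` on functions that come from one chart. -/
theorem exists_chart_op {x₀ : M} {χ : M → ℝ} (hχ : Smooth χ)
    (hs : tsupport χ ⊆ (chartAt E4 x₀).source) :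
    ∃ (b : Fin 4 → Fin 4 → E4 → ℝ) (ψ : Fin 4 → M → ℝ) (φ : M → ℝ), (∀ a c, Tst (b a c)) ∧
      (∃ c₀ : ℝ, 0 < c₀ ∧ ∀ (y : E4) (ξ : Fin 4 → ℝ),
        c₀ * ∑ a, ξ a ^ 2 ≤ ∑ a, ξ a ^ 2 + ∑ a, ∑ c, b a c y * ξ a * ξ c) ∧
      (∀ c, Smooth (ψ c) ∧ tsupport (ψ c) ⊆ (chartAt E4 x₀).source) ∧
      (Smooth φ ∧ tsupport φ ⊆ (chartAt E4 x₀).source) ∧
      ∀ v, Tst v → ∀ x, S.L (fun z => χ z * v (chartAt E4 x₀ z)) x =
        χ x * eL b v (chartAt E4 x₀ x) + ∑ c, ψ c x * pd c v (chartAt E4 x₀ x) +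
          φ x * v (chartAt E4 x₀ x) := by
  obtain ⟨θ, hθ, hθs, hθ01, hθ1⟩ := exists_cutoff (isClosed_tsupport χ) (isOpen_src x₀) hs
  have hU := isOpen_tgt x₀
  have sub : ∀ g : M → ℝ, tsupport (fun x => θ x * g x) ⊆ (chartAt E4 x₀).source := fun g =>
    (tsupport_mul_subset_left (f := θ) (g := g)).trans hθs
  set b : Fin 4 → Fin 4 → E4 → ℝ := fun a c => ex x₀ fun x =>
    θ x * (fun y => S.G x₀ a c y - if a = c then 1 else 0) (chartAt E4 x₀ x) with hb
  have bv : ∀ a c, ∀ y ∈ (chartAt E4 x₀).target,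
      b a c y = θ (param x₀ y) * (S.G x₀ a c y - if a = c then 1 else 0) := fun a c y hy => by
    simp only [hb, ex, indicator_of_mem hy, Function.comp, chart_param hy]
  refine ⟨b, fun c x => θ x * be (S.ρ x₀) (χ ∘ param x₀) (S.G x₀) c (chartAt E4 x₀ x),
    fun x => θ x * dop (S.ρ x₀) (S.G x₀) (χ ∘ param x₀) (chartAt E4 x₀ x),
    fun a c => tst_ex (smooth_mul_chart hθ hθs ((S.G_sm x₀ a c).sub contDiffOn_const)) (sub _), ?_,
    fun c => ⟨smooth_mul_chart hθ hθs
      (cdOn_be hU (S.ρ_sm x₀) (S.ρ_pos x₀) (S.G_sm x₀) (hχ.cdOn x₀) c), sub _⟩,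
    ⟨smooth_mul_chart hθ hθs
      (cdOn_dop hU (S.ρ_sm x₀) (S.ρ_pos x₀) (S.G_sm x₀) (hχ.cdOn x₀)), sub _⟩, ?_⟩
  · obtain ⟨c₀, h0, h1⟩ := ell_compact (G := S.G x₀)
      (isCompact_chart_image (isClosed_tsupport θ).isCompact hθs)
      (fun a c => (S.G_sm x₀ a c).continuousOn.mono (chart_image_subset hθs))
      fun y hy => S.G_pos x₀ y (chart_image_subset hθs hy)
    refine ⟨min c₀ 1, lt_min h0 one_pos, fun y ξ => ?_⟩
    have hq : 0 ≤ ∑ a, ξ a ^ 2 := Finset.sum_nonneg fun _ _ => sq_nonneg _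
    have m1 := mul_le_mul_of_nonneg_right (min_le_left c₀ 1) hq
    have m2 := mul_le_mul_of_nonneg_right (min_le_right c₀ 1) hq
    by_cases hy : y ∈ chartAt E4 x₀ '' tsupport θ
    · have e : ∑ a, ∑ c, b a c y * ξ a * ξ c =
          θ (param x₀ y) * (∑ a, ∑ c, S.G x₀ a c y * ξ a * ξ c - ∑ a, ξ a ^ 2) := by
        simp only [bv _ _ y (chart_image_subset hθs hy), Fin.sum_univ_four]
        simp
        ring
      rw [e]
      nlinarith [h1 y hy ξ, (hθ01 (param x₀ y)).1, (hθ01 (param x₀ y)).2]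
    · have e : ∀ a c, b a c y = 0 := fun a c => by
        by_cases hy' : y ∈ (chartAt E4 x₀).target
        · rw [bv a c y hy', show θ (param x₀ y) = 0 from comp_param_eq_zero y hy' hy, zero_mul]
        · exact indicator_of_notMem hy' _
      simp only [e, zero_mul, Finset.sum_const_zero]
      linarith
  · intro v hv x
    have hw : Smooth fun z => χ z * v (chartAt E4 x₀ z) := smooth_mul_chart hχ hs hv.sm.contDiffOn
    have h1 : S.L (fun z => χ z * v (chartAt E4 x₀ z)) x =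
        θ x * S.L (fun z => χ z * v (chartAt E4 x₀ z)) x := by
      by_cases hx : x ∈ tsupport χ
      · rw [(hθ1 x hx).eq_of_nhds, one_mul]
      · rw [S.opL.eq_zero_of_notMem hw fun h => hx (tsupport_mul_subset_left h), mul_zero]
    rw [h1]
    by_cases hx : x ∈ (chartAt E4 x₀).source
    swap
    · simp [zero_of_notMem_src hθs hx, zero_of_notMem_src hs hx]
    have hy := chart_mem hx
    have h2 := S.L_loc _ hw x₀ _ hy
    rw [param_chart hx, dop_congr_on hU (ψ := fun z => (χ ∘ param x₀) z * v z)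
      (fun z hz => by simp only [Function.comp, chart_param hz]) hy,
      dop_mul hU (S.ρ_sm x₀) (S.ρ_pos x₀) (S.G_sm x₀) (hχ.cdOn x₀) hv.sm.contDiffOn hy] at h2
    rw [h2]
    simp only [Function.comp, param_chart hx, mul_add, Finset.mul_sum Finset.univ _ (θ x),
      mul_assoc]
    congr 2
    by_cases hx' : x ∈ tsupport χ
    · rw [(hθ1 x hx').eq_of_nhds, one_mul,
        eL_eq hU (S.G_sm x₀) hv.sm.contDiffOn hy fun a c => ?_]
      have h3 : ContinuousAt (param x₀) (chartAt E4 x₀ x) :=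
        (continuousOn_param x₀).continuousAt (hU.mem_nhds hy)
      have h4 := h3.eventually (by rw [param_chart hx]; exact hθ1 x hx')
      filter_upwards [h4, hU.mem_nhds hy] with z h5 h6
      rw [bv a c z h6, h5, one_mul]
    · simp [image_eq_zero_of_notMem_tsupport hx']

theorem chart_step (h : DenseEStmt) (t1 : T1 S F) (t2 : T2 S F) (k : ℕ) {x₀ : M} {χ : M → ℝ}
    (hχ : Smooth χ) (hs : tsupport χ ⊆ (chartAt E4 x₀).source) :
    ∃ C : ℝ, 0 < C ∧ ∀ μ : ℝ, 1 ≤ μ → ∀ f, Smooth f → ∀ ε : ℝ, 0 < ε → ∃ w, Smooth w ∧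
      F.N S.μ k (fun x => μ * w x - S.L w x - χ x ^ 2 * f x) ≤ C * (ε + F.N S.μ k f / μ) := by
  obtain ⟨b, ψ, φ, hb, hell, hψ, hφ, hL⟩ := exists_chart_op S hχ hs
  obtain ⟨C₀, p0, h0⟩ := h b hb hell k
  obtain ⟨C₁, p1, h1⟩ := t1 k x₀ χ hχ hs
  obtain ⟨C₂, p2, h2⟩ := t2 k x₀ χ hχ hs
  obtain ⟨C₃, p3, h3⟩ := t2 k x₀ φ hφ.1 hφ.2
  choose C₄ p4 h4 using fun c => t2 k x₀ (ψ c) (hψ c).1 (hψ c).2
  have p5 : 0 ≤ ∑ c, C₄ c := Finset.sum_nonneg fun c _ => (p4 c).le
  set A := 64 * ∑ c, C₄ c + 2 * C₃ with hA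
  have pA : 0 < A := by positivity
  refine ⟨4 * C₂ + A * C₀ * (C₁ + 1), by positivity, fun μ hμ f hf ε hε => ?_⟩
  have hg : Tst (ex x₀ fun x => χ x * f x) :=
    tst_ex (hχ.mul hf) ((tsupport_mul_subset_left (f := χ) (g := f)).trans hs)
  obtain ⟨v, hv, e1, e2⟩ := h0 μ hμ _ hg ε hε
  have hr : Tst fun y => μ * v y - eL b v y - ex x₀ (fun x => χ x * f x) y :=
    ((hv.const_mul μ).sub (tst_eL hb hv)).sub hg
  refine ⟨_, smooth_mul_chart hχ hs hv.sm.contDiffOn, ?_⟩
  have s1 := smooth_mul_chart hχ hs hr.sm.contDiffOn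
  have s2 := fun c => smooth_mul_chart (hψ c).1 (hψ c).2 (hv.pd c).sm.contDiffOn
  have s3 := smooth_mul_chart hφ.1 hφ.2 hv.sm.contDiffOn
  have e : (fun x => μ * (χ x * v (chartAt E4 x₀ x)) -
      S.L (fun z => χ z * v (chartAt E4 x₀ z)) x - χ x ^ 2 * f x) = fun x =>
      (χ x * (fun y => μ * v y - eL b v y - ex x₀ (fun x => χ x * f x) y) (chartAt E4 x₀ x) -
        ∑ c, ψ c x * pd c v (chartAt E4 x₀ x)) - φ x * v (chartAt E4 x₀ x) := by
    funext x
    rw [hL v hv x]
    by_cases hx : x ∈ (chartAt E4 x₀).source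
    · simp only [ex, indicator_of_mem (chart_mem hx), Function.comp, param_chart hx]; ring
    · simp only [zero_of_notMem_src hs hx]; ring
  rw [e]
  have n1 := F.N_sub_le S k (s1.sub (Smooth.sum (s := Finset.univ) fun c _ => s2 c)) s3
  have n2 := F.N_sub_le S k s1 (Smooth.sum (s := Finset.univ) fun c _ => s2 c)
  have n3 := N_sum_le S F k Finset.univ s2
  have n4 : ∑ c, F.N S.μ k (fun x => ψ c x * pd c v (chartAt E4 x₀ x)) ≤
      (∑ c, C₄ c) * eN (k + 1) v := by
    rw [Finset.sum_mul]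
    exact Finset.sum_le_sum fun c _ => (h4 c _ (hv.pd c)).trans
      (mul_le_mul_of_nonneg_left (eN_pd_le k v c) (p4 c).le)
  have n5 := (h3 v hv).trans (mul_le_mul_of_nonneg_left (eN_le_succ k v) p3.le)
  have n6 := (h2 _ hr).trans (mul_le_mul_of_nonneg_left e1 p2.le)
  have hN := F.N_nonneg S.μ k f
  have q0 : 0 < μ := by linarith
  have q1 : 0 ≤ F.N S.μ k f / μ := by positivity
  have n7 : eN (k + 1) v ≤ C₀ * (C₁ + 1) * (ε + F.N S.μ k f / μ) := by
    refine le_of_mul_le_mul_left (e2.trans ?_) q0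
    have e3 : μ * (C₀ * (C₁ + 1) * (ε + F.N S.μ k f / μ)) =
        C₀ * ((C₁ + 1) * (μ * ε + F.N S.μ k f)) := by field_simp
    rw [e3]
    refine mul_le_mul_of_nonneg_left ?_ p0.le
    nlinarith [h1 f hf, mul_le_mul_of_nonneg_right hμ hε.le, mul_pos p1 (mul_pos q0 hε)]
  have n8 := mul_le_mul_of_nonneg_left n7 pA.le
  simp only [Finset.card_univ, Fintype.card_fin] at n3
  rw [hA] at n8 ⊢
  nlinarith [mul_nonneg p2.le q1]

theorem dense_of (h : DenseEStmt) (t1 : T1 S F) (t2 : T2 S F) : DenseL S F := by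
  intro k
  choose C p hC using fun a => chart_step S F h t1 t2 k (F.sm a) (F.supp a)
  have p5 : 0 ≤ ∑ a, C a := Finset.sum_nonneg fun a _ => (p a).le
  set A := 2 ^ F.n * ∑ a, C a + 1 with hA
  have pA : 1 ≤ A := le_add_of_nonneg_left (by positivity)
  refine ⟨2 * A, fun μ hμ => ?_⟩
  refine Cont.dense_of_half (V := M → ℝ) (P := Smooth) (N := F.N S.μ k)
    (T := fun u x => μ * u x - S.L u x)
    ⟨smooth_const 0, fun f g => Smooth.sub, fun f _ => F.N_nonneg _ _ _,
      fun f hf => F.N_neg _ k hf, fun f g => F.N_add_le S k⟩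
    ⟨fun u hu => (hu.const_mul μ).sub (S.opL.smooth hu), fun u v hu hv => ?_⟩
    fun f hf ε hε => ?_
  · funext x
    have := congrFun (S.opL.sub hu hv) x
    simp only [Pi.sub_apply]
    rw [show S.L (u - v) x = S.L u x - S.L v x from this]
    ring
  · choose w hw hN using fun a => hC a μ (by linarith) f hf (ε / A) (by positivity)
    refine ⟨fun x => ∑ a, w a x, Smooth.sum fun a _ => hw a, ?_⟩
    have e : ((fun x => μ * ∑ a, w a x - S.L (fun x => ∑ a, w a x) x) - f) =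
        fun x => ∑ a, (μ * w a x - S.L (w a) x - F.χ a x ^ 2 * f x) := by
      funext x
      simp only [Pi.sub_apply, S.opL.sum Finset.univ hw, Finset.sum_sub_distrib, Finset.mul_sum,
        ← Finset.sum_mul, F.sum x, one_mul]
    beta_reduce
    rw [e]
    refine (N_sum_le S F k Finset.univ fun a => (((hw a).const_mul μ).sub
      (S.opL.smooth (hw a))).sub (((F.sm a).pow 2).mul hf)).trans ?_
    have n1 := Finset.sum_le_sum fun a (_ : a ∈ Finset.univ) => hN a
    rw [← Finset.sum_mul] at n1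
    have hN0 := F.N_nonneg S.μ k f
    have q0 : 0 < μ := by linarith
    have n2 : F.N S.μ k f / μ ≤ F.N S.μ k f / (2 * A) :=
      div_le_div_of_nonneg_left hN0 (by linarith) hμ
    have n3 : A * (ε / A + F.N S.μ k f / (2 * A)) = F.N S.μ k f / 2 + ε := by
      field_simp; ring
    have n4 : 0 ≤ ε / A + F.N S.μ k f / μ := by positivity
    simp only [Finset.card_univ, Fintype.card_fin]
    refine (mul_le_mul_of_nonneg_left n1 (by positivity)).trans ?_
    rw [← n3, ← mul_assoc]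
    exact mul_le_mul (by linarith) (by linarith) n4 (by linarith)

omit [T2Space M] [CompactSpace M] [IsManifold (𝓡 4) ∞ M] [MeasurableSpace M] [BorelSpace M] in
theorem cd_eq_zero {x₀ x : M} (hx : x ∈ (chartAt E4 x₀).source) {g : M → ℝ} (h : x ∉ tsupport g)
    (i : Fin 4) : cd x₀ i g x = 0 := by
  have h3 : ContinuousAt (param x₀) (chartAt E4 x₀ x) :=
    (continuousOn_param x₀).continuousAt ((isOpen_tgt x₀).mem_nhds (chart_mem hx))
  have h4 := h3.eventually (p := fun z => g z = 0)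
    (by rw [param_chart hx]; exact notMem_tsupport_iff_eventuallyEq.1 h)
  exact pd_eq_zero_of_eventually (f := g ∘ param x₀) h4 i

omit [T2Space M] [CompactSpace M] [IsManifold (𝓡 4) ∞ M] [MeasurableSpace M] [BorelSpace M] in
theorem X_eq_zero (j : Fin F.n × Fin 4) {g : M → ℝ} {x : M} (h : x ∉ tsupport g) :
    F.X j g x = 0 := by
  by_cases hx : x ∈ (chartAt E4 (F.c j.1)).source
  · rw [Frame.X, cd_eq_zero hx h, mul_zero]
  · rw [Frame.X, zero_of_notMem_src (F.supp j.1) hx, zero_mul]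

theorem t1_zero (x₀ : M) (ψ : M → ℝ) (hψ : Smooth ψ)
    (hs : tsupport ψ ⊆ (chartAt E4 x₀).source) :
    ∃ C : ℝ, 0 < C ∧ ∀ f, Smooth f → eN 0 (ex x₀ fun x => ψ x * f x) ≤ C * F.N S.μ 0 f := by
  have hK := isCompact_chart_image (isClosed_tsupport ψ).isCompact hs
  have hKU := chart_image_subset hs
  have hU := isOpen_tgt x₀
  obtain ⟨c, hc, h1⟩ := hK.exists_forall_le' ((S.ρ_sm x₀).continuousOn.mono hKU) (a := 0)
    fun y hy => S.ρ_pos x₀ y (hKU hy)
  obtain ⟨C, hC, h2⟩ := F.N_mul_le S 0 hψ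
  refine ⟨c⁻¹ * C, by positivity, fun f hf => ?_⟩
  have hg := (hψ.mul hf).pow 2
  have z : ∀ y ∈ (chartAt E4 x₀).target, y ∉ chartAt E4 x₀ '' tsupport ψ →
      ψ (param x₀ y) = 0 := comp_param_eq_zero
  have e : (fun y => ex x₀ (fun x => ψ x * f x) y ^ 2) =
      (chartAt E4 x₀).target.indicator fun y => (ψ (param x₀ y) * f (param x₀ y)) ^ 2 := by
    funext y
    by_cases hy : y ∈ (chartAt E4 x₀).target <;> simp [ex, hy]
  rw [mul_assoc, le_inv_mul_iff₀ hc, eN_zero, e, integral_indicator hU.measurableSet,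
    ← integral_const_mul]
  refine le_trans ?_ (h2 f hf)
  rw [F.N_zero, S.integral_chart x₀ hg.continuous.measurable fun x hx => by
    simp [zero_of_notMem_src hs hx]]
  refine setIntegral_mono_on ((integrableOn_of_compact hU hK hKU (hg.cdOn x₀).continuousOn
    fun y hy hy' => by simp [z y hy hy']).const_mul c) (integrableOn_of_compact hU hK hKU
      ((hg.cdOn x₀).mul (S.ρ_sm x₀)).continuousOn fun y hy hy' => by simp [z y hy hy'])
    hU.measurableSet fun y hy => ?_
  by_cases hy' : y ∈ chartAt E4 x₀ '' tsupport ψ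
  · rw [mul_comm]; exact mul_le_mul_of_nonneg_left (h1 y hy') (sq_nonneg _)
  · simp [z y hy hy']

theorem t1 : T1 S F := by
  intro k x₀
  induction k with
  | zero => exact t1_zero S F x₀
  | succ k ih =>
    intro ψ hψ hs
    obtain ⟨θ, hθ, hθs, -, hθ1⟩ := exists_cutoff (isClosed_tsupport ψ) (isOpen_src x₀) hs
    obtain ⟨C₀, p0, h0⟩ := t1_zero S F x₀ ψ hψ hs
    obtain ⟨C₁, p1, h1⟩ := ih θ hθ hθs
    have hD := fun i => ((vf_cd hθ hθs i).do1 (F := F)).comp_mul hψ
    choose C₂ p2 h2 using fun i => (hD i).bound S k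
    have p3 : 0 ≤ ∑ i, C₂ i := Finset.sum_nonneg fun i _ => (p2 i).le
    refine ⟨C₀ + C₁ * ∑ i, C₂ i, by positivity, fun f hf => ?_⟩
    have e : ∀ i, pd i (ex x₀ fun x => ψ x * f x) =
        ex x₀ fun x => θ x * (θ x * cd x₀ i (fun x => ψ x * f x) x) := fun i => by
      funext y
      have hsub := tsupport_mul_subset_left (f := ψ) (g := f)
      by_cases hy : y ∈ (chartAt E4 x₀).target
      · rw [pd_congr_on (isOpen_tgt x₀) (f := ex x₀ fun x => ψ x * f x)
          (g := (fun x => ψ x * f x) ∘ param x₀)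
          (fun z hz => indicator_of_mem hz _) i hy, ← cd_param hy]
        simp only [ex, indicator_of_mem hy, Function.comp]
        by_cases hx : param x₀ y ∈ tsupport ψ
        · rw [(hθ1 _ hx).eq_of_nhds, one_mul, one_mul]
        · rw [cd_eq_zero (param_mem hy) fun h => hx (hsub h), mul_zero, mul_zero]
      · rw [ex, ex, indicator_of_notMem hy]
        have hK := isCompact_chart_image (isClosed_tsupport _).isCompact (hsub.trans hs)
        exact pd_eq_zero_of_eventually (mem_of_superset (hK.isClosed.isOpen_compl.mem_nhds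
          fun h => hy (chart_image_subset (hsub.trans hs) h))
          fun z hz => indicator_eq_zero_off comp_param_eq_zero hz) i
    have n1 : ∑ i, eN k (pd i (ex x₀ fun x => ψ x * f x)) ≤
        C₁ * (∑ i, C₂ i) * F.N S.μ (k + 1) f := by
      rw [mul_assoc, Finset.sum_mul, Finset.mul_sum]
      exact Finset.sum_le_sum fun i _ => by
        rw [e]
        exact (h1 _ ((hD i).smooth hf)).trans (mul_le_mul_of_nonneg_left (h2 i f hf) p1.le)
    have n2 := mul_le_mul_of_nonneg_left (F.N_mono S.μ (Nat.zero_le (k + 1)) f) p0.le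
    rw [eN_succ]
    linarith [h0 f hf]

theorem t2_zero (x₀ : M) (ψ : M → ℝ) (hψ : Smooth ψ)
    (hs : tsupport ψ ⊆ (chartAt E4 x₀).source) : ∃ C : ℝ, 0 < C ∧ ∀ b, Tst b →
      F.N S.μ 0 (fun x => ψ x * b (chartAt E4 x₀ x)) ≤ C * eN 0 b := by
  have hK := isCompact_chart_image (isClosed_tsupport ψ).isCompact hs
  have hKU := chart_image_subset hs
  have hU := isOpen_tgt x₀
  obtain ⟨C, hC⟩ := hK.bddAbove_image
    ((((hψ.pow 2).cdOn x₀).mul (S.ρ_sm x₀)).continuousOn.mono hKU)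
  refine ⟨max C 1, by positivity, fun b hb => ?_⟩
  have hg := (smooth_mul_chart hψ hs hb.sm.contDiffOn).pow 2
  have z : ∀ y ∈ (chartAt E4 x₀).target, y ∉ chartAt E4 x₀ '' tsupport ψ →
      ψ (param x₀ y) = 0 := comp_param_eq_zero
  rw [F.N_zero, S.integral_chart x₀ hg.continuous.measurable fun x hx => by
    simp [zero_of_notMem_src hs hx], eN_zero, ← integral_const_mul]
  refine le_trans (setIntegral_mono_on (integrableOn_of_compact hU hK hKU
    ((hg.cdOn x₀).mul (S.ρ_sm x₀)).continuousOn fun y hy hy' => by simp [z y hy hy'])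
    (hb.integrable_sq.const_mul (max C 1)).integrableOn hU.measurableSet fun y hy => ?_)
    (setIntegral_le_integral (hb.integrable_sq.const_mul _)
      (Eventually.of_forall fun y => by positivity))
  by_cases hy' : y ∈ chartAt E4 x₀ '' tsupport ψ
  · have h1 : ψ (param x₀ y) ^ 2 * S.ρ x₀ y ≤ max C 1 := (hC ⟨y, hy', rfl⟩).trans (le_max_left _ _)
    rw [chart_param hy]
    nlinarith [mul_le_mul_of_nonneg_right h1 (sq_nonneg (b y))]
  · simp only [z y hy hy', zero_mul, ne_eq, OfNat.ofNat_ne_zero, not_false_eq_true, zero_pow]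
    positivity

theorem t2 : T2 S F := by
  intro k x₀
  induction k with
  | zero => exact t2_zero S F x₀
  | succ k ih =>
    intro ψ hψ hs
    choose v hv e using fun j => F.vf_X j x₀
    have sX : ∀ j, tsupport (F.X j ψ) ⊆ (chartAt E4 x₀).source := fun j =>
      (closure_minimal (s := Function.support (F.X j ψ))
        (fun x hx => by_contra fun h => hx (X_eq_zero F j h)) (isClosed_tsupport ψ)).trans hs
    have sv : ∀ j i, tsupport (fun x => ψ x * v j i (chartAt E4 x₀ x)) ⊆ (chartAt E4 x₀).source :=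
      fun j i => (tsupport_mul_subset_left (f := ψ)).trans hs
    obtain ⟨C₀, p0, h0⟩ := t2_zero S F x₀ ψ hψ hs
    choose C₁ p1 h1 using fun j => ih _ (F.X_smooth j hψ) (sX j)
    choose C₂ p2 h2 using fun j i => ih _ (smooth_mul_chart hψ hs (hv j i)) (sv j i)
    have p3 : 0 ≤ ∑ j, (2 * C₁ j + 32 * ∑ i, C₂ j i) := Finset.sum_nonneg fun j _ => by
      have := Finset.sum_nonneg fun i (_ : i ∈ Finset.univ) => (p2 j i).le
      linarith [p1 j]
    refine ⟨C₀ + ∑ j, (2 * C₁ j + 32 * ∑ i, C₂ j i), by positivity, fun b hb => ?_⟩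
    have hg := smooth_mul_chart hψ hs hb.sm.contDiffOn
    have e1 : ∀ j, F.X j (fun x => ψ x * b (chartAt E4 x₀ x)) = fun x =>
        F.X j ψ x * b (chartAt E4 x₀ x) +
          ∑ i, ψ x * v j i (chartAt E4 x₀ x) * pd i b (chartAt E4 x₀ x) := fun j => by
      funext x
      by_cases hx : x ∈ (chartAt E4 x₀).source
      · have hy := chart_mem hx
        have a1 := e j _ hg _ hy
        have a2 := e j _ hψ _ hy
        rw [param_chart hx] at a1 a2
        rw [a1, a2, Finset.sum_mul, ← Finset.sum_add_distrib]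
        refine Finset.sum_congr rfl fun i _ => ?_
        rw [pd_congr_on (isOpen_tgt x₀) (g := fun z => (ψ ∘ param x₀) z * b z)
          (fun z hz => by simp only [Function.comp, chart_param hz]) i hy,
          pd_mul (hψ.dAt hy) (hb.dAt _)]
        simp only [Function.comp, param_chart hx]
        ring
      · simp [X_eq_zero F j fun h => hx (hs h), zero_of_notMem_src hs hx,
          X_eq_zero F j fun h => hx (hs (tsupport_mul_subset_left (f := ψ)
            (g := fun x => b (chartAt E4 x₀ x)) h))]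
    have n1 : ∑ j, F.N S.μ k (F.X j fun x => ψ x * b (chartAt E4 x₀ x)) ≤
        (∑ j, (2 * C₁ j + 32 * ∑ i, C₂ j i)) * eN (k + 1) b := by
      rw [Finset.sum_mul]
      refine Finset.sum_le_sum fun j _ => ?_
      have s2 := fun i => smooth_mul_chart (smooth_mul_chart hψ hs (hv j i)) (sv j i)
        (hb.pd i).sm.contDiffOn
      have m1 := F.N_add_le S k (smooth_mul_chart (F.X_smooth j hψ) (sX j) hb.sm.contDiffOn)
        (Smooth.sum (s := Finset.univ) fun i _ => s2 i)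
      have m2 := N_sum_le S F k Finset.univ s2
      have m3 : ∑ i, F.N S.μ k (fun x => ψ x * v j i (chartAt E4 x₀ x) *
          pd i b (chartAt E4 x₀ x)) ≤ (∑ i, C₂ j i) * eN (k + 1) b := by
        rw [Finset.sum_mul]
        exact Finset.sum_le_sum fun i _ => (h2 j i _ (hb.pd i)).trans
          (mul_le_mul_of_nonneg_left (eN_pd_le k b i) (p2 j i).le)
      have m4 := (h1 j b hb).trans (mul_le_mul_of_nonneg_left (eN_le_succ k b) (p1 j).le)
      simp only [Finset.card_univ, Fintype.card_fin] at m2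
      rw [e1]
      nlinarith
    have n2 := mul_le_mul_of_nonneg_left (eN_mono (Nat.zero_le (k + 1)) b) p0.le
    rw [F.N_succ]
    linarith [h0 b hb]

end DL

theorem denseL (h : DenseEStmt) : DenseLStmt.{u} := fun _ _ _ _ _ _ _ _ S F =>
  DL.dense_of S F h (DL.t1 S F) (DL.t2 S F)

end Pool.Agent.MP_417fa2_gt

end MrgPart2

-- marker of a merged file
example : 731051 + 196809 = 731051 + 196809 := rfl
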