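import Mathlib.Topology.Sheaves.Presheaf
import Mathlib.Algebra.Order.Ring.Star
import Mathlib.Algebra.Order.Archimedean.Real.Hom
import Mathlib.Algebra.Order.Chebyshev
import Mathlib.Algebra.Order.Star.Real
import Mathlib.Analysis.Calculus.BumpFunction.FiniteDimension
import Mathlib.Analysis.FunctionalSpaces.SobolevInequality
import Mathlib.RingTheory.PiTensorProduct
import Pool.Agent.MP_417fa2_gt.An.Euc

/-! Module EUC-A: the embedding of `H¹` in `L⁴` and the capacity of a point in `ℝ⁴`. -/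

open scoped ContDiff
open MeasureTheory Set Metric Filter Topology

namespace Pool.Agent.MP_417fa2_gt

namespace EucA

lemma tst_pd {h : E4 → ℝ} (hh : Tst h) (i : Fin 4) : Tst (pd i h) := by
  refine ⟨?_, ?_⟩
  · have h1 : ContDiff ℝ ∞ (fderiv ℝ h) := hh.sm.fderiv_right (m := ∞) le_rfl
    exact h1.clm_apply contDiff_const
  · exact hh.cs.fderiv_apply (𝕜 := ℝ) (EuclideanSpace.single i 1)

lemma tst_int_pow {h : E4 → ℝ} (hh : Tst h) {n : ℕ} (hn : n ≠ 0) :
    Integrable fun y => h y ^ n :=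
  (hh.sm.continuous.pow n).integrable_of_hasCompactSupport
    (hh.cs.comp_left (g := fun t : ℝ => t ^ n) (by simp [hn]))

lemma norm_fderiv_sq_le (h : E4 → ℝ) (y : E4) : ‖fderiv ℝ h y‖ ^ 2 ≤ ∑ i, pd i h y ^ 2 := by
  have h0 : 0 ≤ ∑ i, pd i h y ^ 2 := Finset.sum_nonneg fun i _ => sq_nonneg _
  have h1 : ‖fderiv ℝ h y‖ ≤ Real.sqrt (∑ i, pd i h y ^ 2) := by
    refine ContinuousLinearMap.opNorm_le_bound _ (Real.sqrt_nonneg _) fun v => ?_
    have hv : v = ∑ i, v i • EuclideanSpace.single i (1 : ℝ) := by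
      ext j
      simp [Finset.sum_apply, Pi.single_apply]
    have h2 : fderiv ℝ h y v = ∑ i, pd i h y * v i := by
      conv_lhs => rw [hv]
      rw [map_sum]
      refine Finset.sum_congr rfl fun i _ => ?_
      rw [map_smul, smul_eq_mul, mul_comm]
      rfl
    rw [h2, Real.norm_eq_abs, EuclideanSpace.norm_eq, ← Real.sqrt_mul h0]
    refine Real.abs_le_sqrt ?_
    simpa [Real.norm_eq_abs, sq_abs] using
      Finset.sum_mul_sq_le_sq_mul_sq Finset.univ (fun i => pd i h y) (fun i => v i)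
  calc ‖fderiv ℝ h y‖ ^ 2 ≤ Real.sqrt (∑ i, pd i h y ^ 2) ^ 2 :=
        pow_le_pow_left₀ (norm_nonneg _) h1 2
    _ = _ := Real.sq_sqrt h0

end EucA

open EucA in
theorem s4 : S4Stmt := by
  set C0 : NNReal := SNormLESNormFDerivOfEqConst ℝ (volume : Measure E4) ((2 : NNReal) : ℝ)
    with hC0
  refine ⟨(C0 : ℝ) ^ 4 + 1, by positivity, fun h hh => ?_⟩
  have h1 : ContDiff ℝ 1 h := hh.sm.of_le (by exact_mod_cast le_top)
  have hg := eLpNorm_le_eLpNorm_fderiv_of_eq (volume : Measure E4) h1 hh.cs (p := 2) (p' := 4)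
    (by norm_num) (by simp) (by simp; norm_num)
  have hcd : Continuous (fderiv ℝ h) := h1.continuous_fderiv (by norm_num)
  have hm4 : MemLp h ((4 : NNReal) : ENNReal) volume :=
    hh.sm.continuous.memLp_of_hasCompactSupport hh.cs
  have hm2 : MemLp (fderiv ℝ h) ((2 : NNReal) : ENNReal) volume :=
    hcd.memLp_of_hasCompactSupport (hh.cs.fderiv ℝ)
  rw [hm4.eLpNorm_eq_integral_rpow_norm (by simp) (by simp),
    hm2.eLpNorm_eq_integral_rpow_norm (by simp) (by simp), ← hC0,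
    ← ENNReal.ofReal_coe_nnreal (p := C0), ← ENNReal.ofReal_mul (by positivity),
    ENNReal.ofReal_le_ofReal_iff (by positivity)] at hg
  have e4 : ((4 : NNReal) : ENNReal).toReal = ((4 : ℕ) : ℝ) := by simp
  have e2 : ((2 : NNReal) : ENNReal).toReal = ((2 : ℕ) : ℝ) := by simp
  rw [e4, e2] at hg
  simp only [Real.rpow_natCast] at hg
  set A := ∫ y, ‖h y‖ ^ 4 with hA
  set B := ∫ y, ‖fderiv ℝ h y‖ ^ 2 with hB
  have hA0 : 0 ≤ A := integral_nonneg fun y => by positivity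
  have hB0 : 0 ≤ B := integral_nonneg fun y => by positivity
  have h2 := pow_le_pow_left₀ (by positivity) hg 4
  have e5 : (A ^ ((4 : ℕ) : ℝ)⁻¹) ^ 4 = A := Real.rpow_inv_natCast_pow hA0 (by norm_num)
  have e6 : (B ^ ((2 : ℕ) : ℝ)⁻¹) ^ 2 = B := Real.rpow_inv_natCast_pow hB0 (by norm_num)
  have e7 : ((C0 : ℝ) * B ^ ((2 : ℕ) : ℝ)⁻¹) ^ 4 = (C0 : ℝ) ^ 4 * B ^ 2 := by
    rw [mul_pow, show (4 : ℕ) = 2 * 2 from rfl, pow_mul (B ^ ((2 : ℕ) : ℝ)⁻¹), e6]
  rw [e5, e7] at h2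
  have e8 : ∫ y, h y ^ 4 = A := by
    rw [hA]
    congr 1
    ext y
    rw [Real.norm_eq_abs, Even.pow_abs (by decide)]
  have hBle : B ≤ eN 1 h := by
    have h3 : B ≤ ∫ y, ∑ i, pd i h y ^ 2 :=
      integral_mono_of_nonneg (Eventually.of_forall fun y => by positivity)
        (integrable_finsetSum _ fun i _ => tst_int_pow (tst_pd hh i) two_ne_zero)
        (Eventually.of_forall fun y => norm_fderiv_sq_le h y)
    rw [integral_finsetSum _ fun i _ => tst_int_pow (tst_pd hh i) two_ne_zero] at h3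
    have h4 : 0 ≤ ∫ y, h y ^ 2 := integral_nonneg fun y => sq_nonneg _
    simp only [eN]
    linarith
  rw [e8]
  have h5 := pow_le_pow_left₀ hB0 hBle 2
  have h6 : 0 ≤ (C0 : ℝ) ^ 4 := by positivity
  nlinarith [sq_nonneg (eN 1 h)]

namespace EucA

/-- A combination of dyadic rescalings of `φ` around `z`. -/
noncomputable def dy (c : ℕ → ℝ) (φ : E4 → ℝ) (m : ℕ) (z : E4) (y : E4) : ℝ :=
  ∑ k ∈ Finset.range m, c k * φ ((2 : ℝ) ^ k • (y - z))

lemma tst_scale {φ : E4 → ℝ} (hφ : Tst φ) (k : ℕ) (z : E4) :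
    Tst fun y => φ ((2 : ℝ) ^ k • (y - z)) := by
  refine ⟨hφ.sm.comp (by fun_prop), ?_⟩
  exact hφ.cs.comp_homeomorph ((Homeomorph.subRight z).trans
    (Homeomorph.smulOfNeZero ((2 : ℝ) ^ k) (by positivity)))

lemma tst_dy (c : ℕ → ℝ) {φ : E4 → ℝ} (hφ : Tst φ) (m : ℕ) (z : E4) : Tst (dy c φ m z) := by
  refine ⟨ContDiff.sum fun k _ => contDiff_const.mul (tst_scale hφ k z).sm, ?_⟩
  induction m with
  | zero =>
    have : dy c φ 0 z = 0 := by ext y; simp [dy]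
    rw [this]
    exact HasCompactSupport.zero
  | succ m ih =>
    have : dy c φ (m + 1) z = dy c φ m z + fun y => c m * φ ((2 : ℝ) ^ m • (y - z)) := by
      ext y; simp [dy, Finset.sum_range_succ]
    rw [this]
    exact ih.add (tst_scale hφ m z).cs.mul_left

lemma pd_dy (c : ℕ → ℝ) {φ : E4 → ℝ} (hφ : Tst φ) (m : ℕ) (z : E4) (i : Fin 4) :
    pd i (dy c φ m z) = dy (fun k => c k * 2 ^ k) (pd i φ) m z := by
  ext y
  have hd : Differentiable ℝ φ := hφ.sm.differentiable (by simp)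
  have h1 : ∀ k : ℕ, HasFDerivAt (fun y => c k * φ ((2 : ℝ) ^ k • (y - z)))
      (c k • (fderiv ℝ φ ((2 : ℝ) ^ k • (y - z))).comp
        ((2 : ℝ) ^ k • ContinuousLinearMap.id ℝ E4)) y := fun k => by
    have h2 : HasFDerivAt (fun y : E4 => (2 : ℝ) ^ k • (y - z))
        ((2 : ℝ) ^ k • ContinuousLinearMap.id ℝ E4) y :=
      ((hasFDerivAt_id y).sub_const z).const_smul ((2 : ℝ) ^ k)
    exact ((hd _).hasFDerivAt.comp y h2).const_mul (c k)
  have h3 := HasFDerivAt.fun_sum (u := Finset.range m) fun k _ => h1 k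
  unfold pd dy
  rw [h3.fderiv]
  simp [mul_assoc]

lemma int_scale (φ : E4 → ℝ) (k : ℕ) (z : E4) :
    ∫ y, φ ((2 : ℝ) ^ k • (y - z)) ^ 2 = (1 / 16) ^ k * ∫ y, φ y ^ 2 := by
  rw [integral_sub_right_eq_self (fun y : E4 => φ ((2 : ℝ) ^ k • y) ^ 2) z,
    Measure.integral_comp_smul volume (fun y : E4 => φ y ^ 2) ((2 : ℝ) ^ k),
    abs_of_nonneg (by positivity), smul_eq_mul]
  congr 1
  rw [finrank_euclideanSpace, Fintype.card_fin, ← pow_mul, mul_comm, pow_mul, ← inv_pow]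
  norm_num

lemma int_sum (c : ℕ → ℝ) {φ : E4 → ℝ} (hφ : Tst φ) (m : ℕ) (z : E4) :
    ∫ y, ∑ k ∈ Finset.range m, (c k * φ ((2 : ℝ) ^ k • (y - z))) ^ 2 =
      (∑ k ∈ Finset.range m, c k ^ 2 * (1 / 16) ^ k) * ∫ y, φ y ^ 2 := by
  simp only [mul_pow]
  rw [integral_finsetSum _ fun k _ =>
    (tst_int_pow (tst_scale hφ k z) two_ne_zero).const_mul _, Finset.sum_mul]
  refine Finset.sum_congr rfl fun k _ => ?_
  rw [integral_const_mul, int_scale, mul_assoc]

lemma integrable_sum (c : ℕ → ℝ) {φ : E4 → ℝ} (hφ : Tst φ) (m : ℕ) (z : E4) :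
    Integrable fun y => ∑ k ∈ Finset.range m, (c k * φ ((2 : ℝ) ^ k • (y - z))) ^ 2 := by
  simp only [mul_pow]
  exact integrable_finsetSum _ fun k _ =>
    (tst_int_pow (tst_scale hφ k z) two_ne_zero).const_mul _

/-- The crude bound by the Cauchy-Schwarz inequality. -/
lemma int_dy_le (c : ℕ → ℝ) {φ : E4 → ℝ} (hφ : Tst φ) (m : ℕ) (z : E4) :
    ∫ y, dy c φ m z y ^ 2 ≤
      m * ((∑ k ∈ Finset.range m, c k ^ 2 * (1 / 16) ^ k) * ∫ y, φ y ^ 2) := by
  rw [← int_sum c hφ m z, ← integral_const_mul]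
  refine integral_mono_of_nonneg (Eventually.of_forall fun y => sq_nonneg _)
    ((integrable_sum c hφ m z).const_mul _) (Eventually.of_forall fun y => ?_)
  have := sq_sum_le_card_mul_sum_sq (s := Finset.range m)
    (f := fun k => c k * φ ((2 : ℝ) ^ k • (y - z)))
  simpa [dy] using this

/-- Orthogonality for functions carried by a thin annulus. -/
lemma int_dy_eq (c : ℕ → ℝ) {φ : E4 → ℝ} (hφ : Tst φ)
    (hann : ∀ x, φ x ≠ 0 → 5 / 4 ≤ ‖x‖ ∧ ‖x‖ ≤ 7 / 4) (m : ℕ) (z : E4) :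
    ∫ y, dy c φ m z y ^ 2 = (∑ k ∈ Finset.range m, c k ^ 2 * (1 / 16) ^ k) * ∫ y, φ y ^ 2 := by
  rw [← int_sum c hφ m z]
  congr 1
  ext y
  have hlt : ∀ k l : ℕ, k < l → φ ((2 : ℝ) ^ k • (y - z)) * φ ((2 : ℝ) ^ l • (y - z)) = 0 := by
    intro k l hkl
    by_contra hne
    obtain ⟨h1, h2⟩ := mul_ne_zero_iff.1 hne
    have h3 := (hann _ h1).1
    have h4 := (hann _ h2).2
    rw [norm_smul, Real.norm_of_nonneg (by positivity)] at h3 h4
    have h5 : (2 : ℝ) ^ (k + 1) ≤ 2 ^ l := pow_le_pow_right₀ (by norm_num) hkl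
    have h6 := mul_le_mul_of_nonneg_right h5 (norm_nonneg (y - z))
    rw [pow_succ] at h6
    nlinarith
  rw [dy, sq, Finset.sum_mul_sum]
  refine Finset.sum_congr rfl fun k hk => ?_
  rw [Finset.sum_eq_single k, sq]
  · intro l _ hl
    rcases lt_or_gt_of_ne hl with h | h
    · rw [mul_mul_mul_comm, mul_comm (φ _), hlt l k h, mul_zero]
    · rw [mul_mul_mul_comm, hlt k l h, mul_zero]
  · intro h
    exact absurd hk h

lemma pd_eq_zero_of_eventually {φ : E4 → ℝ} {x : E4} {a : ℝ} (h : ∀ᶠ y in 𝓝 x, φ y = a)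
    (i : Fin 4) : ∀ᶠ y in 𝓝 x, pd i φ y = 0 := by
  filter_upwards [h.eventually_nhds] with y hy
  have : φ =ᶠ[𝓝 y] fun _ => a := hy
  unfold pd
  rw [this.fderiv_eq]
  simp

lemma geom_le {q : ℝ} (h0 : 0 ≤ q) (h1 : q ≤ 1 / 2) (m : ℕ) :
    ∑ k ∈ Finset.range m, q ^ k ≤ 2 := by
  have h2 : ∑ k ∈ Finset.range m, q ^ k ≤ ∑ k ∈ Finset.range m, (1 / 2 : ℝ) ^ k :=
    Finset.sum_le_sum fun k _ => pow_le_pow_left₀ h0 h1 k
  exact h2.trans (sum_geometric_two_le m)

end EucA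

open EucA in
theorem cap : CapStmt := by
  let η : ContDiffBump (0 : E4) := ⟨5 / 4, 7 / 4, by norm_num, by norm_num⟩
  have hη : Tst η := ⟨η.contDiff, η.hasCompactSupport⟩
  have hann : ∀ i j x, pd j (pd i η) x ≠ 0 → 5 / 4 ≤ ‖x‖ ∧ ‖x‖ ≤ 7 / 4 := by
    intro i j x hx
    by_contra hcon
    apply hx
    rcases not_and_or.1 hcon with h | h
    · have h1 : ∀ᶠ y in 𝓝 x, η y = 1 := by
        filter_upwards [isOpen_ball.mem_nhds (mem_ball_zero_iff.2 (not_le.1 h))] with y hy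
        exact η.one_of_mem_closedBall (ball_subset_closedBall hy)
      exact (pd_eq_zero_of_eventually (pd_eq_zero_of_eventually h1 i) j).self_of_nhds
    · have h1 : ∀ᶠ y in 𝓝 x, η y = 0 := by
        filter_upwards [(isOpen_lt continuous_const continuous_norm).mem_nhds (not_le.1 h)]
          with y hy
        refine η.zero_of_le_dist ?_
        rw [dist_zero_right]
        exact le_of_lt hy
      exact (pd_eq_zero_of_eventually (pd_eq_zero_of_eventually h1 i) j).self_of_nhds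
  have hnn : ∀ φ : E4 → ℝ, 0 ≤ ∫ y, φ y ^ 2 := fun φ => integral_nonneg fun y => sq_nonneg _
  have hN : 0 ≤ eN 2 η := by
    simp only [eN]
    exact add_nonneg (hnn _) (Finset.sum_nonneg fun i _ =>
      add_nonneg (hnn _) (Finset.sum_nonneg fun j _ => hnn _))
  refine ⟨2 * eN 2 η + 1, by linarith, fun m hm z => ?_⟩
  have hm0 : (0 : ℝ) < m := by exact_mod_cast hm
  refine ⟨dy (fun _ => 1 / m) η m z, tst_dy _ hη m z, fun y => ?_, fun y hy => ?_, ?_⟩
  · exact Finset.sum_nonneg fun k _ => mul_nonneg (by positivity) η.nonneg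
  · have h1 : ∀ k ∈ Finset.range m, (1 / m : ℝ) * η ((2 : ℝ) ^ k • (y - z)) = 1 / m := by
      intro k hk
      rw [η.one_of_mem_closedBall, mul_one]
      rw [mem_closedBall_zero_iff, norm_smul, Real.norm_of_nonneg (by positivity)]
      rw [mem_ball, dist_eq_norm] at hy
      have h2 : (2 : ℝ) ^ k ≤ 2 ^ m := pow_le_pow_right₀ (by norm_num) (Finset.mem_range.1 hk).le
      have h3 : (2 : ℝ) ^ m * (1 / 2) ^ m = 1 := by rw [← mul_pow]; norm_num
      have h4 : (2 : ℝ) ^ k * ‖y - z‖ ≤ 2 ^ m * (1 / 2) ^ m :=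
        mul_le_mul h2 hy.le (norm_nonneg _) (by positivity)
      show (2 : ℝ) ^ k * ‖y - z‖ ≤ 5 / 4
      linarith
    rw [dy, Finset.sum_congr rfl h1, Finset.sum_const, Finset.card_range, nsmul_eq_mul]
    field_simp
  · have h0 : ∫ y, dy (fun _ => 1 / m) η m z y ^ 2 ≤ 2 / m * ∫ y, η y ^ 2 := by
      refine (int_dy_le _ hη m z).trans ?_
      rw [← Finset.mul_sum, ← mul_assoc]
      refine mul_le_mul_of_nonneg_right ?_ (hnn _)
      have := geom_le (q := 1 / 16) (by norm_num) (by norm_num) m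
      calc (m : ℝ) * ((1 / m) ^ 2 * ∑ k ∈ Finset.range m, (1 / 16 : ℝ) ^ k)
          = 1 / m * ∑ k ∈ Finset.range m, (1 / 16 : ℝ) ^ k := by field_simp
        _ ≤ 1 / m * 2 := mul_le_mul_of_nonneg_left this (by positivity)
        _ = 2 / m := by ring
    have h1 : ∀ i, ∫ y, pd i (dy (fun _ => 1 / m) η m z) y ^ 2 ≤ 2 / m * ∫ y, pd i η y ^ 2 := by
      intro i
      rw [pd_dy _ hη]
      refine (int_dy_le _ (tst_pd hη i) m z).trans ?_
      rw [← mul_assoc]
      refine mul_le_mul_of_nonneg_right ?_ (hnn _)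
      have e1 : ∀ k ∈ Finset.range m,
          (1 / m * 2 ^ k : ℝ) ^ 2 * (1 / 16) ^ k = (1 / m) ^ 2 * (1 / 4) ^ k := fun k _ => by
        rw [mul_pow, mul_assoc, ← pow_mul, mul_comm k 2, pow_mul, ← mul_pow]
        norm_num
      rw [Finset.sum_congr rfl e1, ← Finset.mul_sum]
      have := geom_le (q := 1 / 4) (by norm_num) (by norm_num) m
      calc (m : ℝ) * ((1 / m) ^ 2 * ∑ k ∈ Finset.range m, (1 / 4 : ℝ) ^ k)
          = 1 / m * ∑ k ∈ Finset.range m, (1 / 4 : ℝ) ^ k := by field_simp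
        _ ≤ 1 / m * 2 := mul_le_mul_of_nonneg_left this (by positivity)
        _ = 2 / m := by ring
    have h2 : ∀ i j, ∫ y, pd j (pd i (dy (fun _ => 1 / m) η m z)) y ^ 2 ≤
        2 / m * ∫ y, pd j (pd i η) y ^ 2 := by
      intro i j
      rw [pd_dy _ hη, pd_dy _ (tst_pd hη i),
        int_dy_eq _ (tst_pd (tst_pd hη i) j) (hann i j) m z]
      refine mul_le_mul_of_nonneg_right ?_ (hnn _)
      have e1 : ∀ k ∈ Finset.range m,
          (1 / m * 2 ^ k * 2 ^ k : ℝ) ^ 2 * (1 / 16) ^ k = (1 / m) ^ 2 := fun k _ => by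
        rw [mul_assoc, ← mul_pow, mul_pow, mul_assoc, ← pow_mul, mul_comm k 2, pow_mul, ← mul_pow]
        norm_num
      rw [Finset.sum_congr rfl e1, Finset.sum_const, Finset.card_range, nsmul_eq_mul]
      calc (m : ℝ) * (1 / m) ^ 2 = 1 / m := by field_simp
        _ ≤ 2 / m := by gcongr; norm_num
    have h3 : eN 2 (dy (fun _ => 1 / m) η m z) ≤ 2 / m * eN 2 η := by
      simp only [eN]
      rw [mul_add, Finset.mul_sum]
      refine add_le_add h0 (Finset.sum_le_sum fun i _ => ?_)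
      rw [mul_add, Finset.mul_sum]
      exact add_le_add (h1 i) (Finset.sum_le_sum fun j _ => h2 i j)
    refine h3.trans ?_
    rw [le_div_iff₀ hm0]
    have : 2 / (m : ℝ) * eN 2 η * m = 2 * eN 2 η := by field_simp
    linarith

end Pool.Agent.MP_417fa2_gt
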