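import Pool.Agent.MP_417fa2_gt.Flow.Lim
import Pool.Agent.MP_417fa2_gt.An.DenseEa
import Pool.Agent.MP_417fa2_gt.An.Bridge
import Pool.Agent.MP_417fa2_gt.An.Cpt
import Pool.Agent.MP_417fa2_gt.Flow.Gal
import Pool.Agent.MP_417fa2_gt.An.DenseL
import Pool.Agent.MP_417fa2_gt.An.EucA
import Pool.Agent.MP_417fa2_gt.Flow.SpecFam
import Pool.Agent.MP_417fa2_gt.Flow.LevS
import Pool.Agent.MP_417fa2_gt.Flow.Lev0

-- ======== part 0: formerly Pool.Agent.MP_417fa2_gt.An.AgmE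
section MrgPart0

/-! Agmon's inequality in `ℝ⁴`. -/

open scoped Real
open MeasureTheory Set Filter Topology

namespace Pool.Agent.MP_417fa2_gt

namespace EucB

theorem rad3 {S : ℝ} (hS : 0 < S) :
    Integrable (fun ξ : E4 => 1 / (S + ‖ξ‖ ^ 4) ^ 2) ∧
      ∫ ξ : E4, 1 / (S + ‖ξ‖ ^ 4) ^ 2 = om / S := by
  have := radial (f := fun x => 1 / (S + x ^ 4) ^ 2)
    (g := fun x => -(1 / 4) / (S + x ^ 4))
    (g' := fun x => x ^ 3 / (S + x ^ 4) ^ 2) (l := 0) (fun x _ => ?_)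
    (fun x hx => by ring) (fun x hx => by have : 0 < x := hx; positivity)
    (tendsto_const_nhds.div_atTop
      (tendsto_atTop_add_const_left _ _ (tendsto_pow_atTop four_ne_zero)))
  · refine ⟨this.1, this.2.trans ?_⟩
    field_simp
    ring
  · have h5 : HasDerivAt (fun x : ℝ => S + x ^ 4) (4 * x ^ 3) x := by
      simpa using (hasDerivAt_pow 4 x).const_add S
    refine ((hasDerivAt_const x (-(1 / 4) : ℝ)).div h5 (by positivity)).congr_deriv ?_
    ring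

theorem wt_four (ξ : E4) : ‖ξ‖ ^ 8 ≤ wt 4 ξ := by
  have h1 : ‖ξ‖ ^ 2 ≤ 4 * π ^ 2 * ‖ξ‖ ^ 2 :=
    le_mul_of_one_le_left (sq_nonneg _) (by nlinarith [Real.pi_gt_three])
  have := mul_le_mul h1 (wt_facts ξ).2.2 (by positivity) (by positivity)
  rw [wt]
  nlinarith

theorem opt {x a b : ℝ} (x0 : 0 ≤ x) (a0 : 0 ≤ a) (b0 : 0 ≤ b)
    (h : ∀ S : ℝ, 0 < S → x ≤ S * a + b / S) : x ^ 2 ≤ 4 * a * b := by
  have key : ∀ s : ℝ, 0 ≤ a * (s * s) + (-x) * s + b := by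
    intro s
    rcases le_or_gt s 0 with hs | hs
    · nlinarith [mul_nonneg a0 (mul_self_nonneg s), mul_nonneg x0 (neg_nonneg.2 hs)]
    · have := mul_le_mul_of_nonneg_right (h s hs) hs.le
      rw [add_mul, div_mul_cancel₀ _ hs.ne'] at this
      linarith
  have := discrim_le_zero key
  unfold discrim at this
  nlinarith

end EucB

open EucB in
theorem agmE : AgmEStmt := by
  have o0 := om_nn
  refine ⟨16 * om ^ 2 + 1, by positivity, fun h t y => ?_⟩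
  have e0 := eN_nn 0 t
  have e4 := eN_nn 4 t
  have key := opt (x := h y ^ 2) (a := 2 * om * eN 0 h) (b := 2 * om * eN 4 h) (sq_nonneg _)
    (by positivity) (by positivity) fun S hS => by
      obtain ⟨i1, i2⟩ := rad3 hS
      obtain ⟨j0, k0⟩ := eN_eq 0 t
      obtain ⟨j4, k4⟩ := eN_eq 4 t
      have := cs (f := fun ξ => ‖F h ξ‖) i1 ((j0.const_mul (2 * S ^ 2)).add (j4.const_mul 2))
        (fun _ => norm_nonneg _) (fun _ => by positivity)
        (fun ξ => by have := wt_pos 0 ξ; have := wt_pos 4 ξ; simp only [Pi.add_apply]; positivity)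
        (fun ξ => by
          simp only [Pi.add_apply]
          rw [one_div, inv_mul_eq_div, le_div_iff₀ (by positivity), show wt 0 ξ = 1 from rfl]
          have h1 : (S + ‖ξ‖ ^ 4) ^ 2 ≤ 2 * S ^ 2 + 2 * wt 4 ξ := by
            nlinarith [wt_four ξ, sq_nonneg (S - ‖ξ‖ ^ 4)]
          nlinarith [mul_le_mul_of_nonneg_left h1 (sq_nonneg ‖F h ξ‖)])
      simp only [Pi.add_apply] at this
      rw [i2, integral_add (j0.const_mul _) (j4.const_mul _), integral_const_mul,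
        integral_const_mul, ← k0, ← k4] at this
      rw [← sq_abs]
      refine ((pow_le_pow_left₀ (abs_nonneg _) (abs_le_int t y) 2).trans this).trans (le_of_eq ?_)
      field_simp
  nlinarith [mul_nonneg e0 e4]

end Pool.Agent.MP_417fa2_gt

end MrgPart0

-- ======== part 1: formerly Pool.Agent.MP_417fa2_gt.An.Alg
section MrgPart1

/-! The module ALG: products and exponentials in the Sobolev norms. -/

open scoped Manifold ContDiff Topology
open MeasureTheory Set Filter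

namespace Pool.Agent.MP_417fa2_gt

universe u

section

variable {M : Type u} [TopologicalSpace M] [T2Space M] [CompactSpace M] [ChartedSpace E4 M]
  [IsManifold (𝓡 4) ∞ M] [MeasurableSpace M] [BorelSpace M] (S : Setup M) (F : Frame M)

theorem alg_succ (k : ℕ) {f g : M → ℝ} (hf : Smooth f) (hg : Smooth g) :
    F.N S.μ (k + 1) (fun x => f x * g x) ≤ F.N S.μ 0 (fun x => f x * g x) +
      (2 * ∑ j, F.N S.μ k (fun x => F.X j f x * g x) +
        2 * ∑ j, F.N S.μ k (fun x => f x * F.X j g x)) := by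
  rw [F.N_succ, Finset.mul_sum, Finset.mul_sum, ← Finset.sum_add_distrib]
  refine add_le_add_right (Finset.sum_le_sum fun j _ => ?_) _
  rw [F.X_mul j hf hg]
  exact F.N_add_le S k ((F.X_smooth j hf).mul hg) (hf.mul (F.X_smooth j hg))

omit [IsManifold (𝓡 4) ∞ M] in
theorem alg_zero {f g : M → ℝ} (hf : Smooth f) (hg : Smooth g) {s : ℝ} (hs : ∀ x, f x ^ 2 ≤ s) :
    F.N S.μ 0 (fun x => f x * g x) ≤ s * F.N S.μ 0 g := by
  rw [F.N_zero, F.N_zero, ← integral_const_mul]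
  refine integral_mono (S.integrable ((hf.mul hg).pow 2).continuous)
    (S.integrable ((hg.pow 2).const_mul s).continuous) fun x => ?_
  simp only [mul_pow]
  exact mul_le_mul_of_nonneg_right (hs x) (sq_nonneg _)

theorem alg_A (h4 : Lfour S F) (k : ℕ) : ∃ C : ℝ, 0 < C ∧ ∀ f g, Smooth f → Smooth g →
    F.N S.μ k (fun x => f x * g x) ≤ C * (F.N S.μ (k + 1) f * F.N S.μ (k + 1) g) := by
  obtain ⟨C0, hC0, h4⟩ := h4
  have base : ∀ f g, Smooth f → Smooth g →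
      F.N S.μ 0 (fun x => f x * g x) ≤ C0 * (F.N S.μ 1 f * F.N S.μ 1 g) := by
    intro f g hf hg
    have key : ∀ f, Smooth f → √(F.N S.μ 0 fun x => f x ^ 2) ≤ √C0 * F.N S.μ 1 f := by
      intro f hf
      have := h4 f hf
      rw [← Real.sqrt_sq (F.N_nonneg S.μ 1 f), ← Real.sqrt_mul hC0.le]
      refine Real.sqrt_le_sqrt ?_
      simpa only [F.N_zero, ← pow_mul] using this
    have h1 := F.abs_integral_mul_le S (hf.pow 2) (hg.pow 2)
    have h2 := mul_le_mul (key f hf) (key g hg) (Real.sqrt_nonneg _)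
      (mul_nonneg (Real.sqrt_nonneg _) (F.N_nonneg S.μ 1 f))
    have h3 : √C0 * F.N S.μ 1 f * (√C0 * F.N S.μ 1 g) = C0 * (F.N S.μ 1 f * F.N S.μ 1 g) := by
      rw [mul_mul_mul_comm, Real.mul_self_sqrt hC0.le]
    rw [F.N_zero]
    simp only [mul_pow]
    exact (le_abs_self _).trans (h1.trans (h2.trans h3.le))
  induction k with
  | zero => exact ⟨C0, hC0, base⟩
  | succ k ih =>
    obtain ⟨C, hC, ih⟩ := ih
    refine ⟨C0 + 4 * C, by positivity, fun f g hf hg => (alg_succ S F k hf hg).trans ?_⟩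
    have nf := F.N_nonneg S.μ (k + 1 + 1) f
    have ng := F.N_nonneg S.μ (k + 1 + 1) g
    have a0 : F.N S.μ 0 (fun x => f x * g x)
        ≤ C0 * (F.N S.μ (k + 1 + 1) f * F.N S.μ (k + 1 + 1) g) :=
      (base f g hf hg).trans (mul_le_mul_of_nonneg_left (mul_le_mul (F.N_mono _ (by omega) f)
        (F.N_mono _ (by omega) g) (F.N_nonneg _ _ _) nf) hC0.le)
    have a1 : ∑ j, F.N S.μ k (fun x => F.X j f x * g x)
        ≤ C * (F.N S.μ (k + 1 + 1) f * F.N S.μ (k + 1 + 1) g) := by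
      refine (Finset.sum_le_sum fun j _ => ih _ _ (F.X_smooth j hf) hg).trans ?_
      rw [← Finset.mul_sum, ← Finset.sum_mul]
      exact mul_le_mul_of_nonneg_left (mul_le_mul (F.sum_N_X_le _ _ f) (F.N_le_succ _ _ g)
        (F.N_nonneg _ _ _) nf) hC.le
    have a2 : ∑ j, F.N S.μ k (fun x => f x * F.X j g x)
        ≤ C * (F.N S.μ (k + 1 + 1) f * F.N S.μ (k + 1 + 1) g) := by
      refine (Finset.sum_le_sum fun j _ => ih _ _ hf (F.X_smooth j hg)).trans ?_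
      rw [← Finset.mul_sum, ← Finset.mul_sum]
      exact mul_le_mul_of_nonneg_left (mul_le_mul (F.N_le_succ _ _ f) (F.sum_N_X_le _ _ g)
        (Finset.sum_nonneg fun _ _ => F.N_nonneg _ _ _) nf) hC.le
    linarith

theorem alg_B (h4 : Lfour S F) (k : ℕ) : ∃ C : ℝ, 0 < C ∧ ∀ f g, Smooth f → Smooth g →
    ∀ s : ℝ, 0 ≤ s → (∀ x, f x ^ 2 ≤ s) →
    F.N S.μ k (fun x => f x * g x) ≤ C * ((s + F.N S.μ (k + 1) f) * F.N S.μ k g) := by
  induction k with
  | zero =>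
    refine ⟨1, one_pos, fun f g hf hg s _ hs => (alg_zero S F hf hg hs).trans ?_⟩
    have := mul_nonneg (F.N_nonneg S.μ (0 + 1) f) (F.N_nonneg S.μ 0 g)
    linarith
  | succ k ih =>
    obtain ⟨C, hC, ih⟩ := ih
    obtain ⟨CA, hCA, hA⟩ := alg_A S F h4 k
    refine ⟨1 + 2 * CA + 2 * C, by positivity, fun f g hf hg s hs0 hs =>
      (alg_succ S F k hf hg).trans ?_⟩
    have nf := F.N_nonneg S.μ (k + 1 + 1) f
    have ng := F.N_nonneg S.μ (k + 1) g
    have a0 : F.N S.μ 0 (fun x => f x * g x)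
        ≤ (s + F.N S.μ (k + 1 + 1) f) * F.N S.μ (k + 1) g :=
      (alg_zero S F hf hg hs).trans (mul_le_mul (by linarith) (F.N_mono _ (by omega) g)
        (F.N_nonneg _ _ _) (by linarith))
    have a1 : ∑ j, F.N S.μ k (fun x => F.X j f x * g x)
        ≤ CA * ((s + F.N S.μ (k + 1 + 1) f) * F.N S.μ (k + 1) g) := by
      refine (Finset.sum_le_sum fun j _ => hA _ _ (F.X_smooth j hf) hg).trans ?_
      rw [← Finset.mul_sum, ← Finset.sum_mul]
      exact mul_le_mul_of_nonneg_left (mul_le_mul_of_nonneg_right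
        ((F.sum_N_X_le _ _ f).trans (by linarith)) ng) hCA.le
    have a2 : ∑ j, F.N S.μ k (fun x => f x * F.X j g x)
        ≤ C * ((s + F.N S.μ (k + 1 + 1) f) * F.N S.μ (k + 1) g) := by
      refine (Finset.sum_le_sum fun j _ => ih _ _ hf (F.X_smooth j hg) s hs0 hs).trans ?_
      rw [← Finset.mul_sum, ← Finset.mul_sum]
      exact mul_le_mul_of_nonneg_left (mul_le_mul (add_le_add_right (F.N_le_succ _ _ f) s)
        (F.sum_N_X_le _ _ g) (Finset.sum_nonneg fun _ _ => F.N_nonneg _ _ _) (by linarith)) hC.le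
    linarith

omit [T2Space M] [CompactSpace M] [IsManifold (𝓡 4) ∞ M] [BorelSpace M] in
theorem alg_sup (hA : Agm S F) : ∃ C : ℝ, 0 < C ∧ ∀ k, 4 ≤ k → ∀ f, Smooth f → ∀ x,
    f x ^ 2 ≤ C * F.N S.μ k f := by
  obtain ⟨C, hC, hA⟩ := hA
  refine ⟨√C, Real.sqrt_pos.2 hC, fun k hk f hf x => ?_⟩
  have nk := F.N_nonneg S.μ k f
  refine abs_le_of_sq_le_sq' ?_ (by positivity) |>.2
  rw [mul_pow, Real.sq_sqrt hC.le, ← pow_mul]
  refine (hA f hf x).trans ?_
  rw [mul_assoc, sq]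
  exact mul_le_mul_of_nonneg_left (mul_le_mul (F.N_mono _ (by omega) f) (F.N_mono _ hk f)
    (F.N_nonneg _ _ _) nk) hC.le

theorem alg_alg (h4 : Lfour S F) (hA : Agm S F) (k : ℕ) (hk : 4 ≤ k) :
    ∃ C : ℝ, 0 < C ∧ ∀ f g, Smooth f → Smooth g →
      F.N S.μ k (fun x => f x * g x) ≤ C * F.N S.μ k f * F.N S.μ k g := by
  obtain ⟨k, rfl⟩ : ∃ l, k = l + 1 := ⟨k - 1, by omega⟩
  obtain ⟨Cs, hCs, hs⟩ := alg_sup S F hA
  obtain ⟨C, hC, hB⟩ := alg_B S F h4 k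
  refine ⟨Cs + 4 * (C * (Cs + 1)), by positivity, fun f g hf hg =>
    (alg_succ S F k hf hg).trans ?_⟩
  have nf := F.N_nonneg S.μ (k + 1) f
  have ng := F.N_nonneg S.μ (k + 1) g
  have key : ∀ f g, Smooth f → Smooth g → ∑ j, F.N S.μ k (fun x => f x * F.X j g x)
      ≤ C * (Cs + 1) * (F.N S.μ (k + 1) f * F.N S.μ (k + 1) g) := by
    intro f g hf hg
    have nf := F.N_nonneg S.μ (k + 1) f
    refine (Finset.sum_le_sum fun j _ => hB _ _ hf (F.X_smooth j hg) _ (by positivity)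
      (hs _ hk f hf)).trans ?_
    rw [← Finset.mul_sum, ← Finset.mul_sum]
    have := mul_le_mul_of_nonneg_left (mul_le_mul_of_nonneg_left (F.sum_N_X_le S.μ k g)
      (by positivity : 0 ≤ Cs * F.N S.μ (k + 1) f + F.N S.μ (k + 1) f)) hC.le
    linarith
  have a0 : F.N S.μ 0 (fun x => f x * g x) ≤ Cs * F.N S.μ (k + 1) f * F.N S.μ (k + 1) g :=
    (alg_zero S F hf hg (hs _ hk f hf)).trans
      (mul_le_mul_of_nonneg_left (F.N_mono _ (by omega) g) (by positivity))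
  have a1 := key g f hg hf
  have a2 := key f g hf hg
  simp only [mul_comm (g _)] at a1
  linarith

theorem alg_exp_small (h4 : Lfour S F) (hA : Agm S F) (k : ℕ) (hk : 4 ≤ k) :
    ∃ δ K : ℝ, 0 < δ ∧ ∀ f, Smooth f → F.N S.μ k f ≤ δ →
      F.N S.μ k (fun x => Real.exp (f x)) ≤ K := by
  obtain ⟨k, rfl⟩ : ∃ l, k = l + 1 := ⟨k - 1, by omega⟩
  obtain ⟨Cs, hCs, hs⟩ := alg_sup S F hA
  obtain ⟨C, hC, hB⟩ := alg_B S F h4 k
  refine ⟨min (1 / Cs) (1 / (2 * C)), 2 * (Real.exp 1 ^ 2 * F.N S.μ 0 fun _ => 1) + Real.exp 1 ^ 2,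
    by positivity, fun f hf hfδ => ?_⟩
  have nf := F.N_nonneg S.μ (k + 1) f
  have ne := F.N_nonneg S.μ (k + 1) fun x => Real.exp (f x)
  have b1 : Cs * F.N S.μ (k + 1) f ≤ 1 := by
    have := hfδ.trans (min_le_left _ _)
    rwa [le_div_iff₀ hCs, mul_comm] at this
  have b2 : C * F.N S.μ (k + 1) f ≤ 1 / 2 := by
    have := hfδ.trans (min_le_right _ _)
    rw [le_div_iff₀ (by positivity)] at this
    linarith
  have b3 : ∀ x, Real.exp (f x) ^ 2 ≤ Real.exp 1 ^ 2 := fun x =>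
    pow_le_pow_left₀ (Real.exp_pos _).le (Real.exp_le_exp.2
      (abs_le_of_sq_le_sq' (((hs _ hk f hf x).trans b1).trans_eq (one_pow 2).symm) zero_le_one).2) 2
  have a0 := alg_zero S F hf.exp (smooth_const 1) b3
  simp only [mul_one] at a0
  have a1 : ∑ j, F.N S.μ k (F.X j fun x => Real.exp (f x))
      ≤ (Real.exp 1 ^ 2 + F.N S.μ (k + 1) fun x => Real.exp (f x)) * (1 / 2) := by
    simp only [F.X_exp _ hf]
    refine (Finset.sum_le_sum fun j _ => hB _ _ hf.exp (F.X_smooth j hf) _ (by positivity)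
      b3).trans ?_
    rw [← Finset.mul_sum, ← Finset.mul_sum, mul_left_comm]
    exact mul_le_mul_of_nonneg_left ((mul_le_mul_of_nonneg_left (F.sum_N_X_le S.μ k f)
      hC.le).trans b2) (by positivity)
  have a2 := F.N_succ S.μ k fun x => Real.exp (f x)
  linarith

theorem alg_exp (h4 : Lfour S F) (hA : Agm S F) (k : ℕ) (hk : 4 ≤ k) (R : ℝ) :
    ∃ C : ℝ, ∀ f, Smooth f → F.N S.μ k f ≤ R → F.N S.μ k (fun x => Real.exp (f x)) ≤ C := by
  obtain ⟨δ, K, hδ, hK⟩ := alg_exp_small S F h4 hA k hk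
  obtain ⟨C, hC, hm⟩ := alg_alg S F h4 hA k hk
  have pw : ∀ m : ℕ, ∃ B : ℝ, ∀ g, Smooth g → F.N S.μ k g ≤ K →
      F.N S.μ k (fun x => g x ^ m) ≤ B := by
    intro m
    induction m with
    | zero => exact ⟨F.N S.μ k fun _ => 1, fun g _ _ => by simp only [pow_zero, le_refl]⟩
    | succ m ih =>
      obtain ⟨B, hB⟩ := ih
      refine ⟨C * B * K, fun g hg hgK => ?_⟩
      simp only [pow_succ]
      refine (hm _ _ (hg.pow m) hg).trans ?_
      have h1 := hB g hg hgK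
      exact mul_le_mul (mul_le_mul_of_nonneg_left h1 hC.le) hgK (F.N_nonneg _ _ _)
        (mul_nonneg hC.le ((F.N_nonneg _ _ _).trans h1))
  obtain ⟨n, hn⟩ := exists_nat_ge (R / δ)
  obtain ⟨B, hB⟩ := pw (n + 1)
  refine ⟨B, fun f hf hR => ?_⟩
  have hn0 : (0 : ℝ) < (n : ℝ) + 1 := by positivity
  have h1 : F.N S.μ k (fun x => ((n : ℝ) + 1)⁻¹ * f x) ≤ δ := by
    rw [F.N_smul _ k hf, inv_pow, inv_mul_le_iff₀ (by positivity)]
    rw [div_le_iff₀ hδ] at hn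
    have : (n : ℝ) * δ ≤ ((n : ℝ) + 1) ^ 2 * δ :=
      mul_le_mul_of_nonneg_right (by nlinarith) hδ.le
    linarith
  have h2 := hB _ (hf.const_mul _).exp (hK _ (hf.const_mul _) h1)
  have e : (fun x => Real.exp (((n : ℝ) + 1)⁻¹ * f x) ^ (n + 1)) = fun x => Real.exp (f x) := by
    funext x
    rw [← Real.exp_nat_mul]
    congr 1
    push_cast
    field_simp
  rwa [e] at h2

end

theorem alg : AlgStmt.{u} := fun _ _ _ _ _ _ _ _ S F h4 hA =>
  ⟨alg_alg S F h4 hA, alg_exp S F h4 hA⟩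

end Pool.Agent.MP_417fa2_gt

end MrgPart1

-- ======== part 2: formerly Pool.Agent.MP_417fa2_gt.An.JointT
section MrgPart2

/-! Joint smoothness from Taylor bounds in time in every `H^k`. -/

open scoped Manifold ContDiff Topology
open MeasureTheory Set Filter Asymptotics

namespace Pool.Agent.MP_417fa2_gt

universe u

/-- Differentiability of a function of `(t, y)` from a uniform Taylor bound in `t`. -/
theorem jointT_hasFDerivWithinAt {G G₁ : ℝ → E4 → ℝ} {V : Set E4} {t : ℝ} {y : E4}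
    {D : E4 →L[ℝ] ℝ} (hD : HasFDerivAt (G t) D y) (h₁ : ContinuousAt (G₁ t) y) {K : ℝ}
    (hK : ∀ t' ∈ Icc 0 (t + 1), ∀ z, |G t' z - G t z - (t' - t) * G₁ t z| ≤ K * (t' - t) ^ 2) :
    HasFDerivWithinAt (fun p : ℝ × E4 => G p.1 p.2)
      (G₁ t y • ContinuousLinearMap.fst ℝ ℝ E4 + D.comp (ContinuousLinearMap.snd ℝ ℝ E4))
      (Ici 0 ×ˢ V) (t, y) := by
  have hb : (fun p : ℝ × E4 => p.1 - t) =O[𝓝[Ici 0 ×ˢ V] (t, y)] fun p => p - (t, y) :=
    IsBigO.of_bound 1 (Eventually.of_forall fun p => by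
      simpa using norm_fst_le (p - (t, y)))
  have hf : Tendsto (fun p : ℝ × E4 => p.1 - t) (𝓝[Ici 0 ×ˢ V] (t, y)) (𝓝 0) := by
    have : ContinuousAt (fun p : ℝ × E4 => p.1 - t) (t, y) := by fun_prop
    simpa using this.tendsto.mono_left nhdsWithin_le_nhds
  have hA : HasFDerivWithinAt (fun p : ℝ × E4 => G t p.2)
      (D.comp (ContinuousLinearMap.snd ℝ ℝ E4)) (Ici 0 ×ˢ V) (t, y) :=
    (HasFDerivAt.comp (t, y) (g := G t) hD hasFDerivAt_snd).hasFDerivWithinAt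
  have hB : (fun p : ℝ × E4 => G p.1 p.2 - G t p.2 - (p.1 - t) * G₁ t p.2)
      =o[𝓝[Ici 0 ×ˢ V] (t, y)] fun p => p - (t, y) := by
    have h1 : (fun p : ℝ × E4 => G p.1 p.2 - G t p.2 - (p.1 - t) * G₁ t p.2)
        =O[𝓝[Ici 0 ×ˢ V] (t, y)] fun p => (p.1 - t) * (p.1 - t) := by
      refine IsBigO.of_bound K ?_
      have h2 : ∀ᶠ p : ℝ × E4 in 𝓝[Ici 0 ×ˢ V] (t, y), p.1 - t < 1 :=
        hf.eventually (gt_mem_nhds one_pos)
      filter_upwards [h2, self_mem_nhdsWithin] with p hp hp'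
      have := hK p.1 ⟨hp'.1, by linarith⟩ p.2
      rwa [Real.norm_eq_abs, Real.norm_eq_abs, abs_mul_self, ← sq]
    have h3 := ((isLittleO_one_iff ℝ).2 hf).mul_isBigO (isBigO_refl (fun p : ℝ × E4 => p.1 - t) _)
    simp only [one_mul] at h3
    exact (h1.trans_isLittleO h3).trans_isBigO hb
  have hC : (fun p : ℝ × E4 => (G₁ t p.2 - G₁ t y) * (p.1 - t))
      =o[𝓝[Ici 0 ×ˢ V] (t, y)] fun p => p - (t, y) := by
    have h1 : Tendsto (fun p : ℝ × E4 => G₁ t p.2 - G₁ t y) (𝓝[Ici 0 ×ˢ V] (t, y)) (𝓝 0) := by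
      have h2 : ContinuousAt (fun p : ℝ × E4 => G₁ t p.2 - G₁ t y) (t, y) :=
        (ContinuousAt.comp (g := G₁ t) (f := Prod.snd) (x := (t, y)) h₁ continuousAt_snd).sub
          continuousAt_const
      simpa using h2.tendsto.mono_left nhdsWithin_le_nhds
    have h3 := ((isLittleO_one_iff ℝ).2 h1).mul_isBigO (isBigO_refl (fun p : ℝ × E4 => p.1 - t) _)
    simp only [one_mul] at h3
    exact h3.trans_isBigO hb
  refine HasFDerivWithinAt.of_isLittleO (((hA.isLittleO.add hB).add hC).congr_left fun p => ?_)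
  simp
  ring

variable {M : Type u} [TopologicalSpace M] [ChartedSpace E4 M] [IsManifold (𝓡 4) ∞ M]
  [MeasurableSpace M]

/-- Families with Taylor bounds in time in every `H^k`. -/
structure JointTay (S : Setup M) (F : Frame M) (W : ℕ → ℝ → M → ℝ) : Prop where
  sm : ∀ j t, 0 ≤ t → Smooth (W j t)
  bd : ∀ j k, ∀ T : ℝ, ∃ C : ℝ, ∀ t ∈ Icc 0 T, ∀ t' ∈ Icc 0 T,
    F.N S.μ k (fun x => W j t' x - W j t x - (t' - t) * W (j + 1) t x) ≤ C * (t' - t) ^ 4

variable {S : Setup M} {F : Frame M} {W : ℕ → ℝ → M → ℝ}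

omit [IsManifold (𝓡 4) ∞ M] in
theorem JointTay.shift (h : JointTay S F W) : JointTay S F fun j => W (j + 1) :=
  ⟨fun j => h.sm (j + 1), fun j => h.bd (j + 1)⟩

theorem JointTay.X (h : JointTay S F W) (l : Fin F.n × Fin 4) :
    JointTay S F fun j t => F.X l (W j t) := by
  refine ⟨fun j t ht => F.X_smooth l (h.sm j t ht), fun j k T => ?_⟩
  refine (h.bd j (k + 1) T).imp fun C hC t ht t' ht' => le_trans ?_ (hC t ht t' ht')
  refine le_trans (le_of_eq ?_) (F.N_X_le S.μ k _ l)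
  rw [F.X_sub l ((h.sm j t' ht'.1).sub (h.sm j t ht.1)) ((h.sm _ t ht.1).const_mul _),
    F.X_sub l (h.sm j t' ht'.1) (h.sm j t ht.1), F.X_const_mul l (h.sm _ t ht.1)]

omit [IsManifold (𝓡 4) ∞ M] in
theorem JointTay.point (hA : Agm S F) (h : JointTay S F W) {t : ℝ} (ht : 0 ≤ t) :
    ∃ K : ℝ, ∀ t' ∈ Icc 0 (t + 1), ∀ x,
      |W 0 t' x - W 0 t x - (t' - t) * W 1 t x| ≤ K * (t' - t) ^ 2 := by
  obtain ⟨C, hC, hb⟩ := hA.sup_le
  obtain ⟨K, hK⟩ := h.bd 0 4 (t + 1)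
  refine ⟨C * (|K| + 1), fun t' ht' x => ?_⟩
  rw [mul_assoc]
  refine hb _ (((h.sm 0 t' ht'.1).sub (h.sm 0 t ht)).sub ((h.sm 1 t ht).const_mul _)) _
    (by positivity) ((hK t ⟨ht, by linarith⟩ t' ht').trans ?_) x
  have h1 : K ≤ (|K| + 1) ^ 2 := by nlinarith [le_abs_self K, abs_nonneg K]
  calc K * (t' - t) ^ 4 ≤ (|K| + 1) ^ 2 * (t' - t) ^ 4 :=
        mul_le_mul_of_nonneg_right h1 (by positivity)
    _ = ((|K| + 1) * (t' - t) ^ 2) ^ 2 := by ring

theorem JointTay.hasFDerivWithinAt (hA : Agm S F) (h : JointTay S F W) {a : Fin F.n}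
    {p : ℝ × E4} (hp : p ∈ Ici (0 : ℝ) ×ˢ F.V a) :
    HasFDerivWithinAt (fun p : ℝ × E4 => W 0 p.1 (param (F.c a) p.2))
      (W 1 p.1 (param (F.c a) p.2) • ContinuousLinearMap.fst ℝ ℝ E4 +
        (cptD fun i => F.X (a, i) (W 0 p.1) (param (F.c a) p.2) /
          F.χ a (param (F.c a) p.2)).comp (ContinuousLinearMap.snd ℝ ℝ E4))
      (Ici 0 ×ˢ F.V a) p := by
  obtain ⟨K, hK⟩ := h.point hA hp.1
  exact jointT_hasFDerivWithinAt (G := fun t y => W 0 t (param (F.c a) y))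
    (G₁ := fun t y => W 1 t (param (F.c a) y)) (F.hasFDerivAt hp.2 (h.sm 0 _ hp.1))
    ((h.sm 1 _ hp.1).dAt hp.2.1).continuousAt fun t' ht' z => hK t' ht' _

theorem jointT_contDiffOn (hA : Agm S F) (a : Fin F.n) (m : ℕ) : ∀ W, JointTay S F W →
    ContDiffOn ℝ m (fun p : ℝ × E4 => W 0 p.1 (param (F.c a) p.2)) (Ici 0 ×ˢ F.V a) := by
  induction m with
  | zero =>
    intro W h
    exact contDiffOn_zero.2 fun p hp => (h.hasFDerivWithinAt hA hp).continuousWithinAt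
  | succ m ih =>
    intro W h
    rw [Nat.cast_succ, contDiffOn_succ_iff_hasFDerivWithinAt_of_uniqueDiffOn
      ((uniqueDiffOn_Ici 0).prod (F.isOpen_V a).uniqueDiffOn)]
    refine ⟨by simp, _, ?_, fun p hp => h.hasFDerivWithinAt hA hp⟩
    refine ((ih _ h.shift).smul contDiffOn_const).add
      (ContDiffOn.clm_comp (contDiffOn_cptD fun i => ?_) contDiffOn_const)
    simp only [div_eq_mul_inv]
    exact (ih _ (h.X (a, i))).mul (((F.cdOn_inv a).of_le (by exact_mod_cast le_top)).comp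
      contDiffOn_snd fun p hp => hp.2)

theorem JointTay.smoothOn (hA : Agm S F) (h : JointTay S F W) : SmoothOn (Ici 0) (W 0) := by
  intro x₀
  refine contDiffOn_of_locally_contDiffOn fun p hp => ?_
  obtain ⟨a, ha⟩ := F.exists_ne (param x₀ p.2)
  have hO : IsOpen ((chartAt E4 x₀).target ∩ param x₀ ⁻¹' {x | F.χ a x ≠ 0}) :=
    (continuousOn_param _).isOpen_inter_preimage (isOpen_tgt _)
      (isOpen_ne_fun (F.sm a).continuous continuous_const)
  refine ⟨univ ×ˢ _, isOpen_univ.prod hO, ⟨trivial, hp.2, ha⟩, ?_⟩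
  have h1 := contDiffOn_infty.2 fun m => jointT_contDiffOn hA a m W h
  have h2 : ContDiffOn ℝ ∞ (fun q : ℝ × E4 => (q.1, chartAt E4 (F.c a) (param x₀ q.2)))
      (Ici 0 ×ˢ (chartAt E4 x₀).target ∩
        univ ×ˢ ((chartAt E4 x₀).target ∩ param x₀ ⁻¹' {x | F.χ a x ≠ 0})) :=
    contDiffOn_fst.prodMk ((cdOn_transition x₀ (F.c a)).comp contDiffOn_snd
      fun q hq => ⟨hq.1.2, F.mem_src hq.2.2.2⟩)
  refine (h1.comp h2 fun q hq => ⟨hq.1.1, F.mem_V hq.2.2.2⟩).congr fun q hq => ?_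
  simp only [Function.comp, param_chart (F.mem_src hq.2.2.2)]

theorem joint : JointStmt.{u} := by
  intro M _ _ _ _ _ _ _ S F hA W hW hb
  exact JointTay.smoothOn hA ⟨hW, hb⟩

end Pool.Agent.MP_417fa2_gt

end MrgPart2

-- ======== part 3: formerly Pool.Agent.MP_417fa2_gt.Flow.Boot
section MrgPart3

/-!
Initial bounds and the spatial bootstrap for the Galerkin system.
-/

open Set Filter
open scoped Topology

namespace Pool.Agent.MP_417fa2_gt.Flow

universe u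

namespace BootM

variable {M : Type u} [TopologicalSpace M] [CompactSpace M]

section Lp

variable {I : C(M, ℝ) →L[ℝ] ℝ}

omit [CompactSpace M] in
lemma I_mono (hI : ∀ f : C(M, ℝ), (∀ x, 0 ≤ f x) → 0 ≤ I f) {f g : C(M, ℝ)}
    (h : ∀ x, f x ≤ g x) : I f ≤ I g := by
  have := hI (g - f) fun x => by simpa using h x
  rw [map_sub] at this
  linarith

/-- Families with uniformly bounded even moments. -/
def LB (hI : ∀ f : C(M, ℝ), (∀ x, 0 ≤ f x) → 0 ≤ I f)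
    (S : ∀ G : Gal I, (Fin G.n → ℝ) → Prop) : Subalgebra ℝ (Fam I) where
  carrier := {F | ∀ k : ℕ, ∃ C : ℝ, ∀ G c, S G c → I (F G c ^ (2 * k)) ≤ C}
  mul_mem' := by
    intro F H hF hH k
    obtain ⟨C1, h1⟩ := hF (2 * k)
    obtain ⟨C2, h2⟩ := hH (2 * k)
    refine ⟨C1 + C2, fun G c hc => ?_⟩
    have h3 : I ((F * H) G c ^ (2 * k)) ≤ I (F G c ^ (2 * (2 * k)) + H G c ^ (2 * (2 * k))) := by
      refine I_mono hI fun x => ?_
      simp only [Pi.mul_apply, ContinuousMap.pow_apply, ContinuousMap.mul_apply,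
        ContinuousMap.add_apply]
      rw [mul_pow, mul_comm 2 (2 * k), pow_mul, pow_mul (H G c x) (2 * k) 2,
        pow_mul (F G c x) (2 * k) 2, ← pow_mul]
      nlinarith [sq_nonneg (F G c x ^ (2 * k) - H G c x ^ (2 * k)),
        sq_nonneg (F G c x ^ (2 * k)), sq_nonneg (H G c x ^ (2 * k))]
    rw [map_add] at h3
    linarith [h1 G c hc, h2 G c hc]
  add_mem' := by
    intro F H hF hH k
    obtain ⟨C1, h1⟩ := hF k
    obtain ⟨C2, h2⟩ := hH k
    refine ⟨2 ^ (2 * k - 1) * (C1 + C2), fun G c hc => ?_⟩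
    have h3 : I ((F + H) G c ^ (2 * k)) ≤
        I (((2 : ℝ) ^ (2 * k - 1)) • (F G c ^ (2 * k) + H G c ^ (2 * k))) := by
      refine I_mono hI fun x => ?_
      simp only [Pi.add_apply, ContinuousMap.pow_apply, ContinuousMap.smul_apply,
        ContinuousMap.add_apply, smul_eq_mul]
      exact (even_two_mul k).add_pow_le
    rw [map_smul, map_add, smul_eq_mul] at h3
    exact h3.trans (mul_le_mul_of_nonneg_left (add_le_add (h1 G c hc) (h2 G c hc)) (by positivity))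
  algebraMap_mem' := by
    intro r k
    exact ⟨I (algebraMap ℝ C(M, ℝ) r ^ (2 * k)), fun G c _ => le_of_eq rfl⟩

omit [CompactSpace M] in
lemma mem_LB {hI : ∀ f : C(M, ℝ), (∀ x, 0 ≤ f x) → 0 ≤ I f}
    {S : ∀ G : Gal I, (Fin G.n → ℝ) → Prop} {F : Fam I} :
    F ∈ LB hI S ↔ ∀ k : ℕ, ∃ C : ℝ, ∀ G c, S G c → I (F G c ^ (2 * k)) ≤ C := Iff.rfl

omit [CompactSpace M] in
lemma z_nonneg (G : Gal I) (c : Fin G.n → ℝ) : 0 ≤ G.z c :=
  Finset.sum_nonneg fun i _ => by have := G.lam_nonneg i; positivity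

/-- Exponential moments from the moment bound. -/
lemma exp_mom (hI : ∀ f : C(M, ℝ), (∀ x, 0 ≤ f x) → 0 ≤ I f) {G : Gal I} {K R : ℝ} (hK : 0 < K)
    (hm : G.Mom K) {c : Fin G.n → ℝ} (hc : G.z c ≤ R) (s : ℝ) :
    I (ex (s • G.emb c)) ≤ 2 * (I 1 + Real.exp (s ^ 2 * K * R)) := by
  set g : C(M, ℝ) := s • G.emb c with hg
  have hz := z_nonneg G c
  have hR : 0 ≤ R := hz.trans hc
  let F : ℕ → C(M, ℝ) := fun n => (((2 * n).factorial : ℝ)⁻¹) • g ^ (2 * n)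
  have hsum : Summable F := by
    refine Summable.of_norm_bounded (Real.hasSum_cosh ‖g‖).summable fun n => ?_
    rw [norm_smul, norm_inv, Real.norm_natCast, div_eq_inv_mul]
    refine mul_le_mul_of_nonneg_left ?_ (by positivity)
    refine (ContinuousMap.norm_le _ (by positivity)).2 fun x => ?_
    rw [ContinuousMap.pow_apply, norm_pow]
    exact pow_le_pow_left₀ (norm_nonneg _) (g.norm_coe_le_norm x) _
  have hx : ∀ x, (∑' n, F n) x = Real.cosh (g x) := fun x => by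
    have h1 := hsum.hasSum.mapL (ContinuousMap.evalCLM ℝ x)
    have h2 := Real.hasSum_cosh (g x)
    refine h1.unique ?_
    convert h2 using 2 with n
    simp [F, div_eq_inv_mul]
  have h1 : I (ex g) ≤ I ((2 : ℝ) • ∑' n, F n) := by
    refine I_mono hI fun x => ?_
    rw [ContinuousMap.smul_apply, hx, smul_eq_mul, Real.cosh_eq]
    have := Real.exp_pos (-g x)
    change Real.exp (g x) ≤ _
    linarith
  rw [map_smul, smul_eq_mul] at h1
  refine h1.trans (mul_le_mul_of_nonneg_left ?_ (by norm_num))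
  have h2 := hsum.hasSum.mapL I
  have h3 : HasSum (fun n : ℕ => (if n = 0 then I 1 else 0) + (s ^ 2 * K * R) ^ n / n.factorial)
      (I 1 + Real.exp (s ^ 2 * K * R)) := by
    refine (hasSum_ite_eq 0 (I 1)).add ?_
    rw [Real.exp_eq_exp_ℝ]
    exact NormedSpace.expSeries_div_hasSum_exp _
  refine hasSum_le (fun n => ?_) h2 h3
  rcases Nat.eq_zero_or_pos n with rfl | hn
  · simp [F]
  · rw [if_neg hn.ne', zero_add]
    have e : F n = ((((2 * n).factorial : ℝ)⁻¹) * s ^ (2 * n)) • G.emb c ^ (2 * n) := by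
      simp only [F, hg, smul_pow, smul_smul]
    rw [e, map_smul, smul_eq_mul]
    have h4 := hm n hn c
    have h5 : (K * n) ^ n * G.z c ^ n ≤ (K * n) ^ n * R ^ n :=
      mul_le_mul_of_nonneg_left (pow_le_pow_left₀ hz hc n) (by positivity)
    have h6 : (n.factorial : ℝ) * (n : ℝ) ^ n ≤ ((2 * n).factorial : ℝ) := by
      have h7 := @Nat.factorial_mul_pow_le_factorial n n
      have h8 : n.factorial * n ^ n ≤ n.factorial * (n + 1) ^ n :=
        Nat.mul_le_mul_left _ (Nat.pow_le_pow_left (Nat.le_succ n) n)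
      rw [two_mul]
      exact_mod_cast h8.trans h7
    have h9 : 0 ≤ s ^ (2 * n) := (even_two_mul n).pow_nonneg s
    have hf : (0 : ℝ) < (2 * n).factorial := by positivity
    have hf' : (0 : ℝ) < n.factorial := by positivity
    calc ((2 * n).factorial : ℝ)⁻¹ * s ^ (2 * n) * I (G.emb c ^ (2 * n))
        ≤ ((2 * n).factorial : ℝ)⁻¹ * s ^ (2 * n) * ((K * n) ^ n * R ^ n) :=
          mul_le_mul_of_nonneg_left (h4.trans h5) (by positivity)
      _ = (s ^ 2 * K * R) ^ n * ((n : ℝ) ^ n / (2 * n).factorial) := by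
          rw [pow_mul, mul_pow, mul_pow, mul_pow]; field_simp
      _ ≤ (s ^ 2 * K * R) ^ n * (1 / n.factorial) := by
          refine mul_le_mul_of_nonneg_left ?_ (by positivity)
          rw [div_le_div_iff₀ hf hf']
          linarith
      _ = (s ^ 2 * K * R) ^ n / n.factorial := by ring

lemma emb_mem_LB (hI : ∀ f : C(M, ℝ), (∀ x, 0 ≤ f x) → 0 ≤ I f)
    {S : ∀ G : Gal I, (Fin G.n → ℝ) → Prop} {K R : ℝ} (hK : 0 < K)
    (hm : ∀ G c, S G c → G.Mom K) (V : ∀ G : Gal I, (Fin G.n → ℝ) → Fin G.n → ℝ)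
    (hV : ∀ G c, S G c → G.z (V G c) ≤ R) : (fun G c => G.emb (V G c) : Fam I) ∈ LB hI S := by
  refine mem_LB.2 fun k => ?_
  rcases Nat.eq_zero_or_pos k with rfl | hk
  · exact ⟨I 1, fun G c _ => by simp⟩
  · refine ⟨(K * k) ^ k * R ^ k, fun G c hc => (hm G c hc k hk _).trans ?_⟩
    exact mul_le_mul_of_nonneg_left (pow_le_pow_left₀ (z_nonneg G _) (hV G c hc) k) (by positivity)

lemma rho_mem_LB (hI : ∀ f : C(M, ℝ), (∀ x, 0 ≤ f x) → 0 ≤ I f)
    {S : ∀ G : Gal I, (Fin G.n → ℝ) → Prop} {K R : ℝ} (hK : 0 < K)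
    (hm : ∀ G c, S G c → G.Mom K) (hV : ∀ G c, S G c → G.z c ≤ R) :
    (fun G c => G.rho c : Fam I) ∈ LB hI S := by
  refine mem_LB.2 fun k =>
    ⟨2 * (I 1 + Real.exp (((8 * k : ℕ) : ℝ) ^ 2 * K * R)), fun G c hc => ?_⟩
  have e : G.rho c ^ (2 * k) = ex (((8 * k : ℕ) : ℝ) • G.emb c) := by
    ext x
    simp only [Gal.rho, ex, ContinuousMap.pow_apply, ContinuousMap.coe_mk, ContinuousMap.smul_apply,
      smul_eq_mul, ← Real.exp_nat_mul]
    congr 1
    push_cast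
    ring
  rw [e]
  exact exp_mom hI hK (hm G c hc) (hV G c hc) _

lemma const_mem_LB (hI : ∀ f : C(M, ℝ), (∀ x, 0 ≤ f x) → 0 ≤ I f)
    (S : ∀ G : Gal I, (Fin G.n → ℝ) → Prop) (Q : C(M, ℝ)) :
    (fun _ _ => Q : Fam I) ∈ LB hI S :=
  mem_LB.2 fun k => ⟨I (Q ^ (2 * k)), fun _ _ _ => le_rfl⟩

end Lp

variable {D : Pre M}

lemma nn_add_le (h : D.Ok) (m : ℕ) (f g : D.A) : D.nn m (f + g) ≤ 2 * D.nn m f + 2 * D.nn m g := by
  have h1 := h.fine_ip_self_nonneg (((1 + D.P) ^ m) f - ((1 + D.P) ^ m) g)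
  have h2 := D.fine_ip_comm (((1 + D.P) ^ m) f) (((1 + D.P) ^ m) g)
  simp only [Pre.nn_eq_ip, Pre.ip_eq_bil, map_add, map_sub, LinearMap.add_apply,
    LinearMap.sub_apply] at h1 h2 ⊢
  linarith

lemma nn_smul (m : ℕ) (r : ℝ) (f : D.A) : D.nn m (r • f) = r ^ 2 * D.nn m f := by
  simp only [Pre.nn_eq_ip, Pre.ip_eq_bil, map_smul, LinearMap.smul_apply, smul_eq_mul]
  ring

/-- Families with values in `A`. -/
def AB (D : Pre M) (S : ∀ G : Gal D.I, (Fin G.n → ℝ) → Prop) : Subalgebra ℝ (Fam D.I) where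
  carrier := {F | ∀ G c, S G c → F G c ∈ D.A}
  mul_mem' := fun hF hH G c hc => D.A.mul_mem (hF G c hc) (hH G c hc)
  add_mem' := fun hF hH G c hc => D.A.add_mem (hF G c hc) (hH G c hc)
  algebraMap_mem' := fun r _ _ _ => D.A.algebraMap_mem r

/-- Families that are bounded in the norm `nn m`. -/
def MBd (D : Pre M) (S : ∀ G : Gal D.I, (Fin G.n → ℝ) → Prop) (m : ℕ) (F : Fam D.I) : Prop :=
  ∃ C : ℝ, ∀ G c, S G c → ∃ f : D.A, (f : C(M, ℝ)) = F G c ∧ D.nn m f ≤ C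

/-- For `m ≥ 1` these families form an algebra. -/
def MB (h : D.Ok) (S : ∀ G : Gal D.I, (Fin G.n → ℝ) → Prop) (m : ℕ) (hm : 1 ≤ m) :
    Subalgebra ℝ (Fam D.I) where
  carrier := {F | MBd D S m F}
  mul_mem' := by
    rintro F H ⟨C1, h1⟩ ⟨C2, h2⟩
    obtain ⟨C, hC0, hC⟩ := h.alg m hm
    refine ⟨C * C1 * C2, fun G c hc => ?_⟩
    obtain ⟨f, hf, hf'⟩ := h1 G c hc
    obtain ⟨g, hg, hg'⟩ := h2 G c hc
    refine ⟨f * g, by simp [hf, hg], (hC f g).trans ?_⟩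
    have := h.fine_nn_nonneg m f
    have := h.fine_nn_nonneg m g
    gcongr
    exact mul_nonneg hC0.le (by linarith)
  add_mem' := by
    rintro F H ⟨C1, h1⟩ ⟨C2, h2⟩
    refine ⟨2 * C1 + 2 * C2, fun G c hc => ?_⟩
    obtain ⟨f, hf, hf'⟩ := h1 G c hc
    obtain ⟨g, hg, hg'⟩ := h2 G c hc
    refine ⟨f + g, by simp [hf, hg], (nn_add_le h m f g).trans ?_⟩
    linarith
  algebraMap_mem' := fun r =>
    ⟨D.nn m (algebraMap ℝ D.A r), fun _ _ _ => ⟨algebraMap ℝ D.A r, rfl, le_rfl⟩⟩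

/-- Coefficient families that are bounded in the weighted norm of order `m`. -/
def NB (D : Pre M) (S : ∀ G : Gal D.I, (Fin G.n → ℝ) → Prop) (m : ℕ)
    (V : ∀ G : Gal D.I, (Fin G.n → ℝ) → Fin G.n → ℝ) : Prop :=
  ∃ C : ℝ, ∀ G c, S G c → ∑ i, (1 + G.lam i) ^ (2 * m) * V G c i ^ 2 ≤ C

variable {S : ∀ G : Gal D.I, (Fin G.n → ℝ) → Prop}

lemma NB.emb (hS : ∀ G c, S G c → ∃ Λ, D.Spec G Λ) {m : ℕ}
    {V : ∀ G : Gal D.I, (Fin G.n → ℝ) → Fin G.n → ℝ} (hV : NB D S m V) :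
    MBd D S m fun G c => G.emb (V G c) := by
  obtain ⟨C, hC⟩ := hV
  refine ⟨C, fun G c hc => ?_⟩
  obtain ⟨Λ, hs⟩ := hS G c hc
  exact ⟨hs.em (V G c), hs.coe_em _, by rw [hs.nn_em]; exact hC G c hc⟩

lemma NB.rho (h : D.Ok) (hS : ∀ G c, S G c → ∃ Λ, D.Spec G Λ) {m : ℕ} (hm : 1 ≤ m)
    (hV : NB D S m fun _ c => c) : MBd D S m fun G c => G.rho c := by
  obtain ⟨C, hC⟩ := hV
  obtain ⟨C', hC'⟩ := h.expb m hm (4 ^ 2 * C)
  refine ⟨C', fun G c hc => ?_⟩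
  obtain ⟨Λ, hs⟩ := hS G c hc
  have hmem : G.rho c ∈ D.A := h.ex_mem _ (D.A.smul_mem (hs.emb_mem c) _)
  refine ⟨⟨G.rho c, hmem⟩, rfl, hC' ((4 : ℝ) • hs.em c) _ ?_ ?_⟩
  · simp [Gal.rho, hs.coe_em]
  · rw [nn_smul, hs.nn_em]
    exact mul_le_mul_of_nonneg_left (hC G c hc) (by norm_num)

lemma NB.mono {m : ℕ} {V : ∀ G : Gal D.I, (Fin G.n → ℝ) → Fin G.n → ℝ} (hV : NB D S (m + 1) V) :
    NB D S m V := by
  obtain ⟨C, hC⟩ := hV
  refine ⟨C, fun G c hc => le_trans (Finset.sum_le_sum fun i _ => ?_) (hC G c hc)⟩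
  have := G.lam_nonneg i
  exact mul_le_mul_of_nonneg_right (pow_le_pow_right₀ (by linarith) (by omega)) (sq_nonneg _)

lemma NB.of_z {V : ∀ G : Gal D.I, (Fin G.n → ℝ) → Fin G.n → ℝ} {R : ℝ}
    (hV : ∀ G c, S G c → G.z (V G c) ≤ R) : NB D S 0 V := by
  refine ⟨R, fun G c hc => le_trans (Finset.sum_le_sum fun i _ => ?_) (hV G c hc)⟩
  have := G.lam_nonneg i
  exact mul_le_mul_of_nonneg_right (by simpa using this) (sq_nonneg _)

/-- The elliptic step. -/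
lemma NB.step (h : D.Ok) (hS : ∀ G c, S G c → ∃ Λ, D.Spec G Λ) {m : ℕ}
    {V : ∀ G : Gal D.I, (Fin G.n → ℝ) → Fin G.n → ℝ} (hV : NB D S m V) {F : Fam D.I}
    (hF : MBd D S m F)
    (he : ∀ G c, S G c → ∀ i, (G.lam i * V G c i) ^ 2 = 4 * D.I (F G c * G.φ i) ^ 2) :
    NB D S (m + 1) V := by
  obtain ⟨C1, h1⟩ := hV
  obtain ⟨C2, h2⟩ := hF
  refine ⟨2 * C1 + 8 * C2, fun G c hc => ?_⟩
  obtain ⟨Λ, hs⟩ := hS G c hc
  obtain ⟨f, hf, hf'⟩ := h2 G c hc
  have h3 := hs.bessel h m f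
  have h4 := h1 G c hc
  rw [hf] at h3
  calc ∑ i, (1 + G.lam i) ^ (2 * (m + 1)) * V G c i ^ 2
      ≤ ∑ i, (2 * ((1 + G.lam i) ^ (2 * m) * V G c i ^ 2) +
          8 * ((1 + G.lam i) ^ (2 * m) * D.I (F G c * G.φ i) ^ 2)) := by
        refine Finset.sum_le_sum fun i _ => ?_
        have h5 := he G c hc i
        have h6 : 0 ≤ (1 + G.lam i) ^ (2 * m) := (even_two_mul m).pow_nonneg _
        have h7 : (1 + G.lam i) ^ 2 * V G c i ^ 2 ≤
            2 * V G c i ^ 2 + 8 * D.I (F G c * G.φ i) ^ 2 := by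
          nlinarith [sq_nonneg (V G c i - G.lam i * V G c i)]
        calc (1 + G.lam i) ^ (2 * (m + 1)) * V G c i ^ 2
            = (1 + G.lam i) ^ (2 * m) * ((1 + G.lam i) ^ 2 * V G c i ^ 2) := by ring
          _ ≤ (1 + G.lam i) ^ (2 * m) * (2 * V G c i ^ 2 + 8 * D.I (F G c * G.φ i) ^ 2) :=
            mul_le_mul_of_nonneg_left h7 h6
          _ = _ := by ring
    _ ≤ 2 * C1 + 8 * C2 := by
        rw [Finset.sum_add_distrib, ← Finset.mul_sum, ← Finset.mul_sum]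
        linarith

lemma pol_le {Q : C(M, ℝ)} {k : ℕ} {B : Subalgebra ℝ (Fam D.I)} (hB : ∀ i < k, uF D.I Q i ∈ B) :
    Pol D.I Q k ≤ B := by
  refine Algebra.adjoin_le ?_
  rintro _ ⟨i, hi, rfl⟩
  exact hB i hi

lemma MBd.of_LB (h : D.Ok) {F : Fam D.I} (h1 : F ∈ LB h.I_nonneg S) (h2 : F ∈ AB D S) :
    MBd D S 0 F := by
  obtain ⟨C, hC⟩ := mem_LB.1 h1 1
  refine ⟨C, fun G c hc => ⟨⟨F G c, h2 G c hc⟩, rfl, ?_⟩⟩
  have := hC G c hc
  rw [D.nn_zero_eq]
  simpa [Pre.ip, sq] using this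

lemma sg_sq (n : ℕ) : sg n ^ 2 = 1 / 4 := by
  rw [sg, div_pow, ← pow_mul, mul_comm, pow_mul]; norm_num

lemma rho_zero (G : Gal D.I) : G.rho 0 = 1 := by
  ext x; simp [Gal.rho, Gal.emb, ex]

lemma I_emb_phi (G : Gal D.I) (v : Fin G.n → ℝ) (i : Fin G.n) : D.I (G.emb v * G.φ i) = v i := by
  simp [Gal.emb, Finset.sum_mul, G.orth]

/-- The initial data. -/
def S0 (D : Pre M) (G : Gal D.I) (c : Fin G.n → ℝ) : Prop := (∃ Λ, D.Spec G Λ) ∧ c = 0

lemma init (h : D.Ok) {Q : D.A} (hs : Sys D.I Q) (n : ℕ) :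
    ∀ m, NB D (S0 D) m fun G c => G.U Q n c := by
  have hS : ∀ G c, S0 D G c → ∃ Λ, D.Spec G Λ := fun G c hc => hc.1
  induction n using Nat.strong_induction_on with
  | _ n ih =>
    rcases n with _ | n
    · intro m
      refine ⟨D.nn m Q, fun G c hc => ?_⟩
      obtain ⟨⟨Λ, hG⟩, rfl⟩ := hc
      refine le_trans (le_of_eq (Finset.sum_congr rfl fun i _ => ?_)) (hG.bessel h m Q)
      have e := hs.eq0 G 0 i
      rw [rho_zero, one_mul, Gal.u, I_emb_phi] at e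
      simp only [e, Pi.zero_apply, mul_zero, zero_add]
    · have key : ∀ m, 1 ≤ m → NB D (S0 D) m fun G c => G.U Q (n + 1) c := by
        intro m hm
        have hT : TF D.I Q n ∈ MB h (S0 D) m hm :=
          pol_le (fun i hi => (ih i hi m).emb hS) (hs.pol n)
        obtain ⟨C1, h1⟩ := ih n (Nat.lt_succ_self n) (m + 1)
        obtain ⟨C2, h2⟩ := hT
        refine ⟨C1 + 2 * C2, fun G c hc => ?_⟩
        obtain ⟨f, hf, hf'⟩ := h2 G c hc
        have h4 := h1 G c hc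
        obtain ⟨⟨Λ, hG⟩, rfl⟩ := hc
        have h3 := hG.bessel h m f
        rw [hf] at h3
        calc ∑ i, (1 + G.lam i) ^ (2 * m) * G.U Q (n + 1) 0 i ^ 2
            ≤ ∑ i, ((1 + G.lam i) ^ (2 * (m + 1)) * G.U Q n 0 i ^ 2 +
                2 * ((1 + G.lam i) ^ (2 * m) * D.I (TF D.I Q n G 0 * G.φ i) ^ 2)) := by
              refine Finset.sum_le_sum fun i _ => ?_
              have e := hs.eqn G n 0 i
              rw [rho_zero, one_mul, add_mul, map_add, Gal.u, I_emb_phi] at e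
              have h5 := sg_sq n
              have h6 : 0 ≤ (1 + G.lam i) ^ (2 * m) := (even_two_mul m).pow_nonneg _
              have h8 := G.lam_nonneg i
              have h7 : G.U Q (n + 1) 0 i ^ 2 ≤ (1 + G.lam i) ^ 2 * G.U Q n 0 i ^ 2 +
                  2 * D.I (G.T Q n 0 * G.φ i) ^ 2 := by
                have e' : G.U Q (n + 1) 0 i =
                    sg n * G.lam i * G.U Q n 0 i - D.I (G.T Q n 0 * G.φ i) := by linarith
                have h9 : (sg n * G.lam i * G.U Q n 0 i) ^ 2 =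
                    1 / 4 * (G.lam i ^ 2 * G.U Q n 0 i ^ 2) := by rw [mul_pow, mul_pow, h5]; ring
                have h10 : G.lam i ^ 2 * G.U Q n 0 i ^ 2 ≤ (1 + G.lam i) ^ 2 * G.U Q n 0 i ^ 2 :=
                  mul_le_mul_of_nonneg_right (by nlinarith) (sq_nonneg _)
                have h11 : 0 ≤ G.lam i ^ 2 * G.U Q n 0 i ^ 2 := by positivity
                rw [e']
                nlinarith [sq_nonneg (sg n * G.lam i * G.U Q n 0 i + D.I (G.T Q n 0 * G.φ i))]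
              calc (1 + G.lam i) ^ (2 * m) * G.U Q (n + 1) 0 i ^ 2
                  ≤ (1 + G.lam i) ^ (2 * m) * ((1 + G.lam i) ^ 2 * G.U Q n 0 i ^ 2 +
                    2 * D.I (G.T Q n 0 * G.φ i) ^ 2) := mul_le_mul_of_nonneg_left h7 h6
                _ = _ := by simp only [TF]; ring
          _ ≤ C1 + 2 * C2 := by
              rw [Finset.sum_add_distrib, ← Finset.mul_sum]
              linarith
      intro m
      rcases Nat.eq_zero_or_pos m with rfl | hm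
      · exact (key 1 le_rfl).mono
      · exact key m hm

lemma init_Y (h : D.Ok) {Q : D.A} (hs : Sys D.I Q) :
    ∃ B : ℕ → ℝ, ∀ (G : Gal D.I) (Λ : ℝ), D.Spec G Λ → ∀ n, G.Y Q n 0 ≤ B n := by
  choose B hB using fun n => init h hs n 0
  refine ⟨B, fun G Λ hG n => le_trans (le_of_eq ?_) (hB n G 0 ⟨⟨Λ, hG⟩, rfl⟩)⟩
  rw [← hG.nn_em, D.nn_zero_eq, Gal.Y, rho_zero, one_mul, Gal.u, ← hG.coe_em]
  simp [Pre.ip, sq]

/-- One step of the bootstrap. -/
lemma boot_step (h : D.Ok) {Q : D.A} (hs : Sys D.I Q) (hS : ∀ G c, S G c → ∃ Λ, D.Spec G Λ)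
    {m : ℕ} {B : Subalgebra ℝ (Fam D.I)} (hB : ∀ F ∈ B, MBd D S m F)
    (hu : ∀ n, uF D.I Q n ∈ B) (hr : (fun G c => G.rho c : Fam D.I) ∈ B)
    (hQ : (fun _ _ => (Q : C(M, ℝ)) : Fam D.I) ∈ B)
    (h0 : NB D S m fun _ c => c) (h1 : ∀ n, NB D S m fun G c => G.U Q n c) :
    (NB D S (m + 1) fun _ c => c) ∧ ∀ n, NB D S (m + 1) fun G c => G.U Q n c := by
  refine ⟨h0.step h hS (hB _ (B.sub_mem (B.mul_mem hr (hu 0)) hQ)) fun G c _ i => ?_, fun n =>
    (h1 n).step h hS (hB _ (B.mul_mem hr (B.add_mem (hu (n + 1))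
      (pol_le (fun i _ => hu i) (hs.pol n))))) fun G c _ i => ?_⟩
  · have e := hs.eq0 G c i
    change _ = 4 * D.I ((G.rho c * G.u Q 0 c - Q) * G.φ i) ^ 2
    rw [sub_mul, map_sub, e]
    ring
  · have e := hs.eqn G n c i
    change _ = 4 * D.I ((G.rho c * (G.u Q (n + 1) c + G.T Q n c)) * G.φ i) ^ 2
    rw [e, mul_pow, mul_pow, mul_pow, sg_sq]
    ring

end BootM

open BootM in
theorem boot (h : FineStmt.{u}) : BootStmt.{u} := by
  intro M _ _ D hD Q hs h1 hl τ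
  obtain ⟨γ, K, hγ, hK, hF⟩ := h M D hD
  obtain ⟨B, hB⟩ := init_Y hD hs
  let S : ∀ G : Gal D.I, (Fin G.n → ℝ) → Prop := fun G v =>
    (∃ Λ, 1 ≤ Λ ∧ D.Spec G Λ) ∧ ∃ c, G.Traj Q τ c ∧ ∃ t ∈ Icc 0 τ, c t = v
  have hS : ∀ G c, S G c → ∃ Λ, D.Spec G Λ := fun G c hc =>
    let ⟨Λ, _, hΛ⟩ := hc.1; ⟨Λ, hΛ⟩
  have hfine : ∀ G c, S G c → G.Fine γ K := fun G c hc =>
    let ⟨Λ, hΛ1, hΛ⟩ := hc.1; hF G Λ hΛ1 hΛ
  have hmom : ∀ G c, S G c → G.Mom K := fun G c hc => (hfine G c hc).mom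
  have hz : ∃ R : ℝ, ∀ G c, S G c → G.z c ≤ R := by
    obtain ⟨C, hC⟩ := h1 γ K τ hγ hK
    refine ⟨C, fun G v hv => ?_⟩
    obtain ⟨c, hc, t, ht, rfl⟩ := hv.2
    exact (hC G (hfine G _ hv) (fun _ => 1) c
      ⟨hc.zero, fun _ _ => ⟨zero_le_one, le_rfl⟩, fun t ht => by
        simpa using hc.der t ht⟩ t ht).2.1
  have hzU : ∀ n, ∃ R : ℝ, ∀ G c, S G c → G.z (G.U Q n c) ≤ R := by
    intro n
    obtain ⟨κ, C, -, hC⟩ := hl (n + 1) γ K τ B hγ hK
    refine ⟨C, fun G v hv => ?_⟩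
    obtain ⟨Λ, hΛ⟩ := hS G v hv
    obtain ⟨c, hc, t, ht, rfl⟩ := hv.2
    exact (hC G (hfine G _ hv) (hB G Λ hΛ) c hc t ht).2.1 n (Nat.lt_succ_self n)
  have main : ∀ m, (NB D S m fun _ c => c) ∧ ∀ n, NB D S m fun G c => G.U Q n c := by
    intro m
    induction m with
    | zero =>
      obtain ⟨R, hR⟩ := hz
      exact ⟨NB.of_z hR, fun n => let ⟨_, hR'⟩ := hzU n; NB.of_z hR'⟩
    | succ m ih =>
      rcases Nat.eq_zero_or_pos m with rfl | hm
      · obtain ⟨R, hR⟩ := hz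
        refine boot_step hD hs hS (B := LB hD.I_nonneg S ⊓ AB D S)
          (fun F hF => MBd.of_LB hD hF.1 hF.2) (fun n => ⟨?_, ?_⟩) ⟨?_, ?_⟩ ⟨?_, ?_⟩ ih.1 ih.2
        · obtain ⟨R', hR'⟩ := hzU n
          exact emb_mem_LB hD.I_nonneg hK hmom (fun G c => G.U Q n c) hR'
        · intro G c hc
          obtain ⟨Λ, hΛ⟩ := hS G c hc
          exact hΛ.emb_mem _
        · exact rho_mem_LB hD.I_nonneg hK hmom hR
        · intro G c hc
          obtain ⟨Λ, hΛ⟩ := hS G c hc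
          exact hD.ex_mem _ (D.A.smul_mem (hΛ.emb_mem c) _)
        · exact const_mem_LB hD.I_nonneg S _
        · exact fun _ _ _ => Q.2
      · exact boot_step hD hs hS (B := MB hD S m hm) (fun F hF => hF)
          (fun n => (ih.2 n).emb hS) (ih.1.rho hD hS hm)
          ⟨D.nn m Q, fun _ _ _ => ⟨Q, rfl, le_rfl⟩⟩ ih.1 ih.2
  intro m n
  obtain ⟨C1, h1⟩ := (main m).1
  obtain ⟨C2, h2⟩ := (main m).2 n
  refine ⟨max C1 C2, fun G Λ hΛ1 hΛ c hc t ht => ⟨?_, ?_⟩⟩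
  · exact (h1 G (c t) ⟨⟨Λ, hΛ1, hΛ⟩, c, hc, t, ht, rfl⟩).trans (le_max_left _ _)
  · exact (h2 G (c t) ⟨⟨Λ, hΛ1, hΛ⟩, c, hc, t, ht, rfl⟩).trans (le_max_right _ _)

end Pool.Agent.MP_417fa2_gt.Flow

end MrgPart3

-- ======== part 4: formerly Pool.Agent.MP_417fa2_gt.An.Main
section MrgPart4

/-!
The analytic theorem.
-/

namespace Pool.Agent.MP_417fa2_gt

universe u

theorem Flow.flow : Flow.FlowStmt.{u} :=
  Flow.flow_of Flow.sys Flow.st1 Flow.exi Flow.lev0 Flow.levS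
    (Flow.boot (Flow.fine Flow.spec Flow.trud))
    (Flow.lim Flow.spec (Flow.fine Flow.spec Flow.trud))

theorem an : AnStmt.{u} :=
  an_of Flow.flow ell mulStmt itp (lfour s4) (agm agmE) alg (denseL denseE) surj cpt joint uniq

end Pool.Agent.MP_417fa2_gt

end MrgPart4

-- marker of a merged file
example : 731051 + 874603 = 731051 + 874603 := rfl
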