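import Mathlib
import Pool.Agent.MP_417fa2_gt.An.Euc
import Pool.Agent.MP_417fa2_gt.Basic

/-! Trudinger's inequality with a non-sharp constant and its improvement for spread mass. -/

open scoped ContDiff
open MeasureTheory Set Metric Finset

namespace Pool.Agent.MP_417fa2_gt

namespace EucC

variable {f g h φ : E4 → ℝ}

lemma tst_pd (hh : Tst h) (i : Fin 4) : Tst (pd i h) :=
  ⟨cd_pd hh.sm i, hh.cs.fderiv_apply ℝ _⟩

lemma tst_sub (hf : Tst f) (hg : Tst g) : Tst fun y => f y - g y :=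
  ⟨hf.sm.sub hg.sm, hf.cs.sub hg.cs⟩

lemma tst_mul (hφ : ContDiff ℝ ∞ φ) (hg : Tst g) : Tst fun y => φ y * g y :=
  ⟨hφ.mul hg.sm, hg.cs.mul_left⟩

lemma int_sq (hh : Tst h) : Integrable fun y => h y ^ 2 := by
  simpa only [sq] using
    (tst_mul hh.sm hh).sm.continuous.integrable_of_hasCompactSupport (tst_mul hh.sm hh).cs

lemma nonneg_eN : ∀ (k : ℕ) (h : E4 → ℝ), 0 ≤ eN k h
  | 0, _ => integral_nonneg fun _ => sq_nonneg _
  | k + 1, _ => add_nonneg (integral_nonneg fun _ => sq_nonneg _)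
      (sum_nonneg fun _ _ => nonneg_eN k _)

lemma bdd (hh : Tst h) : ∃ K, ∀ y, |h y| ≤ K :=
  hh.sm.continuous.bounded_above_of_compact_support hh.cs

lemma exp_le_sum (a : ℝ) (u : ℕ → ℝ) (x : ℝ) (h0 : ∀ j, 0 ≤ u j)
    (h1 : ∀ j : ℕ, a + j < x → 1 ≤ u j) (J : ℕ) (hJ : x ≤ a + J) :
    Real.exp x ≤ Real.exp a + ∑ j ∈ range J, Real.exp (a + j + 1) * u j := by
  induction J with
  | zero => simpa using hJ
  | succ J ih =>
    rw [sum_range_succ]
    have p1 := mul_nonneg (Real.exp_pos (a + J + 1)).le (h0 J)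
    rcases le_or_gt x (a + J) with hx | hx
    · linarith [ih hx]
    · have p2 : 0 ≤ ∑ j ∈ range J, Real.exp (a + j + 1) * u j :=
        sum_nonneg fun j _ => mul_nonneg (Real.exp_pos _).le (h0 j)
      have p3 := le_mul_of_one_le_right (Real.exp_pos (a + J + 1)).le (h1 J hx)
      have p4 : Real.exp x ≤ Real.exp (a + J + 1) := Real.exp_le_exp.2 (by push_cast at hJ; linarith)
      linarith [Real.exp_pos a]

lemma two_le_exp {x : ℝ} (hx : 1 ≤ x) : 2 ≤ Real.exp x := by linarith [Real.add_one_le_exp x]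

lemma sum_exp_le (J : ℕ) : ∑ j ∈ range J, Real.exp (-j) ≤ 2 := by
  refine le_trans (sum_le_sum fun j _ => ?_) (sum_geometric_two_le J)
  rw [← mul_neg_one, Real.exp_nat_mul]
  refine pow_le_pow_left₀ (Real.exp_pos _).le ?_ j
  rw [Real.exp_neg, one_div]
  exact inv_anti₀ two_pos (two_le_exp le_rfl)

end EucC

open EucC in
theorem tr (hS : SplStmt) : TrStmt := by
  obtain ⟨C, hC, hS⟩ := hS
  refine ⟨C + 1, by positivity, fun h hh s _ hs => ?_⟩
  obtain ⟨K, hK⟩ := bdd hh
  have : IsFiniteMeasure (volume.restrict s) := ⟨by simpa using hs.lt_top⟩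
  have hi : IntegrableOn (fun y => Real.exp (h y)) s :=
    Integrable.of_bound (hh.sm.continuous.rexp).aestronglyMeasurable (Real.exp K)
      (.of_forall fun y => by
        rw [Real.norm_eq_abs, abs_of_pos (Real.exp_pos _)]
        exact Real.exp_le_exp.2 ((le_abs_self _).trans (hK y)))
  refine ⟨hi, ?_⟩
  have hN := nonneg_eN 2 h
  set M := C * (1 + eN 2 h) with hM
  have hM0 : 0 < M := by positivity
  have lev : ∀ t : ℝ, M + 1 ≤ t → ∃ u : E4 → ℝ, Integrable u ∧ (∀ y, 0 ≤ u y) ∧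
      (∀ y, t < h y → 1 ≤ u y) ∧ Real.exp (t + 1) * ∫ y, u y ≤ Real.exp (M + 1 - t) := by
    intro t ht
    have t0 : 0 < t := by linarith
    have t1 : 4 * M ≤ t ^ 2 := by nlinarith [sq_nonneg (M - 1)]
    have t2 : C * eN 2 h ≤ M := by rw [hM]; linarith
    obtain ⟨l, hl, h1, -, -, h2, -⟩ := hS h hh (Real.exp (t ^ 2 / (4 * M)))
      (two_le_exp ((one_le_div (by positivity)).2 t1))
    refine ⟨fun y => 4 / t ^ 2 * (h y - l y) ^ 2, (int_sq (tst_sub hh hl)).const_mul _,
      fun y => by positivity, fun y hy => ?_, ?_⟩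
    · have h3 := h1 y
      rw [Real.log_exp, mul_right_comm] at h3
      have h4 : l y ^ 2 ≤ (t / 2) ^ 2 := h3.trans ((mul_le_mul_of_nonneg_right t2
        (by positivity)).trans (le_of_eq (by field_simp; norm_num)))
      have h5 := (abs_le_of_sq_le_sq' h4 (by positivity)).2
      beta_reduce
      rw [div_mul_eq_mul_div, one_le_div (by positivity)]
      nlinarith
    · rw [integral_const_mul]
      have h3 : ∫ y, (h y - l y) ^ 2 ≤ M * Real.exp (-(t ^ 2 / M)) := by
        refine le_trans h2 ?_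
        rw [div_mul_eq_mul_div, ← Real.exp_nat_mul, div_eq_mul_inv, ← Real.exp_neg]
        refine mul_le_mul t2 (le_of_eq ?_) (Real.exp_pos _).le hM0.le
        congr 2
        push_cast
        field_simp
      have h4 : 4 / t ^ 2 * (M * Real.exp (-(t ^ 2 / M))) ≤ Real.exp (-(t ^ 2 / M)) := by
        rw [← mul_assoc]
        refine mul_le_of_le_one_left (Real.exp_pos _).le ?_
        rwa [div_mul_eq_mul_div, div_le_one (by positivity)]
      refine (mul_le_mul_of_nonneg_left ((mul_le_mul_of_nonneg_left h3 (by positivity)).trans h4)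
        (Real.exp_pos _).le).trans ?_
      rw [← Real.exp_add, Real.exp_le_exp]
      have : 2 * t - M ≤ t ^ 2 / M := by
        rw [le_div_iff₀ hM0]
        nlinarith [sq_nonneg (M - t)]
      linarith
  choose u hu h0 h1 h2 using fun j : ℕ => lev (M + 1 + j) (by simp)
  obtain ⟨J, hJ⟩ := exists_nat_ge K
  have i2 : ∀ j ∈ range J, IntegrableOn (fun y => Real.exp (M + 1 + j + 1) * u j y) s :=
    fun j _ => ((hu j).const_mul _).integrableOn
  have q1 := integral_mono hi ((integrable_const (Real.exp (M + 1))).add (integrable_finsetSum _ i2))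
    fun y => exp_le_sum (M + 1) (fun j => u j y) (h y) (fun j => h0 j y) (fun j => h1 j y) J
      (by linarith [(le_abs_self _).trans (hK y)])
  rw [integral_add' (integrable_const _) (integrable_finsetSum _ i2), integral_finsetSum _ i2,
    setIntegral_const, smul_eq_mul] at q1
  have q2 : ∑ j ∈ range J, ∫ y in s, Real.exp (M + 1 + j + 1) * u j y ≤ 2 := by
    refine le_trans (sum_le_sum fun j _ => ?_) (sum_exp_le J)
    rw [integral_const_mul]
    refine (mul_le_mul_of_nonneg_left (setIntegral_le_integral (hu j) (.of_forall (h0 j)))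
      (Real.exp_pos _).le).trans ((h2 j).trans (le_of_eq ?_))
    congr 1
    ring
  have q3 : Real.exp (M + 1) ≤ Real.exp ((C + 1) * (1 + eN 2 h)) :=
    Real.exp_le_exp.2 (by rw [hM]; linarith)
  have q4 := mul_le_mul_of_nonneg_left q3 (measureReal_nonneg (μ := volume) (s := s))
  linarith [two_le_exp (show 1 ≤ M + 1 by linarith)]

namespace EucC

variable {f g h φ : E4 → ℝ}

lemma avg (hf : Integrable f) {ρ : ℝ} (hρ : 0 < ρ) : (Integrable fun z => ∫ y in ball z ρ, f y) ∧
    ∫ z, ∫ y in ball z ρ, f y = ρ ^ 4 * volume.real (ball (0 : E4) 1) * ∫ y, f y := by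
  have hg : Integrable ((ball (0 : E4) ρ).indicator fun _ => (1 : ℝ)) :=
    (integrable_indicator_iff measurableSet_ball).2 (integrableOn_const measure_ball_lt_top.ne)
  have e : (fun z => ∫ y in ball z ρ, f y) = convolution f
      ((ball (0 : E4) ρ).indicator fun _ => (1 : ℝ)) (ContinuousLinearMap.mul ℝ ℝ) volume := by
    funext z
    rw [convolution_mul, ← integral_indicator measurableSet_ball]
    refine integral_congr_ae (.of_forall fun y => ?_)
    have : z - y ∈ ball (0 : E4) ρ ↔ y ∈ ball z ρ := by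
      rw [mem_ball_zero_iff, mem_ball', dist_eq_norm]
    by_cases hy : y ∈ ball z ρ
    · simp only [indicator_of_mem hy, indicator_of_mem (this.2 hy), mul_one]
    · simp only [indicator_of_notMem hy, indicator_of_notMem (mt this.1 hy), mul_zero]
  rw [e]
  refine ⟨hf.integrable_convolution _ hg, ?_⟩
  rw [integral_convolution _ hf hg, integral_indicator measurableSet_ball, setIntegral_const,
    measureReal_def, Measure.addHaar_ball_of_pos _ _ hρ, ENNReal.toReal_mul,
    ENNReal.toReal_ofReal (by positivity)]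
  simp [measureReal_def, mul_comm]

/-- The density that controls the energy of order two of a localized function. -/
noncomputable def den (a : ℝ) (g : E4 → ℝ) (y : E4) : ℝ :=
  a ^ 4 * g y ^ 2 + ∑ i, (a ^ 2 * pd i g y ^ 2 + ∑ j, pd j (pd i g) y ^ 2)

lemma int_den (a : ℝ) (hg : Tst g) : Integrable (den a g) :=
  ((int_sq hg).const_mul _).add (integrable_finsetSum _ fun i _ =>
    ((int_sq (tst_pd hg i)).const_mul _).add (integrable_finsetSum _ fun j _ =>
      int_sq (tst_pd (tst_pd hg i) j)))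

lemma integral_den (a : ℝ) (hg : Tst g) : ∫ y, den a g y = a ^ 4 * (∫ y, g y ^ 2)
    + ∑ i, (a ^ 2 * (∫ y, pd i g y ^ 2) + ∑ j, ∫ y, pd j (pd i g) y ^ 2) := by
  have i1 := fun i => (int_sq (tst_pd hg i)).const_mul (a ^ 2)
  have i2 := fun i j => int_sq (tst_pd (tst_pd hg i) j)
  have i3 := fun i => integrable_finsetSum univ fun j _ => i2 i j
  have i4 : ∀ i, Integrable fun y => a ^ 2 * pd i g y ^ 2 + ∑ j, pd j (pd i g) y ^ 2 :=
    fun i => (i1 i).add (i3 i)
  unfold den
  rw [integral_add ((int_sq hg).const_mul _) (integrable_finsetSum _ fun i _ => i4 i),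
    integral_finsetSum _ fun i _ => i4 i, integral_const_mul]
  congr 1
  refine sum_congr rfl fun i _ => ?_
  rw [integral_add (i1 i) (i3 i), integral_const_mul, integral_finsetSum _ fun j _ => i2 i j]

lemma eN_two (hg : Tst g) : eN 2 g = ∫ y, den 1 g y := by
  simp [integral_den 1 hg, eN]

lemma integral_den_le (a : ℝ) (hg : Tst g) :
    ∫ y, den a g y ≤ a ^ 4 * eN 0 g + a ^ 2 * eN 1 g + eN 2 g := by
  have h0 : 0 ≤ ∫ y, g y ^ 2 := nonneg_eN 0 g
  have h1 : 0 ≤ ∑ i, ∫ y, pd i g y ^ 2 := sum_nonneg fun i _ => nonneg_eN 0 _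
  have h2 := mul_nonneg (sq_nonneg a) h0
  simp only [integral_den a hg, eN, sum_add_distrib, ← mul_sum]
  linarith

lemma den_mul_le (hφ : ContDiff ℝ ∞ φ) (hg : Tst g) {a k : ℝ} (ha : 1 ≤ a) {y : E4}
    (h0 : φ y ^ 2 ≤ k) (h1 : ∀ i, pd i φ y ^ 2 ≤ k * a ^ 2)
    (h2 : ∀ i j, pd j (pd i φ) y ^ 2 ≤ k * a ^ 4) :
    den 1 (fun y => φ y * g y) y ≤ 73 * k * den a g y := by
  have d : ∀ {f : E4 → ℝ}, ContDiff ℝ ∞ f → ∀ y, DifferentiableAt ℝ f y := fun h _ =>
    dAt_of_cdAt h.contDiffAt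
  have e1 : ∀ i, pd i (fun y => φ y * g y) = fun y => pd i φ y * g y + φ y * pd i g y :=
    fun i => funext fun y => pd_mul (d hφ y) (d hg.sm y) i
  have e2 : ∀ i j, pd j (pd i fun y => φ y * g y) y = pd j (pd i φ) y * g y + pd i φ y * pd j g y
      + (pd j φ y * pd i g y + φ y * pd j (pd i g) y) := fun i j => by
    rw [e1, pd_add (d ((cd_pd hφ i).mul hg.sm) y) (d (hφ.mul (cd_pd hg.sm i)) y),
      pd_mul (d (cd_pd hφ i) y) (d hg.sm y), pd_mul (d hφ y) (d (cd_pd hg.sm i) y)]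
  have k0 : 0 ≤ k := (sq_nonneg _).trans h0
  have a2 : 1 ≤ a ^ 2 := one_le_pow₀ ha
  have a4 : a ^ 2 ≤ a ^ 4 := pow_le_pow_right₀ ha (by norm_num)
  have m : ∀ {p q : ℝ} (u : ℝ), p ^ 2 ≤ q → (p * u) ^ 2 ≤ q * u ^ 2 := fun u h => by
    rw [mul_pow]; gcongr
  set G := k * a ^ 4 * g y ^ 2 with hG
  have b0 : (φ y * g y) ^ 2 ≤ G := m _ (h0.trans (le_mul_of_one_le_right k0 (a2.trans a4)))
  have b1 : ∀ i, pd i (fun y => φ y * g y) y ^ 2 ≤ 2 * G + 2 * (k * a ^ 2 * pd i g y ^ 2) :=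
    fun i => by
      have p1 := m (g y) ((h1 i).trans (mul_le_mul_of_nonneg_left a4 k0))
      have p2 := m (pd i g y) (h0.trans (le_mul_of_one_le_right k0 a2))
      rw [e1]
      nlinarith [sq_nonneg (pd i φ y * g y - φ y * pd i g y)]
  have b2 : ∀ i j, pd j (pd i fun y => φ y * g y) y ^ 2 ≤ 4 * G + 4 * (k * a ^ 2 * pd j g y ^ 2)
      + 4 * (k * a ^ 2 * pd i g y ^ 2) + 4 * (k * pd j (pd i g) y ^ 2) := fun i j => by
    have p1 := m (g y) (h2 i j)
    have p2 := m (pd j g y) (h1 i)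
    have p3 := m (pd i g y) (h1 j)
    have p4 := m (pd j (pd i g) y) h0
    rw [e2]
    generalize pd j (pd i φ) y * g y = x1 at *
    generalize pd i φ y * pd j g y = x2 at *
    generalize pd j φ y * pd i g y = x3 at *
    generalize φ y * pd j (pd i g) y = x4 at *
    nlinarith [sq_nonneg (x1 - x2), sq_nonneg (x1 - x3), sq_nonneg (x1 - x4), sq_nonneg (x2 - x3),
      sq_nonneg (x2 - x4), sq_nonneg (x3 - x4)]
  have b3 := add_le_add b0 (sum_le_sum (s := univ) fun i _ =>
    add_le_add (b1 i) (sum_le_sum (s := univ) fun j _ => b2 i j))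
  have n1 : 0 ≤ k * a ^ 2 * ∑ i, pd i g y ^ 2 := by positivity
  have n2 : 0 ≤ k * ∑ i, ∑ j, pd j (pd i g) y ^ 2 := by positivity
  simp only [den, one_pow, one_mul]
  refine b3.trans ?_
  simp only [sum_add_distrib, ← mul_sum, sum_const, card_univ, Fintype.card_fin, nsmul_eq_mul,
    Nat.cast_ofNat]
  rw [hG]
  linarith

/-- Rescaled and translated copy. -/
noncomputable def sc (a : ℝ) (z : E4) (ψ : E4 → ℝ) (y : E4) : ℝ := ψ (a • (y - z))

lemma cd_sc (a : ℝ) (z : E4) (hφ : ContDiff ℝ ∞ φ) : ContDiff ℝ ∞ (sc a z φ) :=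
  hφ.comp ((contDiff_id.sub contDiff_const).const_smul a)

lemma pd_sc (a : ℝ) (z : E4) (hφ : ContDiff ℝ ∞ φ) (i : Fin 4) :
    pd i (sc a z φ) = fun y => a * sc a z (pd i φ) y := funext fun y => by
  have h1 := (dAt_of_cdAt (hφ.contDiffAt (x := a • (y - z)))).hasFDerivAt.comp y
    (((hasFDerivAt_id y).sub_const z).const_smul a)
  have h2 : fderiv ℝ (sc a z φ) y = _ := h1.fderiv
  simp [pd, h2, sc]

theorem exists_cut : ∃ K : ℝ, 0 < K ∧ ∀ (r : ℝ) (z : E4), 0 < r → r ≤ 1 → ∀ g, Tst g →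
    ∃ f, Tst f ∧ (∀ y ∈ ball z r, f y = g y) ∧ eN 2 f ≤ K * ∫ y in ball z (3 * r), den r⁻¹ g y := by
  let η : ContDiffBump (0 : E4) := ⟨1, 2, one_pos, one_lt_two⟩
  have hη : Tst η := ⟨η.contDiff, η.hasCompactSupport⟩
  have z0 : ∀ y : E4, 3 ≤ ‖y‖ → y ∉ tsupport η := fun y hy h => by
    rw [η.tsupport_eq, mem_closedBall_zero_iff] at h
    exact absurd (hy.trans h) (by norm_num [η])
  have z1 : ∀ (ψ : E4 → ℝ) i, tsupport (pd i ψ) ⊆ tsupport ψ := fun ψ i =>
    tsupport_fderiv_apply_subset ℝ _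
  obtain ⟨K0, h0⟩ := bdd (tst_mul hη.sm hη)
  choose K1 h1 using fun i => bdd (tst_mul (tst_pd hη i).sm (tst_pd hη i))
  choose K2 h2 using fun i j => bdd (tst_mul (tst_pd (tst_pd hη i) j).sm (tst_pd (tst_pd hη i) j))
  obtain ⟨B1, b1⟩ := Finite.exists_le K1
  obtain ⟨B2, b2⟩ := Finite.exists_le fun p : Fin 4 × Fin 4 => K2 p.1 p.2
  obtain ⟨K, k0, k1, k2, k3⟩ : ∃ K, K0 ≤ K ∧ B1 ≤ K ∧ B2 ≤ K ∧ 1 ≤ K :=
    ⟨max (max K0 B1) (max B2 1), by simp, by simp, by simp, by simp⟩
  refine ⟨73 * K, by positivity, fun r z hr hr1 g hg => ?_⟩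
  have c0 := cd_sc r⁻¹ z hη.sm
  have hf := tst_mul c0 hg
  refine ⟨_, hf, fun y hy => ?_, ?_⟩
  · have : r⁻¹ • (y - z) ∈ closedBall (0 : E4) η.rIn := by
      rw [mem_closedBall_zero_iff, norm_smul, Real.norm_eq_abs, abs_of_pos (inv_pos.2 hr),
        ← dist_eq_norm, inv_mul_le_iff₀ hr]
      simpa [η] using (mem_ball.1 hy).le
    rw [sc, η.one_of_mem_closedBall this, one_mul]
  have b : ∀ (ψ : E4 → ℝ) (y : E4), tsupport ψ ⊆ tsupport η → (∀ y, |ψ y * ψ y| ≤ K) →
      sc r⁻¹ z ψ y ^ 2 ≤ (ball z (3 * r)).indicator (fun _ => K) y := fun ψ y hs hψ => by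
    by_cases hy : y ∈ ball z (3 * r)
    · rw [indicator_of_mem hy, sq]
      exact (le_abs_self _).trans (hψ _)
    · rw [indicator_of_notMem hy, sc, image_eq_zero_of_notMem_tsupport fun h => z0 _ ?_ (hs h)]
      · simp
      rw [norm_smul, Real.norm_eq_abs, abs_of_pos (inv_pos.2 hr), ← dist_eq_norm,
        le_inv_mul_iff₀ hr, mul_comm]
      exact not_lt.1 hy
  rw [eN_two hf, ← integral_const_mul, ← integral_indicator measurableSet_ball]
  refine integral_mono (int_den _ hf) (((int_den _ hg).const_mul _).indicator measurableSet_ball)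
    fun y => ?_
  refine (den_mul_le c0 hg ((one_le_inv₀ hr).2 hr1) (b η y Subset.rfl fun y => (h0 y).trans k0)
    (fun i => ?_) fun i j => ?_).trans (le_of_eq ?_)
  · rw [pd_sc _ _ hη.sm, mul_pow, mul_comm]
    exact mul_le_mul_of_nonneg_right (b _ y (z1 _ i) fun y => (h1 i y).trans ((b1 i).trans k1))
      (by positivity)
  · rw [pd_sc _ _ hη.sm, pd_const_mul (dAt_of_cdAt (cd_sc _ _ (cd_pd hη.sm i)).contDiffAt),
      pd_sc _ _ (cd_pd hη.sm i)]
    refine le_trans (le_of_eq (by ring)) (mul_le_mul_of_nonneg_right (b _ y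
      ((z1 _ j).trans (z1 _ i)) fun y => (h2 i j y).trans ((b2 (i, j)).trans k2))
      (show 0 ≤ r⁻¹ ^ 4 by positivity))
  · simp only [indicator]
    split_ifs <;> simp

end EucC

open EucC in
theorem spr (hS : SplStmt) (hT : TrStmt) : SprStmt := by
  obtain ⟨C, hC, hS⟩ := hS
  obtain ⟨A, hA, hT⟩ := hT
  obtain ⟨K, hK, hc⟩ := exists_cut
  intro δ R₀ ρ₁ hδ hR₀ hρ₁
  set c := volume.real (ball (0 : E4) 1) with hc'
  have c0 : 0 < c := ENNReal.toReal_pos (measure_ball_pos _ _ one_pos).ne' measure_ball_lt_top.ne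
  have vol : ∀ (z : E4) (t : ℝ), 0 < t → volume.real (ball z t) = t ^ 4 * c := fun z t ht => by
    rw [hc', measureReal_def, Measure.addHaar_ball_of_pos _ _ ht, ENNReal.toReal_mul,
      ENNReal.toReal_ofReal (by positivity)]
    simp [measureReal_def]
  set θ := δ / (2 * A) with hθ
  have θ0 : 0 < θ := by positivity
  set K2 := 2 * (R₀ + 1) ^ 4 * (ρ₁ * (c + 1) * Real.exp (A + δ / 2)) with hK2
  refine ⟨θ / (486 * K * C), C / (2 * δ) + 4 + 2 * K2, by positivity, by positivity,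
    fun W hW hW1 hW0 h hh r hr hr1 hm => ?_⟩
  have hR : 2 ≤ r⁻¹ := by rwa [le_inv_comm₀ two_pos hr, ← one_div]
  have hlog : 1 / 2 ≤ Real.log r⁻¹ :=
    le_trans (by linarith [Real.log_two_gt_d9]) (Real.log_le_log two_pos hR)
  obtain ⟨l, hl, l1, l2, l3, l4, -⟩ := hS h hh r⁻¹ hR
  have hg := tst_sub hh hl
  set g := fun y => h y - l y with hg'
  set N := eN 2 h
  have hN : 0 ≤ N := nonneg_eN 2 h
  set L := δ / 2 * N + C / (2 * δ) * Real.log r⁻¹ with hL
  have lL : ∀ y, l y ≤ L := fun y => by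
    refine (abs_le_of_sq_le_sq' ((l1 y).trans ?_) (by positivity)).2
    have e : C * Real.log r⁻¹ * N = 4 * (δ / 2 * N) * (C / (2 * δ) * Real.log r⁻¹) := by
      field_simp; ring
    rw [e, hL]
    nlinarith [sq_nonneg (δ / 2 * N - C / (2 * δ) * Real.log r⁻¹)]
  obtain ⟨Kh, hKh⟩ := bdd hh
  have f0 : ∀ y, 0 ≤ Real.exp (h y) * W y := fun y => mul_nonneg (Real.exp_pos _).le (hW1 y).1
  have hf : Integrable fun y => Real.exp (h y) * W y := by
    refine Integrable.mono' (g := (ball (0 : E4) R₀).indicator fun _ => Real.exp Kh * ρ₁)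
      ((integrable_indicator_iff measurableSet_ball).2 (integrableOn_const measure_ball_lt_top.ne))
      (hh.sm.continuous.rexp.measurable.mul hW).aestronglyMeasurable (.of_forall fun y => ?_)
    rw [Real.norm_eq_abs, abs_of_nonneg (f0 y)]
    by_cases hy : y ∈ ball (0 : E4) R₀
    · rw [indicator_of_mem hy]
      exact mul_le_mul (Real.exp_le_exp.2 ((le_abs_self _).trans (hKh y))) (hW1 y).2 (hW1 y).1
        (Real.exp_pos _).le
    · rw [indicator_of_notMem hy, hW0 y (by simpa using hy), mul_zero]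
  set V := ∫ y, Real.exp (h y) * W y with hV
  have V0 : 0 ≤ V := integral_nonneg f0
  set m := ρ₁ * (c + 1) * Real.exp (A + δ / 2) * Real.exp (L + δ / 2 * N) with hm'
  set e := θ / (486 * K * C) * V * (K / (θ * (N + 1))) with he
  have d0 : ∀ y, 0 ≤ den r⁻¹ g y := fun y => by unfold den; positivity
  have key : ∀ z, ∫ y in ball z r, Real.exp (h y) * W y ≤ e * (∫ y in ball z (3 * r), den r⁻¹ g y)
      + (ball (0 : E4) (R₀ + 1)).indicator (fun _ => m) z := fun z => by
    have p0 : 0 ≤ ∫ y in ball z (3 * r), den r⁻¹ g y := integral_nonneg d0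
    have p1 : 0 ≤ (ball (0 : E4) (R₀ + 1)).indicator (fun _ => m) z :=
      indicator_nonneg (fun _ _ => by positivity) z
    have p2 : 0 ≤ e * ∫ y in ball z (3 * r), den r⁻¹ g y := by positivity
    rcases le_total (θ * (N + 1)) (K * ∫ y in ball z (3 * r), den r⁻¹ g y) with hb | hb
    · refine (hm z).trans (le_add_of_le_of_nonneg ?_ p1)
      rw [he, mul_assoc _ (K / _), div_mul_eq_mul_div K]
      exact le_mul_of_one_le_right (by positivity) ((one_le_div (by positivity)).2 hb)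
    refine le_add_of_nonneg_of_le p2 ?_
    by_cases hz : z ∈ ball (0 : E4) (R₀ + 1)
    · obtain ⟨f, hf1, hf2, hf3⟩ := hc r z hr (by linarith) g hg
      obtain ⟨t1, t2⟩ := hT f hf1 (ball z r) measurableSet_ball measure_ball_lt_top.ne
      have q1 := setIntegral_mono_on hf.integrableOn (t1.const_mul (ρ₁ * Real.exp L))
        measurableSet_ball fun y hy => by
          rw [hf2 y hy, mul_assoc, ← Real.exp_add, mul_comm ρ₁]
          exact mul_le_mul (Real.exp_le_exp.2 (by simp only [hg']; linarith [lL y])) (hW1 y).2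
            (hW1 y).1 (Real.exp_pos _).le
      have q2 : r ^ 4 * c ≤ c := mul_le_of_le_one_left c0.le (pow_le_one₀ hr.le (by linarith))
      have q3 : A * (1 + eN 2 f) ≤ A + δ / 2 + δ / 2 * N := by
        have := mul_le_mul_of_nonneg_left (hf3.trans hb) hA.le
        rw [← mul_assoc, show A * θ = δ / 2 by rw [hθ]; field_simp] at this
        linarith
      rw [integral_const_mul] at q1
      rw [vol z r hr] at t2
      rw [indicator_of_mem hz]
      calc _ ≤ ρ₁ * Real.exp L * ((c + 1) * Real.exp (A + δ / 2 + δ / 2 * N)) :=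
            q1.trans (mul_le_mul_of_nonneg_left (t2.trans (by gcongr)) (by positivity))
        _ = m := by rw [hm', Real.exp_add (A + δ / 2), Real.exp_add L]; ring
    · rw [setIntegral_eq_zero_of_forall_eq_zero fun y hy => ?_]
      · exact p1
      have q1 := norm_sub_norm_le z y
      rw [mem_ball', dist_eq_norm] at hy
      rw [mem_ball_zero_iff, not_lt] at hz
      rw [hW0 y (by linarith), mul_zero]
  obtain ⟨i1, a1⟩ := avg hf hr
  obtain ⟨i2, a2⟩ := avg (int_den r⁻¹ hg) (show 0 < 3 * r by positivity)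
  have i3 : Integrable ((ball (0 : E4) (R₀ + 1)).indicator fun _ => m) :=
    (integrable_indicator_iff measurableSet_ball).2 (integrableOn_const measure_ball_lt_top.ne)
  have q1 := integral_mono i1 ((i2.const_mul e).add i3) key
  rw [integral_add' (i2.const_mul e) i3, integral_const_mul, a1, a2,
    integral_indicator measurableSet_ball, setIntegral_const, vol _ (R₀ + 1) (by positivity),
    smul_eq_mul, ← hc', ← hV] at q1
  have q2 : ∫ y, den r⁻¹ g y ≤ 3 * C * (N + 1) := by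
    have b1 := mul_le_mul_of_nonneg_left l4 (show 0 ≤ r⁻¹ ^ 4 by positivity)
    have b2 := mul_le_mul_of_nonneg_left l3 (show 0 ≤ r⁻¹ ^ 2 by positivity)
    rw [← mul_assoc, mul_div_cancel₀ _ (by positivity)] at b1 b2
    linarith [integral_den_le r⁻¹ hg]
  have q3 : e * ((3 * r) ^ 4 * c * (3 * C * (N + 1))) = r ^ 4 * c * V / 2 := by
    rw [he]; field_simp; ring
  have q4 := mul_le_mul_of_nonneg_left (mul_le_mul_of_nonneg_left q2
    (show 0 ≤ (3 * r) ^ 4 * c by positivity)) (show 0 ≤ e by positivity)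
  have q5 : V ≤ r⁻¹ ^ 4 * K2 * Real.exp (L + δ / 2 * N) := by
    refine le_of_mul_le_mul_left ?_ (show 0 < r ^ 4 * c by positivity)
    have : r ^ 4 * c * (r⁻¹ ^ 4 * K2 * Real.exp (L + δ / 2 * N)) = 2 * ((R₀ + 1) ^ 4 * c * m) := by
      rw [hm', hK2]; field_simp
    linarith
  have q6 : K2 ≤ Real.exp (2 * K2 * Real.log r⁻¹) := by
    have := mul_le_mul_of_nonneg_left hlog (show 0 ≤ 2 * K2 by positivity)
    linarith [Real.add_one_le_exp (2 * K2 * Real.log r⁻¹)]
  have q7 : r⁻¹ ^ 4 = Real.exp (4 * Real.log r⁻¹) := by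
    rw [show (4 : ℝ) = (4 : ℕ) by norm_num, Real.exp_nat_mul, Real.exp_log (by positivity)]
  refine q5.trans ((mul_le_mul_of_nonneg_right (mul_le_mul_of_nonneg_left q6 (by positivity))
    (Real.exp_pos _).le).trans (le_of_eq ?_))
  rw [q7, ← Real.exp_add, ← Real.exp_add, hL]
  congr 1
  ring

end Pool.Agent.MP_417fa2_gt
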