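import Pool.Agent.MP_417fa2_gt.An.DO
import Pool.Agent.MP_417fa2_gt.An.Agm

/-! Transfer of Sobolev energies between a chart and the manifold. -/

open scoped Manifold ContDiff Topology
open MeasureTheory Set Filter

namespace Pool.Agent.MP_417fa2_gt

universe u

variable {M : Type u} [TopologicalSpace M] [ChartedSpace E4 M] [IsManifold (𝓡 4) ∞ M]
  [MeasurableSpace M] [T2Space M] [CompactSpace M] [BorelSpace M] (S : Setup M) (F : Frame M)

/-- From the manifold to a chart. -/
theorem T1 {x₀ : M} {K : Set M} (hK : IsClosed K) (hs : K ⊆ (chartAt E4 x₀).source) (k : ℕ) :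
    ∃ C : ℝ, 0 < C ∧ ∀ g, Smooth g → tsupport g ⊆ K → eN k (AgmM.ext x₀ g) ≤ C * F.N S.μ k g := by
  obtain ⟨C0, hC0, b0⟩ := AgmM.compare S hK hs
  obtain ⟨ψ, hψ, hψs, -, h1⟩ := exists_cutoff hK (isOpen_src x₀) hs
  induction k with
  | zero => exact ⟨C0, hC0, fun g hg h => (b0 g hg h 2 two_ne_zero even_two).1⟩
  | succ k ih =>
    obtain ⟨C, hC, b⟩ := ih
    choose C' hC' b' using fun i => ((vf_cd hψ hψs i).do1 (F := F)).bound S k
    have hs' : 0 ≤ ∑ i, C' i := Finset.sum_nonneg fun i _ => (hC' i).le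
    refine ⟨C0 + C * ∑ i, C' i, by positivity, fun g hg h => ?_⟩
    have hz : ∀ i x, x ∈ (chartAt E4 x₀).source → x ∉ tsupport g → cd x₀ i g x = 0 :=
      fun i x hx hx' => pd_eq_zero_off (isOpen_tgt x₀) (isCompact_chart_image
        (isClosed_tsupport g).isCompact (h.trans hs)).isClosed comp_param_eq_zero i _ (chart_mem hx)
        fun ⟨z, hz, e⟩ => hx' ((chartAt E4 x₀).injOn (hs (h hz)) hx e ▸ hz)
    have h2 : ∀ i, eN k (pd i (AgmM.ext x₀ g)) ≤ C * (C' i * F.N S.μ (k + 1) g) := fun i => by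
      rw [AgmM.pd_ext (h.trans hs), AgmM.ext_congr (ψ := fun x => ψ x * cd x₀ i g x)
        fun x hx => by
          by_cases hx' : x ∈ tsupport g
          · rw [(h1 x (h hx')).self_of_nhds, one_mul]
          · rw [hz i x hx hx', mul_zero]]
      refine (b _ ((vf_cd hψ hψs i).smooth hg) (closure_minimal (fun x hx => ?_) hK)).trans
        (mul_le_mul_of_nonneg_left (b' i g hg) hC.le)
      by_contra hx'
      by_cases hx'' : x ∈ (chartAt E4 x₀).source
      · exact hx (by simp [hz i x hx'' fun h' => hx' (h h')])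
      · exact hx (by simp [zero_of_notMem_src hψs hx''])
    have h3 := Finset.sum_le_sum fun i (_ : i ∈ Finset.univ) => h2 i
    rw [← Finset.mul_sum, ← Finset.sum_mul] at h3
    have h4 : eN 0 (AgmM.ext x₀ g) ≤ C0 * F.N S.μ (k + 1) g :=
      (b0 g hg h 2 two_ne_zero even_two).1.trans
        (mul_le_mul_of_nonneg_left (F.N_mono S.μ (Nat.zero_le _) g) hC0.le)
    rw [eN_succ]
    linarith

/-- From the manifold to a chart, after multiplication with a cut-off function. -/
theorem T1' {x₀ : M} {ψ : M → ℝ} (hψ : Smooth ψ) (hs : tsupport ψ ⊆ (chartAt E4 x₀).source)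
    (k : ℕ) : ∃ C : ℝ, 0 < C ∧ ∀ f, Smooth f →
      eN k (AgmM.ext x₀ fun x => ψ x * f x) ≤ C * F.N S.μ k f := by
  obtain ⟨C, hC, b⟩ := T1 S F (isClosed_tsupport ψ) hs k
  obtain ⟨C', hC', b'⟩ := F.N_mul_le S k hψ
  exact ⟨C * C', by positivity, fun f hf => (b _ (hψ.mul hf) (AgmM.tsupport_mul f)).trans
    (by rw [mul_assoc]; exact mul_le_mul_of_nonneg_left (b' f hf) hC.le)⟩

theorem Frame.N_sum_le {ι : Type*} (s : Finset ι) (k : ℕ) {G : ι → M → ℝ} (hG : ∀ i, Smooth (G i)) :
    F.N S.μ k (fun x => ∑ i ∈ s, G i x) ≤ 2 ^ s.card * ∑ i ∈ s, F.N S.μ k (G i) := by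
  classical
  induction s using Finset.induction_on with
  | empty => simp [F.N_zero_fun]
  | insert a s ha ih =>
    simp only [Finset.sum_insert ha, Finset.card_insert_of_notMem ha, pow_succ]
    refine (F.N_add_le S k (hG a) (Smooth.sum fun i _ => hG i)).trans ?_
    have h1 : (1 : ℝ) ≤ 2 ^ s.card := one_le_pow₀ one_le_two
    nlinarith [F.N_nonneg S.μ k (G a)]

/-- From a chart to the manifold. -/
theorem T2 (x₀ : M) (k : ℕ) {ψ : M → ℝ} (hψ : Smooth ψ)
    (hs : tsupport ψ ⊆ (chartAt E4 x₀).source) : ∃ C : ℝ, 0 < C ∧ ∀ b, Tst b →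
      F.N S.μ k (fun x => ψ x * b (chartAt E4 x₀ x)) ≤ C * eN k b := by
  have h0 : ∀ {ψ : M → ℝ}, Smooth ψ → tsupport ψ ⊆ (chartAt E4 x₀).source → ∃ C : ℝ, 0 < C ∧
      ∀ b, Tst b → F.N S.μ 0 (fun x => ψ x * b (chartAt E4 x₀ x)) ≤ C * eN 0 b := by
    intro ψ hψ hs
    obtain ⟨C0, hC0, b0⟩ := AgmM.compare S (isClosed_tsupport ψ) hs
    obtain ⟨C, hC, h⟩ := exists_sq_le hψ.continuous
    refine ⟨C0 * C, by positivity, fun b hb => ?_⟩
    have hsm := smooth_mul_chart hψ hs hb.sm.contDiffOn
    refine (b0 _ hsm (AgmM.tsupport_mul _) 2 two_ne_zero even_two).2.trans ?_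
    rw [mul_assoc, eN_zero, ← integral_const_mul C]
    refine mul_le_mul_of_nonneg_left (integral_mono
      (AgmM.tst_ext hsm ((AgmM.tsupport_mul _).trans hs)).integrable_sq
      (hb.integrable_sq.const_mul C) fun y => ?_) hC0.le
    by_cases hy : y ∈ (chartAt E4 x₀).target
    · simp only [AgmM.ext, indicator_of_mem hy, Function.comp, chart_param hy, mul_pow]
      exact mul_le_mul_of_nonneg_right (h _) (sq_nonneg _)
    · simp only [AgmM.ext, indicator_of_notMem hy]
      simpa using mul_nonneg hC.le (sq_nonneg (b y))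
  induction k generalizing ψ with
  | zero => exact h0 hψ hs
  | succ k ih =>
    obtain ⟨C0, hC0, b0⟩ := h0 hψ hs
    choose v hv e using fun j => F.vf_X j x₀
    have hX : ∀ j, tsupport (F.X j ψ) ⊆ tsupport ψ := fun j =>
      closure_minimal (fun x hx => by
        by_contra hx'
        by_cases h : x ∈ (chartAt E4 (F.c j.1)).source
        · exact hx (by
            rw [Frame.X, cd, pd_eq_zero_of_eventually (f := ψ ∘ param (F.c j.1)) (mem_of_superset
              (((continuousOn_param _).isOpen_inter_preimage (isOpen_tgt _)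
                (isClosed_tsupport ψ).isOpen_compl).mem_nhds
                ⟨chart_mem h, by simpa [param_chart h] using hx'⟩)
              fun z hz => image_eq_zero_of_notMem_tsupport (f := ψ) hz.2), mul_zero])
        · exact hx (by simp [Frame.X, zero_of_notMem_src (F.supp j.1) h])) (isClosed_tsupport ψ)
    choose C1 hC1 b1 using fun j => ih (F.X_smooth j hψ) ((hX j).trans hs)
    choose C2 hC2 b2 using fun j r => ih (smooth_mul_chart hψ hs (hv j r))
      ((AgmM.tsupport_mul _).trans hs)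
    have p1 : ∀ j, 0 ≤ 2 * C1 j + 2 * (2 ^ 4 * ∑ r, C2 j r) := fun j => by
      have := Finset.sum_nonneg fun r (_ : r ∈ Finset.univ) => (hC2 j r).le
      have := hC1 j
      positivity
    have p2 := Finset.sum_nonneg fun j (_ : j ∈ Finset.univ) => p1 j
    refine ⟨C0 + ∑ j, (2 * C1 j + 2 * (2 ^ 4 * ∑ r, C2 j r)), by positivity, fun b hb => ?_⟩
    have hsm := smooth_mul_chart hψ hs hb.sm.contDiffOn
    have key : ∀ j, F.X j (fun x => ψ x * b (chartAt E4 x₀ x)) = fun x =>
        F.X j ψ x * b (chartAt E4 x₀ x) +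
          ∑ r, ψ x * v j r (chartAt E4 x₀ x) * pd r b (chartAt E4 x₀ x) := by
      intro j
      funext x
      by_cases hx : x ∈ (chartAt E4 x₀).source
      · have hy := chart_mem hx
        have e1 := e j _ hsm _ hy
        have e2 := e j _ hψ _ hy
        rw [param_chart hx] at e1 e2
        rw [e1, e2, Finset.sum_mul, ← Finset.sum_add_distrib]
        refine Finset.sum_congr rfl fun r _ => ?_
        rw [pd_congr_on (isOpen_tgt x₀) (g := fun y => (ψ ∘ param x₀) y * b y)
          (fun z hz => by simp [chart_param hz]) r hy, pd_mul (hψ.dAt hy) (hb.dAt _)]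
        simp only [Function.comp, param_chart hx]
        ring
      · have e1 : F.X j ψ x = 0 := zero_of_notMem_src ((hX j).trans hs) hx
        have e2 : F.X j (fun x => ψ x * b (chartAt E4 x₀ x)) x = 0 := by
          by_cases h : x ∈ (chartAt E4 (F.c j.1)).source
          · rw [Frame.X, cd, pd_eq_zero_of_eventually (mem_of_superset
              (((continuousOn_param _).isOpen_inter_preimage (isOpen_tgt _)
                (isClosed_tsupport ψ).isOpen_compl).mem_nhds
                ⟨chart_mem h, by simpa [param_chart h] using fun h' => hx (hs h')⟩)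
              fun z hz => by simp [image_eq_zero_of_notMem_tsupport (f := ψ) hz.2]), mul_zero]
          · simp [Frame.X, zero_of_notMem_src (F.supp j.1) h]
        simp [e1, e2, zero_of_notMem_src hs hx]
    have h2 : ∀ j, F.N S.μ k (F.X j fun x => ψ x * b (chartAt E4 x₀ x)) ≤
        (2 * C1 j + 2 * (2 ^ 4 * ∑ r, C2 j r)) * eN (k + 1) b := fun j => by
      have sm : ∀ r, Smooth fun x => ψ x * v j r (chartAt E4 x₀ x) * pd r b (chartAt E4 x₀ x) :=
        fun r => smooth_mul_chart (smooth_mul_chart hψ hs (hv j r))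
          ((AgmM.tsupport_mul _).trans hs) (hb.pd r).sm.contDiffOn
      rw [key j]
      refine (F.N_add_le S k (smooth_mul_chart (F.X_smooth j hψ) ((hX j).trans hs)
        hb.sm.contDiffOn) (Smooth.sum fun r _ => sm r)).trans ?_
      have h3 := F.N_sum_le S Finset.univ k sm
      have h4 := Finset.sum_le_sum fun r (_ : r ∈ Finset.univ) => (b2 j r _ (hb.pd r)).trans
        (mul_le_mul_of_nonneg_left (eN_pd_le k b r) (hC2 j r).le)
      have h5 := (b1 j b hb).trans (mul_le_mul_of_nonneg_left (eN_le_succ k b) (hC1 j).le)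
      rw [← Finset.sum_mul] at h4
      simp only [Finset.card_univ, Fintype.card_fin] at h3
      linarith
    have h3 := Finset.sum_le_sum fun j (_ : j ∈ Finset.univ) => h2 j
    rw [← Finset.sum_mul] at h3
    have h4 := (b0 b hb).trans (mul_le_mul_of_nonneg_left (eN_mono (Nat.zero_le (k + 1)) b) hC0.le)
    rw [F.N_succ]
    linarith

end Pool.Agent.MP_417fa2_gt
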